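import Pool.Agent.Lib.MP_ff4e96_co.NFdef

section

/-!
# MP_ff4e96_co: lower bound for `N`

`NN_lower`: with `θ' = -b - θ`, `w = y - θ x`, `σ = -(n₁ + n₂ θ)/(θ - θ')`:
`N = (w - σ) (x (θ - θ') + (w - σ) + 2 σ + n₂) + σ² + n₂ σ + n₃`. If `|w| ≤ ε x`, `ε ≤ |θ - θ'|/4` and `x` is large then the
second factor is at least `|θ - θ'| x / 2` in absolute value.
-/

namespace Pool.Agent.Lib.MP_ff4e96_co

open Filter Topology

theorem NN_lower {θ : ℝ} (hθ : Irrational θ) {b a : ℚ} (hg : θ ^ 2 + b * θ + a = 0)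
    (n₁ n₂ n₃ : ℚ) : ∃ ε₀ c₁ C₁ σ : ℝ, 0 < ε₀ ∧ 0 < c₁ ∧ ∃ X₁ : ℤ, 1 ≤ X₁ ∧ ∀ P ∈ Near θ ε₀ X₁,
      c₁ * P.1 * |(P.2 : ℝ) - θ * P.1 - σ| ≤ |NN b a n₁ n₂ n₃ P.1 P.2| + C₁ := by
  set δ : ℝ := 2 * θ + b with hδ
  have hδ0 : δ ≠ 0 := by
    intro h
    apply hθ
    refine ⟨-b / 2, ?_⟩
    push_cast
    linarith
  have hδp : 0 < |δ| := abs_pos.2 hδ0
  set σ : ℝ := -((n₁ : ℝ) + n₂ * θ) / δ with hσ
  have hσδ : (n₁ : ℝ) + n₂ * θ = -(σ * δ) := by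
    rw [hσ, div_mul_cancel₀ _ hδ0]
    ring
  obtain ⟨X, hX⟩ := exists_nat_gt (4 * |σ + n₂| / |δ|)
  refine ⟨|δ| / 4, |δ| / 2, |σ ^ 2 + n₂ * σ + n₃|, σ, by positivity, by positivity, (X : ℤ) + 1,
    by omega, ?_⟩
  rintro ⟨x, y⟩ ⟨hx, hw⟩
  simp only at hx hw ⊢
  have hxr : (X : ℝ) + 1 ≤ (x : ℝ) := by exact_mod_cast hx
  have hx0 : (0 : ℝ) < (x : ℝ) := by
    have : (0 : ℝ) ≤ (X : ℝ) := Nat.cast_nonneg X
    linarith
  have hX' : 4 * |σ + n₂| ≤ |δ| * x := by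
    have h1 : 4 * |σ + n₂| < X * |δ| := (div_lt_iff₀ hδp).1 hX
    nlinarith
  set v : ℝ := (y : ℝ) - θ * x - σ with hv
  have hN : NN b a n₁ n₂ n₃ x y = v * (δ * x + (v + σ) + (σ + n₂)) + (σ ^ 2 + n₂ * σ + n₃) := by
    have hy : (y : ℝ) = v + σ + θ * x := by rw [hv]; ring
    unfold NN
    rw [hy]
    have ha : (a : ℝ) = -(θ ^ 2 + b * θ) := by linarith
    have hn : (n₁ : ℝ) = -(σ * δ) - n₂ * θ := by linarith
    rw [ha, hn, hδ]
    ring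
  have hfac : |δ| / 2 * x ≤ |δ * x + (v + σ) + (σ + n₂)| := by
    have h1 : |δ * x| = |δ| * x := by rw [abs_mul, abs_of_pos hx0]
    have h2 : |v + σ| ≤ |δ| / 4 * x := by
      have : v + σ = (y : ℝ) - θ * x := by rw [hv]; ring
      rw [this]
      exact hw
    have h3 : |δ * x| ≤ |δ * x + (v + σ) + (σ + n₂)| + |v + σ| + |σ + n₂| := by
      have h4 : δ * x = (δ * x + (v + σ) + (σ + n₂)) + (-(v + σ)) + (-(σ + n₂)) := by ring
      calc |δ * x| = |(δ * x + (v + σ) + (σ + n₂)) + (-(v + σ)) + (-(σ + n₂))| := by rw [← h4]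
        _ ≤ |(δ * x + (v + σ) + (σ + n₂))| + |(-(v + σ))| + |(-(σ + n₂))| := abs_add_three _ _ _
        _ = _ := by rw [abs_neg, abs_neg]
    rw [h1] at h3
    linarith
  have h5 : |v| * |δ * x + (v + σ) + (σ + n₂)| ≤
      |NN b a n₁ n₂ n₃ x y| + |σ ^ 2 + n₂ * σ + n₃| := by
    rw [← abs_mul]
    have h6 : v * (δ * x + (v + σ) + (σ + n₂)) =
        NN b a n₁ n₂ n₃ x y - (σ ^ 2 + n₂ * σ + n₃) := by rw [hN]; ring
    rw [h6]
    exact abs_sub _ _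
  calc |δ| / 2 * x * |v| = |v| * (|δ| / 2 * x) := by ring
    _ ≤ |v| * |δ * x + (v + σ) + (σ + n₂)| := mul_le_mul_of_nonneg_left hfac (abs_nonneg _)
    _ ≤ _ := h5

end Pool.Agent.Lib.MP_ff4e96_co
end

section

section

/-!
# MP_ff4e96_co: many lattice points with the same value of `N`

`N = y² + b x y + a x² + n₁ x + n₂ y + n₃` with rational coefficients, `θ` irrational, `θ² + b θ + a = 0`,
`θ' = -b - θ`. `b² - 4 a = (θ - θ')² > 0` is not a rational square. There is a rational center `P_c = (x_c, y_c)` with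
`N(P) = g(P - P_c) + const` (solve `b y_c + 2 a x_c = -n₁`, `2 y_c + b x_c = -n₂`).
Let `A ≥ 1` be an integer with `A b`, `A a` integers (`A' = A`, `B' = A b`, `C' = A a`, so
`A g = A' y² + B' x y + C' x²`), `Δ = B'² - 4 A' C'`, a positive integer, not a square.
For `T, U` integers with `T² - Δ U² = 1` the matrix
`x' = (T + B' U) x + 2 A' U y`, `y' = -2 C' U x + (T - B' U) y` preserves `g`, has determinant 1, and with
`u = y - θ x`, `v = y - θ' x`: `u' = (T - √Δ U) u`, `v' = (T + √Δ U) v` (up to the sign of `√Δ = A (θ - θ')`; if `θ < θ'`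
replace `U` by `-U`).
Let `D ≥ 1` be an integer with `D x_c`, `D y_c` integers. Pell (`Pell.exists_of_not_isSquare` for `Δ D²`)
gives `T₁² - Δ (D U₁)² = 1`, `U₁ ≠ 0`; `T = T₁² + Δ D² U₁²`, `U = 2 T₁ D U₁` satisfies `T² - Δ U² = 1`, `U ≡ 0`,
`T ≡ 1` modulo `D`, so `M ≡ 1` modulo `D` and `P ↦ P_c + M (P - P_c)` maps `ℤ²` to itself and preserves `N`. The
factor `E = T + √Δ |U| > 1`. For `P` with `x` large and `|y - θ x| ≤ ε x`, `ε ≤ |θ - θ'|/4`, the number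
`v(P - P_c)/(θ - θ')` is positive (`v - u = (θ - θ') x`), so `x(M^k (P - P_c)) = (v E^k - u E^-k)/(θ - θ') → ∞` and
`u → 0`: the points are in `Near θ ε X'` for `k` large.
-/

namespace Pool.Agent.Lib.MP_ff4e96_co

open Filter Topology

/-- the discriminant of an irrational quadratic number is not a rational square -/
theorem disc_not_sq {θ : ℝ} (hθ : Irrational θ) {b a : ℚ} (hg : θ ^ 2 + b * θ + a = 0) :
    ∀ r : ℚ, b ^ 2 - 4 * a ≠ r ^ 2 := by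
  intro r hr
  have h1 : (2 * θ + b) ^ 2 = (r : ℝ) ^ 2 := by
    have h2 : ((b : ℝ) ^ 2 - 4 * a) = (r : ℝ) ^ 2 := by exact_mod_cast hr
    nlinarith [hg, h2]
  rcases sq_eq_sq_iff_eq_or_eq_neg.1 h1 with h | h
  · apply hθ
    refine ⟨(r - b) / 2, ?_⟩
    push_cast
    linarith
  · apply hθ
    refine ⟨(-r - b) / 2, ?_⟩
    push_cast
    linarith

/-- integers with `T² - Δ U² = 1`, `U ≡ 0`, `T ≡ 1` modulo `D`, and a given sign of `U` -/
theorem pell_TU (Δ D : ℤ) (hΔ : 0 < Δ) (hsq : ¬ IsSquare Δ) (hD : 0 < D) (s : ℝ) (hs : s ≠ 0) :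
    ∃ t u : ℤ, (1 + D * t) ^ 2 - Δ * (D * u) ^ 2 = 1 ∧ 1 ≤ 1 + D * t ∧ 0 < (u : ℝ) * s := by
  have hΔD : 0 < Δ * D ^ 2 := by positivity
  have hnsq : ¬ IsSquare (Δ * D ^ 2) := by
    rintro ⟨r, hr⟩
    apply hsq
    have hdvd : D ∣ r := by
      have : D ^ 2 ∣ r ^ 2 := ⟨Δ, by rw [sq r, ← hr]; ring⟩
      exact (Int.pow_dvd_pow_iff two_ne_zero).1 this
    obtain ⟨k, hk⟩ := hdvd
    refine ⟨k, ?_⟩
    have h1 : D ^ 2 * Δ = D ^ 2 * (k * k) := by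
      rw [mul_comm, hr, hk]; ring
    exact mul_left_cancel₀ (by positivity) h1
  obtain ⟨T, U, hTU, hU⟩ := Pell.exists_of_not_isSquare hΔD hnsq
  have hT : T ≠ 0 := by
    rintro rfl
    have : 0 ≤ Δ * D ^ 2 * U ^ 2 := by positivity
    nlinarith
  have key : ∀ e : ℤ, e ^ 2 = 1 → (1 + D * (2 * Δ * D * U ^ 2)) ^ 2 - Δ * (D * (e * (2 * T * U))) ^ 2 = 1 := by
    intro e he
    have h1 : T ^ 2 = 1 + Δ * D ^ 2 * U ^ 2 := by linarith
    have h2 : (D * (e * (2 * T * U))) ^ 2 = 4 * D ^ 2 * U ^ 2 * (e ^ 2 * T ^ 2) := by ring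
    rw [h2, he, h1]
    ring
  have hTU0 : (2 * T * U : ℤ) ≠ 0 := by
    simp [hT, hU]
  have hge : 1 ≤ 1 + D * (2 * Δ * D * U ^ 2) := by
    have : 0 ≤ D * (2 * Δ * D * U ^ 2) := by positivity
    linarith
  have hne : ((2 * T * U : ℤ) : ℝ) * s ≠ 0 := mul_ne_zero (by exact_mod_cast hTU0) hs
  rcases lt_or_gt_of_ne hne with h | h
  · refine ⟨2 * Δ * D * U ^ 2, (-1) * (2 * T * U), key (-1) (by norm_num), hge, ?_⟩
    push_cast at h ⊢
    linarith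
  · refine ⟨2 * Δ * D * U ^ 2, 1 * (2 * T * U), key 1 (by norm_num), hge, ?_⟩
    push_cast at h ⊢
    linarith

/-- an affine automorphism of `ℤ²` which preserves `N` -/
theorem pell_map {θ : ℝ} (hθ : Irrational θ) {b a : ℚ} (hg : θ ^ 2 + b * θ + a = 0)
    (n₁ n₂ n₃ : ℚ) : ∃ (f : ℤ × ℤ → ℤ × ℤ) (xc yc E : ℝ), 1 < E ∧
      (∀ P : ℤ × ℤ, NN b a n₁ n₂ n₃ (f P).1 (f P).2 = NN b a n₁ n₂ n₃ P.1 P.2) ∧
      (∀ P : ℤ × ℤ, (((f P).2 : ℝ) - yc) - θ * (((f P).1 : ℝ) - xc) =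
        E⁻¹ * (((P.2 : ℝ) - yc) - θ * ((P.1 : ℝ) - xc))) ∧
      (∀ P : ℤ × ℤ, (((f P).2 : ℝ) - yc) - (-b - θ) * (((f P).1 : ℝ) - xc) =
        E * (((P.2 : ℝ) - yc) - (-b - θ) * ((P.1 : ℝ) - xc))) := by
  have hdisc := disc_not_sq hθ hg
  have hd0 : b ^ 2 - 4 * a ≠ 0 := by
    intro h
    exact hdisc 0 (by rw [h]; ring)
  have hgs : (2 * θ + b) ^ 2 = ((b ^ 2 - 4 * a : ℚ) : ℝ) := by
    push_cast
    nlinarith [hg]
  have hd0R : ((b ^ 2 - 4 * a : ℚ) : ℝ) ≠ 0 := by exact_mod_cast hd0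
  have hs0 : 2 * θ + b ≠ 0 := by
    intro h
    rw [h] at hgs
    apply hd0R
    rw [← hgs]; ring
  have hdpos : (0 : ℚ) < b ^ 2 - 4 * a := by
    have : (0 : ℝ) < ((b ^ 2 - 4 * a : ℚ) : ℝ) := by
      rw [← hgs]; positivity
    exact_mod_cast this
  -- common denominator
  obtain ⟨A, B, C, hA, hB, hC⟩ : ∃ A B C : ℤ, 0 < A ∧ (B : ℚ) = A * b ∧ (C : ℚ) = A * a := by
    refine ⟨(b.den : ℤ) * a.den, b.num * a.den, a.num * b.den, ?_, ?_, ?_⟩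
    · have := b.den_pos; have := a.den_pos; positivity
    · have h := Rat.num_div_den b
      have hb : (b.den : ℚ) ≠ 0 := by exact_mod_cast b.den_nz
      push_cast
      nth_rewrite 3 [← h]
      field_simp
    · have h := Rat.num_div_den a
      have ha : (a.den : ℚ) ≠ 0 := by exact_mod_cast a.den_nz
      push_cast
      nth_rewrite 3 [← h]
      field_simp
  have hAq : (0 : ℚ) < A := by exact_mod_cast hA
  have hΔq : ((B ^ 2 - 4 * A * C : ℤ) : ℚ) = A ^ 2 * (b ^ 2 - 4 * a) := by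
    push_cast
    rw [hB, hC]; ring
  have hΔ : 0 < B ^ 2 - 4 * A * C := by
    have : (0 : ℚ) < ((B ^ 2 - 4 * A * C : ℤ) : ℚ) := by
      rw [hΔq]; positivity
    exact_mod_cast this
  have hnsq : ¬ IsSquare (B ^ 2 - 4 * A * C) := by
    rintro ⟨r, hr⟩
    apply hdisc ((r : ℚ) / A)
    have h1 : ((B ^ 2 - 4 * A * C : ℤ) : ℚ) = (r : ℚ) * r := by rw [hr]; push_cast; ring
    rw [hΔq] at h1
    rw [div_pow, eq_div_iff (by positivity)]
    linarith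
  -- center
  obtain ⟨xq, yq, h1, h2⟩ : ∃ xq yq : ℚ, b * yq + 2 * a * xq = -n₁ ∧ 2 * yq + b * xq = -n₂ := by
    refine ⟨(2 * n₁ - b * n₂) / (b ^ 2 - 4 * a), (-n₂ - b * ((2 * n₁ - b * n₂) / (b ^ 2 - 4 * a))) / 2, ?_, ?_⟩
    · field_simp
      ring
    · ring
  obtain ⟨D, Xc, Yc, hD, hX, hY⟩ : ∃ D Xc Yc : ℤ, 0 < D ∧ (Xc : ℚ) = D * xq ∧ (Yc : ℚ) = D * yq := by
    refine ⟨(xq.den : ℤ) * yq.den, xq.num * yq.den, yq.num * xq.den, ?_, ?_, ?_⟩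
    · have := xq.den_pos; have := yq.den_pos; positivity
    · have h := Rat.num_div_den xq
      have hb : (xq.den : ℚ) ≠ 0 := by exact_mod_cast xq.den_nz
      push_cast
      nth_rewrite 3 [← h]
      field_simp
    · have h := Rat.num_div_den yq
      have ha : (yq.den : ℚ) ≠ 0 := by exact_mod_cast yq.den_nz
      push_cast
      nth_rewrite 3 [← h]
      field_simp
  obtain ⟨t, u, htu, hT1, hus⟩ := pell_TU (B ^ 2 - 4 * A * C) D hΔ hnsq hD (2 * θ + b) hs0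
  -- real versions
  have hBr : (B : ℝ) = A * b := by exact_mod_cast hB
  have hCr : (C : ℝ) = A * a := by exact_mod_cast hC
  have hXr : (Xc : ℝ) = D * xq := by exact_mod_cast hX
  have hYr : (Yc : ℝ) = D * yq := by exact_mod_cast hY
  have h1r : (b : ℝ) * yq + 2 * a * xq = -n₁ := by exact_mod_cast h1
  have h2r : 2 * (yq : ℝ) + b * xq = -n₂ := by exact_mod_cast h2
  have hAr : (0 : ℝ) < A := by exact_mod_cast hA
  have hDr : (0 : ℝ) < D := by exact_mod_cast hD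
  have htur : (1 + (D : ℝ) * t) ^ 2 - (A * (2 * θ + b)) ^ 2 * (D * u) ^ 2 = 1 := by
    have h3 : (1 + (D : ℝ) * t) ^ 2 - ((B : ℝ) ^ 2 - 4 * A * C) * (D * u) ^ 2 = 1 := by
      exact_mod_cast htu
    have h4 : (A * (2 * θ + b)) ^ 2 = (B : ℝ) ^ 2 - 4 * A * C := by
      rw [hBr, hCr, mul_pow, hgs]; push_cast; ring
    rw [h4]; exact h3
  set T : ℝ := 1 + (D : ℝ) * t with hTdef
  set W : ℝ := A * (2 * θ + b) * (D * u) with hWdef
  have hT1r : 1 ≤ T := by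
    have : ((1 : ℤ) : ℝ) ≤ ((1 + D * t : ℤ) : ℝ) := by exact_mod_cast hT1
    push_cast at this
    exact this
  have hW : 0 < W := by
    have : W = A * D * (u * (2 * θ + b)) := by rw [hWdef]; ring
    rw [this]; positivity
  have hTW : (T + W) * (T - W) = 1 := by
    rw [hWdef]; nlinarith [htur]
  have hEinv : (T + W)⁻¹ = T - W := inv_eq_of_mul_eq_one_right hTW
  have hE0 : T + W ≠ 0 := by positivity
  have hN : ∀ x y : ℝ, NN b a n₁ n₂ n₃ x y =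
      ((y - yq) - θ * (x - xq)) * ((y - yq) - (-b - θ) * (x - xq)) +
        (n₃ - (yq ^ 2 + b * xq * yq + a * xq ^ 2)) := by
    intro x y
    unfold NN
    linear_combination x * h1r + y * h2r + (x - xq) ^ 2 * hg
  have hu : ∀ P : ℤ × ℤ,
      ((P.2 + (-2 * C * u) * (D * P.1 - Xc) + (t - B * u) * (D * P.2 - Yc) : ℤ) : ℝ) - yq -
        θ * (((P.1 + (t + B * u) * (D * P.1 - Xc) + 2 * A * u * (D * P.2 - Yc) : ℤ) : ℝ) - xq) =
      (T + W)⁻¹ * (((P.2 : ℝ) - yq) - θ * ((P.1 : ℝ) - xq)) := by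
    intro P
    rw [hEinv]
    push_cast
    rw [hXr, hYr, hBr, hCr, hTdef, hWdef]
    linear_combination (-2 * A * D * u * ((P.1 : ℝ) - xq)) * hg
  have hv : ∀ P : ℤ × ℤ,
      ((P.2 + (-2 * C * u) * (D * P.1 - Xc) + (t - B * u) * (D * P.2 - Yc) : ℤ) : ℝ) - yq -
        (-b - θ) * (((P.1 + (t + B * u) * (D * P.1 - Xc) + 2 * A * u * (D * P.2 - Yc) : ℤ) : ℝ)
          - xq) =
      (T + W) * (((P.2 : ℝ) - yq) - (-b - θ) * ((P.1 : ℝ) - xq)) := by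
    intro P
    push_cast
    rw [hXr, hYr, hBr, hCr, hTdef, hWdef]
    linear_combination (-2 * A * D * u * ((P.1 : ℝ) - xq)) * hg
  refine ⟨fun P => (P.1 + (t + B * u) * (D * P.1 - Xc) + 2 * A * u * (D * P.2 - Yc),
    P.2 + (-2 * C * u) * (D * P.1 - Xc) + (t - B * u) * (D * P.2 - Yc)), xq, yq, T + W,
    by linarith, ?_, ?_, ?_⟩
  · intro P
    rw [hN, hN]
    simp only
    rw [hu P, hv P]
    field_simp
  · exact hu
  · exact hv

end Pool.Agent.Lib.MP_ff4e96_co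
end

section

/-!
# MP_ff4e96_co: many lattice points with the same value of `N`

Iterate `f` of `pell_map`. With `u = (y - yc) - θ (x - xc)`, `v = (y - yc) - θ' (x - xc)`, `θ' = -b - θ`:
`v - u = (θ - θ') (x - xc)`. `ε₀ = |θ - θ'|/4`. For `P` with `x` large and `|y - θ x| ≤ ε x` we have `|u| ≤ ε x + C`, so
`v/(θ - θ') > 0`, and `x(f^k P) - xc = (v E^k - u E^-k)/(θ - θ') → ∞`, `u(f^k P) → 0`, so `y - θ x` stays bounded and the
points are in `Near θ ε X` for `k` large.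
-/

namespace Pool.Agent.Lib.MP_ff4e96_co

open Filter Topology

theorem pell {θ : ℝ} (hθ : Irrational θ) {b a : ℚ} (hg : θ ^ 2 + b * θ + a = 0)
    (n₁ n₂ n₃ : ℚ) : ∃ ε₀ : ℝ, 0 < ε₀ ∧ ∀ ε : ℝ, 0 < ε → ε ≤ ε₀ → ∃ X₁ : ℤ,
      ∀ P ∈ Near θ ε X₁, ∀ X : ℤ, ∃ P' ∈ Near θ ε X,
        NN b a n₁ n₂ n₃ P'.1 P'.2 = NN b a n₁ n₂ n₃ P.1 P.2 := by
  obtain ⟨f, xc, yc, E, hE, hN, hu, hv⟩ := pell_map hθ hg n₁ n₂ n₃
  set ω : ℝ := 2 * θ + b with hω
  have hω0 : ω ≠ 0 := by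
    intro h0
    apply hθ
    refine ⟨-b / 2, ?_⟩
    push_cast
    linarith
  have hωp : 0 < |ω| := abs_pos.2 hω0
  set C : ℝ := |yc - θ * xc| with hC
  have hC0 : 0 ≤ C := abs_nonneg _
  set u : ℤ × ℤ → ℝ := fun P => ((P.2 : ℝ) - yc) - θ * ((P.1 : ℝ) - xc) with hudef
  set v : ℤ × ℤ → ℝ := fun P => ((P.2 : ℝ) - yc) - (-b - θ) * ((P.1 : ℝ) - xc) with hvdef
  have huv : ∀ P, v P - u P = ω * ((P.1 : ℝ) - xc) := by
    intro P
    simp only [hudef, hvdef, hω]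
    ring
  have hit : ∀ (k : ℕ) (P : ℤ × ℤ), u (f^[k] P) = E⁻¹ ^ k * u P ∧ v (f^[k] P) = E ^ k * v P ∧
      NN b a n₁ n₂ n₃ (f^[k] P).1 (f^[k] P).2 = NN b a n₁ n₂ n₃ P.1 P.2 := by
    intro k
    induction k with
    | zero => intro P; simp
    | succ k ih =>
      intro P
      rw [Function.iterate_succ_apply']
      obtain ⟨h1, h2, h3⟩ := ih P
      refine ⟨?_, ?_, ?_⟩
      · have := hu (f^[k] P)
        change u (f (f^[k] P)) = E⁻¹ * u (f^[k] P) at this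
        rw [this, h1, pow_succ]
        ring
      · have := hv (f^[k] P)
        change v (f (f^[k] P)) = E * v (f^[k] P) at this
        rw [this, h2, pow_succ]
        ring
      · rw [hN, h3]
  refine ⟨|ω| / 4, by positivity, ?_⟩
  intro ε hε hε4
  refine ⟨⌈2 * (|xc| + C / |ω|)⌉ + 1, ?_⟩
  intro P hP X
  obtain ⟨hPx, hPy⟩ := hP
  have hx1 : 2 * (|xc| + C / |ω|) + 1 ≤ (P.1 : ℝ) := by
    have h1 : ((⌈2 * (|xc| + C / |ω|)⌉ + 1 : ℤ) : ℝ) ≤ (P.1 : ℝ) := by exact_mod_cast hPx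
    push_cast at h1
    have h2 := Int.le_ceil (2 * (|xc| + C / |ω|))
    linarith
  have hCω : 0 ≤ C / |ω| := by positivity
  have hxc0 : 0 ≤ |xc| := abs_nonneg _
  have hx0 : 0 < (P.1 : ℝ) := by linarith
  have huP : |u P| ≤ ε * P.1 + C := by
    have h1 : u P = ((P.2 : ℝ) - θ * P.1) - (yc - θ * xc) := by
      simp only [hudef]
      ring
    rw [h1]
    exact (abs_sub _ _).trans (add_le_add hPy le_rfl)
  have hw : 0 < v P / ω := by
    have h1 : v P / ω = u P / ω + ((P.1 : ℝ) - xc) := by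
      have h2 := huv P
      have h3 : v P = u P + ω * ((P.1 : ℝ) - xc) := by linarith
      rw [h3]
      field_simp
    have h2 : |u P / ω| ≤ (P.1 : ℝ) / 4 + C / |ω| := by
      rw [abs_div, div_le_iff₀ hωp]
      have h3 : ε * (P.1 : ℝ) ≤ |ω| / 4 * P.1 := mul_le_mul_of_nonneg_right hε4 hx0.le
      have h4 : ((P.1 : ℝ) / 4 + C / |ω|) * |ω| = |ω| / 4 * P.1 + C := by
        field_simp
      rw [h4]
      linarith
    have h3 := neg_abs_le (u P / ω)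
    have h4 := le_abs_self xc
    rw [h1]
    linarith
  set w : ℝ := v P / ω with hwdef
  set R : ℝ := max (X : ℝ) ((|u P| + C) / ε) + |xc| + |u P| / |ω| with hR
  obtain ⟨k, hk⟩ : ∃ k : ℕ, R / w < E ^ k := pow_unbounded_of_one_lt _ hE
  obtain ⟨h1, h2, h3⟩ := hit k P
  have hEk : R < E ^ k * w := by rwa [div_lt_iff₀ hw] at hk
  have hEi : E⁻¹ ^ k ≤ 1 := pow_le_one₀ (by positivity) (inv_le_one_of_one_le₀ hE.le)
  have hEi0 : 0 ≤ E⁻¹ ^ k := by positivity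
  have huk : |u (f^[k] P)| ≤ |u P| := by
    rw [h1, abs_mul, abs_of_nonneg hEi0]
    nlinarith [abs_nonneg (u P)]
  have hxk : ((f^[k] P).1 : ℝ) = xc + E ^ k * w - u (f^[k] P) / ω := by
    have h4 := huv (f^[k] P)
    rw [h2] at h4
    have h5 : E ^ k * v P = E ^ k * w * ω := by
      rw [hwdef]
      field_simp
    rw [h5] at h4
    field_simp
    linarith
  have hxk2 : max (X : ℝ) ((|u P| + C) / ε) ≤ ((f^[k] P).1 : ℝ) := by
    have h4 : |u (f^[k] P) / ω| ≤ |u P| / |ω| := by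
      rw [abs_div]
      exact div_le_div_of_nonneg_right huk hωp.le
    have h5 := le_abs_self (u (f^[k] P) / ω)
    have h6 := neg_abs_le xc
    rw [hxk]
    linarith
  refine ⟨f^[k] P, ⟨?_, ?_⟩, h3⟩
  · have h4 : (X : ℝ) ≤ ((f^[k] P).1 : ℝ) := (le_max_left _ _).trans hxk2
    exact_mod_cast h4
  · have h4 : (|u P| + C) / ε ≤ ((f^[k] P).1 : ℝ) := (le_max_right _ _).trans hxk2
    rw [div_le_iff₀ hε] at h4
    have h5 : (((f^[k] P).2 : ℝ)) - θ * (f^[k] P).1 = u (f^[k] P) + (yc - θ * xc) := by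
      simp only [hudef]
      ring
    rw [h5]
    refine (abs_add_le _ _).trans ?_
    rw [← hC]
    linarith

end Pool.Agent.Lib.MP_ff4e96_co
end
end

section

section

/-!
# MP_ff4e96_co: counting lemma A

By `null_vals`. `F ≤ n` implies `0 ≤ y ≤ (n/c)^{1/3}` and `|x - p y| ≤ √(n/c)`. An interval of length `L` contains
at most `L + 1` integers, so there are at most `((n/c)^{1/3} + 1) (2 √(n/c) + 1)` such points, `o(n)`. (The finite
set `T`: a `Finset.biUnion` or `Finset.sigma` over `y ∈ Icc 0 ⌊(n/c)^{1/3}⌋` of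
`x ∈ Icc ⌈p y - √(n/c)⌉ ⌊p y + √(n/c)⌋`, `Int.card_Icc`.)
-/

namespace Pool.Agent.Lib.MP_ff4e96_co

open Filter Topology

private theorem countA_toNat {z : ℤ} {r : ℝ} (hz : (z : ℝ) ≤ r) (hr : 0 ≤ r) :
    ((z.toNat : ℕ) : ℝ) ≤ r := by
  rcases le_total 0 z with h | h
  · have h1 : ((z.toNat : ℕ) : ℤ) = z := Int.toNat_of_nonneg h
    have h2 : ((z.toNat : ℕ) : ℝ) = (z : ℝ) := by exact_mod_cast congrArg (Int.cast : ℤ → ℝ) h1
    rw [h2]
    exact hz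
  · rw [Int.toNat_eq_zero.2 h, Nat.cast_zero]
    exact hr

theorem null_A {F : ℤ × ℤ → ℝ} {S : Set (ℤ × ℤ)} (p : ℤ → ℝ) {c : ℝ} (hc : 0 < c)
    (h : ∀ P ∈ S, 0 ≤ P.2 ∧ c * (((P.1 : ℝ) - p P.2) ^ 2 + (P.2 : ℝ) ^ 3) ≤ F P) :
    Null (vals F S) := by
  classical
  apply null_vals
  intro ε hε
  have hu : Tendsto (fun n : ℕ => ((n : ℝ) / c) ^ (1 / 6 : ℝ)) atTop atTop :=
    (tendsto_rpow_atTop (by norm_num)).comp (tendsto_natCast_atTop_atTop.atTop_div_const hc)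
  filter_upwards [hu.eventually_ge_atTop (max 1 (6 / (ε * c)))] with n hn
  set u : ℝ := ((n : ℝ) / c) ^ (1 / 6 : ℝ) with hudef
  have hu1 : 1 ≤ u := (le_max_left _ _).trans hn
  have hu2 : 6 / (ε * c) ≤ u := (le_max_right _ _).trans hn
  have hu0 : 0 < u := lt_of_lt_of_le one_pos hu1
  have hnc : 0 ≤ (n : ℝ) / c := div_nonneg (Nat.cast_nonneg _) hc.le
  have hu6 : u ^ 6 = n / c := by
    rw [hudef, ← Real.rpow_natCast, ← Real.rpow_mul hnc]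
    norm_num
  have hn6 : (n : ℝ) = c * u ^ 6 := by
    rw [hu6]
    field_simp
  refine ⟨(Finset.Icc (0 : ℤ) ⌊u ^ 2⌋).biUnion fun y =>
    (Finset.Icc ⌈p y - u ^ 3⌉ ⌊p y + u ^ 3⌋).image fun x => (x, y), ?_, ?_⟩
  · rintro ⟨x, y⟩ hP hF
    obtain ⟨hy0, hle⟩ := h _ hP
    dsimp only at hy0 hle
    have h1 : ((x : ℝ) - p y) ^ 2 + (y : ℝ) ^ 3 ≤ u ^ 6 := by
      rw [hu6, le_div_iff₀ hc, mul_comm]
      exact hle.trans hF
    have hy0' : (0 : ℝ) ≤ y := by exact_mod_cast hy0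
    have h2 : (y : ℝ) ^ 3 ≤ (u ^ 2) ^ 3 := by
      have : 0 ≤ ((x : ℝ) - p y) ^ 2 := sq_nonneg _
      nlinarith
    have h3 : (y : ℝ) ≤ u ^ 2 := le_of_pow_le_pow_left₀ (by norm_num) (by positivity) h2
    have h4 : ((x : ℝ) - p y) ^ 2 ≤ (u ^ 3) ^ 2 := by
      have : 0 ≤ (y : ℝ) ^ 3 := by positivity
      nlinarith
    have h5 := abs_le_of_sq_le_sq' h4 (by positivity)
    rw [Finset.mem_biUnion]
    refine ⟨y, Finset.mem_Icc.2 ⟨hy0, Int.le_floor.2 h3⟩, ?_⟩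
    rw [Finset.mem_image]
    refine ⟨x, Finset.mem_Icc.2 ⟨Int.ceil_le.2 ?_, Int.le_floor.2 ?_⟩, rfl⟩
    · linarith [h5.1]
    · linarith [h5.2]
  · have h1 : (((Finset.Icc (0 : ℤ) ⌊u ^ 2⌋).biUnion fun y =>
        (Finset.Icc ⌈p y - u ^ 3⌉ ⌊p y + u ^ 3⌋).image fun x => (x, y)).card : ℝ) ≤
        ∑ y ∈ Finset.Icc (0 : ℤ) ⌊u ^ 2⌋, (2 * u ^ 3 + 1) := by
      refine le_trans (Nat.cast_le.2 Finset.card_biUnion_le) ?_
      rw [Nat.cast_sum]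
      refine Finset.sum_le_sum fun y _ => ?_
      refine le_trans (Nat.cast_le.2 Finset.card_image_le) ?_
      rw [Int.card_Icc]
      refine countA_toNat ?_ (by positivity)
      push_cast
      have h2 := Int.floor_le (p y + u ^ 3)
      have h3 := Int.le_ceil (p y - u ^ 3)
      linarith
    refine h1.trans ?_
    rw [Finset.sum_const, nsmul_eq_mul, Int.card_Icc]
    have h2 : (((⌊u ^ 2⌋ + 1 - 0 : ℤ).toNat : ℕ) : ℝ) ≤ u ^ 2 + 1 := by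
      refine countA_toNat ?_ (by positivity)
      push_cast
      have h2 := Int.floor_le (u ^ 2)
      linarith
    have h3 : u ^ 2 + 1 ≤ 2 * u ^ 2 := by nlinarith
    have h4 : 2 * u ^ 3 + 1 ≤ 3 * u ^ 3 := by
      have : 1 ≤ u ^ 3 := one_le_pow₀ hu1
      linarith
    have h5 : 6 ≤ ε * c * u := by
      rw [div_le_iff₀ (by positivity)] at hu2
      linarith
    calc (((⌊u ^ 2⌋ + 1 - 0 : ℤ).toNat : ℕ) : ℝ) * (2 * u ^ 3 + 1)
        ≤ (2 * u ^ 2) * (3 * u ^ 3) :=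
          mul_le_mul (h2.trans h3) h4 (by positivity) (by positivity)
      _ = 6 * u ^ 5 := by ring
      _ ≤ ε * c * u * u ^ 5 := mul_le_mul_of_nonneg_right h5 (by positivity)
      _ = ε * n := by
        rw [hn6]
        ring

end Pool.Agent.Lib.MP_ff4e96_co
end

section

/-!
# MP_ff4e96_co: counting lemma B

By `null_vals`. `F ≤ n` implies `1 ≤ y ≤ √(n/c)`, `|x - p y| ≤ √(n / (c y))`. For `y ≤ n^{1/4}` use `|x - p y| ≤ √(n/c)`:
at most `n^{1/4} (2 √(n/c) + 1)` points. For `y > n^{1/4}` use `|x - p y| ≤ √(n^{3/4} / c)`: at most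
`√(n/c) (2 √(n^{3/4}/c) + 1)` points. Together `O(n^{7/8})`. (An interval of length `L` contains at most `L + 1`
integers; the finite set `T`: a `Finset.biUnion` over `y` of intervals of `x`, `Int.card_Icc`.)
-/

namespace Pool.Agent.Lib.MP_ff4e96_co

open Filter Topology

private theorem countB_toNat {z : ℤ} {r : ℝ} (hz : (z : ℝ) ≤ r) (hr : 0 ≤ r) :
    ((z.toNat : ℕ) : ℝ) ≤ r := by
  rcases le_total 0 z with h | h
  · have h1 : ((z.toNat : ℕ) : ℤ) = z := Int.toNat_of_nonneg h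
    have h2 : ((z.toNat : ℕ) : ℝ) = (z : ℝ) := by exact_mod_cast congrArg (Int.cast : ℤ → ℝ) h1
    rw [h2]
    exact hz
  · rw [Int.toNat_eq_zero.2 h, Nat.cast_zero]
    exact hr

/-- the points with `1 ≤ y ≤ a`, `|x - p y| ≤ b`: at most `a (2 b + 1)` -/
private theorem countB_box (p : ℤ → ℝ) {a b : ℝ} (ha : 0 ≤ a) (hb : 0 ≤ b) :
    (((Finset.Icc (1 : ℤ) ⌊a⌋).biUnion fun y =>
      (Finset.Icc ⌈p y - b⌉ ⌊p y + b⌋).image fun x => (x, y)).card : ℝ) ≤ a * (2 * b + 1) := by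
  classical
  have h1 : (((Finset.Icc (1 : ℤ) ⌊a⌋).biUnion fun y =>
      (Finset.Icc ⌈p y - b⌉ ⌊p y + b⌋).image fun x => (x, y)).card : ℝ) ≤
      ∑ y ∈ Finset.Icc (1 : ℤ) ⌊a⌋, (2 * b + 1) := by
    refine le_trans (Nat.cast_le.2 Finset.card_biUnion_le) ?_
    rw [Nat.cast_sum]
    refine Finset.sum_le_sum fun y _ => ?_
    refine le_trans (Nat.cast_le.2 Finset.card_image_le) ?_
    rw [Int.card_Icc]
    refine countB_toNat ?_ (by positivity)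
    push_cast
    have h2 := Int.floor_le (p y + b)
    have h3 := Int.le_ceil (p y - b)
    linarith
  refine h1.trans ?_
  rw [Finset.sum_const, nsmul_eq_mul, Int.card_Icc]
  have h2 : (((⌊a⌋ + 1 - 1 : ℤ).toNat : ℕ) : ℝ) ≤ a := by
    refine countB_toNat ?_ ha
    push_cast
    have h2 := Int.floor_le a
    linarith
  exact mul_le_mul_of_nonneg_right h2 (by positivity)

theorem null_B {F : ℤ × ℤ → ℝ} {S : Set (ℤ × ℤ)} (p : ℤ → ℝ) {c : ℝ} (hc : 0 < c)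
    (h : ∀ P ∈ S, 1 ≤ P.2 ∧
      c * ((P.2 : ℝ) * ((P.1 : ℝ) - p P.2) ^ 2 + (P.2 : ℝ) ^ 2) ≤ F P) :
    Null (vals F S) := by
  classical
  apply null_vals
  intro ε hε
  have hu : Tendsto (fun n : ℕ => ((n : ℝ) / c) ^ (1 / 8 : ℝ)) atTop atTop :=
    (tendsto_rpow_atTop (by norm_num)).comp (tendsto_natCast_atTop_atTop.atTop_div_const hc)
  filter_upwards [hu.eventually_ge_atTop (max 1 (6 / (ε * c)))] with n hn
  set u : ℝ := ((n : ℝ) / c) ^ (1 / 8 : ℝ) with hudef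
  have hu1 : 1 ≤ u := (le_max_left _ _).trans hn
  have hu2 : 6 / (ε * c) ≤ u := (le_max_right _ _).trans hn
  have hu0 : 0 < u := lt_of_lt_of_le one_pos hu1
  have hnc : 0 ≤ (n : ℝ) / c := div_nonneg (Nat.cast_nonneg _) hc.le
  have hu8 : u ^ 8 = n / c := by
    rw [hudef, ← Real.rpow_natCast, ← Real.rpow_mul hnc]
    norm_num
  have hn8 : (n : ℝ) = c * u ^ 8 := by
    rw [hu8]
    field_simp
  refine ⟨((Finset.Icc (1 : ℤ) ⌊u ^ 2⌋).biUnion fun y =>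
      (Finset.Icc ⌈p y - u ^ 4⌉ ⌊p y + u ^ 4⌋).image fun x => (x, y)) ∪
    ((Finset.Icc (1 : ℤ) ⌊u ^ 4⌋).biUnion fun y =>
      (Finset.Icc ⌈p y - u ^ 3⌉ ⌊p y + u ^ 3⌋).image fun x => (x, y)), ?_, ?_⟩
  · rintro ⟨x, y⟩ hP hF
    obtain ⟨hy0, hle⟩ := h _ hP
    dsimp only at hy0 hle
    have h1 : (y : ℝ) * ((x : ℝ) - p y) ^ 2 + (y : ℝ) ^ 2 ≤ u ^ 8 := by
      rw [hu8, le_div_iff₀ hc, mul_comm]
      exact hle.trans hF
    have hy1 : (1 : ℝ) ≤ y := by exact_mod_cast hy0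
    have hsq : 0 ≤ ((x : ℝ) - p y) ^ 2 := sq_nonneg _
    rw [Finset.mem_union, Finset.mem_biUnion, Finset.mem_biUnion]
    by_cases hy : (y : ℝ) ≤ u ^ 2
    · left
      have h4 : ((x : ℝ) - p y) ^ 2 ≤ (u ^ 4) ^ 2 := by
        have h2 : ((x : ℝ) - p y) ^ 2 ≤ (y : ℝ) * ((x : ℝ) - p y) ^ 2 :=
          le_mul_of_one_le_left hsq hy1
        have h3 : 0 ≤ (y : ℝ) ^ 2 := sq_nonneg _
        have h5 : (u ^ 4) ^ 2 = u ^ 8 := by ring
        rw [h5]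
        linarith
      have h5 := abs_le_of_sq_le_sq' h4 (by positivity)
      refine ⟨y, Finset.mem_Icc.2 ⟨hy0, Int.le_floor.2 hy⟩, ?_⟩
      rw [Finset.mem_image]
      refine ⟨x, Finset.mem_Icc.2 ⟨Int.ceil_le.2 ?_, Int.le_floor.2 ?_⟩, rfl⟩
      · linarith [h5.1]
      · linarith [h5.2]
    · right
      rw [not_le] at hy
      have hy4 : (y : ℝ) ≤ u ^ 4 := by
        have h2 : (y : ℝ) ^ 2 ≤ (u ^ 4) ^ 2 := by
          have h3 : 0 ≤ (y : ℝ) * ((x : ℝ) - p y) ^ 2 := by positivity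
          have h5 : (u ^ 4) ^ 2 = u ^ 8 := by ring
          rw [h5]
          linarith
        exact le_of_pow_le_pow_left₀ (by norm_num) (by positivity) h2
      have h4 : ((x : ℝ) - p y) ^ 2 ≤ (u ^ 3) ^ 2 := by
        have h2 : u ^ 2 * ((x : ℝ) - p y) ^ 2 ≤ (y : ℝ) * ((x : ℝ) - p y) ^ 2 :=
          mul_le_mul_of_nonneg_right hy.le hsq
        have h3 : 0 ≤ (y : ℝ) ^ 2 := sq_nonneg _
        have h5 : u ^ 8 = u ^ 2 * (u ^ 3) ^ 2 := by ring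
        have h6 : u ^ 2 * ((x : ℝ) - p y) ^ 2 ≤ u ^ 2 * (u ^ 3) ^ 2 := by
          rw [← h5]
          linarith
        exact le_of_mul_le_mul_left h6 (by positivity)
      have h5 := abs_le_of_sq_le_sq' h4 (by positivity)
      refine ⟨y, Finset.mem_Icc.2 ⟨hy0, Int.le_floor.2 hy4⟩, ?_⟩
      rw [Finset.mem_image]
      refine ⟨x, Finset.mem_Icc.2 ⟨Int.ceil_le.2 ?_, Int.le_floor.2 ?_⟩, rfl⟩
      · linarith [h5.1]
      · linarith [h5.2]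
  · refine le_trans (Nat.cast_le.2 (Finset.card_union_le _ _)) ?_
    rw [Nat.cast_add]
    have hb1 := countB_box p (a := u ^ 2) (b := u ^ 4) (by positivity) (by positivity)
    have hb2 := countB_box p (a := u ^ 4) (b := u ^ 3) (by positivity) (by positivity)
    have h5 : 6 ≤ ε * c * u := by
      rw [div_le_iff₀ (by positivity)] at hu2
      linarith
    have h6 : u ^ 2 * (2 * u ^ 4 + 1) ≤ 3 * u ^ 7 := by
      have h1 : 1 ≤ u ^ 4 := one_le_pow₀ hu1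
      have h2 : u ^ 2 * (2 * u ^ 4 + 1) ≤ u ^ 2 * (3 * u ^ 4) :=
        mul_le_mul_of_nonneg_left (by linarith) (by positivity)
      have h3 : u ^ 6 * 1 ≤ u ^ 6 * u := mul_le_mul_of_nonneg_left hu1 (by positivity)
      nlinarith
    have h7 : u ^ 4 * (2 * u ^ 3 + 1) ≤ 3 * u ^ 7 := by
      have h1 : 1 ≤ u ^ 3 := one_le_pow₀ hu1
      have h2 : u ^ 4 * (2 * u ^ 3 + 1) ≤ u ^ 4 * (3 * u ^ 3) :=
        mul_le_mul_of_nonneg_left (by linarith) (by positivity)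
      have h3 : u ^ 4 * (3 * u ^ 3) = 3 * u ^ 7 := by ring
      linarith
    have h8 : 6 * u ^ 7 ≤ ε * n := by
      calc 6 * u ^ 7 ≤ ε * c * u * u ^ 7 := mul_le_mul_of_nonneg_right h5 (by positivity)
        _ = ε * n := by
          rw [hn8]
          ring
    linarith

end Pool.Agent.Lib.MP_ff4e96_co
end

section

/-!
# MP_ff4e96_co: counting lemmas C and D

By `null_vals`. `null_C`: `F ≤ n` implies `1 ≤ x ≤ (n/c)^{1/3}`, `|y - θ x| ≤ ε x`: at most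
`(n/c)^{1/3} (2 |ε| (n/c)^{1/3} + 1)` points. `null_D`: `0 ≤ y ≤ α x`: the same with `|α|`. (The finite set `T`: a `Finset.biUnion` over
`x` of intervals of `y`, `Int.card_Icc`, or simply a box.)
-/

namespace Pool.Agent.Lib.MP_ff4e96_co

open Filter Topology

/-- common form: `1 ≤ x`, `|y| ≤ K x`, `c x ^ 3 ≤ F` -/
private theorem null_CD_aux {F : ℤ × ℤ → ℝ} {S : Set (ℤ × ℤ)} (K : ℝ) (hK : 0 ≤ K) {c : ℝ}
    (hc : 0 < c)
    (h : ∀ P ∈ S, 1 ≤ P.1 ∧ |(P.2 : ℝ)| ≤ K * P.1 ∧ c * (P.1 : ℝ) ^ 3 ≤ F P) :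
    Null (vals F S) := by
  apply null_vals
  intro δ hδ
  have hlim : Tendsto (fun n : ℕ => ((n : ℝ) / c) ^ (1 / 3 : ℝ)) atTop atTop := by
    have h1 : Tendsto (fun n : ℕ => (n : ℝ) / c) atTop atTop :=
      tendsto_natCast_atTop_atTop.atTop_div_const hc
    exact (tendsto_rpow_atTop (by norm_num : (0 : ℝ) < 1 / 3)).comp h1
  filter_upwards [hlim.eventually_ge_atTop (max 1 ((2 * K + 1) / (δ * c)))] with n hn
  set r : ℝ := ((n : ℝ) / c) ^ (1 / 3 : ℝ) with hr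
  have hr1 : 1 ≤ r := le_trans (le_max_left _ _) hn
  have hr2 : (2 * K + 1) / (δ * c) ≤ r := le_trans (le_max_right _ _) hn
  have hr0 : 0 ≤ r := le_trans zero_le_one hr1
  have hnc : (0 : ℝ) ≤ (n : ℝ) / c := by positivity
  have hr3 : r ^ 3 = (n : ℝ) / c := by
    rw [hr, ← Real.rpow_natCast, ← Real.rpow_mul hnc]
    norm_num
  have hn' : (n : ℝ) = c * r ^ 3 := by
    rw [hr3]
    field_simp
  refine ⟨(Finset.Icc (1 : ℤ) ⌊r⌋) ×ˢ (Finset.Icc (-⌊K * r⌋) ⌊K * r⌋), ?_, ?_⟩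
  · intro P hP hF
    obtain ⟨h1, h2, h3⟩ := h P hP
    have h1' : (1 : ℝ) ≤ (P.1 : ℝ) := by exact_mod_cast h1
    have hx3 : (P.1 : ℝ) ^ 3 ≤ r ^ 3 := by
      have : c * (P.1 : ℝ) ^ 3 ≤ c * r ^ 3 := by
        rw [← hn']
        exact le_trans h3 hF
      exact le_of_mul_le_mul_left this hc
    have hx : (P.1 : ℝ) ≤ r := le_of_pow_le_pow_left₀ (by norm_num) hr0 hx3
    have hy : |(P.2 : ℝ)| ≤ K * r := le_trans h2 (mul_le_mul_of_nonneg_left hx hK)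
    have hy' := abs_le.mp hy
    rw [Finset.mem_product, Finset.mem_Icc, Finset.mem_Icc]
    refine ⟨⟨h1, Int.le_floor.mpr hx⟩, ?_, Int.le_floor.mpr hy'.2⟩
    have : -P.2 ≤ ⌊K * r⌋ := by
      rw [Int.le_floor]
      push_cast
      linarith [hy'.1]
    linarith
  · rw [Finset.card_product, Int.card_Icc, Int.card_Icc]
    have hKr : 0 ≤ K * r := mul_nonneg hK hr0
    have hf1 : (0 : ℤ) ≤ ⌊r⌋ := Int.floor_nonneg.mpr hr0
    have hf2 : (0 : ℤ) ≤ ⌊K * r⌋ := Int.floor_nonneg.mpr hKr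
    have e1 : (((⌊r⌋ + 1 - 1).toNat : ℕ) : ℝ) = (⌊r⌋ : ℝ) := by
      have : ((⌊r⌋ + 1 - 1).toNat : ℤ) = ⌊r⌋ := by
        rw [Int.toNat_of_nonneg (by linarith)]
        ring
      exact_mod_cast this
    have e2 : (((⌊K * r⌋ + 1 - -⌊K * r⌋).toNat : ℕ) : ℝ) = 2 * (⌊K * r⌋ : ℝ) + 1 := by
      have : ((⌊K * r⌋ + 1 - -⌊K * r⌋).toNat : ℤ) = 2 * ⌊K * r⌋ + 1 := by
        rw [Int.toNat_of_nonneg (by linarith)]
        ring
      exact_mod_cast this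
    rw [Nat.cast_mul, e1, e2]
    have hb1 : (⌊r⌋ : ℝ) ≤ r := Int.floor_le r
    have hb2 : (⌊K * r⌋ : ℝ) ≤ K * r := Int.floor_le _
    have hb3 : (0 : ℝ) ≤ (⌊r⌋ : ℝ) := by exact_mod_cast hf1
    have hb4 : (0 : ℝ) ≤ (⌊K * r⌋ : ℝ) := by exact_mod_cast hf2
    have hδc : 0 < δ * c := mul_pos hδ hc
    have hkey : 2 * K + 1 ≤ δ * c * r := by
      rw [div_le_iff₀ hδc] at hr2
      linarith
    calc (⌊r⌋ : ℝ) * (2 * (⌊K * r⌋ : ℝ) + 1) ≤ r * (2 * (K * r) + 1) := by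
          apply mul_le_mul hb1 _ (by linarith) hr0
          linarith
      _ ≤ r * ((2 * K + 1) * r) := by
          apply mul_le_mul_of_nonneg_left _ hr0
          nlinarith
      _ ≤ r * (δ * c * r * r) := by
          apply mul_le_mul_of_nonneg_left _ hr0
          exact mul_le_mul_of_nonneg_right hkey hr0
      _ = δ * (n : ℝ) := by
          rw [hn']
          ring

theorem null_C {F : ℤ × ℤ → ℝ} {S : Set (ℤ × ℤ)} (θ : ℝ) {c ε : ℝ} (hc : 0 < c)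
    (h : ∀ P ∈ S, 1 ≤ P.1 ∧ |(P.2 : ℝ) - θ * P.1| ≤ ε * P.1 ∧ c * (P.1 : ℝ) ^ 3 ≤ F P) :
    Null (vals F S) := by
  refine null_CD_aux (|θ| + |ε|) (by positivity) hc fun P hP => ?_
  obtain ⟨h1, h2, h3⟩ := h P hP
  have h1' : (1 : ℝ) ≤ (P.1 : ℝ) := by exact_mod_cast h1
  refine ⟨h1, ?_, h3⟩
  have e1 : (P.2 : ℝ) = ((P.2 : ℝ) - θ * P.1) + θ * P.1 := by ring
  calc |(P.2 : ℝ)| = |((P.2 : ℝ) - θ * P.1) + θ * P.1| := by rw [← e1]
    _ ≤ |(P.2 : ℝ) - θ * P.1| + |θ * P.1| := abs_add_le _ _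
    _ ≤ ε * P.1 + |θ| * P.1 := by
        rw [abs_mul, abs_of_nonneg (by linarith : (0 : ℝ) ≤ (P.1 : ℝ))]
        linarith
    _ ≤ |ε| * P.1 + |θ| * P.1 := by
        have := mul_le_mul_of_nonneg_right (le_abs_self ε) (by linarith : (0 : ℝ) ≤ (P.1 : ℝ))
        linarith
    _ = (|θ| + |ε|) * P.1 := by ring

theorem null_D {F : ℤ × ℤ → ℝ} {S : Set (ℤ × ℤ)} (α : ℝ) {c : ℝ} (hc : 0 < c)
    (h : ∀ P ∈ S, 1 ≤ P.1 ∧ 0 ≤ P.2 ∧ (P.2 : ℝ) ≤ α * P.1 ∧ c * (P.1 : ℝ) ^ 3 ≤ F P) :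
    Null (vals F S) := by
  refine null_CD_aux |α| (abs_nonneg _) hc fun P hP => ?_
  obtain ⟨h1, h2, h3, h4⟩ := h P hP
  have h1' : (1 : ℝ) ≤ (P.1 : ℝ) := by exact_mod_cast h1
  have h2' : (0 : ℝ) ≤ (P.2 : ℝ) := by exact_mod_cast h2
  refine ⟨h1, ?_, h4⟩
  rw [abs_of_nonneg h2']
  exact le_trans h3 (mul_le_mul_of_nonneg_right (le_abs_self α) (by linarith))

end Pool.Agent.Lib.MP_ff4e96_co
end

section

/-!
# MP_ff4e96_co: counting lemmas (collection)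

imports only
-/

namespace Pool.Agent.Lib.MP_ff4e96_co

open Filter Topology



end Pool.Agent.Lib.MP_ff4e96_co
end
end
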