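import Mathlib

/-!
# MP_ff4e96_co: no packing polynomials of degree 3, 4, 5 on rational sectors: definitions

`ev c x y` is the polynomial function `∑ c_ij x^i y^j` (sum over `i + j ≤ 5`, rational coefficients;
the values `c i j` with `i + j > 5` are ignored).
`vals F S` is the set of the natural numbers which are values of `F` on the set `S` of lattice points,
`Null V`: the set `V` of natural numbers has density zero, `EvPer V`: `V` is eventually periodic,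
`Tame V`: `V` is the union of an eventually periodic set and a set of density zero.
-/

namespace Pool.Agent.Lib.MP_ff4e96_co

open Filter Topology

/-- polynomial function of degree at most 5 in two variables with rational coefficients -/
noncomputable def ev (c : ℕ → ℕ → ℚ) (x y : ℝ) : ℝ :=
  ∑ i ∈ Finset.range 6, ∑ j ∈ Finset.range (6 - i), (c i j : ℝ) * x ^ i * y ^ j

/-- its values at lattice points -/
noncomputable def evz (c : ℕ → ℕ → ℚ) (P : ℤ × ℤ) : ℝ := ev c (P.1 : ℝ) (P.2 : ℝ)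

/-- the homogeneous part of degree `d` -/
noncomputable def hom (c : ℕ → ℕ → ℚ) (d : ℕ) (x y : ℝ) : ℝ :=
  ∑ j ∈ Finset.range (d + 1), (c (d - j) j : ℝ) * x ^ (d - j) * y ^ j

/-- the natural numbers which are values of `F` on `S` -/
def vals (F : ℤ × ℤ → ℝ) (S : Set (ℤ × ℤ)) : Set ℕ := {v | ∃ P ∈ S, F P = v}

/-- `F` has natural values on `S` and is injective on `S` -/
def NI (F : ℤ × ℤ → ℝ) (S : Set (ℤ × ℤ)) : Prop :=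
  (∀ P ∈ S, ∃ v : ℕ, F P = v) ∧ Set.InjOn F S

/-- density zero -/
def Null (V : Set ℕ) : Prop :=
  ∀ ε : ℝ, 0 < ε → ∀ᶠ n : ℕ in atTop, ((V ∩ Set.Iic n).ncard : ℝ) ≤ ε * n

/-- eventually periodic -/
def EvPer (V : Set ℕ) : Prop := ∃ M N : ℕ, 0 < M ∧ ∀ v, N ≤ v → (v ∈ V ↔ v + M ∈ V)

/-- eventually periodic up to density zero -/
def Tame (V : Set ℕ) : Prop := ∃ V₁ V₂ : Set ℕ, V = V₁ ∪ V₂ ∧ EvPer V₁ ∧ Null V₂

/-- the lattice points with `0 ≤ y`, `K y ≤ x`, `X ≤ x` (one side of the direction `(1,0)`) -/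
def Reg (K X : ℤ) : Set (ℤ × ℤ) := {P | 0 ≤ P.2 ∧ K * P.2 ≤ P.1 ∧ X ≤ P.1}

/-- the lattice points with `X ≤ x` and slope near `θ` -/
def Near (θ ε : ℝ) (X : ℤ) : Set (ℤ × ℤ) := {P | X ≤ P.1 ∧ |(P.2 : ℝ) - θ * P.1| ≤ ε * P.1}

/-- degenerate cluster of weight 4: `F = c₂₀ (x - κ y²)² + (terms of weight < 4)`, weight of
`x^i y^j` is `2 i + j` -/
def Deg4 (c : ℕ → ℕ → ℚ) (κ : ℚ) : Prop :=
  0 < c 2 0 ∧ c 1 2 = -2 * κ * c 2 0 ∧ c 0 4 = κ ^ 2 * c 2 0 ∧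
    ∀ i j, i + j ≤ 5 → 4 < 2 * i + j → c i j = 0

/-- degenerate cluster of weight 5: `F = c₂₁ y (x - κ y²)² + (terms of weight < 5)` -/
def Deg5 (c : ℕ → ℕ → ℚ) (κ : ℚ) : Prop :=
  0 < c 2 1 ∧ c 1 3 = -2 * κ * c 2 1 ∧ c 0 5 = κ ^ 2 * c 2 1 ∧
    ∀ i j, i + j ≤ 5 → 5 < 2 * i + j → c i j = 0

/-- degenerate cluster of weight 6: `F = c₃₀ x (x - κ y²)² + (terms of weight < 6)` -/
def Deg6 (c : ℕ → ℕ → ℚ) (κ : ℚ) : Prop :=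
  0 < c 3 0 ∧ c 2 2 = -2 * κ * c 3 0 ∧ c 1 4 = κ ^ 2 * c 3 0 ∧
    ∀ i j, i + j ≤ 5 → 6 < 2 * i + j → c i j = 0

/-- the lattice points of the sector `0 ≤ y ≤ α x` -/
def Cone (α : ℚ) : Set (ℤ × ℤ) := {P | 0 ≤ P.2 ∧ (P.2 : ℚ) ≤ α * P.1}

theorem vals_mono {F : ℤ × ℤ → ℝ} {S T : Set (ℤ × ℤ)} (h : S ⊆ T) : vals F S ⊆ vals F T :=
  fun _ ⟨P, hP, hv⟩ => ⟨P, h hP, hv⟩

theorem vals_union (F : ℤ × ℤ → ℝ) (S T : Set (ℤ × ℤ)) : vals F (S ∪ T) = vals F S ∪ vals F T := by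
  ext v
  constructor
  · rintro ⟨P, hP | hP, hv⟩
    · exact Or.inl ⟨P, hP, hv⟩
    · exact Or.inr ⟨P, hP, hv⟩
  · rintro (⟨P, hP, hv⟩ | ⟨P, hP, hv⟩)
    · exact ⟨P, Or.inl hP, hv⟩
    · exact ⟨P, Or.inr hP, hv⟩

theorem NI.mono {F : ℤ × ℤ → ℝ} {S T : Set (ℤ × ℤ)} (h : S ⊆ T) (hT : NI F T) : NI F S :=
  ⟨fun P hP => hT.1 P (h hP), hT.2.mono h⟩

theorem NI.nonneg {F : ℤ × ℤ → ℝ} {S : Set (ℤ × ℤ)} (hS : NI F S) {P : ℤ × ℤ} (hP : P ∈ S) :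
    0 ≤ F P := by
  obtain ⟨v, hv⟩ := hS.1 P hP
  rw [hv]
  exact Nat.cast_nonneg v

/-- all 21 terms -/
theorem ev_eq (c : ℕ → ℕ → ℚ) (x y : ℝ) : ev c x y =
    (c 0 0 + c 0 1 * y + c 0 2 * y ^ 2 + c 0 3 * y ^ 3 + c 0 4 * y ^ 4 + c 0 5 * y ^ 5) +
    (c 1 0 * x + c 1 1 * x * y + c 1 2 * x * y ^ 2 + c 1 3 * x * y ^ 3 + c 1 4 * x * y ^ 4) +
    (c 2 0 * x ^ 2 + c 2 1 * x ^ 2 * y + c 2 2 * x ^ 2 * y ^ 2 + c 2 3 * x ^ 2 * y ^ 3) +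
    (c 3 0 * x ^ 3 + c 3 1 * x ^ 3 * y + c 3 2 * x ^ 3 * y ^ 2) +
    (c 4 0 * x ^ 4 + c 4 1 * x ^ 4 * y) + c 5 0 * x ^ 5 := by
  simp [ev, Finset.sum_range_succ]

end Pool.Agent.Lib.MP_ff4e96_co
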