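import Pool.Agent.Lib.MP_ff4e96_co.Defs

section

/-!
# MP_ff4e96_co: sets of density zero and eventually periodic sets

Elementary. `ncard` of subsets of the finite set `Iic n`. For `evPer_union` use the product of the periods.
For `tame_iUnion` use induction on `s`.
-/

namespace Pool.Agent.Lib.MP_ff4e96_co

open Filter Topology

theorem null_mono {V W : Set ℕ} (h : V ⊆ W) (hW : Null W) : Null V := by
  intro ε hε
  filter_upwards [hW ε hε] with n hn
  refine le_trans ?_ hn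
  have h1 : (V ∩ Set.Iic n).ncard ≤ (W ∩ Set.Iic n).ncard :=
    Set.ncard_le_ncard (Set.inter_subset_inter_left _ h)
      ((Set.finite_Iic n).subset Set.inter_subset_right)
  exact_mod_cast h1

theorem null_union {V W : Set ℕ} (hV : Null V) (hW : Null W) : Null (V ∪ W) := by
  intro ε hε
  filter_upwards [hV (ε / 2) (half_pos hε), hW (ε / 2) (half_pos hε)] with n h1 h2
  have h3 : ((V ∪ W) ∩ Set.Iic n).ncard ≤ (V ∩ Set.Iic n).ncard + (W ∩ Set.Iic n).ncard := by
    rw [Set.union_inter_distrib_right]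
    exact Set.ncard_union_le _ _
  have h4 : (((V ∪ W) ∩ Set.Iic n).ncard : ℝ) ≤
      (V ∩ Set.Iic n).ncard + (W ∩ Set.Iic n).ncard := by exact_mod_cast h3
  have h5 : ε * n = ε / 2 * n + ε / 2 * n := by ring
  rw [h5]
  linarith

theorem null_finite {V : Set ℕ} (h : V.Finite) : Null V := by
  intro ε hε
  obtain ⟨N, hN⟩ := exists_nat_gt ((V.ncard : ℝ) / ε)
  filter_upwards [eventually_ge_atTop N] with n hn
  have h1 : (V ∩ Set.Iic n).ncard ≤ V.ncard := Set.ncard_le_ncard Set.inter_subset_left h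
  have h2 : ((V ∩ Set.Iic n).ncard : ℝ) ≤ V.ncard := by exact_mod_cast h1
  have h3 : (N : ℝ) ≤ n := by exact_mod_cast hn
  have h4 : (V.ncard : ℝ) < ε * N := by
    rw [div_lt_iff₀ hε] at hN
    linarith
  have h5 : ε * N ≤ ε * n := mul_le_mul_of_nonneg_left h3 hε.le
  linarith

theorem evPer_empty : EvPer ∅ := ⟨1, 0, one_pos, fun v _ => by simp⟩

/-- multiples of a period -/
private theorem per_mul {V : Set ℕ} {M N : ℕ} (h : ∀ v, N ≤ v → (v ∈ V ↔ v + M ∈ V)) (k : ℕ) :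
    ∀ v, N ≤ v → (v ∈ V ↔ v + k * M ∈ V) := by
  induction k with
  | zero =>
    intro v _
    simp
  | succ k ih =>
    intro v hv
    rw [ih v hv, h (v + k * M) (by omega)]
    have h1 : v + k * M + M = v + (k + 1) * M := by ring
    rw [h1]

theorem evPer_union {V W : Set ℕ} (hV : EvPer V) (hW : EvPer W) : EvPer (V ∪ W) := by
  obtain ⟨M, N, hM, h⟩ := hV
  obtain ⟨M', N', hM', h'⟩ := hW
  refine ⟨M' * M, max N N', Nat.mul_pos hM' hM, fun v hv => ?_⟩
  have h1 := per_mul h M' v (le_trans (le_max_left _ _) hv)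
  have h2 := per_mul h' M v (le_trans (le_max_right _ _) hv)
  rw [mul_comm M M'] at h2
  rw [Set.mem_union, Set.mem_union, h1, h2]

theorem evPer_ap (b e : ℕ) (hb : 0 < b) : EvPer {v | ∃ t : ℕ, v = b * t + e} := by
  refine ⟨b, e, hb, fun v hv => ⟨?_, ?_⟩⟩
  · rintro ⟨t, ht⟩
    refine ⟨t + 1, ?_⟩
    rw [ht]
    ring
  · rintro ⟨t, ht⟩
    rcases t with _ | t
    · simp only [mul_zero, zero_add] at ht
      omega
    · refine ⟨t, ?_⟩
      have h1 : b * (t + 1) = b * t + b := by ring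
      omega

theorem tame_of_null {V : Set ℕ} (h : Null V) : Tame V :=
  ⟨∅, V, by simp, evPer_empty, h⟩

theorem tame_of_evPer {V : Set ℕ} (h : EvPer V) : Tame V :=
  ⟨V, ∅, by simp, h, null_finite Set.finite_empty⟩

theorem tame_union {V W : Set ℕ} (hV : Tame V) (hW : Tame W) : Tame (V ∪ W) := by
  obtain ⟨V₁, V₂, rfl, h1, h2⟩ := hV
  obtain ⟨W₁, W₂, rfl, h3, h4⟩ := hW
  exact ⟨V₁ ∪ W₁, V₂ ∪ W₂, Set.union_union_union_comm _ _ _ _, evPer_union h1 h3,
    null_union h2 h4⟩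

/-- a finite union -/
theorem tame_iUnion {ι : Type} (s : Finset ι) (V : ι → Set ℕ) (h : ∀ i ∈ s, Tame (V i)) :
    Tame (⋃ i ∈ s, V i) := by
  classical
  induction s using Finset.induction_on with
  | empty =>
    simp only [Finset.notMem_empty, Set.iUnion_of_empty, Set.iUnion_empty]
    exact tame_of_evPer evPer_empty
  | insert a s _ ih =>
    rw [Finset.set_biUnion_insert]
    exact tame_union (h a (Finset.mem_insert_self a s))
      (ih fun i hi => h i (Finset.mem_insert_of_mem hi))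

end Pool.Agent.Lib.MP_ff4e96_co
end

section

/-!
# MP_ff4e96_co: the leading form is nonnegative

`hom_nonneg`: `ev c (k b) (k a) / k^d → hom c d b a` for `k → ∞` (all coefficients of degree `> d` are 0).
`hom_nonneg_near`: first for rational `t = a / b` (the points `(k b, k a)` are in `Near θ ε X` for `k` large) by
`hom_nonneg` (`hom c d b a = b^d hom c d 1 (a/b)`), then by continuity and density.
-/

namespace Pool.Agent.Lib.MP_ff4e96_co

open Filter Topology

private theorem hom_decomp (c : ℕ → ℕ → ℚ) (k x y : ℝ) :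
    ev c (k * x) (k * y) = ∑ e ∈ Finset.range 6, k ^ e * hom c e x y := by
  rw [ev_eq]
  simp only [hom, Finset.sum_range_succ, Finset.sum_range_zero, Nat.sub_self, Nat.sub_zero]
  norm_num
  ring

private theorem hom_decomp' {c : ℕ → ℕ → ℚ} {d : ℕ} (hd : d ≤ 5)
    (htop : ∀ i j, i + j ≤ 5 → d < i + j → c i j = 0) (k x y : ℝ) :
    ev c (k * x) (k * y) = ∑ e ∈ Finset.range (d + 1), k ^ e * hom c e x y := by
  rw [hom_decomp]
  symm
  apply Finset.sum_subset
  · intro e he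
    rw [Finset.mem_range] at he ⊢
    omega
  · intro e he he'
    rw [Finset.mem_range] at he he'
    have : hom c e x y = 0 := by
      unfold hom
      apply Finset.sum_eq_zero
      intro j hj
      rw [Finset.mem_range] at hj
      rw [htop (e - j) j (by omega) (by omega)]
      simp
    rw [this, mul_zero]

private theorem hom_scale (c : ℕ → ℕ → ℚ) (d : ℕ) (k x y : ℝ) :
    hom c d (k * x) (k * y) = k ^ d * hom c d x y := by
  unfold hom
  rw [Finset.mul_sum]
  apply Finset.sum_congr rfl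
  intro j hj
  rw [Finset.mem_range] at hj
  have h1 : k ^ d = k ^ (d - j) * k ^ j := by
    rw [← pow_add]
    congr 1
    omega
  rw [h1, mul_pow, mul_pow]
  ring

theorem hom_nonneg {c : ℕ → ℕ → ℚ} {d : ℕ} (hd : d ≤ 5)
    (htop : ∀ i j, i + j ≤ 5 → d < i + j → c i j = 0) (a b : ℤ)
    (h : ∀ᶠ k : ℕ in atTop, 0 ≤ ev c ((k : ℝ) * b) ((k : ℝ) * a)) : 0 ≤ hom c d b a := by
  have hlim : Tendsto (fun k : ℕ => ∑ e ∈ Finset.range (d + 1),
      ((k : ℝ) ^ e / (k : ℝ) ^ d) * hom c e b a) atTop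
      (𝓝 (∑ e ∈ Finset.range (d + 1), (if e = d then (1 : ℝ) else 0) * hom c e b a)) := by
    apply tendsto_finsetSum
    intro e he
    rw [Finset.mem_range] at he
    apply Tendsto.mul_const
    by_cases hed : e = d
    · rw [if_pos hed, hed]
      apply tendsto_const_nhds.congr'
      filter_upwards [eventually_ge_atTop 1] with k hk
      have hk0 : (k : ℝ) ≠ 0 := by
        have : 0 < k := hk
        exact_mod_cast this.ne'
      rw [div_self (pow_ne_zero _ hk0)]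
    · rw [if_neg hed]
      have h1 : Tendsto (fun k : ℕ => (((k : ℝ)) ^ (d - e))⁻¹) atTop (𝓝 0) := by
        apply Tendsto.inv_tendsto_atTop
        exact (tendsto_pow_atTop (by omega)).comp tendsto_natCast_atTop_atTop
      apply h1.congr'
      filter_upwards [eventually_ge_atTop 1] with k hk
      have hk0 : (k : ℝ) ≠ 0 := by
        have : 0 < k := hk
        exact_mod_cast this.ne'
      have h2 : (k : ℝ) ^ d = (k : ℝ) ^ (d - e) * (k : ℝ) ^ e := by
        rw [← pow_add]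
        congr 1
        omega
      rw [h2]
      field_simp
  have hval : (∑ e ∈ Finset.range (d + 1), (if e = d then (1 : ℝ) else 0) * hom c e b a) =
      hom c d b a := by
    simp only [ite_mul, one_mul, zero_mul]
    rw [Finset.sum_ite_eq']
    simp
  rw [hval] at hlim
  apply ge_of_tendsto hlim
  filter_upwards [h, eventually_ge_atTop 1] with k hk hk1
  have hkpos : (0 : ℝ) < (k : ℝ) ^ d := by
    have : 0 < k := hk1
    positivity
  rw [hom_decomp' hd htop] at hk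
  have h3 : (∑ e ∈ Finset.range (d + 1), ((k : ℝ) ^ e / (k : ℝ) ^ d) * hom c e b a) =
      (∑ e ∈ Finset.range (d + 1), (k : ℝ) ^ e * hom c e b a) / (k : ℝ) ^ d := by
    rw [Finset.sum_div]
    apply Finset.sum_congr rfl
    intro e _
    ring
  rw [h3]
  exact div_nonneg hk hkpos.le

theorem hom_nonneg_near {c : ℕ → ℕ → ℚ} {d : ℕ} (hd : d ≤ 5)
    (htop : ∀ i j, i + j ≤ 5 → d < i + j → c i j = 0) {θ ε : ℝ} {X : ℤ}
    (h : ∀ P ∈ Near θ ε X, 0 ≤ evz c P) {t : ℝ} (ht : |t - θ| < ε) : 0 ≤ hom c d 1 t := by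
  have hrat : ∀ q : ℚ, |(q : ℝ) - θ| < ε → 0 ≤ hom c d 1 q := by
    intro q hq
    have hden : (0 : ℝ) < (q.den : ℝ) := by exact_mod_cast q.den_pos
    have hqe : (q : ℝ) = (q.num : ℝ) / (q.den : ℝ) := by
      exact_mod_cast (Rat.num_div_den q).symm
    have h1 := hom_nonneg hd htop q.num (q.den : ℤ) (by
      filter_upwards [eventually_ge_atTop X.natAbs] with k hk
      have hP : ((k : ℤ) * (q.den : ℤ), (k : ℤ) * q.num) ∈ Near θ ε X := by
        refine ⟨?_, ?_⟩
        · show X ≤ (k : ℤ) * (q.den : ℤ)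
          have hd1 : (1 : ℤ) ≤ (q.den : ℤ) := by exact_mod_cast q.den_pos
          have h2 : X ≤ (X.natAbs : ℤ) := Int.le_natAbs
          have h3 : (X.natAbs : ℤ) ≤ (k : ℤ) := by exact_mod_cast hk
          nlinarith
        · show |(((k : ℤ) * q.num : ℤ) : ℝ) - θ * (((k : ℤ) * (q.den : ℤ) : ℤ) : ℝ)| ≤
            ε * (((k : ℤ) * (q.den : ℤ) : ℤ) : ℝ)
          push_cast
          have h4 : (k : ℝ) * (q.num : ℝ) - θ * ((k : ℝ) * (q.den : ℝ)) =
              ((k : ℝ) * (q.den : ℝ)) * ((q : ℝ) - θ) := by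
            rw [hqe]
            field_simp
          rw [h4, abs_mul, abs_of_nonneg (by positivity : (0 : ℝ) ≤ (k : ℝ) * (q.den : ℝ)), mul_comm]
          exact mul_le_mul_of_nonneg_right hq.le (by positivity)
      have h5 := h _ hP
      unfold evz at h5
      push_cast at h5
      push_cast
      exact h5)
    have h6 : hom c d ((q.den : ℤ) : ℝ) (q.num : ℝ) = (q.den : ℝ) ^ d * hom c d 1 q := by
      rw [← hom_scale]
      congr 1
      · push_cast
        ring
      · rw [hqe]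
        field_simp
    rw [h6] at h1
    exact nonneg_of_mul_nonneg_right h1 (pow_pos hden d)
  by_contra hcon
  push Not at hcon
  have hcont : Continuous fun s : ℝ => hom c d 1 s := by
    unfold hom
    fun_prop
  have hopen : IsOpen {s : ℝ | hom c d 1 s < 0 ∧ |s - θ| < ε} := by
    apply IsOpen.inter
    · exact isOpen_lt hcont continuous_const
    · exact isOpen_lt ((continuous_id.sub continuous_const).abs) continuous_const
  obtain ⟨q, hq⟩ := Rat.isDenseEmbedding_coe_real.dense.exists_mem_open hopen ⟨t, hcon, ht⟩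
  have := hrat q hq.2
  linarith [hq.1]

end Pool.Agent.Lib.MP_ff4e96_co
end

section

/-!
# MP_ff4e96_co: counting and the final contradiction

`null_vals`: the values `≤ n` on `S` are the values at the points of `T`, so there are at most `T.card` of them
(`vals F S ∩ Iic n` is contained in the image of `T` under `P ↦ ⌊F P⌋.toNat`).

`final_density`: if some `v₀ ≥ N` is not in `V₁` then `v₀ + k M` is not in `V₁` for all `k`, so these numbers are
in `V₂ ∪ J`, which has density zero, but they have density `1/M`: contradiction. So the complement of `V₁` is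
contained in `Iio N`, and `J` is in the complement.
-/

namespace Pool.Agent.Lib.MP_ff4e96_co

open Filter Topology

/-- counting of points gives density zero of the set of values -/
theorem null_vals {F : ℤ × ℤ → ℝ} {S : Set (ℤ × ℤ)}
    (h : ∀ ε : ℝ, 0 < ε → ∀ᶠ n : ℕ in atTop, ∃ T : Finset (ℤ × ℤ),
      (∀ P ∈ S, F P ≤ n → P ∈ T) ∧ (T.card : ℝ) ≤ ε * n) : Null (vals F S) := by
  classical
  intro ε hε
  filter_upwards [h ε hε] with n hn
  obtain ⟨T, hT, hcard⟩ := hn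
  refine le_trans ?_ hcard
  have hsub : vals F S ∩ Set.Iic n ⊆ ((T.image fun P => ⌊F P⌋₊ : Finset ℕ) : Set ℕ) := by
    rintro v ⟨⟨P, hP, hv⟩, hvn⟩
    rw [Finset.mem_coe, Finset.mem_image]
    refine ⟨P, hT P hP ?_, ?_⟩
    · rw [hv]
      exact_mod_cast hvn
    · rw [hv, Nat.floor_natCast]
  have h1 : (vals F S ∩ Set.Iic n).ncard ≤ T.card := by
    refine le_trans (Set.ncard_le_ncard hsub (Finset.finite_toSet _)) ?_
    rw [Set.ncard_coe_finset]
    exact Finset.card_image_le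
  exact_mod_cast h1

/-- the final contradiction -/
theorem final_density {V₁ V₂ J : Set ℕ} (h1 : EvPer V₁) (h2 : Null V₂) (hJ : Null J)
    (hcov : V₁ ∪ V₂ ∪ J = Set.univ) (hdisj : Disjoint J V₁) : J.Finite := by
  classical
  obtain ⟨M, N, hM, hper⟩ := h1
  by_cases hall : ∀ v, N ≤ v → v ∈ V₁
  · refine (Set.finite_Iio N).subset ?_
    intro v hv
    rw [Set.mem_Iio]
    by_contra hlt
    exact Set.disjoint_left.1 hdisj hv (hall v (not_lt.1 hlt))
  · exfalso
    push Not at hall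
    obtain ⟨v₀, hv₀, hnot⟩ := hall
    have hk : ∀ k : ℕ, v₀ + k * M ∉ V₁ := by
      intro k
      induction k with
      | zero => simpa using hnot
      | succ k ih =>
        intro hmem
        apply ih
        rw [hper (v₀ + k * M) (le_trans hv₀ (Nat.le_add_right _ _))]
        have : v₀ + k * M + M = v₀ + (k + 1) * M := by ring
        rw [this]
        exact hmem
    have hM0 : (0 : ℝ) < M := by exact_mod_cast hM
    have hε : (0 : ℝ) < 1 / (4 * M) := by positivity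
    obtain ⟨n₁, hn₁⟩ := Filter.eventually_atTop.1 ((h2 _ hε).and (hJ _ hε))
    set k : ℕ := n₁ + v₀ with hkdef
    set n : ℕ := v₀ + k * M with hndef
    have hkM : k ≤ k * M := Nat.le_mul_of_pos_right k hM
    have hn : n₁ ≤ n := by omega
    obtain ⟨ha, hb⟩ := hn₁ n hn
    have hsub : (((Finset.range (k + 1)).image fun i => v₀ + i * M : Finset ℕ) : Set ℕ) ⊆
        (V₂ ∩ Set.Iic n) ∪ (J ∩ Set.Iic n) := by
      intro v hv
      rw [Finset.mem_coe, Finset.mem_image] at hv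
      obtain ⟨i, hi, rfl⟩ := hv
      rw [Finset.mem_range] at hi
      have hle : v₀ + i * M ≤ n := by
        have : i * M ≤ k * M := Nat.mul_le_mul_right M (by omega)
        omega
      have hmem : v₀ + i * M ∈ V₁ ∪ V₂ ∪ J := by
        rw [hcov]
        exact Set.mem_univ _
      rcases hmem with (h | h) | h
      · exact absurd h (hk i)
      · exact Or.inl ⟨h, hle⟩
      · exact Or.inr ⟨h, hle⟩
    have hfin : ((V₂ ∩ Set.Iic n) ∪ (J ∩ Set.Iic n)).Finite :=
      ((Set.finite_Iic n).inter_of_right V₂).union ((Set.finite_Iic n).inter_of_right J)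
    have hc1 := Set.ncard_le_ncard hsub hfin
    rw [Set.ncard_coe_finset, Finset.card_image_of_injective _ (by
      intro a b hab
      have : a * M = b * M := Nat.add_left_cancel hab
      exact Nat.eq_of_mul_eq_mul_right hM this), Finset.card_range] at hc1
    have hc2 := Set.ncard_union_le (V₂ ∩ Set.Iic n) (J ∩ Set.Iic n)
    have hc3 : ((k + 1 : ℕ) : ℝ) ≤ 1 / (4 * M) * n + 1 / (4 * M) * n := by
      have h3 : ((k + 1 : ℕ) : ℝ) ≤
          (((V₂ ∩ Set.Iic n).ncard + (J ∩ Set.Iic n).ncard : ℕ) : ℝ) := by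
        exact_mod_cast hc1.trans hc2
      push_cast at h3 ⊢
      linarith
    have hn2 : (n : ℝ) = v₀ + k * M := by
      rw [hndef]
      push_cast
      ring
    have hk2 : (v₀ : ℝ) ≤ k := by
      have : v₀ ≤ k := by omega
      exact_mod_cast this
    have hM1 : (1 : ℝ) ≤ M := by exact_mod_cast hM
    rw [hn2] at hc3
    have h5 : 1 / (4 * (M : ℝ)) * (v₀ + k * M) + 1 / (4 * (M : ℝ)) * (v₀ + k * M) =
        v₀ / (2 * M) + k / 2 := by
      field_simp
      ring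
    rw [h5] at hc3
    have h6 : (v₀ : ℝ) / (2 * M) ≤ v₀ / 2 := by
      apply div_le_div_of_nonneg_left (Nat.cast_nonneg _) (by norm_num)
      linarith
    push_cast at hc3
    linarith

end Pool.Agent.Lib.MP_ff4e96_co
end

section

section

/-!
# MP_ff4e96_co: the leading form at an irrational zero

`hom_factor`: let `f = ∑ c_(d-j) j T^j ∈ ℚ[T]`, not zero, `f(t) ≥ 0` near the irrational zero `θ`. Let
`m = minpoly ℚ θ`, monic of degree at least 2, separable (`m'(θ) ≠ 0`), so `m` changes sign at `θ`.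
`f = m f₁`; `f₁(θ) ≠ 0` would imply that `f` changes sign at `θ`; so `f₁(θ) = 0`, `f = m² ψ`. `deg f ≤ 5`, so
`deg m = 2`, `m = T² + b T + a`, and `deg ψ ≤ 1`, `ψ(θ) ≠ 0` (irrational), `ψ(θ) > 0` as `f ≥ 0` near `θ`.
So `d ≥ 4`. Homogenize: for `x ≠ 0` `hom c d x y = x^d f(y/x)`; both sides of the claim are
polynomials in `x, y`, so it holds for `x = 0` too (or compare the coefficients of `f = m² ψ` and use
`ring`). For `d = 4`: `ψ = l₀` and `l₁ = 0`; for `d = 5` `ψ = l₀ + l₁ T`.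
-/

namespace Pool.Agent.Lib.MP_ff4e96_co

open Filter Topology

/-- the structure of the leading form at an irrational zero -/
def Fac (c : ℕ → ℕ → ℚ) (d : ℕ) (θ : ℝ) (b a l₀ l₁ : ℚ) : Prop :=
  θ ^ 2 + b * θ + a = 0 ∧ 0 < l₀ + l₁ * θ ∧
    ((d = 4 ∧ l₁ = 0 ∧ ∀ x y : ℝ, hom c 4 x y = l₀ * (y ^ 2 + b * x * y + a * x ^ 2) ^ 2) ∨
     (d = 5 ∧ ∀ x y : ℝ, hom c 5 x y = (l₀ * x + l₁ * y) * (y ^ 2 + b * x * y + a * x ^ 2) ^ 2))

private theorem coeffs6 {f : Polynomial ℚ} (b0 b1 b2 b3 b4 b5 : ℚ)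
    (h : f = Polynomial.C b0 + Polynomial.C b1 * Polynomial.X + Polynomial.C b2 * Polynomial.X ^ 2
      + Polynomial.C b3 * Polynomial.X ^ 3 + Polynomial.C b4 * Polynomial.X ^ 4
      + Polynomial.C b5 * Polynomial.X ^ 5) :
    f.coeff 0 = b0 ∧ f.coeff 1 = b1 ∧ f.coeff 2 = b2 ∧ f.coeff 3 = b3 ∧ f.coeff 4 = b4 ∧
      f.coeff 5 = b5 := by
  subst h
  refine ⟨?_, ?_, ?_, ?_, ?_, ?_⟩ <;>
    simp [Polynomial.coeff_X, Polynomial.coeff_C, Polynomial.coeff_X_pow]

theorem hom_factor {c : ℕ → ℕ → ℚ} {d : ℕ} (hd : d ≤ 5) {θ : ℝ} (hθ : Irrational θ) {ε : ℝ}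
    (hε : 0 < ε) (hne : ∃ j, j ≤ d ∧ c (d - j) j ≠ 0) (h0 : hom c d 1 θ = 0)
    (hpos : ∀ t : ℝ, |t - θ| < ε → 0 ≤ hom c d 1 t) :
    ∃ b a l₀ l₁ : ℚ, Fac c d θ b a l₀ l₁ := by
  classical
  set f : Polynomial ℚ := ∑ j ∈ Finset.range (d + 1), Polynomial.C (c (d - j) j) * Polynomial.X ^ j
    with hf
  have hfev : ∀ t : ℝ, Polynomial.aeval t f = hom c d 1 t := by
    intro t
    rw [hf, map_sum, hom]
    refine Finset.sum_congr rfl fun j _ => ?_
    simp
  have hfc : ∀ j, f.coeff j = if j ≤ d then c (d - j) j else 0 := by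
    intro j
    rw [hf, Polynomial.finsetSum_coeff]
    simp only [Polynomial.coeff_C_mul, Polynomial.coeff_X_pow, mul_ite, mul_one, mul_zero]
    rw [Finset.sum_ite_eq]
    simp [Nat.lt_succ_iff]
  have hf0 : f ≠ 0 := by
    obtain ⟨j, hj, hj2⟩ := hne
    intro h
    have h1 := hfc j
    rw [h, if_pos hj, Polynomial.coeff_zero] at h1
    exact hj2 h1.symm
  have hfd : f.natDegree ≤ d := by
    rw [Polynomial.natDegree_le_iff_coeff_eq_zero]
    intro j hj
    rw [hfc, if_neg (by omega)]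
  have hz : Polynomial.aeval θ f = 0 := by rw [hfev, h0]
  have hint : IsIntegral ℚ θ := by
    rw [← isAlgebraic_iff_isIntegral]
    exact ⟨f, hf0, hz⟩
  set m := minpoly ℚ θ with hm
  have hmm : m.Monic := minpoly.monic hint
  have hm0 : m ≠ 0 := hmm.ne_zero
  have hmθ : Polynomial.aeval θ m = 0 := minpoly.aeval ℚ θ
  have hm2 : 2 ≤ m.natDegree := by
    have h1 : 0 < m.natDegree := minpoly.natDegree_pos hint
    have h2 : m.natDegree ≠ 1 := by
      intro h
      rw [hm, minpoly.natDegree_eq_one_iff] at h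
      obtain ⟨q, hq⟩ := h
      exact hθ ⟨q, hq⟩
    omega
  have hnz : ∀ g : Polynomial ℚ, g ≠ 0 → g.natDegree < m.natDegree → Polynomial.aeval θ g ≠ 0 := by
    intro g hg hlt h
    have h1 := Polynomial.natDegree_le_of_dvd (minpoly.dvd ℚ θ h) hg
    rw [← hm] at h1
    omega
  have hm' : Polynomial.aeval θ (Polynomial.derivative m) ≠ 0 := by
    apply hnz
    · intro h
      have h1 := Polynomial.derivative_eq_zero.1 h
      omega
    · exact Polynomial.natDegree_derivative_lt (by omega)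
  obtain ⟨f₁, hf₁⟩ : m ∣ f := minpoly.dvd ℚ θ hz
  have hmin : Polynomial.aeval θ (Polynomial.derivative f) = 0 := by
    have h1 : HasDerivAt (fun t : ℝ => Polynomial.aeval t f)
        (Polynomial.aeval θ (Polynomial.derivative f)) θ := Polynomial.hasDerivAt_aeval f θ
    refine IsLocalMin.hasDerivAt_eq_zero ?_ h1
    have h2 : ∀ᶠ t in 𝓝 θ, |t - θ| < ε := by
      have := Metric.ball_mem_nhds θ hε
      filter_upwards [this] with t ht
      rwa [Metric.mem_ball, Real.dist_eq] at ht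
    filter_upwards [h2] with t ht
    rw [hfev, hfev, h0]
    exact hpos t ht
  have hf₁θ : Polynomial.aeval θ f₁ = 0 := by
    rw [hf₁, Polynomial.derivative_mul, map_add, map_mul, map_mul, hmθ, zero_mul, add_zero] at hmin
    exact (mul_eq_zero.1 hmin).resolve_left hm'
  obtain ⟨ψ, hψ⟩ : m ∣ f₁ := minpoly.dvd ℚ θ hf₁θ
  have hfm : f = m * (m * ψ) := by rw [hf₁, hψ]
  have hψ0 : ψ ≠ 0 := by
    rintro rfl
    apply hf0
    rw [hfm]
    ring
  have hdeg : f.natDegree = m.natDegree + (m.natDegree + ψ.natDegree) := by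
    rw [hfm, Polynomial.natDegree_mul hm0 (mul_ne_zero hm0 hψ0), Polynomial.natDegree_mul hm0 hψ0]
  have hmd : m.natDegree = 2 := by omega
  have hψd : ψ.natDegree ≤ 1 := by omega
  have hψθ : Polynomial.aeval θ ψ ≠ 0 := hnz ψ hψ0 (by omega)
  set a := m.coeff 0 with ha
  set b := m.coeff 1 with hb
  set l₀ := ψ.coeff 0 with hl0
  set l₁ := ψ.coeff 1 with hl1
  have hme : m = Polynomial.X ^ 2 + Polynomial.C b * Polynomial.X + Polynomial.C a := by
    have h1 : m.coeff 2 = 1 := by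
      have := hmm.coeff_natDegree
      rwa [hmd] at this
    rw [m.as_sum_range_C_mul_X_pow, hmd]
    simp only [Finset.sum_range_succ, Finset.sum_range_zero, h1, ← ha, ← hb]
    simp
    ring
  have hψe : ψ = Polynomial.C l₁ * Polynomial.X + Polynomial.C l₀ :=
    Polynomial.eq_X_add_C_of_natDegree_le_one hψd
  have hq : θ ^ 2 + b * θ + a = 0 := by
    have h1 := hmθ
    rw [hme] at h1
    simpa using h1
  have hψv : ∀ t : ℝ, Polynomial.aeval t ψ = l₀ + l₁ * t := by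
    intro t
    rw [hψe]
    simp
    ring
  have hmv : ∀ t : ℝ, Polynomial.aeval t m = (t - θ) * (t + θ + b) := by
    intro t
    rw [hme]
    simp
    linear_combination hq
  have hne2 : θ + θ + b ≠ 0 := by
    intro h
    apply hθ
    refine ⟨-b / 2, ?_⟩
    push_cast
    linarith
  rw [hψv] at hψθ
  have hpos2 : 0 < l₀ + l₁ * θ := by
    rcases lt_or_gt_of_ne hψθ with h | h
    · exfalso
      have e1 : ∀ᶠ t in 𝓝 θ, (l₀ : ℝ) + l₁ * t < 0 := by
        have : Continuous fun t : ℝ => (l₀ : ℝ) + l₁ * t := by fun_prop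
        exact this.continuousAt.eventually_lt continuousAt_const h
      have e2 : ∀ᶠ t in 𝓝 θ, t + θ + b ≠ 0 := by
        have : Continuous fun t : ℝ => t + θ + (b : ℝ) := by fun_prop
        exact this.continuousAt.eventually_ne hne2
      have e3 : ∀ᶠ t in 𝓝 θ, |t - θ| < ε := by
        have := Metric.ball_mem_nhds θ hε
        filter_upwards [this] with t ht
        rwa [Metric.mem_ball, Real.dist_eq] at ht
      have e4 : ∀ᶠ t in 𝓝[≠] θ, (l₀ : ℝ) + l₁ * t < 0 ∧ t + θ + b ≠ 0 ∧ |t - θ| < ε ∧ t ≠ θ := by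
        filter_upwards [nhdsWithin_le_nhds e1, nhdsWithin_le_nhds e2, nhdsWithin_le_nhds e3,
          self_mem_nhdsWithin] with t h1 h2 h3 h4
        exact ⟨h1, h2, h3, h4⟩
      obtain ⟨t, h1, h2, h3, h4⟩ := e4.exists
      have h5 := hpos t h3
      rw [← hfev, hfm, map_mul, map_mul, hmv, hψv] at h5
      have h6 : 0 < ((t - θ) * (t + θ + b)) ^ 2 := by
        have := mul_ne_zero (sub_ne_zero.2 h4) h2
        positivity
      have h7 : ((t - θ) * (t + θ + b)) ^ 2 * (l₀ + l₁ * t) < 0 := mul_neg_of_pos_of_neg h6 h1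
      linarith
    · exact h
  have hexp : f = Polynomial.C (a ^ 2 * l₀) + Polynomial.C (2 * a * b * l₀ + a ^ 2 * l₁) * Polynomial.X
      + Polynomial.C ((b ^ 2 + 2 * a) * l₀ + 2 * a * b * l₁) * Polynomial.X ^ 2
      + Polynomial.C (2 * b * l₀ + (b ^ 2 + 2 * a) * l₁) * Polynomial.X ^ 3
      + Polynomial.C (l₀ + 2 * b * l₁) * Polynomial.X ^ 4 + Polynomial.C l₁ * Polynomial.X ^ 5 := by
    rw [hfm, hme, hψe]
    simp only [map_add, map_mul, map_pow, map_ofNat]
    ring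
  obtain ⟨c0, c1, c2, c3, c4, c5⟩ := coeffs6 _ _ _ _ _ _ hexp
  rw [hfc] at c0 c1 c2 c3 c4 c5
  refine ⟨b, a, l₀, l₁, hq, hpos2, ?_⟩
  have hd4 : d = 4 ∨ d = 5 := by omega
  rcases hd4 with rfl | rfl
  · left
    simp at c0 c1 c2 c3 c4 c5
    have hl : l₁ = 0 := c5.symm
    refine ⟨rfl, hl, fun x y => ?_⟩
    rw [hom]
    simp only [Finset.sum_range_succ, Finset.sum_range_zero]
    simp only [c0, c1, c2, c3, c4, hl, Nat.sub_zero, Nat.reduceSub, Nat.sub_self]
    push_cast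
    ring
  · right
    simp at c0 c1 c2 c3 c4 c5
    refine ⟨rfl, fun x y => ?_⟩
    rw [hom]
    simp only [Finset.sum_range_succ, Finset.sum_range_zero]
    simp only [c0, c1, c2, c3, c4, c5, Nat.sub_zero, Nat.reduceSub, Nat.sub_self]
    push_cast
    ring

end Pool.Agent.Lib.MP_ff4e96_co
end

section

/-!
# MP_ff4e96_co: forms which vanish at `(1, θ)`

`θ` irrational, `θ² + b θ + a = 0`, `g = y² + b x y + a x²`. A form with rational coefficients of degree 1 which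
vanishes at `(1, θ)` is 0; a form of degree 2, 3, 4 is divisible by `g`. Proof: subtract a multiple of
`g` (by a form) such that only the monomials `x^m`, `x^(m-1) y` remain: `u + v θ = 0` implies `u = v = 0`. (Explicitly
for `u₀ x³ + u₁ x² y + u₂ x y² + u₃ y³`: `v₁ = u₃`, `v₀ = u₂ - b u₃`, and the remainders
`u₁ - a v₁ - b v₀`, `u₀ - a v₀` are 0; `linear_combination`.)
`quot_mem`: quotients in `ℚ(θ) = ℚ + ℚ θ` (`(u + v θ)(w + z θ)⁻¹`, with the conjugate `θ' = -b - θ`: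
`(w + z θ)(w + z θ') = w² - b w z + a z²`, not 0 because `θ'` is irrational or `z = 0`, `w ≠ 0`).
-/

namespace Pool.Agent.Lib.MP_ff4e96_co

theorem irr_lin {θ : ℝ} (hθ : Irrational θ) {u v : ℚ} (h : (u : ℝ) + v * θ = 0) : u = 0 ∧ v = 0 := by
  have hv : v = 0 := by
    by_contra hv
    have hv' : (v : ℝ) ≠ 0 := by exact_mod_cast hv
    apply hθ
    refine ⟨-u / v, ?_⟩
    push_cast
    rw [div_eq_iff hv']
    linear_combination -h
  refine ⟨?_, hv⟩
  rw [hv, Rat.cast_zero, zero_mul, add_zero] at h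
  exact_mod_cast h

theorem irr_two {θ : ℝ} (hθ : Irrational θ) {b a : ℚ} (hg : θ ^ 2 + b * θ + a = 0) {u₀ u₁ u₂ : ℚ}
    (h : (u₀ : ℝ) + u₁ * θ + u₂ * θ ^ 2 = 0) : u₀ = u₂ * a ∧ u₁ = u₂ * b := by
  obtain ⟨h1, h2⟩ := irr_lin hθ (u := u₀ - u₂ * a) (v := u₁ - u₂ * b) (by
    push_cast
    linear_combination h - u₂ * hg)
  exact ⟨by linear_combination h1, by linear_combination h2⟩

theorem irr_three {θ : ℝ} (hθ : Irrational θ) {b a : ℚ} (hg : θ ^ 2 + b * θ + a = 0)
    {u₀ u₁ u₂ u₃ : ℚ} (h : (u₀ : ℝ) + u₁ * θ + u₂ * θ ^ 2 + u₃ * θ ^ 3 = 0) :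
    ∃ v₀ v₁ : ℚ, ∀ x y : ℝ, (u₀ : ℝ) * x ^ 3 + u₁ * x ^ 2 * y + u₂ * x * y ^ 2 + u₃ * y ^ 3 =
      (v₀ * x + v₁ * y) * (y ^ 2 + b * x * y + a * x ^ 2) := by
  obtain ⟨h1, h2⟩ := irr_lin hθ (u := u₀ - a * (u₂ - b * u₃))
    (v := u₁ - b * (u₂ - b * u₃) - a * u₃) (by
    push_cast
    linear_combination h - ((u₂ - b * u₃) + u₃ * θ) * hg)
  have e1 : (u₀ : ℝ) = a * (u₂ - b * u₃) := by
    have h3 : u₀ = a * (u₂ - b * u₃) := by linear_combination h1
    exact_mod_cast h3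
  have e2 : (u₁ : ℝ) = b * (u₂ - b * u₃) + a * u₃ := by
    have h3 : u₁ = b * (u₂ - b * u₃) + a * u₃ := by linear_combination h2
    exact_mod_cast h3
  refine ⟨u₂ - b * u₃, u₃, fun x y => ?_⟩
  push_cast
  rw [e1, e2]
  ring

theorem irr_four {θ : ℝ} (hθ : Irrational θ) {b a : ℚ} (hg : θ ^ 2 + b * θ + a = 0)
    {u₀ u₁ u₂ u₃ u₄ : ℚ} (h : (u₀ : ℝ) + u₁ * θ + u₂ * θ ^ 2 + u₃ * θ ^ 3 + u₄ * θ ^ 4 = 0) :
    ∃ v₀ v₁ v₂ : ℚ, ∀ x y : ℝ,
      (u₀ : ℝ) * x ^ 4 + u₁ * x ^ 3 * y + u₂ * x ^ 2 * y ^ 2 + u₃ * x * y ^ 3 + u₄ * y ^ 4 =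
      (v₀ * x ^ 2 + v₁ * x * y + v₂ * y ^ 2) * (y ^ 2 + b * x * y + a * x ^ 2) := by
  obtain ⟨v₁, hv₁⟩ : ∃ v₁, v₁ = u₃ - b * u₄ := ⟨_, rfl⟩
  obtain ⟨v₀, hv₀⟩ : ∃ v₀, v₀ = u₂ - b * v₁ - a * u₄ := ⟨_, rfl⟩
  have r1 : (v₁ : ℝ) = u₃ - b * u₄ := by exact_mod_cast hv₁
  have r0 : (v₀ : ℝ) = u₂ - b * v₁ - a * u₄ := by exact_mod_cast hv₀
  obtain ⟨h1, h2⟩ := irr_lin hθ (u := u₀ - a * v₀) (v := u₁ - b * v₀ - a * v₁) (by
    push_cast
    linear_combination h - (v₀ + v₁ * θ + u₄ * θ ^ 2) * hg + θ ^ 2 * r0 + θ ^ 3 * r1)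
  have e1 : (u₀ : ℝ) = a * v₀ := by
    have h3 : u₀ = a * v₀ := by linear_combination h1
    exact_mod_cast h3
  have e2 : (u₁ : ℝ) = b * v₀ + a * v₁ := by
    have h3 : u₁ = b * v₀ + a * v₁ := by linear_combination h2
    exact_mod_cast h3
  refine ⟨v₀, v₁, u₄, fun x y => ?_⟩
  linear_combination x ^ 4 * e1 + x ^ 3 * y * e2 - x ^ 2 * y ^ 2 * r0 - x * y ^ 3 * r1

theorem quot_mem {θ : ℝ} (hθ : Irrational θ) {b a : ℚ} (hg : θ ^ 2 + b * θ + a = 0) (u v w z : ℚ)
    (hwz : (w : ℝ) + z * θ ≠ 0) : ∃ p q : ℚ, ((u : ℝ) + v * θ) / (w + z * θ) = p + q * θ := by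
  have hN : (w : ℝ) ^ 2 - b * w * z + a * z ^ 2 ≠ 0 := by
    intro h
    have h1 : ((w : ℝ) + z * θ) * (w - b * z - z * θ) = 0 := by
      linear_combination h - z ^ 2 * hg
    have h2 := (mul_eq_zero.1 h1).resolve_left hwz
    obtain ⟨h3, h4⟩ := irr_lin hθ (u := w - b * z) (v := -z) (by
      push_cast
      linear_combination h2)
    have h5 : z = 0 := by linear_combination -h4
    have h6 : w = 0 := by
      rw [h5, mul_zero, sub_zero] at h3
      exact h3
    apply hwz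
    rw [h5, h6]
    simp
  refine ⟨(u * (w - b * z) + a * v * z) / (w ^ 2 - b * w * z + a * z ^ 2),
    (v * w - u * z) / (w ^ 2 - b * w * z + a * z ^ 2), ?_⟩
  push_cast
  obtain ⟨N, hNe⟩ : ∃ N : ℝ, N = (w : ℝ) ^ 2 - b * w * z + a * z ^ 2 := ⟨_, rfl⟩
  rw [← hNe] at hN ⊢
  rw [div_eq_iff hwz, div_mul_eq_mul_div, ← add_div, div_mul_eq_mul_div, eq_div_iff hN, hNe]
  linear_combination (-(v : ℝ) * w * z + u * z ^ 2) * hg

end Pool.Agent.Lib.MP_ff4e96_co
end

section

/-!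
# MP_ff4e96_co: normal forms: definitions

`θ` irrational, `θ² + b θ + a = 0`, `g = y² + b x y + a x²`. On `Near θ ε X` put `t = y / x`, `|t - θ| ≤ ε`;
`g = x² (t - θ)(t - θ')`, `θ' = -b - θ ≠ θ`.
-/

namespace Pool.Agent.Lib.MP_ff4e96_co

open Filter Topology

/-- cubic lower bound near `θ` -/
def LowC (F : ℤ × ℤ → ℝ) (θ : ℝ) : Prop :=
  ∃ c₀ ε : ℝ, 0 < c₀ ∧ 0 < ε ∧ ∃ X : ℤ, ∀ P ∈ Near θ ε X, c₀ * (P.1 : ℝ) ^ 3 ≤ F P

/-- the quadratic polynomial `N` -/
noncomputable def NN (b a n₁ n₂ n₃ : ℚ) (x y : ℝ) : ℝ :=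
  y ^ 2 + b * x * y + a * x ^ 2 + n₁ * x + n₂ * y + n₃

/-- normal form: `F = (a₀ + a₁ x + a₂ y) N² + (b₀ + b₁ x + b₂ y) N + α x² + β x y + e₀ + e₁ x + e₂ y` -/
def NF (c : ℕ → ℕ → ℚ) (θ : ℝ) (b a : ℚ) : Prop :=
  ∃ n₁ n₂ n₃ a₀ a₁ a₂ b₀ b₁ b₂ α β e₀ e₁ e₂ : ℚ,
    (∀ x y : ℝ, ev c x y = (a₀ + a₁ * x + a₂ * y) * NN b a n₁ n₂ n₃ x y ^ 2 +
      (b₀ + b₁ * x + b₂ * y) * NN b a n₁ n₂ n₃ x y + α * x ^ 2 + β * x * y +
      (e₀ + e₁ * x + e₂ * y)) ∧
    ((a₁ = 0 ∧ a₂ = 0 ∧ 0 < a₀ ∧ b₀ = 0 ∧ b₁ = 0 ∧ b₂ = 0) ∨ 0 < a₁ + a₂ * θ)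

end Pool.Agent.Lib.MP_ff4e96_co
end
end
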