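import Pool.Agent.Lib.MP_ff4e96_co.Defs
import Pool.Agent.Lib.MP_ff4e96_co.Count
import Pool.Agent.Lib.MP_ff4e96_co.NFdef

section

/-!
# MP_ff4e96_co: rational coefficients

`zero_of_cone`: fix `y`: a polynomial in `x` with infinitely many zeros; its coefficients are polynomials in `y` with
infinitely many zeros.

`rat_coeffs`: let `F` be a real polynomial of total degree at most 5, `r i j` its coefficients
(`MvPolynomial.coeff (Finsupp.single 0 i + Finsupp.single 1 j) F`), integral values on the cone. Let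
`π : ℝ → ℝ` be a `ℚ`-linear map with values in the rational numbers and `π 1 = 1` (a projection on the subspace `ℚ`,
`Submodule.exists_isCompl` or `LinearMap.exists_leftInverse_of_injective`). Then
`∑ π(r i j) x^i y^j = π (F(x, y)) = F(x, y)` for `(x, y)` in the cone, so `r = π r` by `zero_of_cone`.
-/

namespace Pool.Agent.Lib.MP_ff4e96_co

open Filter Topology

private theorem poly_zero_rat (n : ℕ) (a : ℕ → ℝ) (N : ℕ)
    (h : ∀ x : ℕ, N ≤ x → ∑ i ∈ Finset.range n, a i * (x : ℝ) ^ i = 0) : ∀ i, i < n → a i = 0 := by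
  intro i hi
  set p : Polynomial ℝ := ∑ i ∈ Finset.range n, Polynomial.C (a i) * Polynomial.X ^ i with hp
  have hp0 : p = 0 := by
    apply Polynomial.eq_zero_of_infinite_isRoot
    refine Set.infinite_of_injective_forall_mem (f := fun x : ℕ => ((N + x : ℕ) : ℝ)) ?_ ?_
    · intro x y hxy
      have hxy' : ((N + x : ℕ) : ℝ) = ((N + y : ℕ) : ℝ) := hxy
      have h2 : N + x = N + y := Nat.cast_injective hxy'
      omega
    · intro x
      change p.IsRoot _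
      rw [Polynomial.IsRoot.def, hp, Polynomial.eval_finsetSum]
      rw [← h (N + x) (Nat.le_add_right _ _)]
      refine Finset.sum_congr rfl fun j _ => ?_
      simp
  have h1 : p.coeff i = a i := by
    rw [hp, Polynomial.finsetSum_coeff]
    simp only [Polynomial.coeff_C_mul_X_pow]
    rw [Finset.sum_ite_eq, if_pos (Finset.mem_range.2 hi)]
  rw [← h1, hp0, Polynomial.coeff_zero]

theorem zero_of_cone (r : ℕ → ℕ → ℝ) {α : ℝ} (hα : 0 < α)
    (h : ∀ x y : ℕ, (y : ℝ) ≤ α * x → ∑ i ∈ Finset.range 6, ∑ j ∈ Finset.range (6 - i),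
      r i j * (x : ℝ) ^ i * (y : ℝ) ^ j = 0) : ∀ i j, i + j ≤ 5 → r i j = 0 := by
  have h1 : ∀ y : ℕ, ∀ i, i < 6 → ∑ j ∈ Finset.range (6 - i), r i j * (y : ℝ) ^ j = 0 := by
    intro y
    refine poly_zero_rat 6 (fun i => ∑ j ∈ Finset.range (6 - i), r i j * (y : ℝ) ^ j)
      ⌈(y : ℝ) / α⌉₊ fun x hx => ?_
    have hx' : (y : ℝ) / α ≤ x := (Nat.le_ceil _).trans (by exact_mod_cast hx)
    rw [div_le_iff₀ hα, mul_comm] at hx'
    rw [← h x y hx']
    refine Finset.sum_congr rfl fun i _ => ?_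
    rw [Finset.sum_mul]
    refine Finset.sum_congr rfl fun j _ => ?_
    ring
  intro i j hij
  have h2 := poly_zero_rat (6 - i) (fun j => r i j) 0 (fun y _ => h1 y i (by omega)) j (by omega)
  exact h2

theorem rat_coeffs (F : MvPolynomial (Fin 2) ℝ) {α : ℝ} (hα : 0 < α) (hd : F.totalDegree ≤ 5)
    (hN : ∀ x y : ℕ, (y : ℝ) ≤ α * x → ∃ v : ℕ, MvPolynomial.eval ![(x : ℝ), (y : ℝ)] F = v) :
    ∃ c : ℕ → ℕ → ℚ, (∀ x y : ℝ, MvPolynomial.eval ![x, y] F = ev c x y) ∧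
      (∀ i j, i + j ≤ 5 → F.totalDegree < i + j → c i j = 0) ∧
      (F ≠ 0 → ∃ j, j ≤ F.totalDegree ∧ c (F.totalDegree - j) j ≠ 0) := by
  classical
  set r : ℕ → ℕ → ℝ := fun i j =>
    MvPolynomial.coeff (Finsupp.single 0 i + Finsupp.single 1 j) F with hr
  have hd2 : ∀ d : Fin 2 →₀ ℕ, Finsupp.single 0 (d 0) + Finsupp.single 1 (d 1) = d := by
    intro d
    ext i
    fin_cases i
    · simp
    · simp
  have hsum : ∀ d ∈ F.support, d 0 + d 1 ≤ F.totalDegree := by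
    intro d hd'
    have h1 := MvPolynomial.le_totalDegree hd'
    rw [Finsupp.sum_fintype _ _ (fun _ => rfl), Fin.sum_univ_two] at h1
    exact h1
  have hev : ∀ x y : ℝ, MvPolynomial.eval ![x, y] F =
      ∑ i ∈ Finset.range 6, ∑ j ∈ Finset.range (6 - i), r i j * x ^ i * y ^ j := by
    intro x y
    rw [MvPolynomial.eval_eq']
    have e1 : ∀ d : Fin 2 →₀ ℕ, MvPolynomial.coeff d F * ∏ i, ![x, y] i ^ d i =
        MvPolynomial.coeff d F * x ^ d 0 * y ^ d 1 := by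
      intro d
      rw [Fin.prod_univ_two, mul_assoc]
      rfl
    rw [Finset.sum_congr rfl fun d _ => e1 d]
    rw [Finset.sum_sigma']
    set T := (Finset.range 6).sigma fun i => Finset.range (6 - i) with hT
    have hinj : Set.InjOn (fun p : Σ _ : ℕ, ℕ =>
        (Finsupp.single 0 p.1 + Finsupp.single 1 p.2 : Fin 2 →₀ ℕ)) T := by
      rintro ⟨i, j⟩ _ ⟨i', j'⟩ _ h
      have h0 := DFunLike.congr_fun h 0
      have h1 := DFunLike.congr_fun h 1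
      simp at h0 h1
      subst h0 h1
      rfl
    have hsub : F.support ⊆ T.image (fun p : Σ _ : ℕ, ℕ =>
        (Finsupp.single 0 p.1 + Finsupp.single 1 p.2 : Fin 2 →₀ ℕ)) := by
      intro d hd'
      have h1 := hsum d hd'
      refine Finset.mem_image.2 ⟨⟨d 0, d 1⟩, ?_, hd2 d⟩
      rw [hT, Finset.mem_sigma, Finset.mem_range, Finset.mem_range]
      constructor
      · change d 0 < 6
        omega
      · change d 1 < 6 - d 0
        omega
    rw [Finset.sum_subset hsub]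
    · rw [Finset.sum_image hinj]
      refine Finset.sum_congr rfl fun p _ => ?_
      simp [hr]
    · intro d _ hd'
      rw [MvPolynomial.notMem_support_iff.1 hd']
      ring
  obtain ⟨g, hg⟩ := LinearMap.exists_leftInverse_of_injective (Algebra.linearMap ℚ ℝ)
    (LinearMap.ker_eq_bot.2 (algebraMap ℚ ℝ).injective)
  have hgq : ∀ q : ℚ, g (q : ℝ) = q := by
    intro q
    have h1 := LinearMap.congr_fun hg q
    simpa using h1
  have hgn : ∀ (n : ℕ) (z : ℝ), g (n * z) = n * g z := by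
    intro n z
    rw [← nsmul_eq_mul, map_nsmul, nsmul_eq_mul]
  have hrc : ∀ i j, i + j ≤ 5 → r i j - (g (r i j) : ℚ) = 0 := by
    refine zero_of_cone (fun i j => r i j - (g (r i j) : ℚ)) hα fun x y hxy => ?_
    obtain ⟨v, hv⟩ := hN x y hxy
    rw [hev] at hv
    have h1 := congrArg g hv
    have h2 : g (v : ℝ) = v := by
      have := hgq (v : ℚ)
      rw [← this]
      norm_cast
    rw [h2, map_sum] at h1
    have h3 : ∀ i ∈ Finset.range 6, g (∑ j ∈ Finset.range (6 - i), r i j * (x : ℝ) ^ i * (y : ℝ) ^ j) =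
        ∑ j ∈ Finset.range (6 - i), g (r i j) * (x : ℚ) ^ i * (y : ℚ) ^ j := by
      intro i _
      rw [map_sum]
      refine Finset.sum_congr rfl fun j _ => ?_
      have e : r i j * (x : ℝ) ^ i * (y : ℝ) ^ j = ((x ^ i * y ^ j : ℕ) : ℝ) * r i j := by
        push_cast
        ring
      rw [e, hgn]
      push_cast
      ring
    rw [Finset.sum_congr rfl h3] at h1
    have h4 : (∑ i ∈ Finset.range 6, ∑ j ∈ Finset.range (6 - i),
        ((g (r i j) : ℚ) : ℝ) * (x : ℝ) ^ i * (y : ℝ) ^ j) = v := by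
      have := congrArg (fun q : ℚ => (q : ℝ)) h1
      push_cast at this
      exact this
    have h5 : (∑ i ∈ Finset.range 6, ∑ j ∈ Finset.range (6 - i),
        (r i j - ((g (r i j) : ℚ) : ℝ)) * (x : ℝ) ^ i * (y : ℝ) ^ j) =
        (∑ i ∈ Finset.range 6, ∑ j ∈ Finset.range (6 - i), r i j * (x : ℝ) ^ i * (y : ℝ) ^ j) -
        ∑ i ∈ Finset.range 6, ∑ j ∈ Finset.range (6 - i),
          ((g (r i j) : ℚ) : ℝ) * (x : ℝ) ^ i * (y : ℝ) ^ j := by
      rw [← Finset.sum_sub_distrib]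
      refine Finset.sum_congr rfl fun i _ => ?_
      rw [← Finset.sum_sub_distrib]
      refine Finset.sum_congr rfl fun j _ => ?_
      ring
    rw [h5, hv, h4, sub_self]
  have hrc' : ∀ i j, i + j ≤ 5 → ((g (r i j) : ℚ) : ℝ) = r i j := fun i j hij =>
    (sub_eq_zero.1 (hrc i j hij)).symm
  refine ⟨fun i j => g (r i j), fun x y => ?_, fun i j hij hlt => ?_, fun hF => ?_⟩
  · rw [hev]
    unfold ev
    refine Finset.sum_congr rfl fun i _ => Finset.sum_congr rfl fun j hj => ?_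
    rw [hrc' i j (by have := Finset.mem_range.1 hj; omega)]
  · have h1 : r i j = 0 := by
      by_contra hne
      have h2 := hsum (Finsupp.single 0 i + Finsupp.single 1 j)
        (MvPolynomial.mem_support_iff.2 hne)
      simp at h2
      omega
    change g (r i j) = 0
    rw [h1, map_zero]
  · have hne : F.support.Nonempty := MvPolynomial.support_nonempty.2 hF
    obtain ⟨d, hd1, hd3⟩ := Finset.exists_mem_eq_sup F.support hne fun d => d.sum fun _ e => e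
    have h1 : F.totalDegree = d 0 + d 1 := by
      have h2 : F.totalDegree = d.sum fun _ e => e := hd3
      rw [h2, Finsupp.sum_fintype _ _ (fun _ => rfl), Fin.sum_univ_two]
    refine ⟨d 1, by omega, ?_⟩
    have e : F.totalDegree - d 1 = d 0 := by omega
    rw [e]
    intro h2
    change g (r (d 0) (d 1)) = 0 at h2
    have h3 := hrc' (d 0) (d 1) (by omega)
    rw [h2] at h3
    apply MvPolynomial.mem_support_iff.1 hd1
    rw [← hd2 d]
    rw [Rat.cast_zero] at h3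
    exact h3.symm

end Pool.Agent.Lib.MP_ff4e96_co
end

section

/-!
# MP_ff4e96_co: linear substitutions

`subst`: `ev c (p x + q y) (r x + s y) = ev c' x y` (the class of polynomials of total degree at most 5 is closed
under linear substitutions: e.g. with `MvPolynomial`, or explicitly with the binomial theorem, or as the set of
functions spanned by the monomials: show that `x^i y^j` composed with the substitution is `ev c'` by
induction on `i + j`, with degree bounds). `subst_deg`: if `p s - q r = 1` or `-1` and some `c i j ≠ 0` with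
`3 ≤ i + j ≤ 5` then some `c' i j ≠ 0` with `3 ≤ i + j ≤ 5`: otherwise `ev c'` is a polynomial of degree at most 2,
and `ev c` is obtained from it by the inverse substitution, so `c i j = 0` for `3 ≤ i + j` by uniqueness.
-/

namespace Pool.Agent.Lib.MP_ff4e96_co

open Filter Topology

private def PL (n : ℕ) (f : ℝ → ℝ → ℝ) : Prop :=
  ∃ c : ℕ → ℕ → ℚ, (∀ i j, n < i + j → c i j = 0) ∧ ∀ x y : ℝ, f x y = ev c x y

private theorem PL.add {n : ℕ} {f g : ℝ → ℝ → ℝ} (hf : PL n f) (hg : PL n g) :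
    PL n (fun x y => f x y + g x y) := by
  obtain ⟨c, hc, hcf⟩ := hf
  obtain ⟨d, hd, hdf⟩ := hg
  refine ⟨fun i j => c i j + d i j, fun i j h => by simp [hc i j h, hd i j h], fun x y => ?_⟩
  simp only [hcf, hdf, ev_eq]
  push_cast
  ring

private theorem PL.smul {n : ℕ} {f : ℝ → ℝ → ℝ} (hf : PL n f) (a : ℚ) :
    PL n (fun x y => (a : ℝ) * f x y) := by
  obtain ⟨c, hc, hcf⟩ := hf
  refine ⟨fun i j => a * c i j, fun i j h => by simp [hc i j h], fun x y => ?_⟩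
  simp only [hcf, ev_eq]
  push_cast
  ring

private theorem PL.zero (n : ℕ) : PL n (fun _ _ => 0) := by
  refine ⟨fun _ _ => 0, fun _ _ _ => rfl, fun x y => ?_⟩
  simp [ev_eq]

private theorem PL.mono {m n : ℕ} (hmn : m ≤ n) {f : ℝ → ℝ → ℝ} (hf : PL m f) : PL n f := by
  obtain ⟨c, hc, hcf⟩ := hf
  exact ⟨c, fun i j h => hc i j (by omega), hcf⟩

private theorem PL.sum {ι : Type} (s : Finset ι) {n : ℕ} {f : ι → ℝ → ℝ → ℝ}
    (hf : ∀ i ∈ s, PL n (f i)) : PL n (fun x y => ∑ i ∈ s, f i x y) := by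
  classical
  induction s using Finset.induction_on with
  | empty => simpa using PL.zero n
  | insert a s ha ih =>
    have h1 := (hf a (Finset.mem_insert_self _ _)).add
      (ih fun i hi => hf i (Finset.mem_insert_of_mem hi))
    simpa [Finset.sum_insert ha] using h1

private theorem PL.lin {n : ℕ} (hn : n ≤ 4) {f : ℝ → ℝ → ℝ} (hf : PL n f) (a b : ℚ) :
    PL (n + 1) (fun x y => ((a : ℝ) * x + (b : ℝ) * y) * f x y) := by
  obtain ⟨c, hc, hcf⟩ := hf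
  let A : ℕ → ℕ → ℚ := fun i j => match i with
    | 0 => 0
    | i' + 1 => a * c i' j
  let B : ℕ → ℕ → ℚ := fun i j => match j with
    | 0 => 0
    | j' + 1 => b * c i j'
  refine ⟨fun i j => A i j + B i j, ?_, fun x y => ?_⟩
  · intro i j h
    have hA : A i j = 0 := by
      rcases i with _ | i
      · rfl
      · show a * c i j = 0
        rw [hc i j (by omega), mul_zero]
    have hB : B i j = 0 := by
      rcases j with _ | j
      · rfl
      · show b * c i j = 0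
        rw [hc i j (by omega), mul_zero]
    simp only [hA, hB, add_zero]
  · have h0 := hc 0 5 (by omega)
    have h1 := hc 1 4 (by omega)
    have h2 := hc 2 3 (by omega)
    have h3 := hc 3 2 (by omega)
    have h4 := hc 4 1 (by omega)
    have h5 := hc 5 0 (by omega)
    simp only [hcf, ev_eq, A, B, h0, h1, h2, h3, h4, h5]
    push_cast
    ring

private theorem PL.pow (a b a' b' : ℚ) : ∀ (j i : ℕ), i + j ≤ 5 →
    PL (i + j) (fun x y => ((a : ℝ) * x + (b : ℝ) * y) ^ i * ((a' : ℝ) * x + (b' : ℝ) * y) ^ j) := by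
  intro j
  induction j with
  | zero =>
    intro i
    induction i with
    | zero =>
      intro _
      refine ⟨fun i j => if i = 0 ∧ j = 0 then 1 else 0, ?_, fun x y => ?_⟩
      · intro i j h
        show (if i = 0 ∧ j = 0 then (1 : ℚ) else 0) = 0
        rw [if_neg]
        omega
      · simp [ev_eq]
    | succ i ih =>
      intro hi
      have h1 := (ih (by omega)).lin (by omega) a b
      have h2 : i + 0 + 1 = i + 1 + 0 := by omega
      rw [h2] at h1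
      convert h1 using 3
      ring
  | succ j ih =>
    intro i hi
    have h1 := (ih i (by omega)).lin (by omega) a' b'
    have h2 : i + j + 1 = i + (j + 1) := by omega
    rw [h2] at h1
    convert h1 using 3
    ring

private theorem PL.ev_subst {n : ℕ} (hn : n ≤ 5) (c : ℕ → ℕ → ℚ)
    (hc : ∀ i j, i + j ≤ 5 → n < i + j → c i j = 0)
    (a b a' b' : ℚ) :
    PL n (fun x y => ev c ((a : ℝ) * x + (b : ℝ) * y) ((a' : ℝ) * x + (b' : ℝ) * y)) := by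
  have h : ∀ i ∈ Finset.range 6, PL n (fun x y => ∑ j ∈ Finset.range (6 - i),
      (c i j : ℝ) * (((a : ℝ) * x + (b : ℝ) * y) ^ i * ((a' : ℝ) * x + (b' : ℝ) * y) ^ j)) := by
    intro i hi
    apply PL.sum
    intro j hj
    rw [Finset.mem_range] at hi hj
    by_cases hij : i + j ≤ n
    · exact ((PL.pow a b a' b' j i (by omega)).mono hij).smul (c i j)
    · have h0 : c i j = 0 := hc i j (by omega) (by omega)
      simp only [h0, Rat.cast_zero, zero_mul]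
      exact PL.zero n
  have h2 := PL.sum (Finset.range 6) h
  convert h2 using 3 with x y
  unfold ev
  refine Finset.sum_congr rfl fun i _ => Finset.sum_congr rfl fun j _ => ?_
  ring

private theorem ev_unique {c d : ℕ → ℕ → ℚ} (h : ∀ x y : ℝ, ev c x y = ev d x y) :
    ∀ i j, i + j ≤ 5 → c i j = d i j := by
  intro i j hij
  have h1 := zero_of_cone (fun i j => (c i j : ℝ) - (d i j : ℝ)) (α := 1) one_pos ?_ i j hij
  · have h2 : (c i j : ℝ) = (d i j : ℝ) := by linarith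
    exact_mod_cast h2
  · intro x y _
    have h2 := h x y
    unfold ev at h2
    rw [← sub_eq_zero] at h2
    rw [← h2, ← Finset.sum_sub_distrib]
    refine Finset.sum_congr rfl fun i _ => ?_
    rw [← Finset.sum_sub_distrib]
    refine Finset.sum_congr rfl fun j _ => ?_
    ring

theorem subst (c : ℕ → ℕ → ℚ) (p q r s : ℤ) : ∃ c' : ℕ → ℕ → ℚ,
    (∀ x y : ℝ, ev c (p * x + q * y) (r * x + s * y) = ev c' x y) ∧
    (((∃ i j, i + j ≤ 5 ∧ 3 ≤ i + j ∧ c i j ≠ 0) ∧ p * s - q * r ≠ 0) →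
      ∃ i j, i + j ≤ 5 ∧ 3 ≤ i + j ∧ c' i j ≠ 0) := by
  obtain ⟨c', hc', hcc'⟩ := PL.ev_subst (n := 5) le_rfl c (fun i j h h' => by omega)
    (p : ℚ) (q : ℚ) (r : ℚ) (s : ℚ)
  have hcc : ∀ x y : ℝ, ev c (p * x + q * y) (r * x + s * y) = ev c' x y := by
    intro x y
    have h := hcc' x y
    simpa using h
  refine ⟨c', hcc, ?_⟩
  rintro ⟨⟨i, j, hij, hij3, hne⟩, hdet⟩
  by_contra hcon
  push Not at hcon
  have hD : ((p : ℚ) * s - q * r) ≠ 0 := by exact_mod_cast hdet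
  have hDR : ((p : ℝ) * s - q * r) ≠ 0 := by exact_mod_cast hdet
  obtain ⟨c'', hc'', hcc''⟩ := PL.ev_subst (n := 2) (by omega) c'
    (fun i j h h' => hcon i j h (by omega))
    ((s : ℚ) / (p * s - q * r)) (-(q : ℚ) / (p * s - q * r))
    (-(r : ℚ) / (p * s - q * r)) ((p : ℚ) / (p * s - q * r))
  have hev : ∀ u v : ℝ, ev c u v = ev c'' u v := by
    intro u v
    have h := hcc'' u v
    beta_reduce at h
    rw [← hcc] at h
    rw [← h]
    push_cast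
    have hDD : ((p : ℝ) * s - q * r) * ((p : ℝ) * s - q * r)⁻¹ = 1 := mul_inv_cancel₀ hDR
    congr 1
    · simp only [div_eq_mul_inv]
      linear_combination (-u) * hDD
    · simp only [div_eq_mul_inv]
      linear_combination (-v) * hDD
  have h1 := ev_unique hev i j hij
  exact hne (by rw [h1]; exact hc'' i j (by omega))

end Pool.Agent.Lib.MP_ff4e96_co
end

section

/-!
# MP_ff4e96_co: lower bound from the normal form, degree 5

`F = (a₀ + a₁ x + a₂ y) N² + (b₀ + b₁ x + b₂ y) N + α x² + β x y + e₀ + e₁ x + e₂ y` with natural values and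
injective on `Near θ ε X`. Let `κ = α + β θ`. `D ≥ 1` a common denominator of the coefficients of `N`, so
`N ∈ (1/D) ℤ` at lattice points. By `pell` every value `ν` of `N` at a point of `Near θ ε X₁` (`ε` small) is
attained at points of `Near θ ε X` for all `X`; call `ν` attained. For such points with `N = ν` fixed and `x → ∞`
we have `y = θ x + O(1)` (`N = (y - θ x)(y - θ' x) + n₁ x + n₂ y + n₃`, so `|y - θ x| ≤ C`).

Case 2 (`L = a₁ + a₂ θ > 0`): on `Near θ ε X` with `ε` small, `X` large: `a₀ + a₁ x + a₂ y ≥ (L/2) x`,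
 `|b₀ + b₁ x + b₂ y| ≤ C x`.
 * `κ > 0`: `F ≥ (L/2) x N² - C x |N| + (κ/2) x² - C x ≥ (L/4) x N² + (κ/4) x²`.
 * `κ < 0`: along fixed attained `ν` `F ≤ C x + (κ/2) x² < 0`.
 * `κ = 0`: `α = β = 0`. For fixed `ν`: `F = (a₁ ν² + b₁ ν + e₁) x + (a₂ ν² + b₂ ν + e₂) y + const`, rational
   coefficients if `ν` is rational; the slope in the direction `(1, θ)` is
   `Q(ν) = (a₁ + a₂ θ) ν² + (b₁ + b₂ θ) ν + (e₁ + e₂ θ)`. `Q(ν) < 0` is impossible for attained `ν` (`F → -∞`),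
   `Q(ν) = 0` is impossible (then both coefficients are 0 by `irr_lin` and `F` is constant on infinitely many
   points). So `Q(ν) > 0` for all attained `ν ∈ (1/D) ℤ`, hence `Q(ν) ≥ 4 c (1 + ν²)` for all attained `ν` with a
   constant `c > 0`. `F = x (Q(N) + (t - θ)(a₂ N² + b₂ N + e₂)) + a₀ N² + b₀ N + e₀`, `t = y/x`, so
   `F ≥ 2 c x (1 + N²) - C (1 + N²) ≥ c x (1 + N²)` for `ε` small and `X` large.
-/

namespace Pool.Agent.Lib.MP_ff4e96_co

open Filter Topology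

/-- lattice points near the ray exist -/
private theorem exists_near (θ : ℝ) {ε : ℝ} (hε : 0 < ε) (X : ℤ) : ∃ P, P ∈ Near θ ε X := by
  obtain ⟨n, hn⟩ := exists_nat_gt (1 / ε)
  refine ⟨(max X n, ⌊θ * (max X n : ℤ)⌋), ?_, ?_⟩
  · simp
  · simp only
    have h1 := Int.floor_le (θ * ((max X n : ℤ) : ℝ))
    have h2 := Int.lt_floor_add_one (θ * ((max X n : ℤ) : ℝ))
    have h3 : (n : ℝ) ≤ ((max X n : ℤ) : ℝ) := by
      have : (n : ℤ) ≤ max X n := le_max_right _ _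
      exact_mod_cast this
    have h4 : 1 ≤ ε * n := by
      have := (div_lt_iff₀ hε).mp hn
      linarith
    have h5 : ε * n ≤ ε * ((max X n : ℤ) : ℝ) := mul_le_mul_of_nonneg_left h3 hε.le
    rw [abs_le]
    constructor <;> linarith

/-- points with a fixed value of `N` stay at bounded distance from the ray -/
private theorem bdd_of_NN {θ : ℝ} (hθ : Irrational θ) {b a : ℚ} (hg : θ ^ 2 + b * θ + a = 0)
    (n₁ n₂ n₃ : ℚ) {ε : ℝ} (hε1 : ε ≤ |2 * θ + b| / 2) (ν : ℝ) :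
    ∃ C : ℝ, 0 ≤ C ∧ ∀ P ∈ Near θ ε 1, NN b a n₁ n₂ n₃ P.1 P.2 = ν →
      |(P.2 : ℝ) - θ * P.1| ≤ C := by
  have hne : (2 * θ + b : ℝ) ≠ 0 := by
    intro h
    apply hθ
    refine ⟨-b / 2, ?_⟩
    push_cast
    linarith
  have hpos : 0 < |2 * θ + (b : ℝ)| := abs_pos.mpr hne
  set K : ℝ := |ν| + |(n₃ : ℝ)| + |(n₁ : ℝ)| + |(n₂ : ℝ)| * (|θ| + |ε|) with hK
  have hK0 : 0 ≤ K := by positivity
  refine ⟨2 * K / |2 * θ + (b : ℝ)|, by positivity, ?_⟩
  rintro ⟨p, q⟩ ⟨hp1, hp2⟩ hN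
  simp only at hp1 hp2 hN ⊢
  have hx1 : (1 : ℝ) ≤ p := by exact_mod_cast hp1
  set x : ℝ := (p : ℝ)
  set y : ℝ := (q : ℝ)
  set δ : ℝ := y - θ * x with hδ
  have hy : y = θ * x + δ := by rw [hδ]; ring
  have hid : δ * (δ + (2 * θ + b) * x) = ν - n₁ * x - n₂ * y - n₃ := by
    rw [← hN, NN, hy]
    linear_combination (-(x ^ 2)) * hg
  have hyb : |y| ≤ (|θ| + |ε|) * x := by
    rw [hy]
    calc |θ * x + δ| ≤ |θ * x| + |δ| := abs_add_le _ _
      _ ≤ |θ| * x + ε * x := by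
        rw [abs_mul, abs_of_nonneg (by linarith : (0 : ℝ) ≤ x)]
        linarith
      _ ≤ (|θ| + |ε|) * x := by
        have := le_abs_self ε
        nlinarith
  have hR : |ν - n₁ * x - n₂ * y - n₃| ≤ K * x := by
    have e1 : |ν - n₁ * x - n₂ * y - n₃| ≤ |ν| + |(n₁ : ℝ)| * x + |(n₂ : ℝ)| * |y| + |(n₃ : ℝ)| := by
      have t1 := abs_sub (ν - n₁ * x - n₂ * y) (n₃ : ℝ)
      have t2 := abs_sub (ν - n₁ * x) ((n₂ : ℝ) * y)
      have t3 := abs_sub ν ((n₁ : ℝ) * x)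
      rw [abs_mul] at t2 t3
      rw [abs_of_nonneg (by linarith : (0 : ℝ) ≤ x)] at t3
      linarith
    have e2 : |(n₂ : ℝ)| * |y| ≤ |(n₂ : ℝ)| * ((|θ| + |ε|) * x) :=
      mul_le_mul_of_nonneg_left hyb (abs_nonneg _)
    have e3 : |ν| ≤ |ν| * x := le_mul_of_one_le_right (abs_nonneg _) hx1
    have e4 : |(n₃ : ℝ)| ≤ |(n₃ : ℝ)| * x := le_mul_of_one_le_right (abs_nonneg _) hx1
    rw [hK]
    nlinarith
  have hlow : |2 * θ + (b : ℝ)| / 2 * x ≤ |δ + (2 * θ + b) * x| := by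
    have t1 : |(2 * θ + (b : ℝ)) * x| - |δ| ≤ |δ + (2 * θ + b) * x| := by
      have := abs_sub_abs_le_abs_sub ((2 * θ + (b : ℝ)) * x) (-δ)
      rw [abs_neg] at this
      calc _ ≤ |(2 * θ + (b : ℝ)) * x - -δ| := this
        _ = _ := by congr 1; ring
    rw [abs_mul, abs_of_nonneg (by linarith : (0 : ℝ) ≤ x)] at t1
    nlinarith
  have hprod : |δ| * (|2 * θ + (b : ℝ)| / 2 * x) ≤ K * x := by
    calc |δ| * (|2 * θ + (b : ℝ)| / 2 * x) ≤ |δ| * |δ + (2 * θ + b) * x| :=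
          mul_le_mul_of_nonneg_left hlow (abs_nonneg _)
      _ = |ν - n₁ * x - n₂ * y - n₃| := by rw [← abs_mul, hid]
      _ ≤ K * x := hR
  rw [le_div_iff₀ hpos]
  have hx0 : 0 < x := by linarith
  have : (|δ| * |2 * θ + (b : ℝ)|) * x ≤ (2 * K) * x := by nlinarith
  exact le_of_mul_le_mul_right this hx0

/-- a positive quadratic function on a discrete set -/
private theorem quad_low {L B E : ℝ} (hL : 0 < L) {D : ℝ} (hD : 0 < D) (A : Set ℝ)
    (hA : ∀ ν ∈ A, ∃ m : ℤ, ν = m / D) (hpos : ∀ ν ∈ A, 0 < L * ν ^ 2 + B * ν + E) :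
    ∃ c : ℝ, 0 < c ∧ ∀ ν ∈ A, 4 * c * (1 + ν ^ 2) ≤ L * ν ^ 2 + B * ν + E := by
  set R : ℝ := 1 + 2 / L * (|B| + |E| + L) with hR
  have hR1 : 1 ≤ R := by
    rw [hR]
    have : 0 ≤ 2 / L * (|B| + |E| + L) := by positivity
    linarith
  have hbig : ∀ ν : ℝ, R ≤ |ν| → L / 2 * (1 + ν ^ 2) ≤ L * ν ^ 2 + B * ν + E := by
    intro ν hν
    have h1 : ν ^ 2 = |ν| ^ 2 := (sq_abs ν).symm
    have h2 : -(|B| * |ν|) ≤ B * ν := by
      rw [← abs_mul]
      exact neg_abs_le _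
    have h3 : -|E| ≤ E := neg_abs_le _
    have h4 : L * R = L + 2 * (|B| + |E| + L) := by
      rw [hR]
      field_simp
    have h5 : 1 ≤ |ν| := le_trans hR1 hν
    have h6 : L * R ≤ L * |ν| := mul_le_mul_of_nonneg_left hν hL.le
    have h7 : L * R * |ν| ≤ L * |ν| * |ν| := mul_le_mul_of_nonneg_right h6 (abs_nonneg _)
    have h8 : (|E| + L) * 1 ≤ (|E| + L) * |ν| := mul_le_mul_of_nonneg_left h5 (by positivity)
    rw [h4] at h7
    rw [h1]
    nlinarith [abs_nonneg B, abs_nonneg ν]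
  have hfin : (A ∩ {ν | |ν| ≤ R}).Finite := by
    apply Set.Finite.subset
      ((Set.finite_Icc (⌊-(D * R)⌋) (⌈D * R⌉)).image (fun m : ℤ => (m : ℝ) / D))
    rintro ν ⟨hν, hb⟩
    obtain ⟨m, rfl⟩ := hA ν hν
    refine ⟨m, ?_, rfl⟩
    simp only [Set.mem_ofPred_eq, abs_div, abs_of_pos hD] at hb
    rw [div_le_iff₀ hD, abs_le] at hb
    constructor
    · rw [← Int.cast_le (R := ℝ)]
      have := Int.floor_le (-(D * R))
      linarith
    · rw [← Int.cast_le (R := ℝ)]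
      have := Int.le_ceil (D * R)
      linarith
  obtain ⟨c₁, hc₁, hmin⟩ : ∃ c₁ : ℝ, 0 < c₁ ∧ ∀ ν ∈ A ∩ {ν | |ν| ≤ R},
      c₁ * (1 + ν ^ 2) ≤ L * ν ^ 2 + B * ν + E := by
    rcases (A ∩ {ν | |ν| ≤ R}).eq_empty_or_nonempty with he | hne
    · exact ⟨1, one_pos, fun ν hν => by rw [he] at hν; exact hν.elim⟩
    · obtain ⟨ν₀, hν₀, hm⟩ := Set.exists_min_image _
        (fun ν => (L * ν ^ 2 + B * ν + E) / (1 + ν ^ 2)) hfin hne
      refine ⟨(L * ν₀ ^ 2 + B * ν₀ + E) / (1 + ν₀ ^ 2),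
        div_pos (hpos _ hν₀.1) (by positivity), fun ν hν => ?_⟩
      have := hm ν hν
      rwa [le_div_iff₀ (by positivity)] at this
  refine ⟨min (L / 2) c₁ / 4, by positivity, fun ν hν => ?_⟩
  have hq : 4 * (min (L / 2) c₁ / 4) = min (L / 2) c₁ := by ring
  rw [hq]
  rcases le_total |ν| R with h | h
  · exact le_trans (mul_le_mul_of_nonneg_right (min_le_right _ _) (by positivity)) (hmin ν ⟨hν, h⟩)
  · exact le_trans (mul_le_mul_of_nonneg_right (min_le_left _ _) (by positivity)) (hbig ν h)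

private theorem abs_le_one_add_sq (v : ℝ) : |v| ≤ 1 + v ^ 2 := by
  nlinarith [sq_abs v, sq_nonneg (|v| - 1), abs_nonneg v]

private theorem quad_abs (p q r v : ℝ) :
    |p * v ^ 2 + q * v + r| ≤ (|p| + |q| + |r|) * (1 + v ^ 2) := by
  calc |p * v ^ 2 + q * v + r| ≤ |p * v ^ 2| + |q * v| + |r| := abs_add_three _ _ _
    _ = |p| * v ^ 2 + |q| * |v| + |r| := by rw [abs_mul, abs_mul, abs_of_nonneg (sq_nonneg v)]
    _ ≤ _ := by
      nlinarith [abs_nonneg p, abs_nonneg q, abs_nonneg r, sq_nonneg v,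
        mul_le_mul_of_nonneg_left (abs_le_one_add_sq v) (abs_nonneg q),
        mul_nonneg (abs_nonneg r) (sq_nonneg v)]

private theorem final_ineq {c x v : ℝ} (hc : 0 ≤ c) (hx : 1 ≤ x) :
    c * (v ^ 2 + x) ≤ 2 * c * x * (1 + v ^ 2) := by
  have h1 : 0 ≤ c * v ^ 2 * (x - 1) := mul_nonneg (by positivity) (by linarith)
  have h2 : 0 ≤ c * x := mul_nonneg hc (by linarith)
  have h3 : 0 ≤ c * x * v ^ 2 := mul_nonneg h2 (sq_nonneg v)
  linarith

/-- `N` is rational with a bounded denominator at lattice points -/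
private theorem NN_int (b a n₁ n₂ n₃ : ℚ) : ∃ D : ℝ, 0 < D ∧
    ∀ P : ℤ × ℤ, ∃ m : ℤ, NN b a n₁ n₂ n₃ P.1 P.2 = m / D := by
  have key : ∀ q : ℚ, (q : ℝ) = (q.num : ℝ) / (q.den : ℝ) := fun q => by
    exact_mod_cast (Rat.num_div_den q).symm
  have hd : ∀ q : ℚ, (0 : ℝ) < (q.den : ℝ) := fun q => by exact_mod_cast q.den_pos
  refine ⟨(b.den : ℝ) * a.den * n₁.den * n₂.den * n₃.den, ?_, ?_⟩
  · have := hd b
    have := hd a
    have := hd n₁
    have := hd n₂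
    have := hd n₃
    positivity
  · rintro ⟨x, y⟩
    refine ⟨(b.den : ℤ) * a.den * n₁.den * n₂.den * n₃.den * y ^ 2 +
      b.num * a.den * n₁.den * n₂.den * n₃.den * x * y +
      a.num * b.den * n₁.den * n₂.den * n₃.den * x ^ 2 +
      n₁.num * b.den * a.den * n₂.den * n₃.den * x +
      n₂.num * b.den * a.den * n₁.den * n₃.den * y +
      n₃.num * b.den * a.den * n₁.den * n₂.den, ?_⟩
    have h1 := (hd b).ne'
    have h2 := (hd a).ne'
    have h3 := (hd n₁).ne'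
    have h4 := (hd n₂).ne'
    have h5 := (hd n₃).ne'
    simp only [NN]
    rw [key b, key a, key n₁, key n₂, key n₃]
    push_cast
    field_simp

/-- `N` is rational at lattice points -/
private theorem NN_rat (b a n₁ n₂ n₃ : ℚ) (P : ℤ × ℤ) :
    ∃ r : ℚ, NN b a n₁ n₂ n₃ P.1 P.2 = r := by
  refine ⟨(P.2 : ℚ) ^ 2 + b * P.1 * P.2 + a * P.1 ^ 2 + n₁ * P.1 + n₂ * P.2 + n₃, ?_⟩
  simp only [NN]
  push_cast
  ring

theorem nf_low2 {θ : ℝ} (hθ : Irrational θ) {b a : ℚ} (hg : θ ^ 2 + b * θ + a = 0)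
    (F : ℤ × ℤ → ℝ) (n₁ n₂ n₃ a₀ a₁ a₂ b₀ b₁ b₂ α β e₀ e₁ e₂ : ℚ)
    (hF : ∀ x y : ℤ, F (x, y) = (a₀ + a₁ * x + a₂ * y) * NN b a n₁ n₂ n₃ x y ^ 2 +
      (b₀ + b₁ * x + b₂ * y) * NN b a n₁ n₂ n₃ x y + α * (x : ℝ) ^ 2 + β * x * y +
      (e₀ + e₁ * x + e₂ * y)) (ha : 0 < a₁ + a₂ * θ) {ε : ℝ} (hε : 0 < ε) {X : ℤ}
    (hNI : NI F (Near θ ε X)) :
    ∃ c₀ ε' : ℝ, 0 < c₀ ∧ 0 < ε' ∧ ∃ X' : ℤ, ∀ P ∈ Near θ ε' X',
      c₀ * (NN b a n₁ n₂ n₃ P.1 P.2 ^ 2 + P.1) ≤ F P := by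
  set L : ℝ := a₁ + a₂ * θ with hL
  set B : ℝ := b₁ + b₂ * θ with hB
  set E : ℝ := e₁ + e₂ * θ with hE
  set κ : ℝ := α + β * θ with hκ
  have hne : (2 * θ + b : ℝ) ≠ 0 := by
    intro h
    apply hθ
    refine ⟨-b / 2, ?_⟩
    push_cast
    linarith
  have hpos : 0 < |2 * θ + (b : ℝ)| := abs_pos.mpr hne
  -- expansion of `F`
  have hexp : ∀ P : ℤ × ℤ, F P = (L * P.1 + a₂ * ((P.2 : ℝ) - θ * P.1) + a₀) *
      NN b a n₁ n₂ n₃ P.1 P.2 ^ 2 + (B * P.1 + b₂ * ((P.2 : ℝ) - θ * P.1) + b₀) *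
      NN b a n₁ n₂ n₃ P.1 P.2 + κ * (P.1 : ℝ) ^ 2 + β * P.1 * ((P.2 : ℝ) - θ * P.1) +
      (E * P.1 + e₂ * ((P.2 : ℝ) - θ * P.1) + e₀) := by
    rintro ⟨x, y⟩
    rw [hF]
    simp only [hL, hB, hE, hκ]
    ring
  obtain ⟨ε₀, hε₀, hpell⟩ := pell hθ hg n₁ n₂ n₃
  set ε₁ : ℝ := min (min ε ε₀) (|2 * θ + (b : ℝ)| / 2) with hε₁
  have hε₁0 : 0 < ε₁ := by positivity
  have hε₁ε : ε₁ ≤ ε := le_trans (min_le_left _ _) (min_le_left _ _)
  have hε₁ε₀ : ε₁ ≤ ε₀ := le_trans (min_le_left _ _) (min_le_right _ _)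
  have hε₁b : ε₁ ≤ |2 * θ + (b : ℝ)| / 2 := min_le_right _ _
  obtain ⟨X₁, hX₁⟩ := hpell ε₁ hε₁0 hε₁ε₀
  -- `Near θ ε₁ Y ⊆ Near θ ε X` for `Y ≥ max X 0`
  have hsub : ∀ Y : ℤ, X ≤ Y → 0 ≤ Y → Near θ ε₁ Y ⊆ Near θ ε X := by
    rintro Y hXY hY ⟨p, q⟩ ⟨h1, h2⟩
    refine ⟨le_trans hXY h1, le_trans h2 ?_⟩
    have : (0 : ℝ) ≤ ((p, q) : ℤ × ℤ).1 := by
      have : (0 : ℤ) ≤ p := le_trans hY h1
      exact_mod_cast this
    exact mul_le_mul_of_nonneg_right hε₁ε this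
  -- attained values
  set A : Set ℝ := {ν | ∀ Y : ℤ, ∃ P ∈ Near θ ε₁ Y, NN b a n₁ n₂ n₃ P.1 P.2 = ν} with hA
  have hAmem : ∀ P ∈ Near θ ε₁ X₁, NN b a n₁ n₂ n₃ P.1 P.2 ∈ A := fun P hP Y => hX₁ P hP Y
  -- points with given value and large `x`
  have hatt : ∀ ν ∈ A, ∃ C : ℝ, 0 ≤ C ∧ ∀ Z : ℝ, ∃ P : ℤ × ℤ, P ∈ Near θ ε X ∧ Z ≤ P.1 ∧
      (1 : ℝ) ≤ P.1 ∧ NN b a n₁ n₂ n₃ P.1 P.2 = ν ∧ |(P.2 : ℝ) - θ * P.1| ≤ C := by
    intro ν hν
    obtain ⟨C, hC0, hC⟩ := bdd_of_NN hθ hg n₁ n₂ n₃ hε₁b ν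
    refine ⟨C, hC0, fun Z => ?_⟩
    obtain ⟨P, hP, hPν⟩ := hν (max (max X ⌈Z⌉) 1)
    have h1 : max (max X ⌈Z⌉) 1 ≤ P.1 := hP.1
    have hZ : ⌈Z⌉ ≤ P.1 := le_trans (le_trans (le_max_right _ _) (le_max_left _ _)) h1
    have h1' : (1 : ℤ) ≤ P.1 := le_trans (le_max_right _ _) h1
    refine ⟨P, hsub _ (le_trans (le_max_left _ _) (le_max_left _ _))
      (le_trans zero_le_one (le_max_right _ _)) hP, ?_, ?_, hPν, hC P ⟨h1', hP.2⟩ hPν⟩
    · exact le_trans (Int.le_ceil Z) (by exact_mod_cast hZ)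
    · exact_mod_cast h1'
  obtain ⟨P₀, hP₀⟩ := exists_near θ hε₁0 X₁
  rcases lt_trichotomy κ 0 with hκ0 | hκ0 | hκ0
  · -- `κ < 0`
    exfalso
    obtain ⟨C, hC0, hC⟩ := hatt _ (hAmem P₀ hP₀)
    set ν : ℝ := NN b a n₁ n₂ n₃ P₀.1 P₀.2
    obtain ⟨M, hM⟩ : ∃ M : ℝ, M = |L * ν ^ 2 + B * ν + E| + |(β : ℝ)| * C +
      (|(a₂ : ℝ)| * C + |(a₀ : ℝ)|) * ν ^ 2 +
      (|(b₂ : ℝ)| * C + |(b₀ : ℝ)|) * |ν| + (|(e₂ : ℝ)| * C + |(e₀ : ℝ)|) := ⟨_, rfl⟩
    obtain ⟨P, hP, hZ, h1, hPν, hδ⟩ := hC (M / (-κ) + 1)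
    have hF0 := NI.nonneg hNI hP
    rw [hexp P, hPν] at hF0
    set x : ℝ := (P.1 : ℝ)
    set δ : ℝ := (P.2 : ℝ) - θ * P.1
    have t1 : x * (L * ν ^ 2 + B * ν + E) ≤ x * |L * ν ^ 2 + B * ν + E| :=
      mul_le_mul_of_nonneg_left (le_abs_self _) (by linarith)
    have hb : ∀ r : ℝ, r * δ ≤ |r| * C := fun r => by
      calc r * δ ≤ |r * δ| := le_abs_self _
        _ = |r| * |δ| := abs_mul _ _
        _ ≤ |r| * C := mul_le_mul_of_nonneg_left hδ (abs_nonneg _)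
    have t2 : β * x * δ ≤ x * (|(β : ℝ)| * C) := by
      have := mul_le_mul_of_nonneg_left (hb β) (by linarith : (0 : ℝ) ≤ x)
      linarith
    have t3 : (a₂ * δ + a₀) * ν ^ 2 ≤ (|(a₂ : ℝ)| * C + |(a₀ : ℝ)|) * ν ^ 2 :=
      mul_le_mul_of_nonneg_right (add_le_add (hb _) (le_abs_self _)) (sq_nonneg _)
    have t4 : (b₂ * δ + b₀) * ν ≤ (|(b₂ : ℝ)| * C + |(b₀ : ℝ)|) * |ν| := by
      calc (b₂ * δ + b₀) * ν ≤ |(b₂ * δ + b₀) * ν| := le_abs_self _
        _ = |b₂ * δ + b₀| * |ν| := abs_mul _ _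
        _ ≤ (|(b₂ : ℝ)| * C + |(b₀ : ℝ)|) * |ν| := by
          apply mul_le_mul_of_nonneg_right _ (abs_nonneg _)
          calc |b₂ * δ + b₀| ≤ |b₂ * δ| + |(b₀ : ℝ)| := abs_add_le _ _
            _ = |(b₂ : ℝ)| * |δ| + |(b₀ : ℝ)| := by rw [abs_mul]
            _ ≤ _ := by
              have := mul_le_mul_of_nonneg_left hδ (abs_nonneg (b₂ : ℝ))
              linarith
    have t5 : e₂ * δ + e₀ ≤ |(e₂ : ℝ)| * C + |(e₀ : ℝ)| := add_le_add (hb _) (le_abs_self _)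
    have hx0 : 0 < x := by linarith
    have s3 : (|(a₂ : ℝ)| * C + |(a₀ : ℝ)|) * ν ^ 2 ≤ x * ((|(a₂ : ℝ)| * C + |(a₀ : ℝ)|) * ν ^ 2) :=
      le_mul_of_one_le_left (by positivity) h1
    have s4 : (|(b₂ : ℝ)| * C + |(b₀ : ℝ)|) * |ν| ≤ x * ((|(b₂ : ℝ)| * C + |(b₀ : ℝ)|) * |ν|) :=
      le_mul_of_one_le_left (by positivity) h1
    have s5 : |(e₂ : ℝ)| * C + |(e₀ : ℝ)| ≤ x * (|(e₂ : ℝ)| * C + |(e₀ : ℝ)|) :=
      le_mul_of_one_le_left (by positivity) h1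
    have hub : 0 ≤ κ * x ^ 2 + x * M := by
      rw [hM]
      linarith
    have hx2 : M < -κ * x := by
      have : M / (-κ) < x := by linarith
      rw [div_lt_iff₀ (by linarith)] at this
      linarith
    have hx3 := mul_lt_mul_of_pos_left hx2 hx0
    linarith
  · -- `κ = 0`
    obtain ⟨hα, hβ⟩ := irr_lin hθ hκ0
    have hexp' : ∀ P : ℤ × ℤ, F P = (L * NN b a n₁ n₂ n₃ P.1 P.2 ^ 2 +
        B * NN b a n₁ n₂ n₃ P.1 P.2 + E) * P.1 + ((P.2 : ℝ) - θ * P.1) *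
        (a₂ * NN b a n₁ n₂ n₃ P.1 P.2 ^ 2 + b₂ * NN b a n₁ n₂ n₃ P.1 P.2 + e₂) +
        (a₀ * NN b a n₁ n₂ n₃ P.1 P.2 ^ 2 + b₀ * NN b a n₁ n₂ n₃ P.1 P.2 + e₀) := by
      intro P
      rw [hexp P, hκ0, hβ]
      push_cast
      ring
    have hQpos : ∀ ν ∈ A, 0 < L * ν ^ 2 + B * ν + E := by
      intro ν hν
      obtain ⟨C, hC0, hC⟩ := hatt ν hν
      rcases lt_trichotomy (L * ν ^ 2 + B * ν + E) 0 with hQ | hQ | hQ
      · exfalso
        set Q : ℝ := L * ν ^ 2 + B * ν + E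
        obtain ⟨M, hM⟩ : ∃ M : ℝ, M = C * |a₂ * ν ^ 2 + b₂ * ν + e₂| +
          |a₀ * ν ^ 2 + b₀ * ν + e₀| := ⟨_, rfl⟩
        obtain ⟨P, hP, hZ, h1, hPν, hδ⟩ := hC (M / (-Q) + 1)
        have hF0 := NI.nonneg hNI hP
        rw [hexp' P, hPν] at hF0
        have t1 : ((P.2 : ℝ) - θ * P.1) * (a₂ * ν ^ 2 + b₂ * ν + e₂) ≤
            C * |a₂ * ν ^ 2 + b₂ * ν + e₂| := by
          calc _ ≤ |((P.2 : ℝ) - θ * P.1) * (a₂ * ν ^ 2 + b₂ * ν + e₂)| := le_abs_self _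
            _ = |(P.2 : ℝ) - θ * P.1| * |a₂ * ν ^ 2 + b₂ * ν + e₂| := abs_mul _ _
            _ ≤ _ := mul_le_mul_of_nonneg_right hδ (abs_nonneg _)
        have t2 := le_abs_self ((a₀ : ℝ) * ν ^ 2 + b₀ * ν + e₀)
        have hx2 : M < -Q * P.1 := by
          have : M / (-Q) < P.1 := by linarith
          rw [div_lt_iff₀ (by linarith)] at this
          linarith
        linarith
      · exfalso
        obtain ⟨P₁, hP₁, -, -, hP₁ν, -⟩ := hC 0
        obtain ⟨P₂, hP₂, hZ, -, hP₂ν, -⟩ := hC (P₁.1 + 1)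
        obtain ⟨r, hr⟩ := NN_rat b a n₁ n₂ n₃ P₁
        rw [hP₁ν] at hr
        have hz : ((a₁ * r ^ 2 + b₁ * r + e₁ : ℚ) : ℝ) + ((a₂ * r ^ 2 + b₂ * r + e₂ : ℚ) : ℝ) * θ = 0 := by
          push_cast
          rw [← hr, ← hQ, hL, hB, hE]
          ring
        obtain ⟨-, hz2⟩ := irr_lin hθ hz
        have hz3 : (a₂ : ℝ) * ν ^ 2 + b₂ * ν + e₂ = 0 := by
          rw [hr]
          exact_mod_cast hz2
        have hFeq : F P₁ = F P₂ := by
          rw [hexp' P₁, hexp' P₂, hP₁ν, hP₂ν, hQ, hz3]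
          ring
        have hPP := hNI.2 hP₁ hP₂ hFeq
        rw [← hPP] at hZ
        linarith
      · exact hQ
    obtain ⟨D, hD, hDm⟩ := NN_int b a n₁ n₂ n₃
    obtain ⟨c, hc, hclow⟩ := quad_low (B := B) (E := E) ha hD A (by
      intro ν hν
      obtain ⟨P, -, hPν⟩ := hν 0
      obtain ⟨m, hm⟩ := hDm P
      exact ⟨m, by rw [← hPν, hm]⟩) hQpos
    obtain ⟨K, hK⟩ : ∃ K : ℝ, K = |(a₂ : ℝ)| + |(b₂ : ℝ)| + |(e₂ : ℝ)| + |(a₀ : ℝ)| + |(b₀ : ℝ)| +
      |(e₀ : ℝ)| + 1 := ⟨_, rfl⟩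
    have hK0 : 0 < K := by rw [hK]; positivity
    refine ⟨c, min ε₁ (c / K), hc, by positivity, max X₁ (⌈K / c⌉ + 1), ?_⟩
    intro P hP
    have hP1 : max X₁ (⌈K / c⌉ + 1) ≤ P.1 := hP.1
    have hPX₁ : X₁ ≤ P.1 := le_trans (le_max_left _ _) hP1
    have hKc : K / c + 1 ≤ P.1 := by
      have h1 : ⌈K / c⌉ + 1 ≤ P.1 := le_trans (le_max_right _ _) hP1
      have h2 : ((⌈K / c⌉ + 1 : ℤ) : ℝ) ≤ P.1 := by exact_mod_cast h1
      push_cast at h2
      have := Int.le_ceil (K / c)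
      linarith
    have hKc0 : 0 < K / c := by positivity
    have hx1 : (1 : ℝ) ≤ P.1 := by linarith
    have hx0 : (0 : ℝ) < P.1 := by linarith
    have hPn : P ∈ Near θ ε₁ X₁ :=
      ⟨hPX₁, le_trans hP.2 (mul_le_mul_of_nonneg_right (min_le_left _ _) hx0.le)⟩
    have hlow := hclow _ (hAmem P hPn)
    have hδ : |(P.2 : ℝ) - θ * P.1| ≤ c / K * P.1 :=
      le_trans hP.2 (mul_le_mul_of_nonneg_right (min_le_right _ _) hx0.le)
    rw [hexp' P]
    set ν : ℝ := NN b a n₁ n₂ n₃ P.1 P.2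
    set x : ℝ := (P.1 : ℝ)
    set δ : ℝ := (P.2 : ℝ) - θ * x
    have h1 : |δ * (a₂ * ν ^ 2 + b₂ * ν + e₂)| ≤ c * x * (1 + ν ^ 2) := by
      rw [abs_mul]
      calc |δ| * |(a₂ : ℝ) * ν ^ 2 + b₂ * ν + e₂| ≤ (c / K * x) * (K * (1 + ν ^ 2)) := by
            apply mul_le_mul hδ _ (abs_nonneg _) (by positivity)
            refine le_trans (quad_abs _ _ _ _) (mul_le_mul_of_nonneg_right ?_ (by positivity))
            rw [hK]
            have := abs_nonneg (a₀ : ℝ)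
            have := abs_nonneg (b₀ : ℝ)
            have := abs_nonneg (e₀ : ℝ)
            linarith
        _ = c * x * (1 + ν ^ 2) := by
          field_simp
    have h2 : |a₀ * ν ^ 2 + b₀ * ν + e₀| ≤ c * x * (1 + ν ^ 2) := by
      refine le_trans (quad_abs _ _ _ _) (mul_le_mul_of_nonneg_right ?_ (by positivity))
      have h3 : K ≤ c * x := by
        have : K / c ≤ x := by linarith
        rwa [div_le_iff₀' hc] at this
      have := abs_nonneg (a₂ : ℝ)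
      have := abs_nonneg (b₂ : ℝ)
      have := abs_nonneg (e₂ : ℝ)
      linarith
    have h3 := (abs_le.mp h1).1
    have h4 := (abs_le.mp h2).1
    have h5 : 4 * c * (1 + ν ^ 2) * x ≤ (L * ν ^ 2 + B * ν + E) * x :=
      mul_le_mul_of_nonneg_right hlow hx0.le
    have h6 : c * (ν ^ 2 + x) ≤ 2 * c * x * (1 + ν ^ 2) := final_ineq hc.le hx1
    linarith
  · -- `κ > 0`
    obtain ⟨K, hK⟩ : ∃ K : ℝ, K = |(a₂ : ℝ)| + |(b₂ : ℝ)| + |(e₂ : ℝ)| + |(a₀ : ℝ)| + |(b₀ : ℝ)| +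
      |(e₀ : ℝ)| + |(β : ℝ)| + |B| + |E| + 1 := ⟨_, rfl⟩
    have hK0 : 0 < K := by rw [hK]; positivity
    have ka2 : |(a₂ : ℝ)| ≤ K := by rw [hK]; linarith [abs_nonneg (b₂ : ℝ), abs_nonneg (e₂ : ℝ), abs_nonneg (a₀ : ℝ), abs_nonneg (b₀ : ℝ), abs_nonneg (e₀ : ℝ), abs_nonneg (β : ℝ), abs_nonneg B, abs_nonneg E]
    have ka0 : |(a₀ : ℝ)| ≤ K := by rw [hK]; linarith [abs_nonneg (b₂ : ℝ), abs_nonneg (e₂ : ℝ), abs_nonneg (a₂ : ℝ), abs_nonneg (b₀ : ℝ), abs_nonneg (e₀ : ℝ), abs_nonneg (β : ℝ), abs_nonneg B, abs_nonneg E]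
    have kβ : |(β : ℝ)| ≤ K := by rw [hK]; linarith [abs_nonneg (b₂ : ℝ), abs_nonneg (e₂ : ℝ), abs_nonneg (a₂ : ℝ), abs_nonneg (b₀ : ℝ), abs_nonneg (e₀ : ℝ), abs_nonneg (a₀ : ℝ), abs_nonneg B, abs_nonneg E]
    have kb : |B| + |(b₂ : ℝ)| + |(b₀ : ℝ)| ≤ K := by rw [hK]; linarith [abs_nonneg (e₂ : ℝ), abs_nonneg (a₂ : ℝ), abs_nonneg (e₀ : ℝ), abs_nonneg (a₀ : ℝ), abs_nonneg (β : ℝ), abs_nonneg E]
    have ke : |E| + |(e₂ : ℝ)| + |(e₀ : ℝ)| ≤ K := by rw [hK]; linarith [abs_nonneg (b₂ : ℝ), abs_nonneg (a₂ : ℝ), abs_nonneg (b₀ : ℝ), abs_nonneg (a₀ : ℝ), abs_nonneg (β : ℝ), abs_nonneg B]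
    obtain ⟨G, hG⟩ : ∃ G : ℝ, G = K ^ 2 / L + K := ⟨_, rfl⟩
    have hG0 : 0 < G := by rw [hG]; positivity
    refine ⟨min (L / 4) (κ / 4), min (min 1 (L / (4 * K))) (κ / (4 * K)), by positivity, by positivity,
      ⌈4 * K / L⌉ + ⌈4 * G / κ⌉ + 1, ?_⟩
    intro P hP
    have hP1 : ⌈4 * K / L⌉ + ⌈4 * G / κ⌉ + 1 ≤ P.1 := hP.1
    have hP1' : (⌈4 * K / L⌉ : ℝ) + ⌈4 * G / κ⌉ + 1 ≤ P.1 := by exact_mod_cast hP1
    have hc1 := Int.le_ceil (4 * K / L)
    have hc2 := Int.le_ceil (4 * G / κ)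
    have hc1' : 0 < 4 * K / L := by positivity
    have hc2' : 0 < 4 * G / κ := by positivity
    have hxa : 4 * K / L ≤ P.1 := by linarith
    have hxb : 4 * G / κ ≤ P.1 := by linarith
    have hx1 : (1 : ℝ) ≤ P.1 := by linarith
    have hδ := hP.2
    rw [hexp P]
    set ν : ℝ := NN b a n₁ n₂ n₃ P.1 P.2
    set x : ℝ := (P.1 : ℝ)
    set δ : ℝ := (P.2 : ℝ) - θ * x
    have hx0 : 0 < x := by linarith
    have hδ1 : |δ| ≤ x := by
      refine le_trans hδ ?_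
      calc _ ≤ 1 * x := mul_le_mul_of_nonneg_right (le_trans (min_le_left _ _) (min_le_left _ _)) hx0.le
        _ = x := one_mul x
    have hδ2 : K * |δ| ≤ L / 4 * x := by
      have : |δ| ≤ L / (4 * K) * x :=
        le_trans hδ (mul_le_mul_of_nonneg_right (le_trans (min_le_left _ _) (min_le_right _ _)) hx0.le)
      calc K * |δ| ≤ K * (L / (4 * K) * x) := mul_le_mul_of_nonneg_left this hK0.le
        _ = L / 4 * x := by field_simp
    have hδ3 : K * |δ| ≤ κ / 4 * x := by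
      have : |δ| ≤ κ / (4 * K) * x :=
        le_trans hδ (mul_le_mul_of_nonneg_right (min_le_right _ _) hx0.le)
      calc K * |δ| ≤ K * (κ / (4 * K) * x) := mul_le_mul_of_nonneg_left this hK0.le
        _ = κ / 4 * x := by field_simp
    have hKx : K ≤ L / 4 * x := by
      rw [div_le_iff₀ ha] at hxa
      linarith
    have hGx : G ≤ κ / 4 * x := by
      rw [div_le_iff₀ hκ0] at hxb
      linarith
    have u1 : L / 2 * x ≤ L * x + a₂ * δ + a₀ := by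
      have v1 : -(K * |δ|) ≤ a₂ * δ := by
        have : |(a₂ : ℝ) * δ| ≤ K * |δ| := by
          rw [abs_mul]
          exact mul_le_mul_of_nonneg_right ka2 (abs_nonneg _)
        linarith [neg_abs_le ((a₂ : ℝ) * δ)]
      have v2 : -K ≤ (a₀ : ℝ) := by linarith [neg_abs_le (a₀ : ℝ)]
      linarith
    have u2 : |B * x + b₂ * δ + b₀| ≤ K * x := by
      calc |B * x + b₂ * δ + b₀| ≤ |B * x| + |b₂ * δ| + |(b₀ : ℝ)| := abs_add_three _ _ _
        _ = |B| * x + |(b₂ : ℝ)| * |δ| + |(b₀ : ℝ)| := by rw [abs_mul, abs_mul, abs_of_pos hx0]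
        _ ≤ |B| * x + |(b₂ : ℝ)| * x + |(b₀ : ℝ)| * x := by
          have := mul_le_mul_of_nonneg_left hδ1 (abs_nonneg (b₂ : ℝ))
          have := le_mul_of_one_le_right (abs_nonneg (b₀ : ℝ)) hx1
          linarith
        _ = (|B| + |(b₂ : ℝ)| + |(b₀ : ℝ)|) * x := by ring
        _ ≤ K * x := mul_le_mul_of_nonneg_right kb hx0.le
    have u3 : |E * x + e₂ * δ + e₀| ≤ K * x := by
      calc |E * x + e₂ * δ + e₀| ≤ |E * x| + |e₂ * δ| + |(e₀ : ℝ)| := abs_add_three _ _ _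
        _ = |E| * x + |(e₂ : ℝ)| * |δ| + |(e₀ : ℝ)| := by rw [abs_mul, abs_mul, abs_of_pos hx0]
        _ ≤ |E| * x + |(e₂ : ℝ)| * x + |(e₀ : ℝ)| * x := by
          have := mul_le_mul_of_nonneg_left hδ1 (abs_nonneg (e₂ : ℝ))
          have := le_mul_of_one_le_right (abs_nonneg (e₀ : ℝ)) hx1
          linarith
        _ = (|E| + |(e₂ : ℝ)| + |(e₀ : ℝ)|) * x := by ring
        _ ≤ K * x := mul_le_mul_of_nonneg_right ke hx0.le
    have u4 : -(κ / 4 * x ^ 2) ≤ β * x * δ := by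
      have : |(β : ℝ) * x * δ| ≤ κ / 4 * x ^ 2 := by
        rw [abs_mul, abs_mul, abs_of_pos hx0]
        calc |(β : ℝ)| * x * |δ| ≤ K * x * |δ| := by
              apply mul_le_mul_of_nonneg_right _ (abs_nonneg _)
              exact mul_le_mul_of_nonneg_right kβ hx0.le
          _ = x * (K * |δ|) := by ring
          _ ≤ x * (κ / 4 * x) := mul_le_mul_of_nonneg_left hδ3 hx0.le
          _ = κ / 4 * x ^ 2 := by ring
      linarith [neg_abs_le ((β : ℝ) * x * δ)]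
    have w1 : L / 2 * x * ν ^ 2 ≤ (L * x + a₂ * δ + a₀) * ν ^ 2 :=
      mul_le_mul_of_nonneg_right u1 (sq_nonneg _)
    have w2 : -(K * x * |ν|) ≤ (B * x + b₂ * δ + b₀) * ν := by
      have : |(B * x + b₂ * δ + b₀) * ν| ≤ K * x * |ν| := by
        rw [abs_mul]
        exact mul_le_mul_of_nonneg_right u2 (abs_nonneg _)
      linarith [neg_abs_le ((B * x + b₂ * δ + b₀) * ν)]
    have w3 := (abs_le.mp u3).1
    have w4 : K * x * |ν| ≤ L / 4 * x * ν ^ 2 + K ^ 2 / L * x := by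
      have h : K * |ν| ≤ L / 4 * ν ^ 2 + K ^ 2 / L := by
        have h1 : 0 ≤ (L * |ν| / 2 - K) ^ 2 / L := by positivity
        have h2 : (L * |ν| / 2 - K) ^ 2 / L = L / 4 * ν ^ 2 - K * |ν| + K ^ 2 / L := by
          rw [← sq_abs ν]
          field_simp
          ring
        linarith
      have h3 := mul_le_mul_of_nonneg_right h hx0.le
      linarith
    have w5 : G * x ≤ κ / 4 * x ^ 2 := by
      have h3 := mul_le_mul_of_nonneg_right hGx hx0.le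
      linarith
    have w6 : (min (L / 4) (κ / 4)) * (ν ^ 2 + x) ≤ L / 4 * x * ν ^ 2 + κ / 4 * x ^ 2 := by
      have m1 : min (L / 4) (κ / 4) ≤ L / 4 := min_le_left _ _
      have m2 : min (L / 4) (κ / 4) ≤ κ / 4 := min_le_right _ _
      have m3 : min (L / 4) (κ / 4) * ν ^ 2 ≤ L / 4 * ν ^ 2 :=
        mul_le_mul_of_nonneg_right m1 (sq_nonneg _)
      have m4 : min (L / 4) (κ / 4) * x ≤ κ / 4 * x := mul_le_mul_of_nonneg_right m2 hx0.le
      have m5 : L / 4 * ν ^ 2 ≤ L / 4 * x * ν ^ 2 := by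
        have : 0 ≤ L / 4 * ν ^ 2 * (x - 1) := mul_nonneg (by positivity) (by linarith)
        linarith
      have m6 : κ / 4 * x ≤ κ / 4 * x ^ 2 := by
        have : 0 ≤ κ / 4 * x * (x - 1) := mul_nonneg (by positivity) (by linarith)
        linarith
      linarith
    rw [hG] at w5
    have w7 : 0 ≤ κ * x ^ 2 := by positivity
    linarith

end Pool.Agent.Lib.MP_ff4e96_co
end

section

/-!
# MP_ff4e96_co: normal form, degree 4

`θ` irrational, `θ² + b θ + a = 0`, `g = y² + b x y + a x²`. On `Near θ ε X` put `t = y / x`, `|t - θ| ≤ ε`;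
`g = x² (t - θ)(t - θ')`, `θ' = -b - θ ≠ θ`.

`nf4`: `F = l₀ g² + F₃ + F₂ + F₁ + F₀`, `l₀ > 0`. Let `U = F₃(1, θ)`. If `U > 0`: for `ε` small `F₃ ≥ (U/2) x³`,
  the rest is `≥ -C x²`. If `U < 0`: at the points `(x, ⌊θ x⌋)` `g = O(x)` and `F ≤ (U/2) x³ + O(x²) < 0`:
  impossible (these points are in `Near`). If `U = 0`: `F₃ = g ℓ₁` (`irr_three`), `N₀ = g + ℓ₁/(2 l₀)`,
  `F = l₀ N₀² - ℓ₁²/(4 l₀) + F₂ + F₁ + F₀`. The quadratic form `-ℓ₁²/(4 l₀) + F₂` is `c₄ g + α x² + β x y`, and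
  `c₄ g = c₄ N₀ - c₄ ℓ₁/(2 l₀)`; `N = N₀ + c₄/(2 l₀)`.
-/

namespace Pool.Agent.Lib.MP_ff4e96_co

open Filter Topology

/-- `ev c` is the sum of its homogeneous parts when the degree is at most 4 -/
private theorem ev_split4 {c : ℕ → ℕ → ℚ} {θ : ℝ} {b a l₀ : ℚ}
    (hF : Fac c 4 θ b a l₀ 0) (htop : ∀ i j, i + j ≤ 5 → 4 < i + j → c i j = 0) (x y : ℝ) :
    ev c x y = l₀ * (y ^ 2 + b * x * y + a * x ^ 2) ^ 2 +
      ((c 3 0 : ℝ) * x ^ 3 + c 2 1 * x ^ 2 * y + c 1 2 * x * y ^ 2 + c 0 3 * y ^ 3) +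
      (c 2 0 * x ^ 2 + c 1 1 * x * y + c 0 2 * y ^ 2) + (c 1 0 * x + c 0 1 * y + c 0 0) := by
  have h4 : hom c 4 x y = l₀ * (y ^ 2 + b * x * y + a * x ^ 2) ^ 2 := by
    rcases hF.2.2 with h | h
    · exact h.2.2 x y
    · omega
  rw [← h4, ev_eq]
  have e1 : c 5 0 = 0 := htop 5 0 (by norm_num) (by norm_num)
  have e2 : c 4 1 = 0 := htop 4 1 (by norm_num) (by norm_num)
  have e3 : c 3 2 = 0 := htop 3 2 (by norm_num) (by norm_num)
  have e4 : c 2 3 = 0 := htop 2 3 (by norm_num) (by norm_num)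
  have e5 : c 1 4 = 0 := htop 1 4 (by norm_num) (by norm_num)
  have e6 : c 0 5 = 0 := htop 0 5 (by norm_num) (by norm_num)
  rw [e1, e2, e3, e4, e5, e6]
  simp [hom, Finset.sum_range_succ]
  ring

/-- the lower order terms -/
private theorem low_bound (q₀ q₁ q₂ p₀ p₁ r T : ℝ) (hT : 0 ≤ T) {x y : ℝ} (hx : 1 ≤ x)
    (hy : |y| ≤ T * x) :
    |(q₀ * x ^ 2 + q₁ * x * y + q₂ * y ^ 2) + (p₀ * x + p₁ * y + r)| ≤
      (|q₀| + |q₁| * T + |q₂| * T ^ 2 + |p₀| + |p₁| * T + |r|) * x ^ 2 := by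
  have hx0 : 0 ≤ x := by linarith
  have hxx : x ≤ x ^ 2 := by nlinarith
  have h1x : 1 ≤ x ^ 2 := by nlinarith
  have a0 : |q₀ * x ^ 2| ≤ |q₀| * x ^ 2 := by
    rw [abs_mul, abs_of_nonneg (by positivity : (0:ℝ) ≤ x ^ 2)]
  have a1 : |q₁ * x * y| ≤ |q₁| * T * x ^ 2 := by
    rw [abs_mul, abs_mul, abs_of_nonneg hx0]
    have := mul_le_mul_of_nonneg_left hy (mul_nonneg (abs_nonneg q₁) hx0)
    calc |q₁| * x * |y| ≤ |q₁| * x * (T * x) := this
      _ = |q₁| * T * x ^ 2 := by ring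
  have a2 : |q₂ * y ^ 2| ≤ |q₂| * T ^ 2 * x ^ 2 := by
    rw [abs_mul, abs_pow]
    have h2 : |y| ^ 2 ≤ (T * x) ^ 2 := pow_le_pow_left₀ (abs_nonneg y) hy 2
    have := mul_le_mul_of_nonneg_left h2 (abs_nonneg q₂)
    calc |q₂| * |y| ^ 2 ≤ |q₂| * (T * x) ^ 2 := this
      _ = |q₂| * T ^ 2 * x ^ 2 := by ring
  have b0 : |p₀ * x| ≤ |p₀| * x ^ 2 := by
    rw [abs_mul, abs_of_nonneg hx0]
    exact mul_le_mul_of_nonneg_left hxx (abs_nonneg _)
  have b1 : |p₁ * y| ≤ |p₁| * T * x ^ 2 := by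
    rw [abs_mul]
    have h1 : |y| ≤ T * x ^ 2 := hy.trans (mul_le_mul_of_nonneg_left hxx hT)
    have := mul_le_mul_of_nonneg_left h1 (abs_nonneg p₁)
    calc |p₁| * |y| ≤ |p₁| * (T * x ^ 2) := this
      _ = |p₁| * T * x ^ 2 := by ring
  have b2 : |r| ≤ |r| * x ^ 2 := le_mul_of_one_le_right (abs_nonneg _) h1x
  have t1 := abs_add_le (q₀ * x ^ 2 + q₁ * x * y + q₂ * y ^ 2) (p₀ * x + p₁ * y + r)
  have t2 := abs_add_le (q₀ * x ^ 2 + q₁ * x * y) (q₂ * y ^ 2)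
  have t3 := abs_add_le (q₀ * x ^ 2) (q₁ * x * y)
  have t4 := abs_add_le (p₀ * x + p₁ * y) r
  have t5 := abs_add_le (p₀ * x) (p₁ * y)
  linarith

/-- the cubic form near its value at `(1, θ)` -/
private theorem cubic_near (u₀ u₁ u₂ u₃ θ : ℝ) {η : ℝ} (hη : 0 < η) :
    ∃ δ : ℝ, 0 < δ ∧ ∀ x y : ℝ, 0 < x → |y - θ * x| ≤ δ * x →
      |(u₀ * x ^ 3 + u₁ * x ^ 2 * y + u₂ * x * y ^ 2 + u₃ * y ^ 3) -
        (u₀ + u₁ * θ + u₂ * θ ^ 2 + u₃ * θ ^ 3) * x ^ 3| ≤ η * x ^ 3 := by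
  have hc : Continuous fun t : ℝ => u₀ + u₁ * t + u₂ * t ^ 2 + u₃ * t ^ 3 := by fun_prop
  obtain ⟨δ, hδ, h⟩ := Metric.continuousAt_iff.1 (hc.continuousAt (x := θ)) η hη
  refine ⟨δ / 2, by linarith, fun x y hx hy => ?_⟩
  have ht : |y / x - θ| < δ := by
    have e : y / x - θ = (y - θ * x) / x := by field_simp
    rw [e, abs_div, abs_of_pos hx, div_lt_iff₀ hx]
    have : 0 < δ * x := by positivity
    linarith
  have h1 := h (x := y / x) (by rw [Real.dist_eq]; exact ht)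
  rw [Real.dist_eq] at h1
  have e : (u₀ * x ^ 3 + u₁ * x ^ 2 * y + u₂ * x * y ^ 2 + u₃ * y ^ 3) -
        (u₀ + u₁ * θ + u₂ * θ ^ 2 + u₃ * θ ^ 3) * x ^ 3 =
      ((u₀ + u₁ * (y / x) + u₂ * (y / x) ^ 2 + u₃ * (y / x) ^ 3) -
        (u₀ + u₁ * θ + u₂ * θ ^ 2 + u₃ * θ ^ 3)) * x ^ 3 := by
    field_simp
  rw [e, abs_mul, abs_of_pos (by positivity : (0:ℝ) < x ^ 3)]
  exact mul_le_mul_of_nonneg_right h1.le (by positivity)

theorem nf4 {c : ℕ → ℕ → ℚ} {θ : ℝ} (hθ : Irrational θ) {b a l₀ : ℚ}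
    (hF : Fac c 4 θ b a l₀ 0) (htop : ∀ i j, i + j ≤ 5 → 4 < i + j → c i j = 0) {ε : ℝ}
    (hε : 0 < ε) {X : ℤ} (hpos : ∀ P ∈ Near θ ε X, 0 ≤ evz c P) :
    LowC (evz c) θ ∨ NF c θ b a := by
  have hg : θ ^ 2 + b * θ + a = 0 := hF.1
  have hl : (0 : ℝ) < l₀ := by
    have := hF.2.1
    simpa using this
  have hl' : (0 : ℚ) < l₀ := by exact_mod_cast hl
  have hev := ev_split4 hF htop
  set T : ℝ := |θ| + 1 with hT
  have hT0 : 0 ≤ T := by positivity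
  set M : ℝ := |(c 2 0 : ℝ)| + |(c 1 1 : ℝ)| * T + |(c 0 2 : ℝ)| * T ^ 2 + |(c 1 0 : ℝ)| +
    |(c 0 1 : ℝ)| * T + |(c 0 0 : ℝ)| with hM
  have hM0 : 0 ≤ M := by positivity
  set U : ℝ := (c 3 0 : ℝ) + c 2 1 * θ + c 1 2 * θ ^ 2 + c 0 3 * θ ^ 3 with hU
  rcases lt_trichotomy U 0 with hneg | hzero | hposU
  · -- impossible
    exfalso
    obtain ⟨δ, hδ, h3⟩ := cubic_near (c 3 0 : ℝ) (c 2 1 : ℝ) (c 1 2 : ℝ) (c 0 3 : ℝ) θ
      (η := -U / 2) (by linarith)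
    set D : ℝ := |θ - (-b - θ)| with hD
    have hD0 : 0 ≤ D := abs_nonneg _
    set K : ℝ := l₀ * (1 + D) ^ 2 + M with hK
    have hK0 : 0 ≤ K := by positivity
    obtain ⟨n, hn⟩ := exists_nat_gt (max (max 1 (X : ℝ)) (max (1 / ε) (max (1 / δ) (2 * K / -U))))
    simp only [max_lt_iff] at hn
    obtain ⟨⟨hn1, hnX⟩, hnε, hnδ, hnK⟩ := hn
    have hn0 : (0 : ℝ) < n := by linarith
    set y : ℤ := ⌊θ * n⌋ with hy
    have hy1 : |(y : ℝ) - θ * n| ≤ 1 := by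
      have h1 := Int.floor_le (θ * n)
      have h2 := Int.lt_floor_add_one (θ * n)
      rw [abs_le]
      constructor <;> linarith
    have hεn : 1 ≤ ε * n := by
      rw [div_lt_iff₀ hε] at hnε; linarith
    have hδn : 1 ≤ δ * n := by
      rw [div_lt_iff₀ hδ] at hnδ; linarith
    have hP : ((n : ℤ), y) ∈ Near θ ε X := by
      refine ⟨?_, ?_⟩
      · have : (X : ℝ) ≤ ((n : ℤ) : ℝ) := by push_cast; linarith
        exact_mod_cast this
      · push_cast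
        linarith
    have h0 := hpos _ hP
    unfold evz at h0
    simp only [Int.cast_natCast] at h0
    rw [hev] at h0
    have hc3 := h3 n y hn0 (by linarith)
    rw [abs_le] at hc3
    have hyT : |(y : ℝ)| ≤ T * n := by
      have e : (y : ℝ) = ((y : ℝ) - θ * n) + θ * n := by ring
      rw [e]
      refine (abs_add_le _ _).trans ?_
      rw [abs_mul θ, abs_of_pos hn0]
      have : (|θ| + 1) * (n : ℝ) = |θ| * n + n := by ring
      rw [hT, this]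
      linarith
    have hlow := low_bound (c 2 0) (c 1 1) (c 0 2) (c 1 0) (c 0 1) (c 0 0) T hT0 hn1.le hyT
    rw [← hM, abs_le] at hlow
    have hgg : ((y : ℝ) ^ 2 + b * n * y + a * (n : ℝ) ^ 2) =
        ((y : ℝ) - θ * n) * ((y : ℝ) - (-b - θ) * n) := by
      linear_combination (n : ℝ) ^ 2 * hg
    have hg1 : |((y : ℝ) ^ 2 + b * n * y + a * (n : ℝ) ^ 2)| ≤ (1 + D) * n := by
      rw [hgg, abs_mul]
      have e : (y : ℝ) - (-b - θ) * n = ((y : ℝ) - θ * n) + (θ - (-b - θ)) * n := by ring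
      have h1 : |(y : ℝ) - (-b - θ) * n| ≤ (1 + D) * n := by
        rw [e]
        refine (abs_add_le _ _).trans ?_
        rw [abs_mul (θ - (-b - θ)), abs_of_pos hn0, ← hD]
        have e' : (1 + D) * (n : ℝ) = n + D * n := by ring
        rw [e']
        linarith
      calc |(y : ℝ) - θ * n| * |(y : ℝ) - (-b - θ) * n| ≤ 1 * ((1 + D) * n) :=
            mul_le_mul hy1 h1 (abs_nonneg _) zero_le_one
        _ = (1 + D) * n := one_mul _
    have hg2 : ((y : ℝ) ^ 2 + b * n * y + a * (n : ℝ) ^ 2) ^ 2 ≤ (1 + D) ^ 2 * (n : ℝ) ^ 2 := by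
      rw [← sq_abs]
      calc |((y : ℝ) ^ 2 + b * n * y + a * (n : ℝ) ^ 2)| ^ 2 ≤ ((1 + D) * n) ^ 2 :=
            pow_le_pow_left₀ (abs_nonneg _) hg1 2
        _ = (1 + D) ^ 2 * (n : ℝ) ^ 2 := by ring
    have hg3 := mul_le_mul_of_nonneg_left hg2 hl.le
    have hKn : K < -U / 2 * n := by
      rw [div_lt_iff₀ (by linarith : (0:ℝ) < -U)] at hnK
      have e' : -U / 2 * (n : ℝ) = n * -U / 2 := by ring
      rw [e']
      linarith
    have hfin : K * (n : ℝ) ^ 2 < -U / 2 * n * (n : ℝ) ^ 2 :=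
      mul_lt_mul_of_pos_right hKn (by positivity)
    have hsplit : K * (n : ℝ) ^ 2 = l₀ * ((1 + D) ^ 2 * (n : ℝ) ^ 2) + M * (n : ℝ) ^ 2 := by
      rw [hK]; ring
    have hcube : -U / 2 * n * (n : ℝ) ^ 2 = -U / 2 * (n : ℝ) ^ 3 := by ring
    rw [hsplit, hcube] at hfin
    have hc3' := hc3.2
    have hlow' := hlow.2
    have hUU : ((c 3 0 : ℝ) + c 2 1 * θ + c 1 2 * θ ^ 2 + c 0 3 * θ ^ 3) * (n : ℝ) ^ 3 =
        U * (n : ℝ) ^ 3 := by rw [hU]
    rw [hUU] at hc3'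
    linarith
  · -- the normal form
    right
    obtain ⟨v₀, v₁, hv⟩ := irr_three hθ hg (u₀ := c 3 0) (u₁ := c 2 1) (u₂ := c 1 2)
      (u₃ := c 0 3) hzero
    set n₁ : ℚ := v₀ / (2 * l₀) with hn₁
    set n₂ : ℚ := v₁ / (2 * l₀) with hn₂
    set n₃ : ℚ := (c 0 2 - l₀ * n₂ ^ 2) / (2 * l₀) with hn₃
    have e1 : (2 : ℝ) * l₀ * n₁ = v₀ := by
      have : (2 : ℚ) * l₀ * n₁ = v₀ := by rw [hn₁]; field_simp
      exact_mod_cast this
    have e2 : (2 : ℝ) * l₀ * n₂ = v₁ := by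
      have : (2 : ℚ) * l₀ * n₂ = v₁ := by rw [hn₂]; field_simp
      exact_mod_cast this
    have e3 : (2 : ℝ) * l₀ * n₃ = c 0 2 - l₀ * n₂ ^ 2 := by
      have : (2 : ℚ) * l₀ * n₃ = c 0 2 - l₀ * n₂ ^ 2 := by rw [hn₃]; field_simp
      exact_mod_cast this
    refine ⟨n₁, n₂, n₃, l₀, 0, 0, 0, 0, 0, c 2 0 - 2 * l₀ * n₃ * a - l₀ * n₁ ^ 2,
      c 1 1 - 2 * l₀ * n₃ * b - 2 * l₀ * n₁ * n₂, c 0 0 - l₀ * n₃ ^ 2,
      c 1 0 - 2 * l₀ * n₁ * n₃, c 0 1 - 2 * l₀ * n₂ * n₃, fun x y => ?_,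
      Or.inl ⟨rfl, rfl, hl', rfl, rfl, rfl⟩⟩
    rw [hev, hv]
    unfold NN
    push_cast
    linear_combination (-(x * (y ^ 2 + b * x * y + a * x ^ 2))) * e1 -
      (y * (y ^ 2 + b * x * y + a * x ^ 2)) * e2 - y ^ 2 * e3
  · -- cubic lower bound
    left
    obtain ⟨δ, hδ, h3⟩ := cubic_near (c 3 0 : ℝ) (c 2 1 : ℝ) (c 1 2 : ℝ) (c 0 3 : ℝ) θ
      (η := U / 2) (by linarith)
    obtain ⟨m, hm⟩ := exists_nat_gt (max 1 (4 * M / U))
    simp only [max_lt_iff] at hm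
    obtain ⟨hm1, hmM⟩ := hm
    refine ⟨U / 4, min δ 1, by linarith, by positivity, (m : ℤ), fun P hP => ?_⟩
    obtain ⟨hPx, hPy⟩ := hP
    have hx : (m : ℝ) ≤ P.1 := by exact_mod_cast hPx
    have hx1 : (1 : ℝ) ≤ P.1 := by linarith
    have hx0 : (0 : ℝ) < P.1 := by linarith
    have hPδ : |(P.2 : ℝ) - θ * P.1| ≤ δ * P.1 :=
      hPy.trans (mul_le_mul_of_nonneg_right (min_le_left _ _) hx0.le)
    have hP1 : |(P.2 : ℝ) - θ * P.1| ≤ 1 * P.1 :=
      hPy.trans (mul_le_mul_of_nonneg_right (min_le_right _ _) hx0.le)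
    have hyT : |(P.2 : ℝ)| ≤ T * P.1 := by
      have e : (P.2 : ℝ) = ((P.2 : ℝ) - θ * P.1) + θ * P.1 := by ring
      rw [e]
      refine (abs_add_le _ _).trans ?_
      rw [abs_mul θ, abs_of_pos hx0]
      have : (|θ| + 1) * (P.1 : ℝ) = |θ| * P.1 + P.1 := by ring
      rw [hT, this]
      linarith
    have hc3 := h3 P.1 P.2 hx0 hPδ
    rw [abs_le] at hc3
    have hlow := low_bound (c 2 0) (c 1 1) (c 0 2) (c 1 0) (c 0 1) (c 0 0) T hT0 hx1 hyT
    rw [← hM, abs_le] at hlow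
    unfold evz
    rw [hev]
    have hMx : M ≤ U / 4 * P.1 := by
      rw [div_lt_iff₀ hposU] at hmM
      have e' : U / 4 * (P.1 : ℝ) = P.1 * U / 4 := by ring
      have e'' : (m : ℝ) * U ≤ P.1 * U := mul_le_mul_of_nonneg_right hx hposU.le
      rw [e']
      linarith
    have hfin : M * (P.1 : ℝ) ^ 2 ≤ U / 4 * P.1 * (P.1 : ℝ) ^ 2 :=
      mul_le_mul_of_nonneg_right hMx (by positivity)
    have hsq : 0 ≤ (l₀ : ℝ) * ((P.2 : ℝ) ^ 2 + b * P.1 * P.2 + a * (P.1 : ℝ) ^ 2) ^ 2 := by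
      positivity
    have hcube : U / 4 * P.1 * (P.1 : ℝ) ^ 2 = U / 4 * (P.1 : ℝ) ^ 3 := by ring
    rw [hcube] at hfin
    have hc3' := hc3.1
    have hlow' := hlow.1
    have hUU : ((c 3 0 : ℝ) + c 2 1 * θ + c 1 2 * θ ^ 2 + c 0 3 * θ ^ 3) * (P.1 : ℝ) ^ 3 =
        U * (P.1 : ℝ) ^ 3 := by rw [hU]
    rw [hUU] at hc3'
    linarith

end Pool.Agent.Lib.MP_ff4e96_co
end
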