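import Pool.Agent.Lib.MP_ff4e96_co.MainNo
import Pool.Agent.Lib.MP_ff4e96_co.NF4

/-!
# MP_ff4e96_co: packing polynomials

`no_packing`: if `3 ≤ totalDegree ≤ 5` apply `rat_coeffs` and `main_no` (the lattice points of `Cone α` have nonnegative
coordinates: `α > 0`). `no_packing_quadrant`: `F(x - y, y)` is a packing polynomial on `I(1)`; its total degree is the same (a linear
substitution and its inverse do not increase the total degree).
-/

namespace Pool.Agent.Lib.MP_ff4e96_co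

open Filter Topology

/-- `F` is a packing polynomial on the sector `I(α)` -/
def IsPacking (α : ℝ) (F : MvPolynomial (Fin 2) ℝ) : Prop :=
  Set.BijOn (fun P : ℕ × ℕ => MvPolynomial.eval ![(P.1 : ℝ), (P.2 : ℝ)] F)
    {P | (P.2 : ℝ) ≤ α * P.1} (Set.range ((↑) : ℕ → ℝ))

/-- `F` is a packing polynomial on `ℕ × ℕ` -/
def IsPackingQuadrant (F : MvPolynomial (Fin 2) ℝ) : Prop :=
  Set.BijOn (fun P : ℕ × ℕ => MvPolynomial.eval ![(P.1 : ℝ), (P.2 : ℝ)] F)
    Set.univ (Set.range ((↑) : ℕ → ℝ))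

/-- main theorem for rational sectors -/
theorem no_packing {α : ℚ} (hα : 0 < α) (F : MvPolynomial (Fin 2) ℝ) (hF : IsPacking α F) :
    F.totalDegree ≤ 2 ∨ 6 ≤ F.totalDegree := by
  by_contra hcon
  push Not at hcon
  obtain ⟨h2, h6⟩ := hcon
  obtain ⟨hmaps, hinj, hsurj⟩ := hF
  have hαR : (0 : ℝ) < (α : ℝ) := by exact_mod_cast hα
  obtain ⟨c, hev, htop, hne⟩ := rat_coeffs F hαR (by omega) (fun x y hxy => by
    obtain ⟨v, hv⟩ := hmaps (show ((x, y) : ℕ × ℕ) ∈ {P : ℕ × ℕ | (P.2 : ℝ) ≤ (α : ℝ) * P.1} from hxy)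
    exact ⟨v, hv.symm⟩)
  have hF0 : F ≠ 0 := by
    rintro rfl
    simp at h2
  -- values at lattice points
  have hval : ∀ P : ℕ × ℕ, evz c ((P.1 : ℤ), (P.2 : ℤ)) =
      MvPolynomial.eval ![(P.1 : ℝ), (P.2 : ℝ)] F := by
    intro P
    rw [hev]
    simp [evz]
  have hmem : ∀ P : ℕ × ℕ, (((P.1 : ℤ), (P.2 : ℤ)) : ℤ × ℤ) ∈ Cone α ↔ (P.2 : ℝ) ≤ (α : ℝ) * P.1 := by
    intro P
    constructor
    · rintro ⟨-, h⟩
      have h' : ((P.2 : ℚ)) ≤ α * (P.1 : ℚ) := by simpa using h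
      exact_mod_cast h'
    · intro h
      refine ⟨by simp, ?_⟩
      have h' : ((P.2 : ℚ)) ≤ α * (P.1 : ℚ) := by exact_mod_cast h
      simpa using h'
  have hlift : ∀ P ∈ Cone α, ∃ Q : ℕ × ℕ, P = ((Q.1 : ℤ), (Q.2 : ℤ)) := by
    rintro ⟨a, b⟩ ⟨h0, h1⟩
    simp only at h0 h1
    have ha : 0 ≤ a := by
      by_contra hneg
      push Not at hneg
      have h3 : (a : ℚ) < 0 := by exact_mod_cast hneg
      have h4 : α * (a : ℚ) < 0 := mul_neg_of_pos_of_neg hα h3
      have h5 : (0 : ℚ) ≤ (b : ℚ) := by exact_mod_cast h0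
      linarith
    refine ⟨(a.toNat, b.toNat), ?_⟩
    simp [Int.toNat_of_nonneg ha, Int.toNat_of_nonneg h0]
  refine main_no hα (d := F.totalDegree) (by omega) (by omega) htop (hne hF0) ?_ ?_
  · intro m
    obtain ⟨P, hP, hPm⟩ := hsurj (Set.mem_range_self m)
    refine ⟨((P.1 : ℤ), (P.2 : ℤ)), (hmem P).2 hP, ?_⟩
    rw [hval]
    exact hPm
  · constructor
    · intro P hP
      obtain ⟨Q, rfl⟩ := hlift P hP
      obtain ⟨v, hv⟩ := hmaps (show Q ∈ {P : ℕ × ℕ | (P.2 : ℝ) ≤ (α : ℝ) * P.1} from (hmem Q).1 hP)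
      exact ⟨v, by rw [hval]; exact hv.symm⟩
    · intro P hP P' hP' hPP
      obtain ⟨Q, rfl⟩ := hlift P hP
      obtain ⟨Q', rfl⟩ := hlift P' hP'
      rw [hval, hval] at hPP
      have := hinj (show Q ∈ {P : ℕ × ℕ | (P.2 : ℝ) ≤ (α : ℝ) * P.1} from (hmem Q).1 hP)
        (show Q' ∈ {P : ℕ × ℕ | (P.2 : ℝ) ≤ (α : ℝ) * P.1} from (hmem Q').1 hP') hPP
      rw [this]

/-- a substitution of polynomials of degree at most one does not increase the total degree -/
private theorem deg_subst (F : MvPolynomial (Fin 2) ℝ) (g : Fin 2 → MvPolynomial (Fin 2) ℝ)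
    (hg : ∀ i, (g i).totalDegree ≤ 1) : (MvPolynomial.aeval g F).totalDegree ≤ F.totalDegree := by
  rw [MvPolynomial.aeval_def, MvPolynomial.eval₂_eq']
  refine MvPolynomial.totalDegree_finsetSum_le fun m hm => ?_
  refine (MvPolynomial.totalDegree_mul _ _).trans ?_
  have h1 : ((algebraMap ℝ (MvPolynomial (Fin 2) ℝ)) (MvPolynomial.coeff m F)).totalDegree = 0 := by
    rw [MvPolynomial.algebraMap_eq, MvPolynomial.totalDegree_C]
  rw [h1, zero_add]
  have h2 : (∏ i : Fin 2, g i ^ m i).totalDegree ≤ ∑ i : Fin 2, m i := by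
    refine (MvPolynomial.totalDegree_finsetProd _ _).trans (Finset.sum_le_sum fun i _ => ?_)
    refine (MvPolynomial.totalDegree_pow _ _).trans ?_
    calc m i * (g i).totalDegree ≤ m i * 1 := Nat.mul_le_mul_left _ (hg i)
      _ = m i := mul_one _
  refine h2.trans ?_
  have h3 := MvPolynomial.le_totalDegree hm
  rwa [Finsupp.sum_fintype _ _ (fun _ => rfl)] at h3

/-- main theorem for the quadrant: `F(x - y, y)` is a packing polynomial on `I(1)` of the same degree -/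
theorem no_packing_quadrant (F : MvPolynomial (Fin 2) ℝ) (hF : IsPackingQuadrant F) :
    F.totalDegree ≤ 2 ∨ 6 ≤ F.totalDegree := by
  set g : Fin 2 → MvPolynomial (Fin 2) ℝ := ![MvPolynomial.X 0 - MvPolynomial.X 1, MvPolynomial.X 1] with hgdef
  set g' : Fin 2 → MvPolynomial (Fin 2) ℝ := ![MvPolynomial.X 0 + MvPolynomial.X 1, MvPolynomial.X 1] with hg'def
  set G : MvPolynomial (Fin 2) ℝ := MvPolynomial.aeval g F with hG
  have hgd : ∀ i, (g i).totalDegree ≤ 1 := by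
    intro i
    fin_cases i
    · refine (MvPolynomial.totalDegree_sub _ _).trans ?_
      simp
    · simp [hgdef]
  have hg'd : ∀ i, (g' i).totalDegree ≤ 1 := by
    intro i
    fin_cases i
    · refine (MvPolynomial.totalDegree_add _ _).trans ?_
      simp
    · simp [hg'def]
  have hback : MvPolynomial.aeval g' G = F := by
    have h : ((MvPolynomial.aeval g').comp (MvPolynomial.aeval g) :
        MvPolynomial (Fin 2) ℝ →ₐ[ℝ] MvPolynomial (Fin 2) ℝ) = AlgHom.id ℝ _ := by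
      refine MvPolynomial.algHom_ext fun i => ?_
      fin_cases i
      · simp [hgdef, hg'def]
      · simp [hgdef, hg'def]
    have := congrArg (fun φ : MvPolynomial (Fin 2) ℝ →ₐ[ℝ] MvPolynomial (Fin 2) ℝ => φ F) h
    simpa [hG] using this
  have hdeg : G.totalDegree = F.totalDegree := by
    refine le_antisymm (deg_subst F g hgd) ?_
    calc F.totalDegree = (MvPolynomial.aeval g' G).totalDegree := by rw [hback]
      _ ≤ G.totalDegree := deg_subst G g' hg'd
  have hevG : ∀ x y : ℝ, MvPolynomial.eval ![x, y] G = MvPolynomial.eval ![x - y, y] F := by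
    intro x y
    have h : ((MvPolynomial.aeval ![x, y] : MvPolynomial (Fin 2) ℝ →ₐ[ℝ] ℝ).comp
        (MvPolynomial.aeval g)) = MvPolynomial.aeval ![x - y, y] := by
      refine MvPolynomial.algHom_ext fun i => ?_
      fin_cases i
      · simp [hgdef]
      · simp [hgdef]
    have h2 := congrArg (fun φ : MvPolynomial (Fin 2) ℝ →ₐ[ℝ] ℝ => φ F) h
    simpa [hG, MvPolynomial.coe_aeval_eq_eval] using h2
  rw [← hdeg]
  refine no_packing (α := 1) one_pos G ?_
  obtain ⟨hmaps, hinj, hsurj⟩ := hF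
  refine ⟨?_, ?_, ?_⟩
  · rintro ⟨x, y⟩ hxy
    have hyx : y ≤ x := by
      have : (y : ℝ) ≤ ((1 : ℚ) : ℝ) * (x : ℝ) := hxy
      have h' : (y : ℝ) ≤ (x : ℝ) := by simpa using this
      exact_mod_cast h'
    have := hmaps (Set.mem_univ ((x - y, y) : ℕ × ℕ))
    simp only [Nat.cast_sub hyx] at this
    simp only [hevG]
    exact this
  · rintro ⟨x, y⟩ hxy ⟨x', y'⟩ hxy' h
    have hyx : y ≤ x := by
      have : (y : ℝ) ≤ ((1 : ℚ) : ℝ) * (x : ℝ) := hxy
      have h' : (y : ℝ) ≤ (x : ℝ) := by simpa using this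
      exact_mod_cast h'
    have hyx' : y' ≤ x' := by
      have : (y' : ℝ) ≤ ((1 : ℚ) : ℝ) * (x' : ℝ) := hxy'
      have h' : (y' : ℝ) ≤ (x' : ℝ) := by simpa using this
      exact_mod_cast h'
    simp only [hevG] at h
    have h2 := hinj (Set.mem_univ ((x - y, y) : ℕ × ℕ)) (Set.mem_univ ((x' - y', y') : ℕ × ℕ))
      (by simpa only [Nat.cast_sub hyx, Nat.cast_sub hyx'] using h)
    simp only [Prod.mk.injEq] at h2 ⊢
    omega
  · rintro _ ⟨m, rfl⟩
    obtain ⟨⟨u, v⟩, -, hm⟩ := hsurj (Set.mem_range_self m)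
    refine ⟨(u + v, v), ?_, ?_⟩
    · show (v : ℝ) ≤ ((1 : ℚ) : ℝ) * ((u + v : ℕ) : ℝ)
      push_cast
      have : (0 : ℝ) ≤ u := Nat.cast_nonneg u
      linarith
    · simp only [hevG]
      simp only at hm
      rw [← hm]
      push_cast
      simp

end Pool.Agent.Lib.MP_ff4e96_co
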