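import Pool.Agent.Lib.MP_ff4e96_co.Defs
import Pool.Agent.Lib.MP_ff4e96_co.Count

section

section

/-!
# MP_ff4e96_co: sequences of lattice points and limits of ratios of monomials

`lim_data`: for every `m` choose `(i, j)` with `i + j ≤ 5`, `c i j ≠ 0` such that `x_m^i y_m^j` is maximal; one
pair `(i₀, j₀)` is chosen infinitely often. The ratios `x^i y^j / (x^i₀ y^j₀)` are in `[0, 1]` for these `m`;
by compactness of `[0,1]^{6 × 6}` (`IsCompact.tendsto_subseq` in `Fin 6 × Fin 6 → ℝ`) they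
converge along a subsequence. Put `ρ i j = 0` if `c i j = 0` or `i + j > 5`. Note `φ m ≥ m` for a strictly
monotone `φ`, so `m + 1 ≤ y (φ m)` etc.
-/

namespace Pool.Agent.Lib.MP_ff4e96_co

open Filter Topology

/-- the data of a subsequence on which all ratios of monomials with nonzero coefficient converge -/
def LimData (c : ℕ → ℕ → ℚ) (x y : ℕ → ℤ) (i₀ j₀ : ℕ) (ρ : ℕ → ℕ → ℝ) : Prop :=
  (∀ m : ℕ, (m : ℤ) + 1 ≤ y m) ∧ (∀ m : ℕ, ((m : ℤ) + 1) * y m ≤ x m) ∧ i₀ + j₀ ≤ 5 ∧ c i₀ j₀ ≠ 0 ∧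
    (∀ i j, i + j ≤ 5 → c i j ≠ 0 → ∀ m,
      (x m : ℝ) ^ i * (y m : ℝ) ^ j ≤ (x m : ℝ) ^ i₀ * (y m : ℝ) ^ j₀) ∧
    (∀ i j, i + j ≤ 5 → c i j ≠ 0 →
      Tendsto (fun m => (x m : ℝ) ^ i * (y m : ℝ) ^ j / ((x m : ℝ) ^ i₀ * (y m : ℝ) ^ j₀)) atTop
        (𝓝 (ρ i j))) ∧
    (∀ i j, c i j = 0 → ρ i j = 0) ∧ (∀ i j, 5 < i + j → ρ i j = 0) ∧ (∀ i j, 0 ≤ ρ i j) ∧
    ρ i₀ j₀ = 1

theorem lim_data {c : ℕ → ℕ → ℚ} (x y : ℕ → ℤ) (hy : ∀ m : ℕ, (m : ℤ) + 1 ≤ y m)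
    (hx : ∀ m : ℕ, ((m : ℤ) + 1) * y m ≤ x m) (hc : ∃ i j, i + j ≤ 5 ∧ c i j ≠ 0) :
    ∃ (φ : ℕ → ℕ) (i₀ j₀ : ℕ) (ρ : ℕ → ℕ → ℝ), StrictMono φ ∧
      LimData c (fun m => x (φ m)) (fun m => y (φ m)) i₀ j₀ ρ := by
  classical
  have hypos : ∀ m, (0 : ℝ) < (y m : ℝ) := by
    intro m
    have h := hy m
    have h0 : (0 : ℤ) ≤ (m : ℤ) := Int.natCast_nonneg m
    exact_mod_cast (by linarith : (0 : ℤ) < y m)
  have hxpos : ∀ m, (0 : ℝ) < (x m : ℝ) := by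
    intro m
    have h := hx m
    have h0 : (0 : ℤ) ≤ (m : ℤ) := Int.natCast_nonneg m
    have h1 : (0 : ℤ) < y m := by linarith [hy m]
    have h2 : (0 : ℤ) < ((m : ℤ) + 1) * y m := by positivity
    exact_mod_cast (by linarith : (0 : ℤ) < x m)
  let g : Fin 6 × Fin 6 → ℕ → ℝ := fun p m => (x m : ℝ) ^ (p.1 : ℕ) * (y m : ℝ) ^ (p.2 : ℕ)
  have hg : ∀ p m, 0 < g p m := fun p m => mul_pos (pow_pos (hxpos m) _) (pow_pos (hypos m) _)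
  let S : Finset (Fin 6 × Fin 6) :=
    Finset.univ.filter (fun p => (p.1 : ℕ) + (p.2 : ℕ) ≤ 5 ∧ c (p.1 : ℕ) (p.2 : ℕ) ≠ 0)
  have hmemS : ∀ p : Fin 6 × Fin 6, p ∈ S ↔
      ((p.1 : ℕ) + (p.2 : ℕ) ≤ 5 ∧ c (p.1 : ℕ) (p.2 : ℕ) ≠ 0) := by
    intro p; simp [S]
  have hSne : S.Nonempty := by
    obtain ⟨i, j, hij, hcij⟩ := hc
    refine ⟨(⟨i, by omega⟩, ⟨j, by omega⟩), ?_⟩
    rw [hmemS]
    exact ⟨hij, hcij⟩
  have hmax : ∀ m, ∃ p ∈ S, ∀ q ∈ S, g q m ≤ g p m := fun m =>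
    Finset.exists_max_image S (fun p => g p m) hSne
  choose P hPS hPmax using hmax
  obtain ⟨p₀, hp₀⟩ := Finite.exists_infinite_fiber P
  have hfreq : ∃ᶠ m in atTop, P m = p₀ := by
    rw [Nat.frequently_atTop_iff_infinite]
    exact Set.infinite_coe_iff.mp hp₀
  obtain ⟨φ₁, hφ₁, hP₁⟩ := Filter.extraction_of_frequently_atTop hfreq
  have hp₀S : p₀ ∈ S := by rw [← hP₁ 0]; exact hPS _
  have hle : ∀ m, ∀ q ∈ S, g q (φ₁ m) ≤ g p₀ (φ₁ m) := by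
    intro m q hq
    have h := hPmax (φ₁ m) q hq
    rwa [hP₁ m] at h
  let r : ℕ → (Fin 6 × Fin 6 → ℝ) := fun m q => if q ∈ S then g q (φ₁ m) / g p₀ (φ₁ m) else 0
  have hr : ∀ m, r m ∈ Set.Icc (0 : Fin 6 × Fin 6 → ℝ) 1 := by
    intro m
    constructor
    · intro q
      by_cases hq : q ∈ S
      · simp only [r, hq, if_true, Pi.zero_apply]
        exact (div_pos (hg _ _) (hg _ _)).le
      · simp [r, hq]
    · intro q
      by_cases hq : q ∈ S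
      · simp only [r, hq, if_true, Pi.one_apply]
        rw [div_le_one (hg _ _)]
        exact hle m q hq
      · simp [r, hq]
  obtain ⟨a, ha, φ₂, hφ₂, hlim⟩ := (isCompact_Icc (a := (0 : Fin 6 × Fin 6 → ℝ)) (b := 1)).tendsto_subseq hr
  have hlim' : ∀ q, Tendsto (fun m => r (φ₂ m) q) atTop (𝓝 (a q)) := by
    intro q
    exact (tendsto_pi_nhds.mp hlim) q
  have hφ : StrictMono (fun m => φ₁ (φ₂ m)) := hφ₁.comp hφ₂
  have hφle : ∀ m, m ≤ φ₁ (φ₂ m) := fun m => hφ.le_apply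
  have hp₀' := (hmemS p₀).1 hp₀S
  let ρ : ℕ → ℕ → ℝ := fun i j =>
    if h : i + j ≤ 5 ∧ c i j ≠ 0 then a (⟨i, by omega⟩, ⟨j, by omega⟩) else 0
  refine ⟨fun m => φ₁ (φ₂ m), p₀.1, p₀.2, ρ, hφ, ?_, ?_, hp₀'.1, hp₀'.2, ?_, ?_, ?_, ?_, ?_, ?_⟩
  · intro m
    have h1 := hy (φ₁ (φ₂ m))
    have h2 : (m : ℤ) ≤ (φ₁ (φ₂ m) : ℤ) := by exact_mod_cast hφle m
    show (m : ℤ) + 1 ≤ y (φ₁ (φ₂ m))
    linarith
  · intro m
    have h1 := hx (φ₁ (φ₂ m))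
    have h2 : (m : ℤ) ≤ (φ₁ (φ₂ m) : ℤ) := by exact_mod_cast hφle m
    have h3 : (0 : ℤ) ≤ y (φ₁ (φ₂ m)) := by
      have := hy (φ₁ (φ₂ m))
      have h0 : (0 : ℤ) ≤ (φ₁ (φ₂ m) : ℤ) := Int.natCast_nonneg _
      linarith
    show ((m : ℤ) + 1) * y (φ₁ (φ₂ m)) ≤ x (φ₁ (φ₂ m))
    nlinarith
  · intro i j hij hcij m
    have h := hle (φ₂ m) (⟨i, by omega⟩, ⟨j, by omega⟩) ((hmemS _).2 ⟨hij, hcij⟩)
    exact h
  · intro i j hij hcij
    have hmem : ((⟨i, by omega⟩, ⟨j, by omega⟩) : Fin 6 × Fin 6) ∈ S := (hmemS _).2 ⟨hij, hcij⟩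
    have h := hlim' (⟨i, by omega⟩, ⟨j, by omega⟩)
    have hρ : ρ i j = a (⟨i, by omega⟩, ⟨j, by omega⟩) := by
      simp only [ρ]
      rw [dif_pos ⟨hij, hcij⟩]
    rw [hρ]
    refine h.congr ?_
    intro m
    simp only [r, hmem, if_true, g]
  · intro i j hcij
    simp only [ρ]
    rw [dif_neg (fun h => h.2 hcij)]
  · intro i j hij
    simp only [ρ]
    rw [dif_neg (fun h => by omega)]
  · intro i j
    simp only [ρ]
    split_ifs with h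
    · exact ha.1 _
    · exact le_rfl
  · have h := hlim' p₀
    have h1 : (fun m => r (φ₂ m) p₀) = fun _ => (1 : ℝ) := by
      funext m
      simp only [r, hp₀S, if_true]
      exact div_self (hg _ _).ne'
    rw [h1] at h
    have h2 : a p₀ = 1 := tendsto_nhds_unique h tendsto_const_nhds
    have h3 : ρ p₀.1 p₀.2 = a p₀ := by
      simp only [ρ]
      rw [dif_pos hp₀']
    rw [h3, h2]

end Pool.Agent.Lib.MP_ff4e96_co
end

section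

/-!
# MP_ff4e96_co: structure of the set of maximal monomials

All `x_m, y_m ≥ 1`, `y_m → ∞`, `x_m / y_m → ∞`. If `ρ i j ≠ 0` and `ρ i' j' ≠ 0` (so both are positive) then
`x^i' y^j' / (x^i y^j)` tends to `ρ i' j' / ρ i j`, a positive real.
`str_pair`: let `a = i' - i > 0`. If `i' + j' ≥ i + j` then this ratio is `(x/y)^a y^(i' + j' - i - j) ≥ (x/y)^a → ∞`: contradiction.
`str_same`: the ratio is a nonzero power of `y` or its inverse.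
`str_col`: with `a = i' - i`, `b = j - j'`, `a'' = i'' - i`, `b'' = j - j''` (integers): `x^a / y^b` and `x^a'' / y^b''` have
positive limits, so `y^(a b'' - a'' b)` (quotient of the powers with exponents `a''` and `a`, integer powers
`zpow`) has a positive limit, so the exponent is 0. `str_ratio`: quotient of the two ratios.
-/

namespace Pool.Agent.Lib.MP_ff4e96_co

open Filter Topology

/-- both sequences are positive, `y → ∞`, `log x - log y → ∞` -/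
private theorem str_basic {c : ℕ → ℕ → ℚ} {x y : ℕ → ℤ} {i₀ j₀ : ℕ} {ρ : ℕ → ℕ → ℝ}
    (h : LimData c x y i₀ j₀ ρ) :
    (∀ m, 0 < (x m : ℝ)) ∧ (∀ m, 0 < (y m : ℝ)) ∧
      Tendsto (fun m => Real.log (y m : ℝ)) atTop atTop ∧
      Tendsto (fun m => Real.log (x m : ℝ) - Real.log (y m : ℝ)) atTop atTop ∧
      ∀ m, 0 ≤ Real.log (y m : ℝ) := by
  obtain ⟨hy, hx, -⟩ := h
  have hy1 : ∀ m : ℕ, (m : ℝ) + 1 ≤ (y m : ℝ) := fun m => by exact_mod_cast hy m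
  have hx1 : ∀ m : ℕ, ((m : ℝ) + 1) * (y m : ℝ) ≤ (x m : ℝ) := fun m => by exact_mod_cast hx m
  have hm : ∀ m : ℕ, (1 : ℝ) ≤ (m : ℝ) + 1 := fun m => by
    have : (0 : ℝ) ≤ (m : ℝ) := Nat.cast_nonneg m
    linarith
  have hy0 : ∀ m, 0 < (y m : ℝ) := fun m => by linarith [hy1 m, hm m]
  have hx0 : ∀ m, 0 < (x m : ℝ) := fun m =>
    lt_of_lt_of_le (mul_pos (by linarith [hm m]) (hy0 m)) (hx1 m)
  have ht : Tendsto (fun m : ℕ => Real.log ((m : ℝ) + 1)) atTop atTop :=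
    Real.tendsto_log_atTop.comp (tendsto_atTop_add_const_right _ 1 tendsto_natCast_atTop_atTop)
  refine ⟨hx0, hy0, ?_, ?_, ?_⟩
  · exact tendsto_atTop_mono (fun m => Real.log_le_log (by linarith [hm m]) (hy1 m)) ht
  · refine tendsto_atTop_mono (fun m => ?_) ht
    have h1 := Real.log_le_log (mul_pos (by linarith [hm m]) (hy0 m)) (hx1 m)
    rw [Real.log_mul (by linarith [hm m]) (hy0 m).ne'] at h1
    linarith
  · intro m
    exact Real.log_nonneg (by linarith [hy1 m, hm m])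

/-- a nonzero limit has a nonzero coefficient -/
private theorem str_ne {c : ℕ → ℕ → ℚ} {x y : ℕ → ℤ} {i₀ j₀ : ℕ} {ρ : ℕ → ℕ → ℝ}
    (h : LimData c x y i₀ j₀ ρ) {i j : ℕ} (h1 : ρ i j ≠ 0) :
    Tendsto (fun m => (x m : ℝ) ^ i * (y m : ℝ) ^ j / ((x m : ℝ) ^ i₀ * (y m : ℝ) ^ j₀)) atTop
        (𝓝 (ρ i j)) := by
  obtain ⟨-, -, -, -, -, h6, h7, h8, -, -⟩ := h
  refine h6 i j ?_ ?_
  · by_contra h2
    exact h1 (h8 i j (by omega))
  · intro h2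
    exact h1 (h7 i j h2)

private theorem str_quot {c : ℕ → ℕ → ℚ} {x y : ℕ → ℤ} {i₀ j₀ : ℕ} {ρ : ℕ → ℕ → ℝ}
    (h : LimData c x y i₀ j₀ ρ) {i j i' j' : ℕ} (h1 : ρ i j ≠ 0) (h2 : ρ i' j' ≠ 0) :
    Tendsto (fun m => (x m : ℝ) ^ i' * (y m : ℝ) ^ j' / ((x m : ℝ) ^ i * (y m : ℝ) ^ j)) atTop
        (𝓝 (ρ i' j' / ρ i j)) := by
  obtain ⟨hx0, hy0, -⟩ := str_basic h
  have h3 := (str_ne h h2).div (str_ne h h1) h1
  refine h3.congr fun m => ?_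
  have hx := (hx0 m).ne'
  have hy := (hy0 m).ne'
  have hD : (x m : ℝ) ^ i₀ * (y m : ℝ) ^ j₀ ≠ 0 := mul_ne_zero (pow_ne_zero _ hx) (pow_ne_zero _ hy)
  exact div_div_div_cancel_right₀ hD _ _

private theorem str_log {c : ℕ → ℕ → ℚ} {x y : ℕ → ℤ} {i₀ j₀ : ℕ} {ρ : ℕ → ℕ → ℝ}
    (h : LimData c x y i₀ j₀ ρ) {i j i' j' : ℕ} (h1 : ρ i j ≠ 0) (h2 : ρ i' j' ≠ 0) :
    ∃ L : ℝ, Tendsto (fun m => ((i' : ℝ) - i) * Real.log (x m : ℝ) +
      ((j' : ℝ) - j) * Real.log (y m : ℝ)) atTop (𝓝 L) := by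
  obtain ⟨hx0, hy0, -⟩ := str_basic h
  refine ⟨_, ((str_quot h h1 h2).log (div_ne_zero h2 h1)).congr fun m => ?_⟩
  have hx := (hx0 m).ne'
  have hy := (hy0 m).ne'
  rw [Real.log_div (mul_ne_zero (pow_ne_zero _ hx) (pow_ne_zero _ hy))
    (mul_ne_zero (pow_ne_zero _ hx) (pow_ne_zero _ hy)), Real.log_mul (pow_ne_zero _ hx)
    (pow_ne_zero _ hy), Real.log_mul (pow_ne_zero _ hx) (pow_ne_zero _ hy), Real.log_pow,
    Real.log_pow, Real.log_pow, Real.log_pow]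
  ring

private theorem str_coef {c : ℕ → ℕ → ℚ} {x y : ℕ → ℤ} {i₀ j₀ : ℕ} {ρ : ℕ → ℕ → ℝ}
    (h : LimData c x y i₀ j₀ ρ) {k L : ℝ}
    (hk : Tendsto (fun m => k * Real.log (y m : ℝ)) atTop (𝓝 L)) : k = 0 := by
  obtain ⟨-, -, ht, -⟩ := str_basic h
  rcases lt_trichotomy k 0 with hk0 | hk0 | hk0
  · exact absurd (ht.const_mul_atTop_of_neg hk0) (not_tendsto_atBot_of_tendsto_nhds hk)
  · exact hk0
  · exact absurd (ht.const_mul_atTop hk0) (not_tendsto_atTop_of_tendsto_nhds hk)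

theorem str_pair {c : ℕ → ℕ → ℚ} {x y : ℕ → ℤ} {i₀ j₀ : ℕ} {ρ : ℕ → ℕ → ℝ}
    (h : LimData c x y i₀ j₀ ρ) {i j i' j' : ℕ} (h1 : ρ i j ≠ 0) (h2 : ρ i' j' ≠ 0) (hi : i < i') :
    i' + j' < i + j := by
  by_contra hcon
  push Not at hcon
  obtain ⟨-, -, -, ht, hl⟩ := str_basic h
  obtain ⟨L, hL⟩ := str_log h h1 h2
  refine not_tendsto_atTop_of_tendsto_nhds hL (tendsto_atTop_mono' _ ?_ ht)
  filter_upwards [ht.eventually_ge_atTop 0] with m hm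
  have e1 : (1 : ℝ) ≤ (i' : ℝ) - i := by
    have : (i : ℝ) + 1 ≤ i' := by exact_mod_cast hi
    linarith
  have e2 : (0 : ℝ) ≤ (i' : ℝ) + j' - (i + j) := by
    have : (i : ℝ) + j ≤ i' + j' := by exact_mod_cast hcon
    linarith
  have e3 : 0 ≤ ((i' : ℝ) - i - 1) * (Real.log (x m : ℝ) - Real.log (y m : ℝ)) :=
    mul_nonneg (by linarith) hm
  have e4 := mul_nonneg e2 (hl m)
  nlinarith

theorem str_same {c : ℕ → ℕ → ℚ} {x y : ℕ → ℤ} {i₀ j₀ : ℕ} {ρ : ℕ → ℕ → ℝ}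
    (h : LimData c x y i₀ j₀ ρ) {i j j' : ℕ} (h1 : ρ i j ≠ 0) (h2 : ρ i j' ≠ 0) : j = j' := by
  obtain ⟨L, hL⟩ := str_log h h1 h2
  have h3 : (j' : ℝ) - j = 0 := by
    refine str_coef h (L := L) (hL.congr fun m => ?_)
    ring
  have h4 : (j : ℝ) = j' := by linarith
  exact_mod_cast h4

theorem str_col {c : ℕ → ℕ → ℚ} {x y : ℕ → ℤ} {i₀ j₀ : ℕ} {ρ : ℕ → ℕ → ℝ}
    (h : LimData c x y i₀ j₀ ρ) {i j i' j' i'' j'' : ℕ} (h1 : ρ i j ≠ 0) (h2 : ρ i' j' ≠ 0)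
    (h3 : ρ i'' j'' ≠ 0) :
    ((i' : ℤ) - i) * ((j : ℤ) - j'') = ((i'' : ℤ) - i) * ((j : ℤ) - j') := by
  obtain ⟨L, hL⟩ := str_log h h1 h2
  obtain ⟨L', hL'⟩ := str_log h h1 h3
  have h4 := (hL.const_mul ((i'' : ℝ) - i)).sub (hL'.const_mul ((i' : ℝ) - i))
  have h5 : ((i' : ℝ) - i) * ((j : ℝ) - j'') - ((i'' : ℝ) - i) * ((j : ℝ) - j') = 0 := by
    refine str_coef h (L := ((i'' : ℝ) - i) * L - ((i' : ℝ) - i) * L') (h4.congr fun m => ?_)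
    ring
  have h6 : ((i' : ℝ) - i) * ((j : ℝ) - j'') = ((i'' : ℝ) - i) * ((j : ℝ) - j') := by linarith
  exact_mod_cast h6

theorem str_ratio {c : ℕ → ℕ → ℚ} {x y : ℕ → ℤ} {i₀ j₀ : ℕ} {ρ : ℕ → ℕ → ℝ}
    (h : LimData c x y i₀ j₀ ρ) {i j : ℕ} (h1 : ρ i (j + 2) ≠ 0) (h2 : ρ (i + 1) j ≠ 0) :
    Tendsto (fun m => (x m : ℝ) / (y m : ℝ) ^ 2) atTop (𝓝 (ρ (i + 1) j / ρ i (j + 2))) := by
  obtain ⟨hx0, hy0, -⟩ := str_basic h
  refine (str_quot h h1 h2).congr fun m => ?_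
  have hx := (hx0 m).ne'
  have hy := (hy0 m).ne'
  rw [pow_succ, pow_add]
  field_simp

end Pool.Agent.Lib.MP_ff4e96_co
end

section

/-!
# MP_ff4e96_co: classification of the degenerate clusters

`lim_class`: Let `E = {(i, j) : c_ij ≠ 0, ρ_ij ≠ 0}`; `ρ ≥ 0`. By `str_pair` distinct elements of `E` have
different `i`, and `i < i'` implies `i' + j' < i + j`; by `str_col` any three are collinear. `H` is a
polynomial `∑ h_i λ^i`, with `h_i = c_ij ρ_ij` for the element of `E` with first coordinate `i`;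
`H ≥ 0` on `(0, ∞)`, `H 1 = 0`, so `H' 1 = 0`; `H ≠ 0` (`(i₀, j₀) ∈ E`). A polynomial with at most two
terms `a λ^i + b λ^i'`, not both zero, does not vanish to order 2 at 1. So `E` has three elements
with `i₁ < i₂ < i₃`; then (finite check, `i₁ + j₁ ≤ 5`, `j₁ ≥ j₂ + 2 ≥ j₃ + 4`, collinear) they are
`(0,4),(1,2),(2,0)` or `(0,5),(1,3),(2,1)` or `(1,4),(2,2),(3,0)`, and `E` has no other element. So
`H λ = λ^i₁ (A + B λ + C λ²)`, `A + B + C = 0`, `B + 2 C = 0` (from `H' 1 = 0`), so `A = C`, `B = -2 C`.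
`C > 0` as `H ≥ 0`. With `r = lim x_m / y_m² = ρ₃/ρ₂ = ρ₂/ρ₁` (`str_ratio`), `r > 0`: `c₃ = C/ρ₃ > 0`, `c₂ = -2 C/ρ₂
= -2 r c₃`, `c₁ = C/ρ₁ = r² c₃`. `r = -c₂/(2 c₃)` is rational: `κ = r`. All other `(i, j)` with `c_ij ≠ 0`
have `2 i + j ≤ w` (`w` the weight of the three points), because `x^i y^j ≤ x^i₀ y^j₀` along the
sequence, `x_m ~ κ y_m²` and `y_m → ∞`.
-/

namespace Pool.Agent.Lib.MP_ff4e96_co

open Filter Topology

/-- monomials with nonzero coefficient have weight at most the weight of the dominant one -/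
private theorem cls_weight {c : ℕ → ℕ → ℚ} {x y : ℕ → ℤ} {i₀ j₀ : ℕ} {ρ : ℕ → ℕ → ℝ}
    (h : LimData c x y i₀ j₀ ρ) {κ : ℝ} (hκ : 0 < κ)
    (ht : Tendsto (fun m => (x m : ℝ) / (y m : ℝ) ^ 2) atTop (𝓝 κ)) {i j : ℕ} (hij : i + j ≤ 5)
    (hw : 2 * i₀ + j₀ < 2 * i + j) : c i j = 0 := by
  by_contra hc
  obtain ⟨hy, hx, h5, hc0, hdom, hlim, hz1, hz2, hρ, hone⟩ := h
  have hy1 : ∀ m, (1 : ℝ) ≤ y m := by
    intro m
    have : (1 : ℤ) ≤ y m := by have := hy m; omega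
    exact_mod_cast this
  have hym : ∀ m : ℕ, (m : ℝ) + 1 ≤ y m := by
    intro m
    exact_mod_cast hy m
  set u : ℕ → ℝ := fun m => (x m : ℝ) / (y m : ℝ) ^ 2 with hu
  have hxu : ∀ m, (x m : ℝ) = u m * (y m : ℝ) ^ 2 := by
    intro m
    have : (y m : ℝ) ≠ 0 := by have := hy1 m; positivity
    simp only [hu]
    field_simp
  have hu0 : ∀ m, 0 ≤ u m := by
    intro m
    have h1 : (0 : ℤ) ≤ x m := by
      have h2 := hx m
      have h3 := hy m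
      have : (0 : ℤ) ≤ ((m : ℤ) + 1) * y m := by
        have h4 : (0 : ℤ) ≤ y m := by omega
        positivity
      exact le_trans this h2
    have h2 : (0 : ℝ) ≤ x m := by exact_mod_cast h1
    exact div_nonneg h2 (by positivity)
  have key : ∀ m : ℕ, u m ^ i * ((m : ℝ) + 1) ≤ u m ^ i₀ := by
    intro m
    have h1 := hdom i j hij hc m
    rw [hxu m] at h1
    have hyp : (0 : ℝ) < y m := lt_of_lt_of_le one_pos (hy1 m)
    have e1 : (u m * (y m : ℝ) ^ 2) ^ i * (y m : ℝ) ^ j = u m ^ i * (y m : ℝ) ^ (2 * i + j) := by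
      rw [mul_pow, ← pow_mul, pow_add]; ring
    have e2 : (u m * (y m : ℝ) ^ 2) ^ i₀ * (y m : ℝ) ^ j₀
        = u m ^ i₀ * (y m : ℝ) ^ (2 * i₀ + j₀) := by
      rw [mul_pow, ← pow_mul, pow_add]; ring
    rw [e1, e2] at h1
    obtain ⟨d, hd⟩ : ∃ d, 2 * i + j = (2 * i₀ + j₀) + (d + 1) := ⟨2 * i + j - (2 * i₀ + j₀) - 1, by omega⟩
    rw [hd, pow_add, ← mul_assoc] at h1
    have h2 : u m ^ i * (y m : ℝ) ^ (2 * i₀ + j₀) * (y m : ℝ)
        ≤ u m ^ i * (y m : ℝ) ^ (2 * i₀ + j₀) * (y m : ℝ) ^ (d + 1) := by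
      apply mul_le_mul_of_nonneg_left
      · exact le_self_pow₀ (hy1 m) (by omega)
      · have := hu0 m; positivity
    have h3 : (u m ^ i * (y m : ℝ)) * (y m : ℝ) ^ (2 * i₀ + j₀)
        ≤ u m ^ i₀ * (y m : ℝ) ^ (2 * i₀ + j₀) := by
      calc (u m ^ i * (y m : ℝ)) * (y m : ℝ) ^ (2 * i₀ + j₀)
          = u m ^ i * (y m : ℝ) ^ (2 * i₀ + j₀) * (y m : ℝ) := by ring
        _ ≤ _ := h2
        _ ≤ _ := h1
    have h4 : u m ^ i * (y m : ℝ) ≤ u m ^ i₀ := le_of_mul_le_mul_right h3 (by positivity)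
    refine le_trans ?_ h4
    exact mul_le_mul_of_nonneg_left (hym m) (pow_nonneg (hu0 m) i)
  have t1 : Tendsto (fun m => u m ^ i) atTop (𝓝 (κ ^ i)) := ht.pow i
  have t2 : Tendsto (fun m => u m ^ i₀) atTop (𝓝 (κ ^ i₀)) := ht.pow i₀
  have t3 : Tendsto (fun m : ℕ => (m : ℝ) + 1) atTop atTop :=
    tendsto_atTop_add_const_right _ _ tendsto_natCast_atTop_atTop
  have t4 : Tendsto (fun m : ℕ => u m ^ i * ((m : ℝ) + 1)) atTop atTop :=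
    t1.pos_mul_atTop (pow_pos hκ i) t3
  have t5 : Tendsto (fun m => u m ^ i₀) atTop atTop := tendsto_atTop_mono key t4
  exact not_tendsto_nhds_of_tendsto_atTop t5 _ t2

/-- three maximal monomials form one of the three patterns -/
private theorem cls_tri {c : ℕ → ℕ → ℚ} {x y : ℕ → ℤ} {i₀ j₀ : ℕ} {ρ : ℕ → ℕ → ℝ}
    (h : LimData c x y i₀ j₀ ρ) {i₁ j₁ i₂ j₂ i₃ j₃ : ℕ} (h1 : ρ i₁ j₁ ≠ 0) (h2 : ρ i₂ j₂ ≠ 0)
    (h3 : ρ i₃ j₃ ≠ 0) (h12 : i₁ < i₂) (h23 : i₂ < i₃) :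
    ∃ a b : ℕ, (a = 0 ∧ b = 0 ∨ a = 0 ∧ b = 1 ∨ a = 1 ∧ b = 0) ∧ ρ a (b + 4) ≠ 0 ∧
      ρ (a + 1) (b + 2) ≠ 0 ∧ ρ (a + 2) b ≠ 0 := by
  have e12 := str_pair h h1 h2 h12
  have e23 := str_pair h h2 h3 h23
  have col := str_col h h1 h2 h3
  have hb : i₁ + j₁ ≤ 5 := by
    by_contra hcon
    exact h1 (h.2.2.2.2.2.2.2.1 i₁ j₁ (by omega))
  have hi3 : i₃ ≤ 3 := by omega
  have hi1 : i₁ ≤ 1 := by omega
  interval_cases i₁
  · -- i₁ = 0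
    have hi2 : i₂ = 1 ∨ i₂ = 2 := by omega
    rcases hi2 with rfl | rfl
    · have hi3' : i₃ = 2 ∨ i₃ = 3 := by omega
      rcases hi3' with rfl | rfl
      · have : j₁ = 4 ∧ j₂ = 2 ∧ j₃ = 0 ∨ j₁ = 5 ∧ j₂ = 3 ∧ j₃ = 1 := by
          push_cast at col
          omega
        rcases this with ⟨rfl, rfl, rfl⟩ | ⟨rfl, rfl, rfl⟩
        · exact ⟨0, 0, by omega, h1, h2, h3⟩
        · exact ⟨0, 1, by omega, h1, h2, h3⟩
      · exfalso
        push_cast at col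
        omega
    · have hi3' : i₃ = 3 := by omega
      subst hi3'
      exfalso
      push_cast at col
      omega
  · -- i₁ = 1
    have hi2 : i₂ = 2 := by omega
    have hi3' : i₃ = 3 := by omega
    subst hi2 hi3'
    have : j₁ = 4 ∧ j₂ = 2 ∧ j₃ = 0 := by
      push_cast at col
      omega
    obtain ⟨rfl, rfl, rfl⟩ := this
    exact ⟨1, 0, by omega, h1, h2, h3⟩

/-- conclusion from the three coefficients -/
private theorem cls_core {c : ℕ → ℕ → ℚ} {x y : ℕ → ℤ} {i₀ j₀ : ℕ} {ρ : ℕ → ℕ → ℝ}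
    (h : LimData c x y i₀ j₀ ρ) {a b : ℕ} {C : ℝ} (hC : 0 < C)
    (r1 : ρ a (b + 4) ≠ 0) (r2 : ρ (a + 1) (b + 2) ≠ 0) (r3 : ρ (a + 2) b ≠ 0)
    (c1 : (c a (b + 4) : ℝ) * ρ a (b + 4) = C)
    (c2 : (c (a + 1) (b + 2) : ℝ) * ρ (a + 1) (b + 2) = -2 * C)
    (c3 : (c (a + 2) b : ℝ) * ρ (a + 2) b = C) (hw : 2 * i₀ + j₀ = 2 * a + b + 4) :
    ∃ κ : ℚ, 0 < κ ∧ Tendsto (fun m => (x m : ℝ) / (y m : ℝ) ^ 2) atTop (𝓝 (κ : ℝ)) ∧
      0 < c (a + 2) b ∧ c (a + 1) (b + 2) = -2 * κ * c (a + 2) b ∧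
      c a (b + 4) = κ ^ 2 * c (a + 2) b ∧
      ∀ i j, i + j ≤ 5 → 2 * a + b + 4 < 2 * i + j → c i j = 0 := by
  have hρ := h.2.2.2.2.2.2.2.2.1
  have p1 : 0 < ρ a (b + 4) := lt_of_le_of_ne (hρ _ _) (Ne.symm r1)
  have p2 : 0 < ρ (a + 1) (b + 2) := lt_of_le_of_ne (hρ _ _) (Ne.symm r2)
  have p3 : 0 < ρ (a + 2) b := lt_of_le_of_ne (hρ _ _) (Ne.symm r3)
  have t1 := str_ratio (i := a) (j := b + 2) h r1 r2
  have t2 := str_ratio (i := a + 1) (j := b) h r2 r3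
  have hr := tendsto_nhds_unique t1 t2
  have hr' : ρ (a + 1) (b + 2) / ρ a (b + 4) = ρ (a + 2) b / ρ (a + 1) (b + 2) := hr
  set r : ℝ := ρ (a + 2) b / ρ (a + 1) (b + 2) with hrdef
  have hrpos : 0 < r := div_pos p3 p2
  have c3pos : (0 : ℝ) < (c (a + 2) b : ℝ) := by
    by_contra hcon
    push Not at hcon
    nlinarith
  have e3 : ρ (a + 2) b = r * ρ (a + 1) (b + 2) := by rw [hrdef]; field_simp
  have e2 : ρ (a + 1) (b + 2) = r * ρ a (b + 4) := by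
    have := (div_eq_iff r1).1 hr'
    exact this
  have d2 : (c (a + 1) (b + 2) : ℝ) = -2 * r * c (a + 2) b := by
    have : ((c (a + 1) (b + 2) : ℝ) + 2 * r * c (a + 2) b) * ρ (a + 1) (b + 2) = 0 := by
      have : (c (a + 2) b : ℝ) * (r * ρ (a + 1) (b + 2)) = C := by rw [← e3]; exact c3
      linear_combination c2 + 2 * this
    rcases mul_eq_zero.1 this with h0 | h0
    · linarith
    · exact absurd h0 r2
  have d1 : (c a (b + 4) : ℝ) = r ^ 2 * c (a + 2) b := by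
    have : ((c a (b + 4) : ℝ) - r ^ 2 * c (a + 2) b) * ρ a (b + 4) = 0 := by
      have : (c (a + 2) b : ℝ) * (r * (r * ρ a (b + 4))) = C := by rw [← e2, ← e3]; exact c3
      linear_combination c1 - this
    rcases mul_eq_zero.1 this with h0 | h0
    · linarith
    · exact absurd h0 r1
  have hne : (c (a + 2) b : ℝ) ≠ 0 := c3pos.ne'
  refine ⟨-(c (a + 1) (b + 2)) / (2 * c (a + 2) b), ?_, ?_, ?_, ?_, ?_, ?_⟩
  · have : (0 : ℝ) < ((-(c (a + 1) (b + 2)) / (2 * c (a + 2) b) : ℚ) : ℝ) := by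
      push_cast
      rw [d2]
      have : -(-2 * r * (c (a + 2) b : ℝ)) / (2 * (c (a + 2) b : ℝ)) = r := by field_simp
      rw [this]
      exact hrpos
    exact_mod_cast this
  · have : ((-(c (a + 1) (b + 2)) / (2 * c (a + 2) b) : ℚ) : ℝ) = r := by
      push_cast
      rw [d2]
      field_simp
    rw [this]
    exact t2
  · exact_mod_cast c3pos
  · have hq : c (a + 2) b ≠ 0 := by exact_mod_cast hne
    field_simp
  · have : ((c a (b + 4) : ℚ) : ℝ)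
        = (((-(c (a + 1) (b + 2)) / (2 * c (a + 2) b)) ^ 2 * c (a + 2) b : ℚ) : ℝ) := by
      push_cast
      rw [d1, d2]
      field_simp
    exact_mod_cast this
  · intro i j hij hlt
    exact cls_weight h hrpos t2 hij (by omega)

theorem lim_class {c : ℕ → ℕ → ℚ} {x y : ℕ → ℤ} {i₀ j₀ : ℕ} {ρ : ℕ → ℕ → ℝ}
    (h : LimData c x y i₀ j₀ ρ)
    (hpos : ∀ l : ℝ, 0 < l → 0 ≤ ∑ i ∈ Finset.range 6, ∑ j ∈ Finset.range (6 - i),
      (c i j : ℝ) * ρ i j * l ^ i)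
    (h1 : ∑ i ∈ Finset.range 6, ∑ j ∈ Finset.range (6 - i), (c i j : ℝ) * ρ i j ≤ 0) :
    ∃ κ : ℚ, 0 < κ ∧ Tendsto (fun m => (x m : ℝ) / (y m : ℝ) ^ 2) atTop (𝓝 (κ : ℝ)) ∧
      (Deg4 c κ ∨ Deg5 c κ ∨ Deg6 c κ) := by
  have hz1 : ∀ i j, c i j = 0 → ρ i j = 0 := h.2.2.2.2.2.2.1
  have hz2 : ∀ i j, 5 < i + j → ρ i j = 0 := h.2.2.2.2.2.2.2.1
  have hone : ρ i₀ j₀ = 1 := h.2.2.2.2.2.2.2.2.2
  set hcf : ℕ → ℝ := fun i => ∑ j ∈ Finset.range (6 - i), (c i j : ℝ) * ρ i j with hcf_def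
  have hmem : ∀ i j, ρ i j ≠ 0 → i + j ≤ 5 := by
    intro i j hij
    by_contra hcon
    exact hij (hz2 i j (by omega))
  have hval : ∀ i j, ρ i j ≠ 0 → hcf i = (c i j : ℝ) * ρ i j := by
    intro i j hij
    have hle := hmem i j hij
    simp only [hcf_def]
    apply Finset.sum_eq_single j
    · intro j' _ hne
      by_cases h0 : ρ i j' = 0
      · rw [h0, mul_zero]
      · exact absurd (str_same h h0 hij) hne
    · intro hn
      exact absurd (Finset.mem_range.2 (by omega)) hn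
  have hvne : ∀ i j, ρ i j ≠ 0 → hcf i ≠ 0 := by
    intro i j hij
    rw [hval i j hij]
    refine mul_ne_zero ?_ hij
    intro h0
    exact hij (hz1 i j (by exact_mod_cast h0))
  have hex : ∀ i, hcf i ≠ 0 → ∃ j, ρ i j ≠ 0 := by
    intro i hi
    obtain ⟨j, _, hj⟩ := Finset.exists_ne_zero_of_sum_ne_zero hi
    exact ⟨j, right_ne_zero_of_mul hj⟩
  have hpos' : ∀ l : ℝ, 0 < l → 0 ≤ ∑ i ∈ Finset.range 6, hcf i * l ^ i := by
    intro l hl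
    have := hpos l hl
    simpa only [hcf_def, Finset.sum_mul] using this
  have F1 : ∑ i ∈ Finset.range 6, hcf i = 0 := by
    refine le_antisymm h1 ?_
    have := hpos' 1 one_pos
    simpa using this
  have F2 : ∑ i ∈ Finset.range 6, hcf i * (i : ℝ) = 0 := by
    have hmin : IsLocalMin (fun l : ℝ => ∑ i ∈ Finset.range 6, hcf i * l ^ i) 1 := by
      have : ∀ᶠ l in 𝓝 (1 : ℝ), 0 < l := lt_mem_nhds one_pos
      filter_upwards [this] with l hl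
      have e : ∑ i ∈ Finset.range 6, hcf i * (1 : ℝ) ^ i = 0 := by
        simpa using F1
      rw [e]
      exact hpos' l hl
    have hd : HasDerivAt (fun l : ℝ => ∑ i ∈ Finset.range 6, hcf i * l ^ i)
        (∑ i ∈ Finset.range 6, hcf i * ((i : ℝ) * (1 : ℝ) ^ (i - 1))) 1 := by
      apply HasDerivAt.fun_sum
      intro i _
      exact (hasDerivAt_pow i (1 : ℝ)).const_mul (hcf i)
    have h0 := hmin.hasDerivAt_eq_zero hd
    simpa using h0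
  -- three nonzero coefficients
  have hi0 : i₀ ∈ Finset.range 6 := by
    have := hmem i₀ j₀ (by rw [hone]; exact one_ne_zero)
    exact Finset.mem_range.2 (by omega)
  have hi0ne : hcf i₀ ≠ 0 := hvne i₀ j₀ (by rw [hone]; exact one_ne_zero)
  have hcard : 2 < ((Finset.range 6).filter (fun i => hcf i ≠ 0)).card := by
    by_contra hcon
    push Not at hcon
    set S := (Finset.range 6).filter (fun i => hcf i ≠ 0) with hS
    have hmemS : i₀ ∈ S := Finset.mem_filter.2 ⟨hi0, hi0ne⟩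
    have hc1 : (S.erase i₀).card ≤ 1 := by
      rw [Finset.card_erase_of_mem hmemS]; omega
    obtain ⟨b, hb⟩ := Finset.card_le_one_iff_subset_singleton.1 hc1
    have hall : ∀ i ∈ Finset.range 6, i ≠ i₀ → i ≠ b → hcf i = 0 := by
      intro i hi hne hne'
      by_contra hcf0
      have : i ∈ S.erase i₀ := Finset.mem_erase.2 ⟨hne, Finset.mem_filter.2 ⟨hi, hcf0⟩⟩
      exact hne' (Finset.mem_singleton.1 (hb this))
    have e1 : ∑ i ∈ Finset.range 6, hcf i * ((i : ℝ) - b) = 0 := by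
      have : ∑ i ∈ Finset.range 6, hcf i * ((i : ℝ) - b)
          = ∑ i ∈ Finset.range 6, hcf i * (i : ℝ) - (∑ i ∈ Finset.range 6, hcf i) * b := by
        rw [Finset.sum_mul, ← Finset.sum_sub_distrib]
        apply Finset.sum_congr rfl
        intro i _
        ring
      rw [this, F1, F2]; ring
    have e2 : ∑ i ∈ Finset.range 6, hcf i * ((i : ℝ) - b) = hcf i₀ * ((i₀ : ℝ) - b) := by
      apply Finset.sum_eq_single_of_mem i₀ hi0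
      intro i hi hne
      by_cases hib : i = b
      · subst hib; simp
      · rw [hall i hi hne hib, zero_mul]
    rw [e2] at e1
    rcases mul_eq_zero.1 e1 with h0 | h0
    · exact hi0ne h0
    · have hib : i₀ = b := by
        have : (i₀ : ℝ) = b := by linarith
        exact_mod_cast this
      have e3 : ∑ i ∈ Finset.range 6, hcf i = hcf i₀ := by
        apply Finset.sum_eq_single_of_mem i₀ hi0
        intro i hi hne
        exact hall i hi hne (by rw [← hib]; exact hne)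
      rw [e3] at F1
      exact hi0ne F1
  obtain ⟨p, hp, q, hq, s, hs, hpq, hps, hqs⟩ := Finset.two_lt_card.1 hcard
  obtain ⟨jp, hjp⟩ := hex p (Finset.mem_filter.1 hp).2
  obtain ⟨jq, hjq⟩ := hex q (Finset.mem_filter.1 hq).2
  obtain ⟨js, hjs⟩ := hex s (Finset.mem_filter.1 hs).2
  have hpat : ∃ a b : ℕ, (a = 0 ∧ b = 0 ∨ a = 0 ∧ b = 1 ∨ a = 1 ∧ b = 0) ∧ ρ a (b + 4) ≠ 0 ∧
      ρ (a + 1) (b + 2) ≠ 0 ∧ ρ (a + 2) b ≠ 0 := by
    rcases lt_or_gt_of_ne hpq with h12 | h12 <;> rcases lt_or_gt_of_ne hps with h13 | h13 <;>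
      rcases lt_or_gt_of_ne hqs with h23 | h23
    · exact cls_tri h hjp hjq hjs h12 h23
    · exact cls_tri h hjp hjs hjq h13 h23
    · omega
    · exact cls_tri h hjs hjp hjq h13 h12
    · exact cls_tri h hjq hjp hjs h12 h13
    · omega
    · exact cls_tri h hjq hjs hjp h23 h13
    · exact cls_tri h hjs hjq hjp h23 h12
  obtain ⟨a, b, hab, r1, r2, r3⟩ := hpat
  have z : ∀ i, i ≠ a → i ≠ a + 1 → i ≠ a + 2 → hcf i = 0 := by
    intro i g1 g2 g3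
    by_contra hne
    obtain ⟨j, hj⟩ := hex i hne
    have hle := hmem i j hj
    rcases lt_or_gt_of_ne g1 with hlt | hgt
    · have := str_pair h hj r1 hlt
      omega
    · have : a + 2 < i := by omega
      have := str_pair h r3 hj this
      omega
  have v1 := hval a (b + 4) r1
  have v2 := hval (a + 1) (b + 2) r2
  have v3 := hval (a + 2) b r3
  have hsum : ∀ f : ℕ → ℝ, ∑ i ∈ Finset.range 6, hcf i * f i
      = hcf a * f a + hcf (a + 1) * f (a + 1) + hcf (a + 2) * f (a + 2) := by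
    intro f
    rcases hab with ⟨rfl, rfl⟩ | ⟨rfl, rfl⟩ | ⟨rfl, rfl⟩
    · have z3 := z 3 (by omega) (by omega) (by omega)
      have z4 := z 4 (by omega) (by omega) (by omega)
      have z5 := z 5 (by omega) (by omega) (by omega)
      simp only [Finset.sum_range_succ, Finset.sum_range_zero, z3, z4, z5]
      ring
    · have z3 := z 3 (by omega) (by omega) (by omega)
      have z4 := z 4 (by omega) (by omega) (by omega)
      have z5 := z 5 (by omega) (by omega) (by omega)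
      simp only [Finset.sum_range_succ, Finset.sum_range_zero, z3, z4, z5]
      ring
    · have z0 := z 0 (by omega) (by omega) (by omega)
      have z4 := z 4 (by omega) (by omega) (by omega)
      have z5 := z 5 (by omega) (by omega) (by omega)
      simp only [Finset.sum_range_succ, Finset.sum_range_zero, z0, z4, z5]
      ring
  have G1 : hcf a + hcf (a + 1) + hcf (a + 2) = 0 := by
    have := hsum (fun _ => 1)
    simp only [mul_one] at this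
    rw [← this]; exact F1
  have G2 : hcf a * a + hcf (a + 1) * (a + 1) + hcf (a + 2) * (a + 2) = 0 := by
    have := hsum (fun i => (i : ℝ))
    rw [F2] at this
    push_cast at this
    exact this.symm
  have gB : hcf (a + 1) = -2 * hcf (a + 2) := by linear_combination G2 - a * G1
  have gA : hcf a = hcf (a + 2) := by linear_combination G1 - gB
  have hCne : hcf (a + 2) ≠ 0 := hvne (a + 2) b r3
  have hCpos : 0 < hcf (a + 2) := by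
    refine lt_of_le_of_ne ?_ (Ne.symm hCne)
    have h2 := hpos' 2 two_pos
    have h3 := hsum (fun i => (2 : ℝ) ^ i)
    rw [h3, gA, gB] at h2
    have : hcf (a + 2) * 2 ^ a + -2 * hcf (a + 2) * 2 ^ (a + 1) + hcf (a + 2) * 2 ^ (a + 2)
        = hcf (a + 2) * 2 ^ a := by ring
    rw [this] at h2
    by_contra hneg
    push Not at hneg
    have h4 : (0 : ℝ) < 2 ^ a := by positivity
    nlinarith
  have hweight : 2 * i₀ + j₀ = 2 * a + b + 4 := by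
    have hr0 : ρ i₀ j₀ ≠ 0 := by rw [hone]; exact one_ne_zero
    by_cases g1 : i₀ = a
    · subst g1
      have := str_same h hr0 r1
      omega
    · by_cases g2 : i₀ = a + 1
      · subst g2
        have := str_same h hr0 r2
        omega
      · by_cases g3 : i₀ = a + 2
        · subst g3
          have := str_same h hr0 r3
          omega
        · exact absurd (z i₀ g1 g2 g3) hi0ne
  obtain ⟨κ, k1, k2, k3, k4, k5, k6⟩ := cls_core h hCpos r1 r2 r3 (by rw [← v1, gA])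
    (by rw [← v2, gB]) v3.symm hweight
  refine ⟨κ, k1, k2, ?_⟩
  rcases hab with ⟨rfl, rfl⟩ | ⟨rfl, rfl⟩ | ⟨rfl, rfl⟩
  · exact Or.inl ⟨k3, k4, k5, fun i j g1 g2 => k6 i j g1 (by omega)⟩
  · exact Or.inr (Or.inl ⟨k3, k4, k5, fun i j g1 g2 => k6 i j g1 (by omega)⟩)
  · exact Or.inr (Or.inr ⟨k3, k4, k5, fun i j g1 g2 => k6 i j g1 (by omega)⟩)

end Pool.Agent.Lib.MP_ff4e96_co
end

section

/-!
# MP_ff4e96_co: the limit polynomial

`lim_H_nonneg`: let `x'_m = ⌊λ x_m⌋`. `x'_m / x_m → λ` (as `x_m → ∞`), so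
`ev c x'_m y_m / (x_m^i₀ y_m^j₀) → ∑ c_ij ρ_ij λ^i`, and `x'_m ≥ K₀ y_m`, `y_m ≥ Y₀` for large `m` because
`x_m / y_m → ∞`, `y_m → ∞`. `lim_H_eval`: the same for `x_m` itself.
-/

namespace Pool.Agent.Lib.MP_ff4e96_co

open Filter Topology

private theorem lim_gen {c : ℕ → ℕ → ℚ} {x y : ℕ → ℤ} {i₀ j₀ : ℕ} {ρ : ℕ → ℕ → ℝ}
    (h : LimData c x y i₀ j₀ ρ) (w : ℕ → ℝ) {l : ℝ} (hw : Tendsto w atTop (𝓝 l)) :
    Tendsto (fun m => ev c (w m * x m) (y m) / ((x m : ℝ) ^ i₀ * (y m : ℝ) ^ j₀)) atTop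
      (𝓝 (∑ i ∈ Finset.range 6, ∑ j ∈ Finset.range (6 - i), (c i j : ℝ) * ρ i j * l ^ i)) := by
  obtain ⟨-, -, -, -, -, hlim, h0, -, -, -⟩ := h
  have h1 : (fun m => ev c (w m * x m) (y m) / ((x m : ℝ) ^ i₀ * (y m : ℝ) ^ j₀)) =
      fun m => ∑ i ∈ Finset.range 6, ∑ j ∈ Finset.range (6 - i),
        (c i j : ℝ) * ((x m : ℝ) ^ i * (y m : ℝ) ^ j / ((x m : ℝ) ^ i₀ * (y m : ℝ) ^ j₀)) * w m ^ i := by
    funext m
    rw [ev, Finset.sum_div]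
    refine Finset.sum_congr rfl fun i _ => ?_
    rw [Finset.sum_div]
    refine Finset.sum_congr rfl fun j _ => ?_
    rw [mul_pow]
    ring
  rw [h1]
  refine tendsto_finsetSum _ fun i hi => tendsto_finsetSum _ fun j hj => ?_
  rw [Finset.mem_range] at hi hj
  by_cases hc : c i j = 0
  · simp [hc]
  · exact ((hlim i j (by omega) hc).const_mul _).mul (hw.pow i)

theorem lim_H_nonneg {c : ℕ → ℕ → ℚ} {x y : ℕ → ℤ} {i₀ j₀ : ℕ} {ρ : ℕ → ℕ → ℝ}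
    (h : LimData c x y i₀ j₀ ρ) (K₀ Y₀ : ℤ)
    (hpos : ∀ x y : ℤ, Y₀ ≤ y → K₀ * y ≤ x → 0 ≤ ev c x y) {l : ℝ} (hl : 0 < l) :
    0 ≤ ∑ i ∈ Finset.range 6, ∑ j ∈ Finset.range (6 - i),
      (c i j : ℝ) * ρ i j * l ^ i := by
  have hy := h.1
  have hx := h.2.1
  have hy1 : ∀ m, (1 : ℝ) ≤ y m := by
    intro m
    have := hy m
    exact_mod_cast (by omega : (1 : ℤ) ≤ y m)
  have hxm : ∀ m : ℕ, ((m : ℝ) + 1) * y m ≤ x m := by
    intro m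
    exact_mod_cast hx m
  have hxm1 : ∀ m : ℕ, (m : ℝ) + 1 ≤ x m := by
    intro m
    have h1 := hxm m
    have h2 := hy1 m
    have h3 : (0 : ℝ) ≤ m := Nat.cast_nonneg m
    nlinarith
  have hx0 : ∀ m, (0 : ℝ) < x m := by
    intro m
    have h3 : (0 : ℝ) ≤ m := Nat.cast_nonneg m
    have := hxm1 m
    linarith
  have hxt : Tendsto (fun m => (x m : ℝ)) atTop atTop := by
    refine tendsto_atTop_mono (fun m => ?_) tendsto_natCast_atTop_atTop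
    have := hxm1 m
    linarith
  have hw : Tendsto (fun m => ((⌊l * x m⌋ : ℤ) : ℝ) / x m) atTop (𝓝 l) := by
    have h1 : Tendsto (fun m => l - 1 / (x m : ℝ)) atTop (𝓝 (l - 0)) :=
      tendsto_const_nhds.sub (tendsto_const_nhds.div_atTop hxt)
    rw [sub_zero] at h1
    refine tendsto_of_tendsto_of_tendsto_of_le_of_le h1 tendsto_const_nhds (fun m => ?_) (fun m => ?_)
    · have h2 := (Int.sub_one_lt_floor (l * x m)).le
      change l - 1 / (x m : ℝ) ≤ _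
      rw [le_div_iff₀ (hx0 m), sub_mul, div_mul_cancel₀ _ (hx0 m).ne']
      exact h2
    · have h2 := Int.floor_le (l * x m)
      change _ ≤ l
      rw [div_le_iff₀ (hx0 m)]
      exact h2
  have hmain := lim_gen h _ hw
  refine ge_of_tendsto hmain ?_
  obtain ⟨N₁, hN₁⟩ := exists_nat_gt (((K₀ : ℝ) + 1) / l)
  filter_upwards [eventually_ge_atTop (max N₁ Y₀.toNat)] with m hm
  have hm1 : N₁ ≤ m := le_trans (le_max_left _ _) hm
  have hm2 : Y₀.toNat ≤ m := le_trans (le_max_right _ _) hm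
  have hYm : Y₀ ≤ y m := by
    have h1 := hy m
    have h2 := Int.self_le_toNat Y₀
    have h3 : (Y₀.toNat : ℤ) ≤ m := by exact_mod_cast hm2
    omega
  have hlm : (K₀ : ℝ) + 1 ≤ l * ((m : ℝ) + 1) := by
    rw [div_lt_iff₀ hl] at hN₁
    have h3 : (N₁ : ℝ) ≤ m := by exact_mod_cast hm1
    nlinarith
  have hKm : K₀ * y m ≤ ⌊l * x m⌋ := by
    rw [Int.le_floor]
    push_cast
    have h1 := hy1 m
    have h2 : l * (((m : ℝ) + 1) * y m) ≤ l * x m := mul_le_mul_of_nonneg_left (hxm m) hl.le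
    nlinarith
  have h4 := hpos _ _ hYm hKm
  have h5 : ((⌊l * x m⌋ : ℤ) : ℝ) / x m * x m = ((⌊l * x m⌋ : ℤ) : ℝ) :=
    div_mul_cancel₀ _ (hx0 m).ne'
  rw [h5]
  refine div_nonneg h4 ?_
  have h6 := hy1 m
  have h7 := hx0 m
  positivity

theorem lim_H_eval {c : ℕ → ℕ → ℚ} {x y : ℕ → ℤ} {i₀ j₀ : ℕ} {ρ : ℕ → ℕ → ℝ}
    (h : LimData c x y i₀ j₀ ρ) :
    Tendsto (fun m => ev c (x m) (y m) / ((x m : ℝ) ^ i₀ * (y m : ℝ) ^ j₀)) atTop
      (𝓝 (∑ i ∈ Finset.range 6, ∑ j ∈ Finset.range (6 - i), (c i j : ℝ) * ρ i j)) := by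
  have h1 := lim_gen h (fun _ => 1) tendsto_const_nhds
  simpa only [one_mul, one_pow, mul_one] using h1

end Pool.Agent.Lib.MP_ff4e96_co
end

section

/-!
# MP_ff4e96_co: lower bound near the direction (1,0) outside degenerate clusters

`nd`. Suppose it is false. For every `m` (with `c₀ = 1/(m+1)`, `K = Y = m+1`) there are integers
`y_m ≥ m+1`, `x_m ≥ (m+1) y_m` with `ev c x_m y_m < (x_m² + y_m³)/(m+1)` and such that the second alternative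
fails. Pass to a subsequence (`lim_data`): `(i₀, j₀)`, `ρ`. All statements of `NDlim` hold. Let
`H λ = ∑ c_ij ρ_ij λ^i`. `H λ ≥ 0` for `λ > 0` (`lim_H_nonneg`). `x² ≤ x^i₀ y^j₀` and `y³ ≤ x^i₀ y^j₀` along
the sequence (dominating monomials `h2`, `h3`), so `ev c x_m y_m / (x_m^i₀ y_m^j₀) ≤ 2/(m+1)` and `H 1 ≤ 0`.
By `lim_class` one of the degenerate patterns holds with `κ` and `x_m / y_m² → κ`, so the second
alternative holds for large `m`: contradiction.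
-/

namespace Pool.Agent.Lib.MP_ff4e96_co

open Filter Topology

theorem nd (c : ℕ → ℕ → ℚ) {δ : ℝ} (hδ : 0 < δ)
    (h3 : ∃ i j, i + j ≤ 5 ∧ 3 ≤ i + j ∧ c i j ≠ 0)
    (h2 : ∃ i j, i + j ≤ 5 ∧ 2 ≤ i ∧ c i j ≠ 0) (K₀ Y₀ : ℤ)
    (hpos : ∀ x y : ℤ, Y₀ ≤ y → K₀ * y ≤ x → 0 ≤ ev c x y) :
    ∃ c₀ : ℝ, 0 < c₀ ∧ ∃ K Y : ℤ, 1 ≤ K ∧ 1 ≤ Y ∧ ∀ x y : ℤ, Y ≤ y → K * y ≤ x →
      c₀ * ((x : ℝ) ^ 2 + (y : ℝ) ^ 3) ≤ ev c x y ∨
      ∃ κ : ℚ, 0 < κ ∧ |(x : ℝ) - κ * (y : ℝ) ^ 2| ≤ δ * (y : ℝ) ^ 2 ∧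
        (Deg4 c κ ∨ Deg5 c κ ∨ Deg6 c κ) := by
  by_contra hcon
  have hm : ∀ m : ℕ, ∃ x y : ℤ, (m : ℤ) + 1 ≤ y ∧ ((m : ℤ) + 1) * y ≤ x ∧
      ¬ ((1 / ((m : ℝ) + 1)) * ((x : ℝ) ^ 2 + (y : ℝ) ^ 3) ≤ ev c x y) ∧
      ¬ ∃ κ : ℚ, 0 < κ ∧ |(x : ℝ) - κ * (y : ℝ) ^ 2| ≤ δ * (y : ℝ) ^ 2 ∧
        (Deg4 c κ ∨ Deg5 c κ ∨ Deg6 c κ) := by
    intro m
    by_contra hno
    apply hcon
    refine ⟨1 / ((m : ℝ) + 1), by positivity, (m : ℤ) + 1, (m : ℤ) + 1, by omega, by omega, ?_⟩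
    intro x y hy hx
    by_contra h
    rw [not_or] at h
    exact hno ⟨x, y, hy, hx, h.1, h.2⟩
  choose x y hy hx hA hB using hm
  obtain ⟨i3, j3, h35, h33, hc3⟩ := h3
  obtain ⟨i2, j2, h25, h22, hc2⟩ := h2
  obtain ⟨φ, i₀, j₀, ρ, hφ, hL⟩ := lim_data x y hy hx ⟨i3, j3, h35, hc3⟩
  have hge : ∀ m, m ≤ φ m := fun m => hφ.le_apply
  obtain ⟨hLy, hLx, h05, hc0, hdom, -⟩ := id hL
  -- positivity
  have hY1 : ∀ m, (1 : ℝ) ≤ (y (φ m) : ℝ) := by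
    intro m
    have h := hLy m
    have h' : (1 : ℤ) ≤ y (φ m) := by
      have : (0 : ℤ) ≤ (m : ℤ) := Int.natCast_nonneg m
      simp only at h
      omega
    exact_mod_cast h'
  have hXY : ∀ m, (y (φ m) : ℝ) ≤ (x (φ m) : ℝ) := by
    intro m
    have h := hLx m
    simp only at h
    have h1 : (1 : ℤ) ≤ y (φ m) := by exact_mod_cast hY1 m
    have h2 : y (φ m) ≤ x (φ m) := by
      have : (0 : ℤ) ≤ (m : ℤ) := Int.natCast_nonneg m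
      nlinarith
    exact_mod_cast h2
  have hX1 : ∀ m, (1 : ℝ) ≤ (x (φ m) : ℝ) := fun m => (hY1 m).trans (hXY m)
  have hmon : ∀ m, 0 < (x (φ m) : ℝ) ^ i₀ * (y (φ m) : ℝ) ^ j₀ := by
    intro m
    have h1 := hX1 m
    have h2 := hY1 m
    positivity
  have hd2 : ∀ m, (x (φ m) : ℝ) ^ 2 ≤ (x (φ m) : ℝ) ^ i₀ * (y (φ m) : ℝ) ^ j₀ := by
    intro m
    refine le_trans ?_ (hdom i2 j2 h25 hc2 m)
    have h1 : (x (φ m) : ℝ) ^ 2 ≤ (x (φ m) : ℝ) ^ i2 := pow_le_pow_right₀ (hX1 m) h22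
    have h2 : (1 : ℝ) ≤ (y (φ m) : ℝ) ^ j2 := one_le_pow₀ (hY1 m)
    have h3 : (0 : ℝ) ≤ (x (φ m) : ℝ) ^ i2 := by
      have := hX1 m
      positivity
    calc (x (φ m) : ℝ) ^ 2 ≤ (x (φ m) : ℝ) ^ i2 := h1
      _ = (x (φ m) : ℝ) ^ i2 * 1 := (mul_one _).symm
      _ ≤ _ := mul_le_mul_of_nonneg_left h2 h3
  have hd3 : ∀ m, (y (φ m) : ℝ) ^ 3 ≤ (x (φ m) : ℝ) ^ i₀ * (y (φ m) : ℝ) ^ j₀ := by
    intro m
    refine le_trans ?_ (hdom i3 j3 h35 hc3 m)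
    have h0 : (0 : ℝ) ≤ (y (φ m) : ℝ) := zero_le_one.trans (hY1 m)
    calc (y (φ m) : ℝ) ^ 3 ≤ (y (φ m) : ℝ) ^ (i3 + j3) := pow_le_pow_right₀ (hY1 m) h33
      _ = (y (φ m) : ℝ) ^ i3 * (y (φ m) : ℝ) ^ j3 := pow_add _ _ _
      _ ≤ _ := mul_le_mul_of_nonneg_right (pow_le_pow_left₀ h0 (hXY m) _) (pow_nonneg h0 _)
  have hle : ∀ m : ℕ, ev c (x (φ m)) (y (φ m)) / ((x (φ m) : ℝ) ^ i₀ * (y (φ m) : ℝ) ^ j₀) ≤
      2 * (1 / ((m : ℝ) + 1)) := by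
    intro m
    rw [div_le_iff₀ (hmon m)]
    have h1 := (not_le.1 (hA (φ m))).le
    refine h1.trans ?_
    have h2 : (1 / (((φ m : ℕ) : ℝ) + 1)) ≤ 1 / ((m : ℝ) + 1) := by
      apply one_div_le_one_div_of_le (by positivity)
      have : (m : ℝ) ≤ (φ m : ℝ) := by exact_mod_cast hge m
      linarith
    have h3 : (0 : ℝ) ≤ 1 / ((m : ℝ) + 1) := by positivity
    have h4 : (0 : ℝ) ≤ (x (φ m) : ℝ) ^ 2 + (y (φ m) : ℝ) ^ 3 := by
      have h5 := hX1 m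
      have h6 := hY1 m
      positivity
    calc (1 / (((φ m : ℕ) : ℝ) + 1)) * ((x (φ m) : ℝ) ^ 2 + (y (φ m) : ℝ) ^ 3)
        ≤ (1 / ((m : ℝ) + 1)) * ((x (φ m) : ℝ) ^ 2 + (y (φ m) : ℝ) ^ 3) :=
          mul_le_mul_of_nonneg_right h2 h4
      _ ≤ (1 / ((m : ℝ) + 1)) * (2 * ((x (φ m) : ℝ) ^ i₀ * (y (φ m) : ℝ) ^ j₀)) := by
          apply mul_le_mul_of_nonneg_left _ h3
          linarith [hd2 m, hd3 m]
      _ = _ := by ring
  have hlim := lim_H_eval hL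
  have h0lim : Tendsto (fun m : ℕ => 2 * (1 / ((m : ℝ) + 1))) atTop (𝓝 0) := by
    have := (tendsto_one_div_add_atTop_nhds_zero_nat (𝕜 := ℝ)).const_mul (2 : ℝ)
    simpa using this
  have hH1 : ∑ i ∈ Finset.range 6, ∑ j ∈ Finset.range (6 - i), (c i j : ℝ) * ρ i j ≤ 0 :=
    le_of_tendsto_of_tendsto hlim h0lim (Eventually.of_forall hle)
  have hpos' : ∀ l : ℝ, 0 < l → 0 ≤ ∑ i ∈ Finset.range 6, ∑ j ∈ Finset.range (6 - i),
      (c i j : ℝ) * ρ i j * l ^ i := fun l hl => lim_H_nonneg hL K₀ Y₀ hpos hl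
  obtain ⟨κ, hκ, hκlim, hdeg⟩ := lim_class hL hpos' hH1
  have hev : ∀ᶠ m in atTop, |(x (φ m) : ℝ) / (y (φ m) : ℝ) ^ 2 - (κ : ℝ)| < δ := by
    have := (Metric.tendsto_nhds.1 hκlim) δ hδ
    simpa [Real.dist_eq] using this
  obtain ⟨m, hmm⟩ := hev.exists
  apply hB (φ m)
  refine ⟨κ, hκ, ?_, hdeg⟩
  have hy2 : (0 : ℝ) < (y (φ m) : ℝ) ^ 2 := by
    have := hY1 m
    positivity
  have heq : (x (φ m) : ℝ) - κ * (y (φ m) : ℝ) ^ 2 =
      ((x (φ m) : ℝ) / (y (φ m) : ℝ) ^ 2 - (κ : ℝ)) * (y (φ m) : ℝ) ^ 2 := by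
    rw [sub_mul, div_mul_cancel₀ _ hy2.ne']
  rw [heq, abs_mul, abs_of_pos hy2]
  exact mul_le_mul_of_nonneg_right hmm.le hy2.le

end Pool.Agent.Lib.MP_ff4e96_co
end
end

section

section

/-!
# MP_ff4e96_co: coordinates `z = x - p(y)` near the parabola

Pure algebra (`ev_eq`, the vanishing coefficients, `field_simp`, `ring`). With `z = x - p`,
`p = κ y² + ρ y + σ`.

* `shift4`: `ρ = -c₁₁/(2 c₂₀)`, `σ = -c₁₀/(2 c₂₀)`.
* `shift5`: `F = f₂ x² + g x + h`, `f₂ = c₂₁ y + c₂₀`, `g = c₁₃ y³ + …`. The coefficient of `z` is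
  `2 f₂ p + g`; its `y³` coefficient is `2 κ c₂₁ + c₁₃ = 0`; `ρ` is chosen to kill `y²`
  (`2 c₂₁ ρ + 2 c₂₀ κ + c₁₂ = 0`) and `σ` to kill `y` (`2 c₂₁ σ + 2 c₂₀ ρ + c₁₁ = 0`). The
  constant term `f₂ p² + g p + h` has `y⁵` coefficient `c₂₁ κ² + c₁₃ κ + c₀₅ = 0`.
* `shift6`: `F = b x³ + f₂ x² + g x + h`, `b = c₃₀`, `f₂ = c₂₂ y² + c₂₁ y + c₂₀`, `g` of degree 4, `h` of
  degree 5. Coefficient of `z²`: `3 b p + f₂ = b κ y² + …`. Coefficient of `z`: `3 b p² + 2 f₂ p + g`: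
  `y⁴`: `3 b κ² + 2 c₂₂ κ + c₁₄ = 0`; `y³`: `6 b κ ρ + 2 c₂₂ ρ + 2 c₂₁ κ + c₁₃ = 2 b κ ρ + …`, so `ρ` can be
  chosen to kill it, and then `σ` (with coefficient `2 b κ`) to kill `y²`. Constant term
  `b p³ + f₂ p² + g p + h`: `y⁶`: `b κ³ + c₂₂ κ² + c₁₄ κ = 0`.
-/

namespace Pool.Agent.Lib.MP_ff4e96_co

theorem shift4 {c : ℕ → ℕ → ℚ} {κ : ℚ} (h : Deg4 c κ) : ∃ ρ σ β₃ β₂ β₁ β₀ : ℚ, ∀ x y : ℝ,
    ev c x y = c 2 0 * (x - (κ * y ^ 2 + ρ * y + σ)) ^ 2 +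
      (β₃ * y ^ 3 + β₂ * y ^ 2 + β₁ * y + β₀) := by
  obtain ⟨hpos, h12, h04, hz⟩ := h
  have hne : c 2 0 ≠ 0 := hpos.ne'
  obtain ⟨ρ, hρ⟩ : ∃ ρ : ℚ, 2 * c 2 0 * ρ + c 1 1 = 0 := ⟨-c 1 1 / (2 * c 2 0), by
    field_simp
    ring⟩
  obtain ⟨σ, hσ⟩ : ∃ σ : ℚ, 2 * c 2 0 * σ + c 1 0 = 0 := ⟨-c 1 0 / (2 * c 2 0), by
    field_simp
    ring⟩
  have z : ∀ i j, i + j ≤ 5 → 4 < 2 * i + j → (c i j : ℝ) = 0 := fun i j h1 h2 => by
    rw [hz i j h1 h2, Rat.cast_zero]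
  have h12' : (c 1 2 : ℝ) = -2 * κ * c 2 0 := by exact_mod_cast h12
  have h04' : (c 0 4 : ℝ) = κ ^ 2 * c 2 0 := by exact_mod_cast h04
  have hρ' : 2 * (c 2 0 : ℝ) * ρ + c 1 1 = 0 := by exact_mod_cast hρ
  have hσ' : 2 * (c 2 0 : ℝ) * σ + c 1 0 = 0 := by exact_mod_cast hσ
  refine ⟨ρ, σ, c 0 3 - 2 * c 2 0 * κ * ρ, c 0 2 - c 2 0 * (ρ ^ 2 + 2 * κ * σ),
    c 0 1 - 2 * c 2 0 * ρ * σ, c 0 0 - c 2 0 * σ ^ 2, fun x y => ?_⟩
  rw [ev_eq, z 0 5 (by norm_num) (by norm_num), z 1 3 (by norm_num) (by norm_num),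
    z 1 4 (by norm_num) (by norm_num), z 2 1 (by norm_num) (by norm_num),
    z 2 2 (by norm_num) (by norm_num), z 2 3 (by norm_num) (by norm_num),
    z 3 0 (by norm_num) (by norm_num), z 3 1 (by norm_num) (by norm_num),
    z 3 2 (by norm_num) (by norm_num), z 4 0 (by norm_num) (by norm_num),
    z 4 1 (by norm_num) (by norm_num), z 5 0 (by norm_num) (by norm_num)]
  push_cast
  linear_combination x * y ^ 2 * h12' + x * y * hρ' + x * hσ' + y ^ 4 * h04'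

theorem shift5 {c : ℕ → ℕ → ℚ} {κ : ℚ} (h : Deg5 c κ) : ∃ ρ σ τ β₄ β₃ β₂ β₁ β₀ : ℚ, ∀ x y : ℝ,
    ev c x y = (c 2 1 * y + c 2 0) * (x - (κ * y ^ 2 + ρ * y + σ)) ^ 2 +
      τ * (x - (κ * y ^ 2 + ρ * y + σ)) +
      (β₄ * y ^ 4 + β₃ * y ^ 3 + β₂ * y ^ 2 + β₁ * y + β₀) := by
  obtain ⟨hpos, h13, h05, hz⟩ := h
  have hne : c 2 1 ≠ 0 := hpos.ne'
  obtain ⟨ρ, hρ⟩ : ∃ ρ : ℚ, 2 * c 2 1 * ρ + 2 * c 2 0 * κ + c 1 2 = 0 :=
    ⟨-(2 * c 2 0 * κ + c 1 2) / (2 * c 2 1), by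
      field_simp
      ring⟩
  obtain ⟨σ, hσ⟩ : ∃ σ : ℚ, 2 * c 2 1 * σ + 2 * c 2 0 * ρ + c 1 1 = 0 :=
    ⟨-(2 * c 2 0 * ρ + c 1 1) / (2 * c 2 1), by
      field_simp
      ring⟩
  have z : ∀ i j, i + j ≤ 5 → 5 < 2 * i + j → (c i j : ℝ) = 0 := fun i j h1 h2 => by
    rw [hz i j h1 h2, Rat.cast_zero]
  have h13' : (c 1 3 : ℝ) = -2 * κ * c 2 1 := by exact_mod_cast h13
  have h05' : (c 0 5 : ℝ) = κ ^ 2 * c 2 1 := by exact_mod_cast h05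
  have hρ' : 2 * (c 2 1 : ℝ) * ρ + 2 * c 2 0 * κ + c 1 2 = 0 := by exact_mod_cast hρ
  have hσ' : 2 * (c 2 1 : ℝ) * σ + 2 * c 2 0 * ρ + c 1 1 = 0 := by exact_mod_cast hσ
  refine ⟨ρ, σ, 2 * c 2 0 * σ + c 1 0,
    2 * c 2 1 * κ * ρ + c 2 0 * κ ^ 2 + c 1 3 * ρ + c 1 2 * κ + c 0 4,
    c 2 1 * (ρ ^ 2 + 2 * κ * σ) + 2 * c 2 0 * κ * ρ + c 1 3 * σ + c 1 2 * ρ + c 1 1 * κ + c 0 3,
    2 * c 2 1 * ρ * σ + c 2 0 * (ρ ^ 2 + 2 * κ * σ) + c 1 2 * σ + c 1 1 * ρ + c 1 0 * κ + c 0 2,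
    c 2 1 * σ ^ 2 + 2 * c 2 0 * ρ * σ + c 1 1 * σ + c 1 0 * ρ + c 0 1,
    c 2 0 * σ ^ 2 + c 1 0 * σ + c 0 0, fun x y => ?_⟩
  rw [ev_eq, z 1 4 (by norm_num) (by norm_num),
    z 2 2 (by norm_num) (by norm_num), z 2 3 (by norm_num) (by norm_num),
    z 3 0 (by norm_num) (by norm_num), z 3 1 (by norm_num) (by norm_num),
    z 3 2 (by norm_num) (by norm_num), z 4 0 (by norm_num) (by norm_num),
    z 4 1 (by norm_num) (by norm_num), z 5 0 (by norm_num) (by norm_num)]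
  push_cast
  linear_combination (x - (κ * y ^ 2 + ρ * y + σ)) * (y ^ 3 * h13' + y ^ 2 * hρ' + y * hσ') +
    y ^ 5 * (κ * h13' + h05')

theorem shift6 {c : ℕ → ℕ → ℚ} {κ : ℚ} (hκ : 0 < κ) (h : Deg6 c κ) :
    ∃ ρ σ a₁ a₀ e₁ e₀ β₅ β₄ β₃ β₂ β₁ β₀ : ℚ, ∀ x y : ℝ,
    ev c x y = c 3 0 * (x - (κ * y ^ 2 + ρ * y + σ)) ^ 3 +
      (c 3 0 * κ * y ^ 2 + a₁ * y + a₀) * (x - (κ * y ^ 2 + ρ * y + σ)) ^ 2 +
      (e₁ * y + e₀) * (x - (κ * y ^ 2 + ρ * y + σ)) +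
      (β₅ * y ^ 5 + β₄ * y ^ 4 + β₃ * y ^ 3 + β₂ * y ^ 2 + β₁ * y + β₀) := by
  obtain ⟨hpos, h22, h14, hz⟩ := h
  have hne : c 3 0 ≠ 0 := hpos.ne'
  have hκ' : κ ≠ 0 := hκ.ne'
  obtain ⟨ρ, hρ⟩ : ∃ ρ : ℚ, 2 * c 3 0 * κ * ρ + 2 * c 2 1 * κ + c 1 3 = 0 :=
    ⟨-(2 * c 2 1 * κ + c 1 3) / (2 * c 3 0 * κ), by
      field_simp
      ring⟩
  obtain ⟨σ, hσ⟩ : ∃ σ : ℚ, 2 * c 3 0 * κ * σ + 3 * c 3 0 * ρ ^ 2 + 2 * c 2 1 * ρ +
      2 * c 2 0 * κ + c 1 2 = 0 :=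
    ⟨-(3 * c 3 0 * ρ ^ 2 + 2 * c 2 1 * ρ + 2 * c 2 0 * κ + c 1 2) / (2 * c 3 0 * κ), by
      field_simp
      ring⟩
  have z : ∀ i j, i + j ≤ 5 → 6 < 2 * i + j → (c i j : ℝ) = 0 := fun i j h1 h2 => by
    rw [hz i j h1 h2, Rat.cast_zero]
  have h22' : (c 2 2 : ℝ) = -2 * κ * c 3 0 := by exact_mod_cast h22
  have h14' : (c 1 4 : ℝ) = κ ^ 2 * c 3 0 := by exact_mod_cast h14
  have hρ' : 2 * (c 3 0 : ℝ) * κ * ρ + 2 * c 2 1 * κ + c 1 3 = 0 := by exact_mod_cast hρ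
  have hσ' : 2 * (c 3 0 : ℝ) * κ * σ + 3 * c 3 0 * ρ ^ 2 + 2 * c 2 1 * ρ + 2 * c 2 0 * κ +
      c 1 2 = 0 := by exact_mod_cast hσ
  refine ⟨ρ, σ, 3 * c 3 0 * ρ + c 2 1, 3 * c 3 0 * σ + c 2 0,
    6 * c 3 0 * ρ * σ + 2 * (c 2 1 * σ + c 2 0 * ρ) + c 1 1,
    3 * c 3 0 * σ ^ 2 + 2 * c 2 0 * σ + c 1 0,
    c 3 0 * (3 * κ ^ 2 * ρ) + (c 2 2 * (2 * κ * ρ) + c 2 1 * κ ^ 2) +
      (c 1 4 * ρ + c 1 3 * κ) + c 0 5,
    c 3 0 * (3 * κ * ρ ^ 2 + 3 * κ ^ 2 * σ) + (c 2 2 * (ρ ^ 2 + 2 * κ * σ) +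
      c 2 1 * (2 * κ * ρ) + c 2 0 * κ ^ 2) + (c 1 4 * σ + c 1 3 * ρ + c 1 2 * κ) + c 0 4,
    c 3 0 * (ρ ^ 3 + 6 * κ * ρ * σ) + (c 2 2 * (2 * ρ * σ) + c 2 1 * (ρ ^ 2 + 2 * κ * σ) +
      c 2 0 * (2 * κ * ρ)) + (c 1 3 * σ + c 1 2 * ρ + c 1 1 * κ) + c 0 3,
    c 3 0 * (3 * ρ ^ 2 * σ + 3 * κ * σ ^ 2) + (c 2 2 * σ ^ 2 + c 2 1 * (2 * ρ * σ) +
      c 2 0 * (ρ ^ 2 + 2 * κ * σ)) + (c 1 2 * σ + c 1 1 * ρ + c 1 0 * κ) + c 0 2,
    c 3 0 * (3 * ρ * σ ^ 2) + (c 2 1 * σ ^ 2 + c 2 0 * (2 * ρ * σ)) +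
      (c 1 1 * σ + c 1 0 * ρ) + c 0 1,
    c 3 0 * σ ^ 3 + c 2 0 * σ ^ 2 + c 1 0 * σ + c 0 0, fun x y => ?_⟩
  rw [ev_eq, z 2 3 (by norm_num) (by norm_num), z 3 1 (by norm_num) (by norm_num),
    z 3 2 (by norm_num) (by norm_num), z 4 0 (by norm_num) (by norm_num),
    z 4 1 (by norm_num) (by norm_num), z 5 0 (by norm_num) (by norm_num)]
  push_cast
  linear_combination (x - (κ * y ^ 2 + ρ * y + σ)) ^ 2 * y ^ 2 * h22' +
    (x - (κ * y ^ 2 + ρ * y + σ)) * (y ^ 4 * (2 * κ * h22' + h14') +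
      y ^ 3 * (2 * ρ * h22' + hρ') + y ^ 2 * (2 * σ * h22' + hσ')) +
    y ^ 6 * (κ ^ 2 * h22' + κ * h14')

end Pool.Agent.Lib.MP_ff4e96_co
end

section

/-!
# MP_ff4e96_co: functions `k A(m) + B(m)` are not injective

Suppose that `G(m, k) = k A(m) + B(m)` has natural values for all integers `m ≥ 0`, `k ≥ k₀(m)` and is
injective there. Differences in `k`: `A(m)` is an integer, `A(m) ≥ 0` (let `k → ∞`), `A(m) ≠ 0`
(injectivity in `k`), so `A(m) ≥ 1` for all `m ≥ 0`, and `B(m)` is an integer. Let `D ≥ 1` be an integer such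
that `D A` and `D B` have integral coefficients. Let `a = A(0)`, `m' = D a > 0`.
`m'` divides `D A(m') - D A(0)` and `D B(m') - D B(0)` (values of integral polynomials), so
`A(m') = a (1 + s)`, `B(m') = B(0) + a s'` with integers `s, s'`, and `1 + s ≥ 1` as `A(m') > 0`. So
`G(m', k) = B(0) + a (k (1 + s) + s') = G(0, k (1 + s) + s')`, and for `k` large both points are in the
domain: contradiction, as `m' ≠ 0`.
-/

namespace Pool.Agent.Lib.MP_ff4e96_co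

private theorem pp_norm (A : Polynomial ℚ) : ∃ (D : ℤ) (P : Polynomial ℤ), D ≠ 0 ∧
    ∀ m : ℤ, ((P.eval m : ℤ) : ℚ) = D * A.eval (m : ℚ) := by
  obtain ⟨b, hb⟩ := IsLocalization.integerNormalization_map_to_map (nonZeroDivisors ℤ) A
  refine ⟨(b : ℤ), IsLocalization.integerNormalization (nonZeroDivisors ℤ) A,
    nonZeroDivisors.ne_zero b.2, fun m => ?_⟩
  have h1 : (((IsLocalization.integerNormalization (nonZeroDivisors ℤ) A).map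
      (algebraMap ℤ ℚ)).eval (m : ℚ)) = (((b : ℤ) • A).eval (m : ℚ)) := by
    rw [hb]
  have h2 : (((IsLocalization.integerNormalization (nonZeroDivisors ℤ) A).map
      (algebraMap ℤ ℚ)).eval (m : ℚ)) =
      (((IsLocalization.integerNormalization (nonZeroDivisors ℤ) A).eval m : ℤ) : ℚ) := by
    have := Polynomial.eval_map_apply (f := algebraMap ℤ ℚ)
      (p := IsLocalization.integerNormalization (nonZeroDivisors ℤ) A) (x := m)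
    simpa using this
  rw [← h2, h1]
  simp

private theorem pp_dvd {A : Polynomial ℚ} {D : ℤ} {P : Polynomial ℤ} (hD : D ≠ 0)
    (hP : ∀ m : ℤ, ((P.eval m : ℤ) : ℚ) = D * A.eval (m : ℚ)) {m a c : ℤ} {x y : ℤ}
    (hm : m = D * (c * a)) (hx : A.eval ((0 : ℤ) : ℚ) = x) (hy : A.eval (m : ℚ) = y) :
    ∃ s : ℤ, y = x + a * s := by
  have h1 : m - 0 ∣ P.eval m - P.eval 0 := Polynomial.sub_dvd_eval_sub m 0 P
  have h2 : P.eval m = D * y := by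
    have := hP m
    rw [hy] at this
    exact_mod_cast this
  have h3 : P.eval 0 = D * x := by
    have := hP 0
    rw [hx] at this
    exact_mod_cast this
  rw [h2, h3, sub_zero, hm, ← mul_sub] at h1
  have h4 : c * a ∣ y - x := (mul_dvd_mul_iff_left hD).1 h1
  obtain ⟨t, ht⟩ := h4
  exact ⟨c * t, by linear_combination ht⟩

theorem pp_false (A B : Polynomial ℚ) (k₀ : ℤ → ℤ)
    (hN : ∀ m k : ℤ, 0 ≤ m → k₀ m ≤ k → ∃ v : ℕ, (k : ℚ) * A.eval (m : ℚ) + B.eval (m : ℚ) = v)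
    (hinj : ∀ m k m' k' : ℤ, 0 ≤ m → k₀ m ≤ k → 0 ≤ m' → k₀ m' ≤ k' →
      (k : ℚ) * A.eval (m : ℚ) + B.eval (m : ℚ) = (k' : ℚ) * A.eval (m' : ℚ) + B.eval (m' : ℚ) →
      m = m' ∧ k = k') : False := by
  have key : ∀ m : ℤ, 0 ≤ m → ∃ a b : ℤ, 1 ≤ a ∧ A.eval (m : ℚ) = a ∧ B.eval (m : ℚ) = b := by
    intro m hm
    obtain ⟨v, hv⟩ := hN m (k₀ m) hm le_rfl
    obtain ⟨w, hw⟩ := hN m (k₀ m + 1) hm (by omega)
    have hA : A.eval (m : ℚ) = (((w : ℤ) - (v : ℤ) : ℤ) : ℚ) := by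
      push_cast at hw ⊢
      linear_combination hw - hv
    have hB : B.eval (m : ℚ) = (((v : ℤ) - k₀ m * ((w : ℤ) - (v : ℤ)) : ℤ) : ℚ) := by
      rw [hA] at hv
      push_cast at hv ⊢
      linear_combination hv
    refine ⟨(w : ℤ) - v, (v : ℤ) - k₀ m * ((w : ℤ) - (v : ℤ)), ?_, hA, hB⟩
    by_contra hlt
    rcases lt_or_eq_of_le (show (w : ℤ) - v ≤ 0 by omega) with h | h
    · obtain ⟨u, hu⟩ := hN m (k₀ m + (v + 1)) hm (by omega)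
      rw [hA, hB] at hu
      have hu' : (k₀ m + ((v : ℤ) + 1)) * ((w : ℤ) - v) + ((v : ℤ) - k₀ m * ((w : ℤ) - (v : ℤ))) = u := by
        exact_mod_cast hu
      have h1 : (w : ℤ) - v ≤ -1 := by omega
      nlinarith [Int.natCast_nonneg u, Int.natCast_nonneg v]
    · have := hinj m (k₀ m) m (k₀ m + 1) hm le_rfl hm (by omega) (by
        rw [hA, h]
        simp)
      omega
  obtain ⟨a, b, ha, hA0, hB0⟩ := key 0 le_rfl
  obtain ⟨D, P, hD, hP⟩ := pp_norm A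
  obtain ⟨E, Q, hE, hQ⟩ := pp_norm B
  set m' : ℤ := D ^ 2 * E ^ 2 * a with hm'
  have hmpos : 0 < m' := by positivity
  obtain ⟨a', b', ha', hA', hB'⟩ := key m' hmpos.le
  obtain ⟨s, hs⟩ := pp_dvd (c := D * E ^ 2) (a := a) (m := m') hD hP (by rw [hm']; ring) hA0 hA'
  obtain ⟨s', hs'⟩ := pp_dvd (c := D ^ 2 * E) (a := a) (m := m') hE hQ (by rw [hm']; ring) hB0 hB'
  have hs1 : 1 ≤ 1 + s := by
    by_contra h
    have h1 : 1 + s ≤ 0 := by omega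
    nlinarith
  set k : ℤ := max (k₀ m') (max 0 (k₀ 0 - s')) with hk
  have hk1 : k₀ m' ≤ k := le_max_left _ _
  have hk2 : 0 ≤ k := (le_max_left _ _).trans (le_max_right _ _)
  have hk3 : k₀ 0 - s' ≤ k := (le_max_right _ _).trans (le_max_right _ _)
  have hk4 : k₀ 0 ≤ k * (1 + s) + s' := by nlinarith
  have := hinj m' k 0 (k * (1 + s) + s') hmpos.le hk1 le_rfl hk4 (by
    rw [hA', hB', hA0, hB0, hs, hs']
    push_cast
    ring)
  omega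

end Pool.Agent.Lib.MP_ff4e96_co
end
end

section

section

/-!
# MP_ff4e96_co: degenerate clusters of weight 6, `deg h ≥ 3`

`F = b z³ + (b κ y² + a₁ y + a₀) z² + (e₁ y + e₀) z + h(y)`, `z = x - p(y)`, `p(y) = κ y² + ρ y + σ`. Let `δ ≤ κ/4` and `y` large;
in the set `|x - κ y²| ≤ δ y²` we have `|z| ≤ 2 δ y²` and `K₀ y ≤ x`, and `b z + b κ y² + a₁ y + a₀ ≥ (b κ/4) y²`.

* `pat6_high`: `deg h ≥ 3`. If the leading coefficient of `h` is negative then `F < 0` at the points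
  with `x` nearest to `p(y)` (`F ≤ C y² + h(y)`), impossible. Otherwise
  `F ≥ (bκ/4) y² z² - C y |z| + h(y) ≥ (bκ/8) y² z² - C' + h(y) ≥ c (y z² + y²)`: `null_B`.
-/

namespace Pool.Agent.Lib.MP_ff4e96_co

open Filter Topology

/-- points near the parabola lie in the domain -/
private theorem pat6h_near {κ : ℝ} (hκ : 0 < κ) (ρ σ : ℝ) (K₀ Y₀ : ℤ) : ∃ Y : ℤ, ∀ y : ℤ, Y ≤ y →
    1 ≤ y ∧ Y₀ ≤ y ∧ K₀ * y ≤ round (κ * (y : ℝ) ^ 2 + ρ * y + σ) := by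
  refine ⟨max 1 (max Y₀ ⌈(|(K₀ : ℝ)| + |ρ| + |σ| + 1) / κ⌉), fun y hy => ?_⟩
  have h1 : 1 ≤ y := (le_max_left _ _).trans hy
  have h2 : Y₀ ≤ y := (le_max_left _ _).trans ((le_max_right _ _).trans hy)
  have h3 : ⌈(|(K₀ : ℝ)| + |ρ| + |σ| + 1) / κ⌉ ≤ y :=
    (le_max_right _ _).trans ((le_max_right _ _).trans hy)
  refine ⟨h1, h2, ?_⟩
  have h1' : (1 : ℝ) ≤ y := by exact_mod_cast h1
  have h4 : (|(K₀ : ℝ)| + |ρ| + |σ| + 1) / κ ≤ y := Int.ceil_le.1 h3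
  rw [div_le_iff₀ hκ] at h4
  have h5 := mul_le_mul_of_nonneg_right h4 (by linarith : (0 : ℝ) ≤ y)
  have h6 := abs_sub_round (κ * (y : ℝ) ^ 2 + ρ * y + σ)
  have h7 := (abs_le.1 h6).2
  have h8 : -(|ρ| * y) ≤ ρ * y := by
    rw [← neg_mul]
    exact mul_le_mul_of_nonneg_right (neg_abs_le ρ) (by linarith)
  have h9 : (K₀ : ℝ) * y ≤ |(K₀ : ℝ)| * y :=
    mul_le_mul_of_nonneg_right (le_abs_self _) (by linarith)
  have h10 : |σ| ≤ |σ| * y := by nlinarith [abs_nonneg σ]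
  have h11 := neg_abs_le σ
  have h12 : (K₀ : ℝ) * y ≤ (round (κ * (y : ℝ) ^ 2 + ρ * y + σ) : ℝ) := by nlinarith
  exact_mod_cast h12

/-- `L y^d + r(y)` is eventually at least `c y³` or at most `-c y³` -/
private theorem pat6h_lead {L : ℝ} (hL : L ≠ 0) (d : ℕ) (hd : 2 ≤ d) (r : ℝ → ℝ) (B : ℝ)
    (hr : ∀ y : ℝ, 1 ≤ y → |r y| ≤ B * y ^ d) :
    ∃ c : ℝ, 0 < c ∧ ∃ Y : ℤ,
      ((∀ y : ℤ, Y ≤ y → c * (y : ℝ) ^ 3 ≤ L * (y : ℝ) ^ (d + 1) + r y) ∨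
       (∀ y : ℤ, Y ≤ y → L * (y : ℝ) ^ (d + 1) + r y ≤ -(c * (y : ℝ) ^ 3))) := by
  have hLp : 0 < |L| := abs_pos.2 hL
  refine ⟨|L| / 2, by positivity, max 1 ⌈2 * B / |L|⌉, ?_⟩
  have key : ∀ y : ℤ, max 1 ⌈2 * B / |L|⌉ ≤ y → |r y| ≤ |L| / 2 * (y : ℝ) ^ (d + 1) ∧
      |L| / 2 * (y : ℝ) ^ 3 ≤ |L| / 2 * (y : ℝ) ^ (d + 1) := by
    intro y hy
    have h1 : 1 ≤ y := (le_max_left _ _).trans hy
    have h2 : ⌈2 * B / |L|⌉ ≤ y := (le_max_right _ _).trans hy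
    have h1' : (1 : ℝ) ≤ y := by exact_mod_cast h1
    have h3 : 2 * B / |L| ≤ y := Int.ceil_le.1 h2
    rw [div_le_iff₀ hLp] at h3
    refine ⟨(hr y h1').trans ?_, ?_⟩
    · have h4 : B ≤ |L| / 2 * y := by linarith
      calc B * (y : ℝ) ^ d ≤ |L| / 2 * y * (y : ℝ) ^ d :=
            mul_le_mul_of_nonneg_right h4 (by positivity)
        _ = |L| / 2 * (y : ℝ) ^ (d + 1) := by ring
    · exact mul_le_mul_of_nonneg_left (pow_le_pow_right₀ h1' (by omega)) (by positivity)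
  rcases lt_or_gt_of_ne hL with h | h
  · right
    intro y hy
    obtain ⟨h1, h2⟩ := key y hy
    have h3 := (abs_le.1 h1).2
    rw [abs_of_neg h] at h2 h3 ⊢
    nlinarith
  · left
    intro y hy
    obtain ⟨h1, h2⟩ := key y hy
    have h3 := (abs_le.1 h1).1
    rw [abs_of_pos h] at h2 h3 ⊢
    nlinarith

private theorem pat6h_mono (β : ℝ) {y : ℝ} (hy : 1 ≤ y) {i d : ℕ} (hi : i ≤ d) :
    |β * y ^ i| ≤ |β| * y ^ d := by
  rw [abs_mul, abs_of_nonneg (by positivity : (0 : ℝ) ≤ y ^ i)]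
  exact mul_le_mul_of_nonneg_left (pow_le_pow_right₀ hy hi) (abs_nonneg _)

private theorem pat6h_poly (β₅ β₄ β₃ β₂ β₁ β₀ : ℝ) (hh : β₅ ≠ 0 ∨ β₄ ≠ 0 ∨ β₃ ≠ 0) :
    ∃ c : ℝ, 0 < c ∧ ∃ Y : ℤ,
      ((∀ y : ℤ, Y ≤ y → c * (y : ℝ) ^ 3 ≤ β₅ * (y : ℝ) ^ 5 + β₄ * (y : ℝ) ^ 4 +
          β₃ * (y : ℝ) ^ 3 + β₂ * (y : ℝ) ^ 2 + β₁ * y + β₀) ∨
       (∀ y : ℤ, Y ≤ y → β₅ * (y : ℝ) ^ 5 + β₄ * (y : ℝ) ^ 4 +
          β₃ * (y : ℝ) ^ 3 + β₂ * (y : ℝ) ^ 2 + β₁ * y + β₀ ≤ -(c * (y : ℝ) ^ 3))) := by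
  have t0 : ∀ {y : ℝ}, 1 ≤ y → ∀ d : ℕ, |β₀| ≤ |β₀| * y ^ d := fun hy d =>
    le_mul_of_one_le_right (abs_nonneg _) (one_le_pow₀ hy)
  by_cases h5 : β₅ = 0
  · by_cases h4 : β₄ = 0
    · have h3 : β₃ ≠ 0 := by
        rcases hh with h | h | h
        · exact absurd h5 h
        · exact absurd h4 h
        · exact h
      obtain ⟨c, hc, Y, hY⟩ := pat6h_lead h3 2 le_rfl (fun y => β₂ * y ^ 2 + β₁ * y + β₀)
        (|β₂| + |β₁| + |β₀|) (fun y hy => by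
          have e1 := pat6h_mono β₂ hy (i := 2) (d := 2) le_rfl
          have e2 := pat6h_mono β₁ hy (i := 1) (d := 2) (by norm_num)
          have e3 := t0 hy 2
          rw [pow_one] at e2
          have e4 := abs_add_le (β₂ * y ^ 2 + β₁ * y) β₀
          have e5 := abs_add_le (β₂ * y ^ 2) (β₁ * y)
          linarith)
      refine ⟨c, hc, Y, hY.imp (fun h y hy => ?_) (fun h y hy => ?_)⟩
      · have := h y hy
        rw [show (2 + 1 : ℕ) = 3 from rfl] at this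
        rw [h5, h4]
        simp only [zero_mul, zero_add]
        linarith
      · have := h y hy
        rw [show (2 + 1 : ℕ) = 3 from rfl] at this
        rw [h5, h4]
        simp only [zero_mul, zero_add]
        linarith
    · obtain ⟨c, hc, Y, hY⟩ := pat6h_lead h4 3 (by norm_num)
        (fun y => β₃ * y ^ 3 + β₂ * y ^ 2 + β₁ * y + β₀)
        (|β₃| + |β₂| + |β₁| + |β₀|) (fun y hy => by
          have e0 := pat6h_mono β₃ hy (i := 3) (d := 3) le_rfl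
          have e1 := pat6h_mono β₂ hy (i := 2) (d := 3) (by norm_num)
          have e2 := pat6h_mono β₁ hy (i := 1) (d := 3) (by norm_num)
          have e3 := t0 hy 3
          rw [pow_one] at e2
          have e4 := abs_add_le (β₃ * y ^ 3 + β₂ * y ^ 2 + β₁ * y) β₀
          have e5 := abs_add_le (β₃ * y ^ 3 + β₂ * y ^ 2) (β₁ * y)
          have e6 := abs_add_le (β₃ * y ^ 3) (β₂ * y ^ 2)
          linarith)
      refine ⟨c, hc, Y, hY.imp (fun h y hy => ?_) (fun h y hy => ?_)⟩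
      · have := h y hy
        rw [show (3 + 1 : ℕ) = 4 from rfl] at this
        rw [h5]
        simp only [zero_mul, zero_add]
        linarith
      · have := h y hy
        rw [show (3 + 1 : ℕ) = 4 from rfl] at this
        rw [h5]
        simp only [zero_mul, zero_add]
        linarith
  · obtain ⟨c, hc, Y, hY⟩ := pat6h_lead h5 4 (by norm_num)
      (fun y => β₄ * y ^ 4 + β₃ * y ^ 3 + β₂ * y ^ 2 + β₁ * y + β₀)
      (|β₄| + |β₃| + |β₂| + |β₁| + |β₀|) (fun y hy => by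
        have e9 := pat6h_mono β₄ hy (i := 4) (d := 4) le_rfl
        have e0 := pat6h_mono β₃ hy (i := 3) (d := 4) (by norm_num)
        have e1 := pat6h_mono β₂ hy (i := 2) (d := 4) (by norm_num)
        have e2 := pat6h_mono β₁ hy (i := 1) (d := 4) (by norm_num)
        have e3 := t0 hy 4
        rw [pow_one] at e2
        have e4 := abs_add_le (β₄ * y ^ 4 + β₃ * y ^ 3 + β₂ * y ^ 2 + β₁ * y) β₀
        have e5 := abs_add_le (β₄ * y ^ 4 + β₃ * y ^ 3 + β₂ * y ^ 2) (β₁ * y)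
        have e6 := abs_add_le (β₄ * y ^ 4 + β₃ * y ^ 3) (β₂ * y ^ 2)
        have e7 := abs_add_le (β₄ * y ^ 4) (β₃ * y ^ 3)
        linarith)
    refine ⟨c, hc, Y, hY.imp (fun h y hy => ?_) (fun h y hy => ?_)⟩
    · have := h y hy
      rw [show (4 + 1 : ℕ) = 5 from rfl] at this
      linarith
    · have := h y hy
      rw [show (4 + 1 : ℕ) = 5 from rfl] at this
      linarith

theorem pat6_high (b κ ρ σ a₁ a₀ e₁ e₀ β₅ β₄ β₃ β₂ β₁ β₀ : ℚ) (hb : 0 < b) (hκ : 0 < κ)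
    (F : ℤ × ℤ → ℝ)
    (hF : ∀ x y : ℤ, F (x, y) = b * ((x : ℝ) - (κ * (y : ℝ) ^ 2 + ρ * y + σ)) ^ 3 +
      (b * κ * (y : ℝ) ^ 2 + a₁ * y + a₀) * ((x : ℝ) - (κ * (y : ℝ) ^ 2 + ρ * y + σ)) ^ 2 +
      (e₁ * y + e₀) * ((x : ℝ) - (κ * (y : ℝ) ^ 2 + ρ * y + σ)) +
      (β₅ * (y : ℝ) ^ 5 + β₄ * (y : ℝ) ^ 4 + β₃ * (y : ℝ) ^ 3 + β₂ * (y : ℝ) ^ 2 + β₁ * y + β₀))
    (K₀ Y₀ : ℤ) (hpos : ∀ x y : ℤ, Y₀ ≤ y → K₀ * y ≤ x → 0 ≤ F (x, y))
    (hh : β₅ ≠ 0 ∨ β₄ ≠ 0 ∨ β₃ ≠ 0) :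
    ∃ δ : ℝ, 0 < δ ∧ δ < κ ∧ ∃ Y : ℤ,
      Null (vals F {P | Y ≤ P.2 ∧ |(P.1 : ℝ) - κ * (P.2 : ℝ) ^ 2| ≤ δ * (P.2 : ℝ) ^ 2}) := by
  have hbR : (0 : ℝ) < (b : ℝ) := by exact_mod_cast hb
  have hκR : (0 : ℝ) < (κ : ℝ) := by exact_mod_cast hκ
  have hhR : (β₅ : ℝ) ≠ 0 ∨ (β₄ : ℝ) ≠ 0 ∨ (β₃ : ℝ) ≠ 0 := by exact_mod_cast hh
  obtain ⟨c, hc, Y₁, hY₁⟩ := pat6h_poly (β₅ : ℝ) (β₄ : ℝ) (β₃ : ℝ) (β₂ : ℝ) (β₁ : ℝ) (β₀ : ℝ) hhR
  rcases hY₁ with hY₁ | hY₁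
  · -- positive leading coefficient
    set E : ℝ := |(e₁ : ℝ)| + |(e₀ : ℝ)| with hE
    set A : ℝ := |(a₁ : ℝ)| + |(a₀ : ℝ)| with hA
    set R : ℝ := |(ρ : ℝ)| + |(σ : ℝ)| with hR
    have hbk : (0 : ℝ) < (b : ℝ) * κ := by positivity
    refine ⟨(κ : ℝ) / 8, by positivity, by linarith, max 1 (max Y₁ (max ⌈8 * R / (κ : ℝ)⌉
      (max ⌈4 * A / ((b : ℝ) * κ)⌉ ⌈2 * (E ^ 2 / ((b : ℝ) * κ)) / c⌉))), ?_⟩
    have hmin : 0 < min ((b : ℝ) * κ / 4) (c / 2) := lt_min (by positivity) (by positivity)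
    refine null_B (fun y => (κ : ℝ) * (y : ℝ) ^ 2 + ρ * y + σ) hmin fun P hP => ?_
    obtain ⟨hP1, hP2⟩ := hP
    obtain ⟨x, y⟩ := P
    simp only at hP1 hP2 ⊢
    have g1 : 1 ≤ y := (le_max_left _ _).trans hP1
    have g2 : Y₁ ≤ y := (le_max_left _ _).trans ((le_max_right _ _).trans hP1)
    have g3 : ⌈8 * R / (κ : ℝ)⌉ ≤ y :=
      (le_max_left _ _).trans ((le_max_right _ _).trans ((le_max_right _ _).trans hP1))
    have g4 : ⌈4 * A / ((b : ℝ) * κ)⌉ ≤ y :=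
      (le_max_left _ _).trans ((le_max_right _ _).trans ((le_max_right _ _).trans
        ((le_max_right _ _).trans hP1)))
    have g5 : ⌈2 * (E ^ 2 / ((b : ℝ) * κ)) / c⌉ ≤ y :=
      (le_max_right _ _).trans ((le_max_right _ _).trans ((le_max_right _ _).trans
        ((le_max_right _ _).trans hP1)))
    refine ⟨g1, ?_⟩
    have y1 : (1 : ℝ) ≤ y := by exact_mod_cast g1
    have y0 : (0 : ℝ) ≤ y := by linarith
    have k3 : 8 * R / (κ : ℝ) ≤ y := Int.ceil_le.1 g3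
    have k4 : 4 * A / ((b : ℝ) * κ) ≤ y := Int.ceil_le.1 g4
    have k5 : 2 * (E ^ 2 / ((b : ℝ) * κ)) / c ≤ y := Int.ceil_le.1 g5
    rw [div_le_iff₀ hκR] at k3
    rw [div_le_iff₀ hbk] at k4
    rw [div_le_iff₀ hc] at k5
    have hh1 := hY₁ y g2
    rw [hF x y]
    set z : ℝ := (x : ℝ) - ((κ : ℝ) * (y : ℝ) ^ 2 + ρ * y + σ) with hz
    -- bound for z
    have z1 : |z| ≤ (κ : ℝ) / 4 * (y : ℝ) ^ 2 := by
      have e1 : z = ((x : ℝ) - κ * (y : ℝ) ^ 2) - (ρ * y + σ) := by rw [hz]; ring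
      have e2 : |(ρ : ℝ) * y + σ| ≤ R * y := by
        have e3 := abs_add_le ((ρ : ℝ) * y) σ
        have e4 : |(ρ : ℝ) * y| = |(ρ : ℝ)| * y := by rw [abs_mul, abs_of_nonneg y0]
        have e5 : |(σ : ℝ)| ≤ |(σ : ℝ)| * y := le_mul_of_one_le_right (abs_nonneg _) y1
        rw [hR, add_mul]
        linarith
      have e3 : |z| ≤ |(x : ℝ) - κ * (y : ℝ) ^ 2| + |(ρ : ℝ) * y + σ| := by
        rw [e1]; exact abs_sub _ _
      have e4 : R * y ≤ (κ : ℝ) / 8 * (y : ℝ) ^ 2 := by nlinarith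
      linarith
    have z2 : -((b : ℝ) * κ / 4 * (y : ℝ) ^ 2) ≤ b * z := by
      have e1 := (abs_le.1 z1).1
      have e2 := mul_le_mul_of_nonneg_left e1 hbR.le
      linarith
    have a2 : -((b : ℝ) * κ / 4 * (y : ℝ) ^ 2) ≤ (a₁ : ℝ) * y + a₀ := by
      have e3 := abs_add_le ((a₁ : ℝ) * y) a₀
      have e4 : |(a₁ : ℝ) * y| = |(a₁ : ℝ)| * y := by rw [abs_mul, abs_of_nonneg y0]
      have e5 : |(a₀ : ℝ)| ≤ |(a₀ : ℝ)| * y := le_mul_of_one_le_right (abs_nonneg _) y1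
      have e6 : |(a₁ : ℝ) * y + a₀| ≤ A * y := by
        rw [hA, add_mul]
        linarith
      have e7 : A * y ≤ (b : ℝ) * κ / 4 * (y : ℝ) ^ 2 := by nlinarith
      linarith [(abs_le.1 e6).1]
    have G1 : (b : ℝ) * κ / 2 * (y : ℝ) ^ 2 ≤ b * z + (b * κ * (y : ℝ) ^ 2 + a₁ * y + a₀) := by
      linarith
    have G2 := mul_le_mul_of_nonneg_right G1 (sq_nonneg z)
    -- the linear term
    have l1 : -(E * (y * |z|)) ≤ ((e₁ : ℝ) * y + e₀) * z := by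
      have e3 := abs_add_le ((e₁ : ℝ) * y) e₀
      have e4 : |(e₁ : ℝ) * y| = |(e₁ : ℝ)| * y := by rw [abs_mul, abs_of_nonneg y0]
      have e5 : |(e₀ : ℝ)| ≤ |(e₀ : ℝ)| * y := le_mul_of_one_le_right (abs_nonneg _) y1
      have e6 : |(e₁ : ℝ) * y + e₀| ≤ E * y := by
        rw [hE, add_mul]
        linarith
      have e7 : |((e₁ : ℝ) * y + e₀) * z| ≤ E * y * |z| := by
        rw [abs_mul]
        exact mul_le_mul_of_nonneg_right e6 (abs_nonneg _)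
      have e8 := (abs_le.1 e7).1
      linarith
    have l2 : E * (y * |z|) ≤ (b : ℝ) * κ / 4 * ((y : ℝ) ^ 2 * z ^ 2) + E ^ 2 / ((b : ℝ) * κ) := by
      have e1 : 0 ≤ ((b : ℝ) * κ) * ((y * |z|) / 2 - E / ((b : ℝ) * κ)) ^ 2 := by positivity
      have e2 : ((b : ℝ) * κ) * ((y * |z|) / 2 - E / ((b : ℝ) * κ)) ^ 2 =
          (b : ℝ) * κ / 4 * ((y : ℝ) ^ 2 * |z| ^ 2) + E ^ 2 / ((b : ℝ) * κ) - E * (y * |z|) := by
        field_simp
        ring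
      rw [sq_abs] at e2
      linarith
    -- the constant term
    have m1 : c / 2 * (y : ℝ) ^ 2 ≤ c * (y : ℝ) ^ 3 - E ^ 2 / ((b : ℝ) * κ) := by
      have e1 : (1 : ℝ) ≤ (y : ℝ) ^ 2 := one_le_pow₀ y1
      have e2 : E ^ 2 / ((b : ℝ) * κ) ≤ c / 2 * y := by linarith
      have e3 : c / 2 * y ≤ c / 2 * (y : ℝ) ^ 3 := by
        have : (y : ℝ) ≤ (y : ℝ) ^ 3 := by nlinarith
        nlinarith
      have e4 : c / 2 * (y : ℝ) ^ 2 ≤ c / 2 * (y : ℝ) ^ 3 := by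
        have : (y : ℝ) ^ 2 ≤ (y : ℝ) ^ 3 := by nlinarith
        nlinarith
      linarith
    have m2 : (y : ℝ) * z ^ 2 ≤ (y : ℝ) ^ 2 * z ^ 2 := by
      refine mul_le_mul_of_nonneg_right ?_ (sq_nonneg z)
      nlinarith
    have m3 : min ((b : ℝ) * κ / 4) (c / 2) * ((y : ℝ) * z ^ 2) ≤
        (b : ℝ) * κ / 4 * ((y : ℝ) ^ 2 * z ^ 2) :=
      mul_le_mul (min_le_left _ _) m2 (by positivity) (by positivity)
    have m4 : min ((b : ℝ) * κ / 4) (c / 2) * (y : ℝ) ^ 2 ≤ c / 2 * (y : ℝ) ^ 2 :=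
      mul_le_mul_of_nonneg_right (min_le_right _ _) (by positivity)
    have G3 : (b : ℝ) * z ^ 3 + (b * κ * (y : ℝ) ^ 2 + a₁ * y + a₀) * z ^ 2 =
        (b * z + (b * κ * (y : ℝ) ^ 2 + a₁ * y + a₀)) * z ^ 2 := by ring
    rw [G3, mul_add]
    have G4 : (b : ℝ) * κ / 2 * (y : ℝ) ^ 2 * z ^ 2 =
      (b : ℝ) * κ / 4 * ((y : ℝ) ^ 2 * z ^ 2) + (b : ℝ) * κ / 4 * ((y : ℝ) ^ 2 * z ^ 2) := by ring
    rw [G4] at G2
    linarith
  · -- negative leading coefficient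
    exfalso
    obtain ⟨Y, hY⟩ := pat6h_near hκR (ρ : ℝ) (σ : ℝ) K₀ Y₀
    set C : ℝ := (b : ℝ) + (b * κ + |(a₁ : ℝ)| + |(a₀ : ℝ)|) + (|(e₁ : ℝ)| + |(e₀ : ℝ)|) with hC
    obtain ⟨y, hy1, hy2, hy3⟩ : ∃ y : ℤ, Y ≤ y ∧ Y₁ ≤ y ∧ ⌈C / c⌉ + 1 ≤ y :=
      ⟨max Y (max Y₁ (⌈C / c⌉ + 1)), le_max_left _ _, (le_max_left _ _).trans (le_max_right _ _),
        (le_max_right _ _).trans (le_max_right _ _)⟩
    obtain ⟨h1, h2, h3⟩ := hY y hy1
    have h4 := hY₁ y hy2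
    have h5 := hpos _ y h2 h3
    rw [hF] at h5
    have h6 := abs_sub_round ((κ : ℝ) * (y : ℝ) ^ 2 + ρ * y + σ)
    set x : ℤ := round ((κ : ℝ) * (y : ℝ) ^ 2 + ρ * y + σ) with hx
    set z : ℝ := (x : ℝ) - ((κ : ℝ) * (y : ℝ) ^ 2 + ρ * y + σ) with hz
    have z1 : |z| ≤ 1 := by
      rw [hz, abs_sub_comm]
      linarith
    have y1 : (1 : ℝ) ≤ y := by exact_mod_cast h1
    have y0 : (0 : ℝ) ≤ y := by linarith
    have y2 : (y : ℝ) ≤ (y : ℝ) ^ 2 := by nlinarith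
    have y3 : (1 : ℝ) ≤ (y : ℝ) ^ 2 := one_le_pow₀ y1
    have hCy : C < c * y := by
      have e1 : ((⌈C / c⌉ + 1 : ℤ) : ℝ) ≤ y := by exact_mod_cast hy3
      have e2 : C / c ≤ (⌈C / c⌉ : ℝ) := Int.le_ceil _
      push_cast at e1
      have e3 : C / c < y := by linarith
      rw [div_lt_iff₀ hc] at e3
      linarith
    have z2 : z ^ 2 ≤ 1 := by
      rw [← sq_abs]
      exact pow_le_one₀ (abs_nonneg _) z1
    have t1 : (b : ℝ) * z ^ 3 ≤ b * (y : ℝ) ^ 2 := by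
      have e1 : z ^ 3 ≤ 1 := by
        have : |z ^ 3| ≤ 1 := by
          rw [abs_pow]
          exact pow_le_one₀ (abs_nonneg _) z1
        exact (le_abs_self _).trans this
      exact mul_le_mul_of_nonneg_left (e1.trans y3) hbR.le
    have t2 : ((b : ℝ) * κ * (y : ℝ) ^ 2 + a₁ * y + a₀) * z ^ 2 ≤
        (b * κ + |(a₁ : ℝ)| + |(a₀ : ℝ)|) * (y : ℝ) ^ 2 := by
      have e1 : (a₁ : ℝ) * y ≤ |(a₁ : ℝ)| * (y : ℝ) ^ 2 :=
        (mul_le_mul_of_nonneg_right (le_abs_self _) y0).trans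
          (mul_le_mul_of_nonneg_left y2 (abs_nonneg _))
      have e2 : (a₀ : ℝ) ≤ |(a₀ : ℝ)| * (y : ℝ) ^ 2 :=
        (le_abs_self _).trans (le_mul_of_one_le_right (abs_nonneg _) y3)
      have e3 : (b : ℝ) * κ * (y : ℝ) ^ 2 + a₁ * y + a₀ ≤
          (b * κ + |(a₁ : ℝ)| + |(a₀ : ℝ)|) * (y : ℝ) ^ 2 := by linarith
      have e4 := mul_le_mul_of_nonneg_right e3 (sq_nonneg z)
      have e5 : (b * κ + |(a₁ : ℝ)| + |(a₀ : ℝ)|) * (y : ℝ) ^ 2 * z ^ 2 ≤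
          (b * κ + |(a₁ : ℝ)| + |(a₀ : ℝ)|) * (y : ℝ) ^ 2 * 1 :=
        mul_le_mul_of_nonneg_left z2 (by positivity)
      linarith
    have t3 : ((e₁ : ℝ) * y + e₀) * z ≤ (|(e₁ : ℝ)| + |(e₀ : ℝ)|) * (y : ℝ) ^ 2 := by
      have e3 := abs_add_le ((e₁ : ℝ) * y) e₀
      have e4 : |(e₁ : ℝ) * y| = |(e₁ : ℝ)| * y := by rw [abs_mul, abs_of_nonneg y0]
      have e5 : |(e₀ : ℝ)| ≤ |(e₀ : ℝ)| * y := le_mul_of_one_le_right (abs_nonneg _) y1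
      have e6 : |(e₁ : ℝ) * y + e₀| ≤ (|(e₁ : ℝ)| + |(e₀ : ℝ)|) * y := by
        rw [add_mul]
        linarith
      have e7 : |((e₁ : ℝ) * y + e₀) * z| ≤ (|(e₁ : ℝ)| + |(e₀ : ℝ)|) * y * 1 := by
        rw [abs_mul]
        exact mul_le_mul e6 z1 (abs_nonneg _) (by positivity)
      have e8 := le_abs_self (((e₁ : ℝ) * y + e₀) * z)
      have e9 : (|(e₁ : ℝ)| + |(e₀ : ℝ)|) * y ≤ (|(e₁ : ℝ)| + |(e₀ : ℝ)|) * (y : ℝ) ^ 2 :=
        mul_le_mul_of_nonneg_left y2 (by positivity)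
      linarith
    have t4 : C * (y : ℝ) ^ 2 < c * (y : ℝ) ^ 3 := by
      have e1 := mul_lt_mul_of_pos_right hCy (by positivity : (0 : ℝ) < (y : ℝ) ^ 2)
      calc C * (y : ℝ) ^ 2 < c * y * (y : ℝ) ^ 2 := e1
        _ = c * (y : ℝ) ^ 3 := by ring
    have t5 : C * (y : ℝ) ^ 2 = b * (y : ℝ) ^ 2 + (b * κ + |(a₁ : ℝ)| + |(a₀ : ℝ)|) * (y : ℝ) ^ 2 +
        (|(e₁ : ℝ)| + |(e₀ : ℝ)|) * (y : ℝ) ^ 2 := by
      rw [hC]; ring
    linarith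

end Pool.Agent.Lib.MP_ff4e96_co
end

section

/-!
# MP_ff4e96_co: degenerate clusters of weight 5

`shift5`: `F = (c₂₁ y + c₂₀) z² + τ z + b(y)`, `b = β₄ y⁴ + … + β₀`, `z = x - p(y)`, `p(y) = κ y² + ρ y + σ`. For
large `y` the point `(x, y)` with `x` the nearest integer to `p(y)` satisfies `K₀ y ≤ x`, and `|z| ≤ 1/2`,
`F ≤ (c₂₁ y + |c₂₀|)/4 + |τ| + b(y)` there.
* `deg b ≥ 2` with negative leading coefficient: `F < 0` at these points for large `y`, impossible.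
* `deg b ≥ 2`, positive leading coefficient `β`: for `y ≥ Y`: `(c₂₁ y + c₂₀) z² + τ z ≥ (c₂₁/2) y z² - C` and
  `b(y) ≥ (β/2) y² + C`, so `F ≥ c (y z² + y²)`: `null_B`.
* `deg b ≤ 1`: let `E ≥ 1` be an integer with `E κ`, `E ρ` integers. For integers `m ≥ 0`, `k` let
  `y = E k`, `x = m + κ E² k² + ρ E k`, an integer, `z = m - σ`. For `k ≥ k₀(m)` the point is in the domain and
  `F = k A(m) + B(m)` with `A = E c₂₁ (X - σ)² + E β₁`, `B = c₂₀ (X - σ)² + τ (X - σ) + β₀`: `pp_false`.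
-/

namespace Pool.Agent.Lib.MP_ff4e96_co

open Filter Topology

/-- points near the parabola lie in the domain -/
private theorem pat5_near {κ : ℝ} (hκ : 0 < κ) (ρ σ : ℝ) (K₀ Y₀ : ℤ) : ∃ Y : ℤ, ∀ y : ℤ, Y ≤ y →
    1 ≤ y ∧ Y₀ ≤ y ∧ K₀ * y ≤ round (κ * (y : ℝ) ^ 2 + ρ * y + σ) := by
  refine ⟨max 1 (max Y₀ ⌈(|(K₀ : ℝ)| + |ρ| + |σ| + 1) / κ⌉), fun y hy => ?_⟩
  have h1 : 1 ≤ y := (le_max_left _ _).trans hy
  have h2 : Y₀ ≤ y := (le_max_left _ _).trans ((le_max_right _ _).trans hy)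
  have h3 : ⌈(|(K₀ : ℝ)| + |ρ| + |σ| + 1) / κ⌉ ≤ y :=
    (le_max_right _ _).trans ((le_max_right _ _).trans hy)
  refine ⟨h1, h2, ?_⟩
  have h1' : (1 : ℝ) ≤ y := by exact_mod_cast h1
  have h4 : (|(K₀ : ℝ)| + |ρ| + |σ| + 1) / κ ≤ y := Int.ceil_le.1 h3
  rw [div_le_iff₀ hκ] at h4
  have h5 := mul_le_mul_of_nonneg_right h4 (by linarith : (0 : ℝ) ≤ y)
  have h6 := abs_sub_round (κ * (y : ℝ) ^ 2 + ρ * y + σ)
  have h7 := (abs_le.1 h6).2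
  have h8 : -(|ρ| * y) ≤ ρ * y := by
    rw [← neg_mul]
    exact mul_le_mul_of_nonneg_right (neg_abs_le ρ) (by linarith)
  have h9 : (K₀ : ℝ) * y ≤ |(K₀ : ℝ)| * y :=
    mul_le_mul_of_nonneg_right (le_abs_self _) (by linarith)
  have h10 : |σ| ≤ |σ| * y := by nlinarith [abs_nonneg σ]
  have h11 := neg_abs_le σ
  have h12 : (K₀ : ℝ) * y ≤ (round (κ * (y : ℝ) ^ 2 + ρ * y + σ) : ℝ) := by nlinarith
  exact_mod_cast h12

/-- one step of growth -/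
private theorem pat5_grow {a B : ℝ} (ha : 0 < a) (k : ℕ) (hk : 1 ≤ k) (r : ℝ → ℝ)
    (hr : ∀ y : ℝ, 1 ≤ y → |r y| ≤ B * y ^ k) :
    ∃ A : ℝ, 0 < A ∧ ∃ Y : ℝ, ∀ y : ℝ, 1 ≤ y → Y ≤ y → A * y ^ 2 ≤ a * y ^ (k + 1) + r y := by
  refine ⟨a / 2, by positivity, 2 * B / a, fun y h1 h2 => ?_⟩
  rw [div_le_iff₀ ha] at h2
  have h3 := (abs_le.1 (hr y h1)).1
  have h4 : (1 : ℝ) ≤ y ^ (k - 1) := one_le_pow₀ h1
  have h5 : y ^ (k + 1) = y ^ (k - 1) * y ^ 2 := by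
    rw [← pow_add]
    congr 1
    omega
  have h6 : (0 : ℝ) ≤ y ^ k := by positivity
  have h7 := mul_le_mul_of_nonneg_right h2 h6
  have h8 : y ^ 2 ≤ y ^ (k + 1) := by
    rw [h5]
    nlinarith [sq_nonneg y]
  have h9 : y * a * y ^ k = a * y ^ (k + 1) := by ring
  rw [h9] at h7
  nlinarith

/-- growth of a polynomial of degree 2, 3, 4 -/
private theorem pat5_poly (b₄ b₃ b₂ b₁ b₀ : ℝ)
    (h : 0 < b₄ ∨ (b₄ = 0 ∧ 0 < b₃) ∨ (b₄ = 0 ∧ b₃ = 0 ∧ 0 < b₂)) :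
    ∃ A : ℝ, 0 < A ∧ ∃ Y : ℝ, ∀ y : ℝ, 1 ≤ y → Y ≤ y →
      A * y ^ 2 ≤ b₄ * y ^ 4 + b₃ * y ^ 3 + b₂ * y ^ 2 + b₁ * y + b₀ := by
  have e1 : ∀ (b y : ℝ) (i j : ℕ), i ≤ j → 1 ≤ y → |b * y ^ i| ≤ |b| * y ^ j := by
    intro b y i j hij hy
    rw [abs_mul, abs_of_nonneg (by positivity : (0 : ℝ) ≤ y ^ i)]
    exact mul_le_mul_of_nonneg_left (pow_le_pow_right₀ hy hij) (abs_nonneg _)
  rcases h with h | ⟨h4, h⟩ | ⟨h4, h3, h⟩
  · obtain ⟨A, hA, Y, hY⟩ := pat5_grow (B := |b₃| + |b₂| + |b₁| + |b₀|) h 3 (by norm_num)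
      (fun y => b₃ * y ^ 3 + b₂ * y ^ 2 + b₁ * y ^ 1 + b₀ * y ^ 0) (by
        intro y hy
        have a1 := abs_add_le (b₃ * y ^ 3 + b₂ * y ^ 2 + b₁ * y ^ 1) (b₀ * y ^ 0)
        have a2 := abs_add_le (b₃ * y ^ 3 + b₂ * y ^ 2) (b₁ * y ^ 1)
        have a3 := abs_add_le (b₃ * y ^ 3) (b₂ * y ^ 2)
        have c3 := e1 b₃ y 3 3 le_rfl hy
        have c2 := e1 b₂ y 2 3 (by norm_num) hy
        have c1 := e1 b₁ y 1 3 (by norm_num) hy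
        have c0 := e1 b₀ y 0 3 (by norm_num) hy
        linarith)
    refine ⟨A, hA, Y, fun y h1 h2 => (hY y h1 h2).trans (le_of_eq ?_)⟩
    ring
  · subst h4
    obtain ⟨A, hA, Y, hY⟩ := pat5_grow (B := |b₂| + |b₁| + |b₀|) h 2 (by norm_num)
      (fun y => b₂ * y ^ 2 + b₁ * y ^ 1 + b₀ * y ^ 0) (by
        intro y hy
        have a1 := abs_add_le (b₂ * y ^ 2 + b₁ * y ^ 1) (b₀ * y ^ 0)
        have a2 := abs_add_le (b₂ * y ^ 2) (b₁ * y ^ 1)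
        have c2 := e1 b₂ y 2 2 le_rfl hy
        have c1 := e1 b₁ y 1 2 (by norm_num) hy
        have c0 := e1 b₀ y 0 2 (by norm_num) hy
        linarith)
    refine ⟨A, hA, Y, fun y h1 h2 => (hY y h1 h2).trans (le_of_eq ?_)⟩
    ring
  · subst h4
    subst h3
    obtain ⟨A, hA, Y, hY⟩ := pat5_grow (B := |b₁| + |b₀|) h 1 (by norm_num)
      (fun y => b₁ * y ^ 1 + b₀ * y ^ 0) (by
        intro y hy
        have a1 := abs_add_le (b₁ * y ^ 1) (b₀ * y ^ 0)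
        have c1 := e1 b₁ y 1 1 le_rfl hy
        have c0 := e1 b₀ y 0 1 (by norm_num) hy
        linarith)
    refine ⟨A, hA, Y, fun y h1 h2 => (hY y h1 h2).trans (le_of_eq ?_)⟩
    ring

theorem pat5 {c : ℕ → ℕ → ℚ} {κ : ℚ} (hκ : 0 < κ) (h : Deg5 c κ) (K₀ Y₀ : ℤ)
    (hNI : NI (evz c) {P | Y₀ ≤ P.2 ∧ K₀ * P.2 ≤ P.1}) :
    ∃ Y : ℤ, Null (vals (evz c) {P | Y ≤ P.2 ∧ K₀ * P.2 ≤ P.1}) := by
  obtain ⟨ρ, σ, τ, β₄, β₃, β₂, β₁, β₀, hev⟩ := shift5 h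
  have ha : 0 < c 2 1 := h.1
  have haR : (0 : ℝ) < (c 2 1 : ℝ) := by exact_mod_cast ha
  have hκR : (0 : ℝ) < (κ : ℝ) := by exact_mod_cast hκ
  by_cases hpos : 0 < (β₄ : ℝ) ∨ ((β₄ : ℝ) = 0 ∧ 0 < (β₃ : ℝ)) ∨
      ((β₄ : ℝ) = 0 ∧ (β₃ : ℝ) = 0 ∧ 0 < (β₂ : ℝ))
  · -- positive leading coefficient
    obtain ⟨A, hA, Y, hY⟩ := pat5_poly _ _ _ (β₁ : ℝ) (β₀ : ℝ) hpos
    set C : ℝ := (τ : ℝ) ^ 2 / c 2 1 with hC
    have hC0 : 0 ≤ C := by positivity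
    refine ⟨max 1 (max ⌈Y⌉ (max ⌈2 * |(c 2 0 : ℝ)| / c 2 1⌉ ⌈2 * C / A⌉)), ?_⟩
    have hmin : 0 < min ((c 2 1 : ℝ) / 4) (A / 2) := lt_min (by positivity) (by positivity)
    refine null_B (fun y => (κ : ℝ) * (y : ℝ) ^ 2 + ρ * y + σ) hmin fun P hP => ?_
    obtain ⟨hP1, -⟩ := hP
    have h1 : 1 ≤ P.2 := (le_max_left _ _).trans hP1
    have h2 : ⌈Y⌉ ≤ P.2 := (le_max_left _ _).trans ((le_max_right _ _).trans hP1)
    have h3 : ⌈2 * |(c 2 0 : ℝ)| / c 2 1⌉ ≤ P.2 :=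
      (le_max_left _ _).trans ((le_max_right _ _).trans ((le_max_right _ _).trans hP1))
    have h4 : ⌈2 * C / A⌉ ≤ P.2 :=
      (le_max_right _ _).trans ((le_max_right _ _).trans ((le_max_right _ _).trans hP1))
    refine ⟨h1, ?_⟩
    have h1' : (1 : ℝ) ≤ P.2 := by exact_mod_cast h1
    have h2' : Y ≤ P.2 := Int.ceil_le.1 h2
    have h3' : 2 * |(c 2 0 : ℝ)| / c 2 1 ≤ P.2 := Int.ceil_le.1 h3
    have h4' : 2 * C / A ≤ P.2 := Int.ceil_le.1 h4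
    rw [div_le_iff₀ haR] at h3'
    rw [div_le_iff₀ hA] at h4'
    have h5 := hY _ h1' h2'
    have h6 : evz c P = _ := hev (P.1 : ℝ) (P.2 : ℝ)
    rw [h6]
    set z : ℝ := (P.1 : ℝ) - ((κ : ℝ) * (P.2 : ℝ) ^ 2 + ρ * P.2 + σ) with hz
    have hm1 : min ((c 2 1 : ℝ) / 4) (A / 2) * ((P.2 : ℝ) * z ^ 2) ≤
        (c 2 1 : ℝ) / 4 * ((P.2 : ℝ) * z ^ 2) :=
      mul_le_mul_of_nonneg_right (min_le_left _ _) (by positivity)
    have hm2 : min ((c 2 1 : ℝ) / 4) (A / 2) * ((P.2 : ℝ) ^ 2) ≤ A / 2 * ((P.2 : ℝ) ^ 2) :=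
      mul_le_mul_of_nonneg_right (min_le_right _ _) (by positivity)
    have h7 : (c 2 1 : ℝ) / 2 * P.2 * z ^ 2 ≤ (c 2 1 * P.2 + c 2 0) * z ^ 2 := by
      refine mul_le_mul_of_nonneg_right ?_ (sq_nonneg _)
      have := neg_abs_le (c 2 0 : ℝ)
      linarith
    have h8 : 0 ≤ (c 2 1 : ℝ) / 4 * P.2 * z ^ 2 + τ * z + C := by
      have h9 : (c 2 1 : ℝ) / 4 * z ^ 2 ≤ (c 2 1 : ℝ) / 4 * P.2 * z ^ 2 := by
        have : 0 ≤ (c 2 1 : ℝ) / 4 * z ^ 2 := by positivity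
        nlinarith
      have h10 : (c 2 1 : ℝ) / 4 * z ^ 2 + τ * z + C = (c 2 1 * z / 2 + τ) ^ 2 / c 2 1 := by
        rw [hC]
        field_simp
        ring
      have h11 : 0 ≤ (c 2 1 * z / 2 + τ) ^ 2 / (c 2 1 : ℝ) := by positivity
      linarith
    have h12 : C ≤ A / 2 * (P.2 : ℝ) ^ 2 := by nlinarith
    rw [mul_add]
    linarith
  · by_cases hneg : 0 < -(β₄ : ℝ) ∨ (-(β₄ : ℝ) = 0 ∧ 0 < -(β₃ : ℝ)) ∨
      (-(β₄ : ℝ) = 0 ∧ -(β₃ : ℝ) = 0 ∧ 0 < -(β₂ : ℝ))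
    · -- negative leading coefficient
      exfalso
      obtain ⟨A, hA, Y, hY⟩ := pat5_poly _ _ _ (-(β₁ : ℝ)) (-(β₀ : ℝ)) hneg
      obtain ⟨Y₁, hY₁⟩ := pat5_near hκR (ρ : ℝ) (σ : ℝ) K₀ Y₀
      set D : ℝ := c 2 1 + |(c 2 0 : ℝ)| + |(τ : ℝ)| with hD
      have hD0 : 0 < D := by positivity
      set y : ℤ := max Y₁ (max ⌈Y⌉ (⌈D / A⌉ + 1)) with hy
      obtain ⟨h1, h2, h3⟩ := hY₁ y (le_max_left _ _)
      have h1' : (1 : ℝ) ≤ y := by exact_mod_cast h1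
      have h4 : Y ≤ y := Int.ceil_le.1 ((le_max_left _ _).trans (le_max_right _ _))
      have h5 : D / A < y := by
        have h6 : ⌈D / A⌉ + 1 ≤ y := (le_max_right _ _).trans (le_max_right _ _)
        have h7 : ((⌈D / A⌉ + 1 : ℤ) : ℝ) ≤ (y : ℝ) := by exact_mod_cast h6
        push_cast at h7
        have := Int.le_ceil (D / A)
        linarith
      rw [div_lt_iff₀ hA] at h5
      set x : ℤ := round ((κ : ℝ) * (y : ℝ) ^ 2 + ρ * y + σ) with hx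
      have h6 : 0 ≤ evz c (x, y) := hNI.nonneg (P := (x, y)) ⟨h2, h3⟩
      have h7 := abs_sub_round ((κ : ℝ) * (y : ℝ) ^ 2 + ρ * y + σ)
      rw [← hx, abs_sub_comm] at h7
      have h8 : evz c (x, y) = _ := hev (x : ℝ) (y : ℝ)
      rw [h8] at h6
      set z : ℝ := (x : ℝ) - ((κ : ℝ) * (y : ℝ) ^ 2 + ρ * y + σ) with hz
      have h9 : z ^ 2 ≤ 1 := by
        rw [← sq_abs]
        have := abs_nonneg z
        nlinarith
      have h10 : (c 2 1 * (y : ℝ) + c 2 0) * z ^ 2 ≤ c 2 1 * y + |(c 2 0 : ℝ)| := by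
        have e1 : (c 2 1 * (y : ℝ) + c 2 0) * z ^ 2 ≤ (c 2 1 * y + |(c 2 0 : ℝ)|) * z ^ 2 := by
          refine mul_le_mul_of_nonneg_right ?_ (sq_nonneg _)
          have := le_abs_self (c 2 0 : ℝ)
          linarith
        have e2 : (0 : ℝ) ≤ c 2 1 * y + |(c 2 0 : ℝ)| := by positivity
        nlinarith
      have h11 : τ * z ≤ |(τ : ℝ)| := by
        have e1 := le_abs_self (τ * z)
        rw [abs_mul] at e1
        have e2 := abs_nonneg (τ : ℝ)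
        nlinarith
      have h12 := hY _ h1' h4
      have h13 : c 2 1 * (y : ℝ) + |(c 2 0 : ℝ)| + |(τ : ℝ)| ≤ D * y := by
        rw [hD]
        have e2 := abs_nonneg (τ : ℝ)
        have e3 := abs_nonneg (c 2 0 : ℝ)
        nlinarith
      have h14 : D * (y : ℝ) < A * (y : ℝ) ^ 2 := by nlinarith
      linarith
    · -- the pencil case
      exfalso
      push Not at hpos hneg
      obtain ⟨p1, p2, p3⟩ := hpos
      obtain ⟨n1, n2, n3⟩ := hneg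
      have z4 : (β₄ : ℝ) = 0 := le_antisymm p1 (by linarith)
      have z3 : (β₃ : ℝ) = 0 := le_antisymm (p2 z4) (by linarith [n2 (by linarith)])
      have z2 : (β₂ : ℝ) = 0 := le_antisymm (p3 z4 z3) (by linarith [n3 (by linarith) (by linarith)])
      set E : ℤ := (κ.den : ℤ) * ρ.den with hE
      set u : ℤ := κ.num * ρ.den with hu
      set v : ℤ := ρ.num * κ.den with hv
      have hE1 : 1 ≤ E := by
        have h1 : 0 < κ.den := κ.den_pos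
        have h2 : 0 < ρ.den := ρ.den_pos
        have h3 : 0 < E := by positivity
        omega
      have hu1 : 1 ≤ u := by
        have h1 : 0 < κ.num := Rat.num_pos.2 hκ
        have h2 : 0 < ρ.den := ρ.den_pos
        have h3 : 0 < u := by positivity
        omega
      have huE : (E : ℚ) * κ = u := by
        rw [hE, hu]
        push_cast
        have := Rat.mul_den_eq_num κ
        rw [← this]
        ring
      have hvE : (E : ℚ) * ρ = v := by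
        rw [hE, hv]
        push_cast
        have := Rat.mul_den_eq_num ρ
        rw [← this]
        ring
      have huR : (E : ℝ) * κ = u := by exact_mod_cast huE
      have hvR : (E : ℝ) * ρ = v := by exact_mod_cast hvE
      set PA : Polynomial ℚ := Polynomial.C ((E : ℚ) * c 2 1) * (Polynomial.X - Polynomial.C σ) ^ 2 +
        Polynomial.C ((E : ℚ) * β₁) with hPA
      set PB : Polynomial ℚ := Polynomial.C (c 2 0) * (Polynomial.X - Polynomial.C σ) ^ 2 +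
        Polynomial.C τ * (Polynomial.X - Polynomial.C σ) + Polynomial.C β₀ with hPB
      have hval : ∀ m k : ℤ, evz c (m + u * E * k ^ 2 + v * k, E * k) =
          (((k : ℚ) * PA.eval (m : ℚ) + PB.eval (m : ℚ) : ℚ) : ℝ) := by
        intro m k
        have h1 : evz c (m + u * E * k ^ 2 + v * k, E * k) = _ :=
          hev ((m + u * E * k ^ 2 + v * k : ℤ) : ℝ) ((E * k : ℤ) : ℝ)
        rw [h1, z4, z3, z2, hPA, hPB]
        simp only [Polynomial.eval_C, Polynomial.eval_add, Polynomial.eval_mul,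
          Polynomial.eval_pow, Polynomial.eval_sub, Polynomial.eval_X]
        push_cast
        rw [← huR, ← hvR]
        ring
      have hdom : ∀ m k : ℤ, 0 ≤ m → 1 + |Y₀| + |K₀ * E| + |v| ≤ k →
          (m + u * E * k ^ 2 + v * k, E * k) ∈ {P : ℤ × ℤ | Y₀ ≤ P.2 ∧ K₀ * P.2 ≤ P.1} := by
        intro m k hm hk
        have a1 := abs_nonneg Y₀
        have a2 := abs_nonneg (K₀ * E)
        have a3 := abs_nonneg v
        have a4 := le_abs_self Y₀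
        have a5 := le_abs_self (K₀ * E)
        have a6 := neg_abs_le v
        have hk0 : 0 ≤ k := by linarith
        refine ⟨?_, ?_⟩
        · show Y₀ ≤ E * k
          nlinarith
        · show K₀ * (E * k) ≤ m + u * E * k ^ 2 + v * k
          have h1 : K₀ * E - v ≤ k := by linarith
          have h2 : 1 ≤ u * E := by nlinarith
          have h3 : k ≤ u * E * k := by nlinarith
          have h4 : (K₀ * E - v) * k ≤ (u * E * k) * k :=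
            mul_le_mul_of_nonneg_right (h1.trans h3) hk0
          linarith
      refine pp_false PA PB (fun _ => 1 + |Y₀| + |K₀ * E| + |v|) ?_ ?_
      · intro m k hm hk
        obtain ⟨w, hw⟩ := hNI.1 _ (hdom m k hm hk)
        rw [hval] at hw
        exact ⟨w, by exact_mod_cast hw⟩
      · intro m k m' k' hm hk hm' hk' heq
        have h1 : evz c (m + u * E * k ^ 2 + v * k, E * k) =
            evz c (m' + u * E * k' ^ 2 + v * k', E * k') := by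
          rw [hval, hval, heq]
        have h2 := hNI.2 (hdom m k hm hk) (hdom m' k' hm' hk') h1
        rw [Prod.mk.injEq] at h2
        have h3 : k = k' := by
          have := h2.2
          exact mul_left_cancel₀ (by omega) this
        subst h3
        exact ⟨by linarith [h2.1], rfl⟩

end Pool.Agent.Lib.MP_ff4e96_co
end
end
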