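import Pool.Agent.Lib.MP_ff4e96_co.Defs
import Pool.Agent.Lib.MP_ff4e96_co.Count
import Pool.Agent.Lib.MP_ff4e96_co.NFdef

section

section

/-!
# MP_ff4e96_co: gaps

`gap_points`: `θ` irrational. For every `K` there is `η > 0` such that `|k - θ h| > 2 η` for all integers `k` and
`1 ≤ h ≤ K`, and `2 η < 1`. Two different lattice points with `|y - θ x - σ| ≤ η` have `x`-coordinates which
differ by more than `K`. So an interval `[A, B]` of `x`-coordinates contains at most `(B - A)/K + 1` of them.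
-/

namespace Pool.Agent.Lib.MP_ff4e96_co

open Filter Topology

private theorem eta_exists {θ : ℝ} (hθ : Irrational θ) (K : ℕ) : ∃ η : ℝ, 0 < η ∧ 2 * η < 1 ∧
    ∀ h : ℤ, 1 ≤ h → h ≤ K → ∀ k : ℤ, 2 * η < |(k : ℝ) - θ * h| := by
  induction K with
  | zero =>
    refine ⟨1 / 3, by norm_num, by norm_num, ?_⟩
    intro h h1 h2
    exfalso
    have : (h : ℤ) ≤ 0 := by simpa using h2
    omega
  | succ K ih =>
    obtain ⟨η, h0, h1, h2⟩ := ih
    have hK : ((K + 1 : ℕ) : ℤ) ≠ 0 := by omega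
    have hirr : Irrational (θ * ((K + 1 : ℕ) : ℤ)) := hθ.mul_intCast hK
    set d : ℝ := |θ * (((K + 1 : ℕ) : ℤ) : ℝ) - round (θ * (((K + 1 : ℕ) : ℤ) : ℝ))| with hd
    have hdpos : 0 < d := by
      rw [hd, abs_pos, sub_ne_zero]
      exact hirr.ne_int _
    refine ⟨min η (d / 3), lt_min h0 (by positivity), ?_, ?_⟩
    · have := min_le_left η (d / 3)
      linarith
    · intro h hh1 hh2 k
      rcases lt_or_eq_of_le hh2 with hlt | heq
      · have h3 := h2 h hh1 (by push_cast at hlt; omega) k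
        have := min_le_left η (d / 3)
        linarith
      · have h4 : d ≤ |θ * (((K + 1 : ℕ) : ℤ) : ℝ) - k| := by
          rw [hd]
          exact round_le _ _
        have := min_le_right η (d / 3)
        rw [heq, abs_sub_comm]
        linarith

theorem gap_points {θ : ℝ} (hθ : Irrational θ) (K : ℕ) : ∃ η : ℝ, 0 < η ∧ ∀ (σ : ℝ) (A B : ℤ)
    (T : Finset (ℤ × ℤ)), A ≤ B → (∀ P ∈ T, A ≤ P.1 ∧ P.1 ≤ B ∧ |(P.2 : ℝ) - θ * P.1 - σ| ≤ η) →
    (T.card : ℝ) ≤ ((B : ℝ) - A) / (K + 1) + 1 := by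
  classical
  obtain ⟨η, h0, h1, h2⟩ := eta_exists hθ K
  refine ⟨η, h0, ?_⟩
  intro σ A B T hAB hT
  have hfar : ∀ P ∈ T, ∀ Q ∈ T, P.1 ≤ Q.1 → P ≠ Q → P.1 + (K + 1) ≤ Q.1 := by
    intro P hP Q hQ hle hne
    have hP' := abs_le.1 (hT P hP).2.2
    have hQ' := abs_le.1 (hT Q hQ).2.2
    have hdiff : |(((Q.2 - P.2 : ℤ)) : ℝ) - θ * ((Q.1 - P.1 : ℤ) : ℝ)| ≤ 2 * η := by
      push_cast
      rw [abs_le]
      constructor
      · linarith [hP'.2, hQ'.1]
      · linarith [hP'.1, hQ'.2]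
    by_contra hcon
    rcases eq_or_lt_of_le hle with heq | hlt
    · have h3 : (Q.1 - P.1 : ℤ) = 0 := by omega
      rw [h3, Int.cast_zero, mul_zero, sub_zero] at hdiff
      have h4 : |(((Q.2 - P.2 : ℤ)) : ℝ)| < 1 := lt_of_le_of_lt hdiff h1
      have h5 : |Q.2 - P.2| < 1 := by exact_mod_cast h4
      rw [Int.abs_lt_one_iff] at h5
      exact hne (Prod.ext heq (by omega))
    · have h3 := h2 (Q.1 - P.1) (by omega) (by omega) (Q.2 - P.2)
      linarith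
  have hKpos : (0 : ℤ) < K + 1 := by omega
  have hinj : Set.InjOn (fun P : ℤ × ℤ => (P.1 - A) / ((K : ℤ) + 1)) (T : Set (ℤ × ℤ)) := by
    have key : ∀ P ∈ T, ∀ Q ∈ T, P.1 ≤ Q.1 → P ≠ Q →
        (P.1 - A) / ((K : ℤ) + 1) < (Q.1 - A) / ((K : ℤ) + 1) := by
      intro P hP Q hQ hle hne
      have h3 := hfar P hP Q hQ hle hne
      have h4 : (P.1 - A) / ((K : ℤ) + 1) + 1 ≤ (Q.1 - A) / ((K : ℤ) + 1) := by
        have h5 : (P.1 - A + ((K : ℤ) + 1)) / ((K : ℤ) + 1) = (P.1 - A) / ((K : ℤ) + 1) + 1 := by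
          have := Int.add_mul_ediv_right (P.1 - A) 1 hKpos.ne'
          rw [one_mul] at this
          exact this
        rw [← h5]
        exact Int.ediv_le_ediv hKpos (by omega)
      omega
    intro P hP Q hQ hPQ
    by_contra hne
    have hPQ' : (P.1 - A) / ((K : ℤ) + 1) = (Q.1 - A) / ((K : ℤ) + 1) := hPQ
    rcases le_total P.1 Q.1 with hle | hle
    · have := key P hP Q hQ hle hne
      omega
    · have := key Q hQ P hP hle (Ne.symm hne)
      omega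
  have hmaps : ∀ P ∈ T, (P.1 - A) / ((K : ℤ) + 1) ∈ Finset.Icc (0 : ℤ) ((B - A) / ((K : ℤ) + 1)) := by
    intro P hP
    obtain ⟨h3, h4, _⟩ := hT P hP
    rw [Finset.mem_Icc]
    constructor
    · exact Int.ediv_nonneg (by omega) hKpos.le
    · exact Int.ediv_le_ediv hKpos (by omega)
  have hcard := Finset.card_le_card_of_injOn _ hmaps hinj
  rw [Int.card_Icc] at hcard
  have h6 : (0 : ℤ) ≤ (B - A) / ((K : ℤ) + 1) := Int.ediv_nonneg (by omega) hKpos.le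
  have h7 : (T.card : ℤ) ≤ (B - A) / ((K : ℤ) + 1) + 1 := by omega
  have h8 : (T.card : ℝ) ≤ (((B - A) / ((K : ℤ) + 1) : ℤ) : ℝ) + 1 := by exact_mod_cast h7
  have h9 : (((B - A) / ((K : ℤ) + 1) : ℤ) : ℝ) ≤ ((B : ℝ) - A) / (K + 1) := by
    rw [le_div_iff₀ (by positivity)]
    have h10 := Int.ediv_mul_le (B - A) hKpos.ne'
    exact_mod_cast h10
  linarith

end Pool.Agent.Lib.MP_ff4e96_co
end

section

/-!
# MP_ff4e96_co: counting near an irrational direction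

`gap_null`: `F ≤ n` implies `x ≤ n/c`, `|N| ≤ √(n/c)` and `|w - σ| ≤ C √n / x` (`n` large). Let `M, K` be large
constants, `δ = 1/M`. Points with `x ≤ √n/M`: `|w| ≤ ε x`: at most `(√n/M)(2 ε √n/M + 1)`. Points with
`√n/M < x ≤ √n`: `|w - σ| ≤ C M`: at most `√n (2 C M + 1)`. Points with `√n < x ≤ δ n`: at most
`δ n (2 C + 1)`. Points with `δ n < x ≤ n/c`: `|w - σ| ≤ C/(δ √n) ≤ η` for `n` large: at most
`n/(c K) + 1` by `gap_points`. Together at most `ε₁ n` for suitable `M, K` and `n` large. (`null_vals`: the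
set `T` is a finite set, e.g. the points of a large box with these properties.)
-/

namespace Pool.Agent.Lib.MP_ff4e96_co

open Filter Topology

private lemma gapa_cnt (θ σ : ℝ) {R B : ℝ} (hR : 0 ≤ R) (hB : 0 ≤ B) (T : Finset (ℤ × ℤ))
    (h : ∀ P ∈ T, 1 ≤ P.1 ∧ (P.1 : ℝ) ≤ B ∧ |(P.2 : ℝ) - θ * P.1 - σ| ≤ R) :
    (T.card : ℝ) ≤ (2 * R + 1) * B := by
  classical
  have h1 := Finset.card_le_mul_card_image_of_maps_to (s := T) (t := Finset.Icc 1 ⌊B⌋)
    (f := Prod.fst) (fun P hP => by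
      rw [Finset.mem_Icc]
      exact ⟨(h P hP).1, Int.le_floor.2 (h P hP).2.1⟩) ⌊2 * R + 1⌋₊ (fun x _ => by
      have h2 : (T.filter fun P => P.1 = x).card ≤
          (Finset.Icc ⌈θ * x + σ - R⌉ ⌊θ * x + σ + R⌋).card := by
        apply Finset.card_le_card_of_injOn (fun P => P.2)
        · intro P hP
          rw [Finset.coe_filter, Set.mem_ofPred_eq] at hP
          obtain ⟨hPT, hPx⟩ := hP
          have h3 := abs_le.1 (h P hPT).2.2
          rw [hPx] at h3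
          rw [Finset.coe_Icc, Set.mem_Icc]
          constructor
          · apply Int.ceil_le.2
            linarith
          · apply Int.le_floor.2
            linarith
        · intro P hP Q hQ hPQ
          rw [Finset.coe_filter, Set.mem_ofPred_eq] at hP hQ
          exact Prod.ext (hP.2.trans hQ.2.symm) hPQ
      refine h2.trans ?_
      rw [Int.card_Icc]
      apply Nat.le_floor
      rcases le_total (⌊θ * x + σ + R⌋ + 1 - ⌈θ * x + σ - R⌉) 0 with h4 | h4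
      · rw [Int.toNat_of_nonpos h4]
        push_cast
        linarith
      · have h5 : (((⌊θ * x + σ + R⌋ + 1 - ⌈θ * x + σ - R⌉).toNat : ℤ) : ℝ) ≤ 2 * R + 1 := by
          rw [Int.toNat_of_nonneg h4]
          push_cast
          have h6 := Int.floor_le (θ * x + σ + R)
          have h7 := Int.le_ceil (θ * x + σ - R)
          linarith
        exact_mod_cast h5)
  have h8 : ((Finset.Icc 1 ⌊B⌋).card : ℝ) ≤ B := by
    rw [Int.card_Icc]
    have h9 : 0 ≤ ⌊B⌋ + 1 - 1 := by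
      have := Int.floor_nonneg.2 hB
      linarith
    have h10 : (((⌊B⌋ + 1 - 1).toNat : ℤ) : ℝ) ≤ B := by
      rw [Int.toNat_of_nonneg h9]
      push_cast
      have := Int.floor_le B
      linarith
    exact_mod_cast h10
  have h11 : (⌊2 * R + 1⌋₊ : ℝ) ≤ 2 * R + 1 := Nat.floor_le (by linarith)
  calc (T.card : ℝ) ≤ ((⌊2 * R + 1⌋₊ * (Finset.Icc 1 ⌊B⌋).card : ℕ) : ℝ) := by exact_mod_cast h1
    _ = (⌊2 * R + 1⌋₊ : ℝ) * ((Finset.Icc 1 ⌊B⌋).card : ℝ) := by push_cast; ring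
    _ ≤ (2 * R + 1) * B := mul_le_mul h11 h8 (Nat.cast_nonneg _) (by linarith)

theorem gap_null {θ : ℝ} (hθ : Irrational θ) {b a : ℚ} (hg : θ ^ 2 + b * θ + a = 0)
    (n₁ n₂ n₃ : ℚ) (F : ℤ × ℤ → ℝ) {c₀ ε : ℝ} (hc : 0 < c₀) (hε : 0 < ε) {X : ℤ}
    (hF : ∀ P ∈ Near θ ε X, c₀ * (NN b a n₁ n₂ n₃ P.1 P.2 ^ 2 + P.1) ≤ F P) :
    ∃ ε' : ℝ, 0 < ε' ∧ ∃ X' : ℤ, Null (vals F (Near θ ε' X')) := by
  classical
  obtain ⟨ε₀, c₁, C₁, σ, hε₀, hc₁, X₁, hX₁, hlow⟩ := NN_lower hθ hg n₁ n₂ n₃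
  set ε' := min ε ε₀ with hε'
  have hε'0 : 0 < ε' := lt_min hε hε₀
  refine ⟨ε', hε'0, max X X₁, null_vals ?_⟩
  intro ε₁ hε₁
  set C : ℝ := (Real.sqrt (1 / c₀) + |C₁|) / c₁ with hC
  have hC0 : 0 ≤ C := by positivity
  obtain ⟨M, hM⟩ := exists_nat_gt (4 * (2 * ε' + 2 * C + 1) / ε₁)
  obtain ⟨K, hK⟩ := exists_nat_gt (4 / (c₀ * ε₁))
  obtain ⟨η, hη, hgap⟩ := gap_points hθ K
  have hM0 : (0 : ℝ) < M := lt_of_le_of_lt (by positivity) hM
  have hM1 : (1 : ℝ) ≤ M := by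
    have : 0 < M := by exact_mod_cast hM0
    exact_mod_cast this
  set a' : ℝ := 1 / M + 2 * C * M + 1 with ha'
  have ha'0 : 0 ≤ a' := by positivity
  set S : ℝ := max 1 (max (C * M / η) (2 * (a' + 1) / ε₁)) with hS
  have hev : ∀ᶠ n : ℕ in atTop, S ≤ Real.sqrt (n : ℝ) :=
    (Real.tendsto_sqrt_atTop.comp tendsto_natCast_atTop_atTop).eventually_ge_atTop S
  filter_upwards [hev] with n hn
  set s := Real.sqrt (n : ℝ) with hs
  have hs2 : s * s = n := Real.mul_self_sqrt (Nat.cast_nonneg n)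
  have hs1 : 1 ≤ s := (le_max_left _ _).trans hn
  have hs0 : 0 < s := by linarith
  have hsη : C * M / η ≤ s := ((le_max_left _ _).trans (le_max_right _ _)).trans hn
  have hsa : 2 * (a' + 1) / ε₁ ≤ s := ((le_max_right _ _).trans (le_max_right _ _)).trans hn
  have hn0 : (0 : ℝ) < n := by
    rw [← hs2]
    positivity
  -- the basic facts
  have key : ∀ P ∈ Near θ ε' (max X X₁), F P ≤ n → 1 ≤ P.1 ∧ (P.1 : ℝ) ≤ n / c₀ ∧
      |(P.2 : ℝ) - θ * P.1| ≤ ε' * P.1 ∧ (P.1 : ℝ) * |(P.2 : ℝ) - θ * P.1 - σ| ≤ C * s := by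
    intro P hP hFP
    obtain ⟨hPX, hPw⟩ := hP
    have hP1 : 1 ≤ P.1 := hX₁.trans ((le_max_right _ _).trans hPX)
    have hP1r : (1 : ℝ) ≤ P.1 := by exact_mod_cast hP1
    have hN1 : P ∈ Near θ ε X := ⟨(le_max_left _ _).trans hPX,
      hPw.trans (mul_le_mul_of_nonneg_right (min_le_left _ _) (by linarith))⟩
    have hN2 : P ∈ Near θ ε₀ X₁ := ⟨(le_max_right _ _).trans hPX,
      hPw.trans (mul_le_mul_of_nonneg_right (min_le_right _ _) (by linarith))⟩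
    have h1 := (hF P hN1).trans hFP
    have h2 := hlow P hN2
    set N := NN b a n₁ n₂ n₃ P.1 P.2 with hN
    have h3 : c₀ * N ^ 2 ≤ n := by nlinarith
    have h4 : c₀ * P.1 ≤ n := by nlinarith [sq_nonneg N]
    refine ⟨hP1, ?_, hPw, ?_⟩
    · rw [le_div_iff₀ hc]
      linarith
    · have h5 : N ^ 2 ≤ n * (1 / c₀) := by
        rw [mul_one_div, le_div_iff₀ hc]
        linarith
      have h6 : |N| ≤ s * Real.sqrt (1 / c₀) := by
        rw [hs, ← Real.sqrt_mul (Nat.cast_nonneg n)]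
        exact Real.abs_le_sqrt h5
      have h7 : C₁ ≤ s * |C₁| := by
        have := le_abs_self C₁
        nlinarith [abs_nonneg C₁]
      rw [hC, div_mul_eq_mul_div, le_div_iff₀ hc₁]
      nlinarith
  -- the finite set
  set Bx : ℤ := ⌊(n : ℝ) / c₀⌋ with hBx
  set Y : ℤ := ⌈(|θ| + ε') * ((n : ℝ) / c₀)⌉ with hY
  set T : Finset (ℤ × ℤ) := ((Finset.Icc 1 Bx) ×ˢ (Finset.Icc (-Y) Y)).filter
    (fun P => P ∈ Near θ ε' (max X X₁) ∧ F P ≤ n) with hT
  have hkT : ∀ P ∈ T, 1 ≤ P.1 ∧ (P.1 : ℝ) ≤ n / c₀ ∧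
      |(P.2 : ℝ) - θ * P.1| ≤ ε' * P.1 ∧ (P.1 : ℝ) * |(P.2 : ℝ) - θ * P.1 - σ| ≤ C * s := by
    intro P hP
    rw [hT, Finset.mem_filter] at hP
    exact key P hP.2.1 hP.2.2
  refine ⟨T, ?_, ?_⟩
  · intro P hP hFP
    obtain ⟨h1, h2, h3, -⟩ := key P hP hFP
    have h1r : (1 : ℝ) ≤ P.1 := by exact_mod_cast h1
    rw [hT, Finset.mem_filter, Finset.mem_product, Finset.mem_Icc, Finset.mem_Icc]
    have h4 : |(P.2 : ℝ)| ≤ (|θ| + ε') * ((n : ℝ) / c₀) := by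
      have h5 : (P.2 : ℝ) = ((P.2 : ℝ) - θ * P.1) + θ * P.1 := by ring
      calc |(P.2 : ℝ)| ≤ |(P.2 : ℝ) - θ * P.1| + |θ * P.1| := by
            conv_lhs => rw [h5]
            exact abs_add_le _ _
        _ ≤ ε' * P.1 + |θ| * P.1 := by
            rw [abs_mul, abs_of_nonneg (by linarith : (0 : ℝ) ≤ P.1)]
            linarith
        _ = (|θ| + ε') * P.1 := by ring
        _ ≤ _ := mul_le_mul_of_nonneg_left h2 (by positivity)
    have h6 : |(P.2 : ℝ)| ≤ (Y : ℝ) := h4.trans (Int.le_ceil _)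
    have h7 := abs_le.1 h6
    refine ⟨⟨⟨h1, Int.le_floor.2 h2⟩, ?_, ?_⟩, hP, hFP⟩
    · have := h7.1
      exact_mod_cast this
    · have := h7.2
      exact_mod_cast this
  · set T1 := T.filter (fun P => (P.1 : ℝ) ≤ s / M) with hT1
    set T2 := T.filter (fun P => s / M < (P.1 : ℝ) ∧ (P.1 : ℝ) ≤ s) with hT2
    set T3 := T.filter (fun P => s < (P.1 : ℝ) ∧ (P.1 : ℝ) ≤ n / M) with hT3
    set T4 := T.filter (fun P => (n : ℝ) / M < (P.1 : ℝ)) with hT4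
    have hsub : T ⊆ T1 ∪ (T2 ∪ (T3 ∪ T4)) := by
      intro P hP
      simp only [hT1, hT2, hT3, hT4, Finset.mem_union, Finset.mem_filter]
      rcases le_or_gt (P.1 : ℝ) (s / M) with h1 | h1
      · exact Or.inl ⟨hP, h1⟩
      rcases le_or_gt (P.1 : ℝ) s with h2 | h2
      · exact Or.inr (Or.inl ⟨hP, h1, h2⟩)
      rcases le_or_gt (P.1 : ℝ) (n / M) with h3 | h3
      · exact Or.inr (Or.inr (Or.inl ⟨hP, h2, h3⟩))
      · exact Or.inr (Or.inr (Or.inr ⟨hP, h3⟩))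
    have hcard : (T.card : ℝ) ≤ T1.card + (T2.card + (T3.card + T4.card)) := by
      have h1 : T.card ≤ T1.card + (T2.card + (T3.card + T4.card)) := by
        refine (Finset.card_le_card hsub).trans ((Finset.card_union_le _ _).trans ?_)
        gcongr
        refine (Finset.card_union_le _ _).trans ?_
        gcongr
        exact Finset.card_union_le _ _
      exact_mod_cast h1
    have hc1 : (T1.card : ℝ) ≤ (2 * (ε' * (s / M)) + 1) * (s / M) := by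
      apply gapa_cnt θ 0 (by positivity) (by positivity)
      intro P hP
      rw [hT1, Finset.mem_filter] at hP
      obtain ⟨h1, -, h3, -⟩ := hkT P hP.1
      refine ⟨h1, hP.2, ?_⟩
      rw [sub_zero]
      exact h3.trans (mul_le_mul_of_nonneg_left hP.2 hε'0.le)
    have hc2 : (T2.card : ℝ) ≤ (2 * (C * M) + 1) * s := by
      apply gapa_cnt θ σ (by positivity) hs0.le
      intro P hP
      rw [hT2, Finset.mem_filter] at hP
      obtain ⟨h1, -, -, h4⟩ := hkT P hP.1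
      refine ⟨h1, hP.2.2, ?_⟩
      have h5 : s < P.1 * M := by
        have := hP.2.1
        rwa [div_lt_iff₀ hM0] at this
      have h6 : (0 : ℝ) < P.1 := by
        have : (1 : ℝ) ≤ P.1 := by exact_mod_cast h1
        linarith
      have h7 : (P.1 : ℝ) * |(P.2 : ℝ) - θ * P.1 - σ| ≤ P.1 * (C * M) := by
        calc _ ≤ C * s := h4
          _ ≤ C * (P.1 * M) := mul_le_mul_of_nonneg_left h5.le hC0
          _ = _ := by ring
      exact le_of_mul_le_mul_left h7 h6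
    have hc3 : (T3.card : ℝ) ≤ (2 * C + 1) * (n / M) := by
      apply gapa_cnt θ σ hC0 (by positivity)
      intro P hP
      rw [hT3, Finset.mem_filter] at hP
      obtain ⟨h1, -, -, h4⟩ := hkT P hP.1
      refine ⟨h1, hP.2.2, ?_⟩
      have h6 : (0 : ℝ) < P.1 := by
        have : (1 : ℝ) ≤ P.1 := by exact_mod_cast h1
        linarith
      have h7 : (P.1 : ℝ) * |(P.2 : ℝ) - θ * P.1 - σ| ≤ P.1 * C := by
        calc _ ≤ C * s := h4
          _ ≤ C * P.1 := mul_le_mul_of_nonneg_left hP.2.1.le hC0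
          _ = _ := by ring
      exact le_of_mul_le_mul_left h7 h6
    have hc4 : (T4.card : ℝ) ≤ n / c₀ / (K + 1) + 1 := by
      rcases T4.eq_empty_or_nonempty with h0 | h0
      · rw [h0, Finset.card_empty]
        push_cast
        positivity
      · obtain ⟨P₀, hP₀⟩ := h0
        have hB1 : (1 : ℤ) ≤ Bx := by
          have h1 := hkT P₀ (Finset.mem_filter.1 hP₀).1
          exact h1.1.trans (Int.le_floor.2 h1.2.1)
        have h2 := hgap σ 1 Bx T4 hB1 (by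
          intro P hP
          rw [hT4, Finset.mem_filter] at hP
          obtain ⟨h1, h2, -, h4⟩ := hkT P hP.1
          refine ⟨h1, Int.le_floor.2 h2, ?_⟩
          have h6 : (0 : ℝ) < P.1 := by
            have : (1 : ℝ) ≤ P.1 := by exact_mod_cast h1
            linarith
          have h5 : (n : ℝ) < P.1 * M := by
            have := hP.2
            rwa [div_lt_iff₀ hM0] at this
          have h7 : C * M ≤ s * η := by
            rwa [div_le_iff₀ hη] at hsη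
          have h8 : C * s ≤ P.1 * η := by
            have h9 : C * s * M ≤ (P.1 * M) * η := by
              calc C * s * M = (C * M) * s := by ring
                _ ≤ (s * η) * s := mul_le_mul_of_nonneg_right h7 hs0.le
                _ = n * η := by rw [← hs2]; ring
                _ ≤ (P.1 * M) * η := mul_le_mul_of_nonneg_right h5.le hη.le
            have h10 : C * s * M ≤ (P.1 * η) * M := by
              calc _ ≤ (P.1 * M) * η := h9
                _ = _ := by ring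
            exact le_of_mul_le_mul_right h10 hM0
          exact le_of_mul_le_mul_left (h4.trans h8) h6)
        have h3 : (Bx : ℝ) ≤ n / c₀ := Int.floor_le _
        have h4 : ((Bx : ℝ) - (1 : ℤ)) / (K + 1) ≤ n / c₀ / (K + 1) := by
          apply div_le_div_of_nonneg_right _ (by positivity)
          push_cast
          linarith
        linarith
    -- arithmetic
    have hM' : (2 * ε' + 2 * C + 1) / M ≤ ε₁ / 4 := by
      rw [div_lt_iff₀ hε₁] at hM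
      rw [div_le_iff₀ hM0]
      linarith
    have hK' : 1 / c₀ / ((K : ℝ) + 1) ≤ ε₁ / 4 := by
      rw [div_lt_iff₀ (by positivity)] at hK
      rw [div_div, div_le_iff₀ (by positivity)]
      nlinarith [mul_pos hc hε₁]
    have e1 : (2 * (ε' * (s / M)) + 1) * (s / M) ≤ n * (2 * ε' / M) + s * (1 / M) := by
      have h1 : (2 * (ε' * (s / M)) + 1) * (s / M) =
          s * s * (2 * ε' / M) * (1 / M) + s * (1 / M) := by
        field_simp
      rw [h1, hs2]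
      have h2 : (1 : ℝ) / M ≤ 1 := by
        rw [div_le_one hM0]
        exact hM1
      have h3 : 0 ≤ (n : ℝ) * (2 * ε' / M) := by positivity
      nlinarith
    have e2 : (2 * C + 1) * (n / M) = n * ((2 * C + 1) / M) := by ring
    have e3 : (n : ℝ) / c₀ / (K + 1) = n * (1 / c₀ / ((K : ℝ) + 1)) := by ring
    have e4 : (2 * ε' / M) + ((2 * C + 1) / M) = (2 * ε' + 2 * C + 1) / M := by ring
    have e5 : s * a' + 1 ≤ ε₁ / 2 * n := by
      have h1 : 2 * (a' + 1) ≤ s * ε₁ := by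
        rwa [div_le_iff₀ hε₁] at hsa
      rw [← hs2]
      nlinarith
    have e6 : s * (1 / M) + (2 * (C * M) + 1) * s = s * a' := by
      rw [ha']
      ring
    calc (T.card : ℝ) ≤ T1.card + (T2.card + (T3.card + T4.card)) := hcard
      _ ≤ (n * (2 * ε' / M) + s * (1 / M)) + ((2 * (C * M) + 1) * s +
          (n * ((2 * C + 1) / M) + (n * (1 / c₀ / ((K : ℝ) + 1)) + 1))) := by
          linarith
      _ = n * ((2 * ε' / M) + ((2 * C + 1) / M)) + n * (1 / c₀ / ((K : ℝ) + 1)) +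
          ((s * (1 / M) + (2 * (C * M) + 1) * s) + 1) := by ring
      _ ≤ n * (ε₁ / 4) + n * (ε₁ / 4) + ε₁ / 2 * n := by
          rw [e4, e6]
          have h1 := mul_le_mul_of_nonneg_left hM' hn0.le
          have h2 := mul_le_mul_of_nonneg_left hK' hn0.le
          linarith
      _ = ε₁ * n := by ring

end Pool.Agent.Lib.MP_ff4e96_co
end
end

section

section

/-!
# MP_ff4e96_co: values of a polynomial in one variable

`tame_line`: `f` takes natural values at the integers `t ≥ t₀` and is injective there. If `f` is constant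
this is impossible (`t₀`, `t₀ + 1`). If `natDegree f = 1` then `f (t₀ + k) = f t₀ + k b` with an integer `b`
(difference of two values), `b ≥ 0` since the values are nonnegative for all `k`, `b ≠ 0` by
injectivity: the set is the arithmetic progression `{b k + f t₀}`. If `natDegree f ≥ 2` the leading
coefficient is positive (values nonnegative for `t → ∞`), so there are `c > 0`, `t₁ ≥ 1` with
`f t ≥ c t²` for `t ≥ t₁`, and the number of `t ≥ t₀` with `f t ≤ n` is at most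
`(t₁ - t₀)⁺ + √(n/c) + 1`, so the set has density zero.
-/

namespace Pool.Agent.Lib.MP_ff4e96_co

open Filter Topology

private theorem tame_line_one (f : Polynomial ℚ) (t₀ : ℤ)
    (hN : ∀ t : ℤ, t₀ ≤ t → ∃ v : ℕ, f.eval (t : ℚ) = v)
    (hinj : ∀ t t' : ℤ, t₀ ≤ t → t₀ ≤ t' → f.eval (t : ℚ) = f.eval (t' : ℚ) → t = t')
    (h1 : f.natDegree ≤ 1) :
    Tame {v : ℕ | ∃ t : ℤ, t₀ ≤ t ∧ f.eval (t : ℚ) = v} := by
  obtain ⟨a, b, hf⟩ := Polynomial.exists_eq_X_add_C_of_natDegree_le_one h1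
  have hev : ∀ t : ℚ, f.eval t = a * t + b := by
    intro t
    rw [hf]
    simp
  obtain ⟨v0, hv0⟩ := hN t₀ le_rfl
  obtain ⟨v1, hv1⟩ := hN (t₀ + 1) (by omega)
  obtain ⟨m, hm⟩ : ∃ m : ℤ, m = (v1 : ℤ) - v0 := ⟨_, rfl⟩
  have ham : a = (m : ℚ) := by
    rw [hm]
    push_cast
    rw [← hv1, ← hv0, hev, hev]
    push_cast
    ring
  have hk : ∀ k : ℕ, f.eval ((t₀ + k : ℤ) : ℚ) = ((v0 + k * m : ℤ) : ℚ) := by
    intro k
    have h := hv0
    rw [hev] at h ⊢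
    push_cast
    rw [← h, ham]
    ring
  have hm0 : 0 ≤ m := by
    by_contra hneg
    obtain ⟨w, hw⟩ := hN (t₀ + ((v0 + 1 : ℕ) : ℤ)) (by omega)
    rw [hk] at hw
    have hw' : ((v0 : ℤ) + ((v0 + 1 : ℕ) : ℤ) * m) = (w : ℤ) := by exact_mod_cast hw
    push_cast at hw'
    have h1 : m ≤ -1 := by omega
    nlinarith
  have hmne : m ≠ 0 := by
    intro h0
    have h := hinj t₀ (t₀ + 1) le_rfl (by omega) (by
      rw [hev, hev, ham, h0]
      simp)
    omega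
  obtain ⟨mn, hmn⟩ := Int.eq_ofNat_of_zero_le hm0
  refine tame_of_evPer ?_
  have hset : {v : ℕ | ∃ t : ℤ, t₀ ≤ t ∧ f.eval (t : ℚ) = v} = {v | ∃ t : ℕ, v = mn * t + v0} := by
    ext v
    constructor
    · rintro ⟨t, ht, hv⟩
      obtain ⟨k, rfl⟩ : ∃ k : ℕ, t = t₀ + k := ⟨(t - t₀).toNat, by omega⟩
      refine ⟨k, ?_⟩
      rw [hk] at hv
      have hv' : ((v0 : ℤ) + (k : ℤ) * m) = (v : ℤ) := by exact_mod_cast hv
      rw [hmn] at hv'
      have h2 : v0 + k * mn = v := by exact_mod_cast hv'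
      rw [← h2]
      ring
    · rintro ⟨k, rfl⟩
      refine ⟨t₀ + k, by omega, ?_⟩
      rw [hk, hmn]
      push_cast
      ring
  rw [hset]
  exact evPer_ap mn v0 (by omega)

theorem tame_line (f : Polynomial ℚ) (t₀ : ℤ)
    (hN : ∀ t : ℤ, t₀ ≤ t → ∃ v : ℕ, f.eval (t : ℚ) = v)
    (hinj : ∀ t t' : ℤ, t₀ ≤ t → t₀ ≤ t' → f.eval (t : ℚ) = f.eval (t' : ℚ) → t = t') :
    Tame {v : ℕ | ∃ t : ℤ, t₀ ≤ t ∧ f.eval (t : ℚ) = v} := by
  rcases le_or_gt f.natDegree 1 with h1 | h2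
  · exact tame_line_one f t₀ hN hinj h1
  have hf0 : f ≠ 0 := by
    rintro rfl
    simp at h2
  have hdeg : (Polynomial.X : Polynomial ℚ).degree < f.degree := by
    rw [Polynomial.degree_X, Polynomial.degree_eq_natDegree hf0]
    exact_mod_cast h2
  have hdeg0 : 0 < f.degree := by
    rw [Polynomial.degree_eq_natDegree hf0]
    have : 0 < f.natDegree := by omega
    exact_mod_cast this
  have hlc : 0 < f.leadingCoeff := by
    by_contra hneg
    have hneg' : f.leadingCoeff ≤ 0 := not_lt.1 hneg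
    have htb := Polynomial.tendsto_atBot_of_leadingCoeff_nonpos f hdeg0 hneg'
    obtain ⟨a, ha⟩ := eventually_atTop.1 (htb.eventually (eventually_lt_atBot 0))
    have h := ha ((max t₀ ⌈a⌉ : ℤ) : ℚ) (by
      have h1 : (⌈a⌉ : ℚ) ≤ ((max t₀ ⌈a⌉ : ℤ) : ℚ) := by exact_mod_cast le_max_right _ _
      exact (Int.le_ceil a).trans h1)
    obtain ⟨v, hv⟩ := hN (max t₀ ⌈a⌉) (le_max_left _ _)
    rw [hv] at h
    exact absurd (Nat.cast_nonneg v) (not_le.2 h)
  refine tame_of_null ?_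
  intro ε hε
  obtain ⟨A, hA⟩ := exists_nat_gt (2 / ε)
  have hA0 : (0 : ℝ) < A := lt_trans (by positivity) hA
  have hA0' : 0 < A := by exact_mod_cast hA0
  have htt := Polynomial.div_tendsto_atTop_of_degree_gt f Polynomial.X hdeg Polynomial.X_ne_zero
    (by simpa using hlc.le)
  obtain ⟨a, ha⟩ := eventually_atTop.1 (htt.eventually (eventually_ge_atTop (A : ℚ)))
  obtain ⟨T, hT⟩ : ∃ T : ℤ, T = max (max t₀ 1) ⌈a⌉ := ⟨_, rfl⟩
  have hT0 : t₀ ≤ T := by rw [hT]; exact (le_max_left _ _).trans (le_max_left _ _)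
  have hT1 : 1 ≤ T := by rw [hT]; exact (le_max_right _ _).trans (le_max_left _ _)
  have hTa : a ≤ (T : ℚ) := by
    refine (Int.le_ceil a).trans ?_
    rw [hT]
    exact_mod_cast le_max_right _ _
  have hgrow : ∀ t : ℤ, T ≤ t → (A : ℚ) * t ≤ f.eval (t : ℚ) := by
    intro t ht
    have h1 : (T : ℚ) ≤ t := by exact_mod_cast ht
    have h2 := ha (t : ℚ) (hTa.trans h1)
    have h3 : (0 : ℚ) < t := by
      have : (1 : ℤ) ≤ t := hT1.trans ht
      exact_mod_cast lt_of_lt_of_le one_pos this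
    simp only [Polynomial.eval_X] at h2
    rwa [le_div_iff₀ h3] at h2
  have hcount : ∀ n : ℕ, (({v : ℕ | ∃ t : ℤ, t₀ ≤ t ∧ f.eval (t : ℚ) = v} ∩ Set.Iic n).ncard : ℝ)
      ≤ (T - t₀ + 1 : ℤ) + (n : ℝ) / A := by
    intro n
    obtain ⟨q, hq⟩ : ∃ q : ℕ, q = n / A := ⟨_, rfl⟩
    have hsub : ({v : ℕ | ∃ t : ℤ, t₀ ≤ t ∧ f.eval (t : ℚ) = v} ∩ Set.Iic n) ⊆
        (((Finset.Icc t₀ (T + (q : ℤ))).image
          (fun t : ℤ => (f.eval (t : ℚ)).num.toNat) : Finset ℕ) : Set ℕ) := by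
      rintro v ⟨⟨t, ht, hv⟩, hvn⟩
      have hvn' : v ≤ n := hvn
      rw [Finset.coe_image]
      refine ⟨t, ?_, ?_⟩
      · rw [Finset.mem_coe, Finset.mem_Icc]
        refine ⟨ht, ?_⟩
        rcases le_or_gt T t with hTt | hTt
        · have h1 := hgrow t hTt
          rw [hv] at h1
          have h2 : (A : ℤ) * t ≤ v := by exact_mod_cast h1
          have h3 : t ≤ (q : ℤ) := by
            rw [hq]
            push_cast
            rw [Int.le_ediv_iff_mul_le (by exact_mod_cast hA0')]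
            have : (v : ℤ) ≤ n := by exact_mod_cast hvn'
            linarith [mul_comm (A : ℤ) t]
          omega
        · omega
      · simp only [hv]
        simp
    have h1 := Set.ncard_le_ncard hsub (Finset.finite_toSet _)
    rw [Set.ncard_coe_finset] at h1
    have h2 := h1.trans (Finset.card_image_le)
    rw [Int.card_Icc] at h2
    have h3 : ((T + (q : ℤ) + 1 - t₀).toNat : ℤ) = T + (q : ℤ) + 1 - t₀ :=
      Int.toNat_of_nonneg (by omega)
    have h4 : (({v : ℕ | ∃ t : ℤ, t₀ ≤ t ∧ f.eval (t : ℚ) = v} ∩ Set.Iic n).ncard : ℤ) ≤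
        T + (q : ℤ) + 1 - t₀ := by
      rw [← h3]
      exact_mod_cast h2
    have h5 : (({v : ℕ | ∃ t : ℤ, t₀ ≤ t ∧ f.eval (t : ℚ) = v} ∩ Set.Iic n).ncard : ℝ) ≤
        ((T + (q : ℤ) + 1 - t₀ : ℤ) : ℝ) := by
      exact_mod_cast h4
    refine h5.trans ?_
    have h6 : (q : ℝ) ≤ (n : ℝ) / A := by
      rw [hq]
      exact Nat.cast_div_le
    push_cast
    linarith
  obtain ⟨N0, hN0⟩ := exists_nat_gt (((T - t₀ + 1 : ℤ) : ℝ) * 2 / ε)
  filter_upwards [eventually_ge_atTop N0] with n hn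
  refine (hcount n).trans ?_
  have hn' : ((T - t₀ + 1 : ℤ) : ℝ) * 2 / ε ≤ n := hN0.le.trans (by exact_mod_cast hn)
  rw [div_le_iff₀ hε] at hn'
  have h7 : (n : ℝ) / A ≤ n * (ε / 2) := by
    rw [div_eq_mul_inv]
    refine mul_le_mul_of_nonneg_left ?_ (Nat.cast_nonneg n)
    rw [inv_le_comm₀ hA0 (by positivity)]
    rw [inv_div]
    exact hA.le
  linarith

end Pool.Agent.Lib.MP_ff4e96_co
end

section

/-!
# MP_ff4e96_co: degenerate clusters of weight 6, `deg h ≤ 2`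

`F = b z³ + (b κ y² + a₁ y + a₀) z² + (e₁ y + e₀) z + h(y)`, `z = x - p(y)`, `p(y) = κ y² + ρ y + σ`. Let `δ ≤ κ/4` and `y` large;
in the set `|x - κ y²| ≤ δ y²` we have `|z| ≤ 2 δ y²` and `K₀ y ≤ x`, and `b z + b κ y² + a₁ y + a₀ ≥ (b κ/4) y²`.

* `pat6_low`: `deg h ≤ 2`, `h = β₂ y² + β₁ y + β₀`. Let `D ≥ 1` be an integer with `D κ`, `D ρ`, `D σ`
  integers and `L(ζ) = b κ ζ² + β₂`, `F = y² L(z) + b z³ + (a₁ y + a₀) z² + (e₁ y + e₀) z + β₁ y + β₀`.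
  For `ζ ∈ (1/D) ℤ` and `0 ≤ r < D` with `p(r) + ζ` an integer, the points `(p(y) + ζ, y)`, `y = r + D k`,
  are integral, in the domain for large `k`, and `F = L(ζ) y² + O(y)`, so `L(ζ) ≥ 0`. Let `Z₀` be the
  set of these pairs `(ζ, r)` with `L(ζ) = 0`: there are at most two such `ζ`. The set of the points of
  `S` on these curves is a finite union of the sets `{(p(y) + ζ, y) : y = r + D k, y ≥ Y}` (for `Y` large
  they are all in `S`); on it `F` is a polynomial in `k`: `tame_line`. Rest of `S`: `L(z) ≥ c₁ (1 + z²)` with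
  a constant `c₁ > 0` (the possible values `z ∈ (1/D) ℤ` with `L(z) > 0`; finitely many below any bound,
  and `L(z) ≥ (bκ/2) z²` for `|z|` large). `|b z³| ≤ 2 δ b y² z²`, and this is at most `(c₁/4) y² z²` for `δ`
  small, but `δ` has to be chosen before: for `|z| ≥ R` use `b z + b κ y² + … ≥ (bκ/4) y²` instead
  (then `F ≥ (bκ/4) y² z² - |β₂| y² - C y |z| - C y ≥ (bκ/8) y² (1 + z²)` for `R` large), and for `|z| < R`
  all terms except `y² L(z)` are `O(y)`. So `F ≥ c y² (1 + z²) ≥ c (y z² + y²)` for `y ≥ Y`: `null_B`.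
-/

namespace Pool.Agent.Lib.MP_ff4e96_co

open Filter Topology

/-- a quadratic polynomial with positive leading coefficient is eventually positive -/
private theorem quad (A B C : ℝ) (hA : 0 < A) :
    ∃ Y : ℤ, 1 ≤ Y ∧ ∀ y : ℤ, Y ≤ y → 0 < A * (y : ℝ) ^ 2 + B * y + C := by
  obtain ⟨N, hN⟩ := exists_nat_gt ((|B| + |C|) / A)
  refine ⟨max 1 N, le_max_left _ _, ?_⟩
  intro y hy
  have h1 : (1 : ℝ) ≤ y := by exact_mod_cast (le_max_left _ _).trans hy
  have h2 : (N : ℝ) ≤ y := by exact_mod_cast (le_max_right _ _).trans hy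
  have h3 : |B| + |C| < A * y := by
    have h := hN.trans_le h2
    rwa [div_lt_iff₀ hA, mul_comm] at h
  have h4 : |C| ≤ |C| * y := le_mul_of_one_le_right (abs_nonneg _) h1
  have h5 : -(|B| * y) ≤ B * y := by
    rw [← neg_mul]
    exact mul_le_mul_of_nonneg_right (neg_abs_le B) (by linarith)
  have h6 := neg_abs_le C
  have h7 : (|B| + |C|) * y < A * y * y := mul_lt_mul_of_pos_right h3 (by linarith)
  have h8 : A * (y : ℝ) ^ 2 = A * y * y := by ring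
  rw [h8]
  linarith [add_mul |B| |C| (y : ℝ)]

private theorem common_den (κ ρ σ : ℚ) : ∃ D k r s : ℤ, 1 ≤ D ∧ (k : ℚ) = D * κ ∧
    (r : ℚ) = D * ρ ∧ (s : ℚ) = D * σ := by
  refine ⟨κ.den * ρ.den * σ.den, κ.num * ρ.den * σ.den, κ.den * ρ.num * σ.den,
    κ.den * ρ.den * σ.num, ?_, ?_, ?_, ?_⟩
  · have h1 := κ.den_pos
    have h2 := ρ.den_pos
    have h3 := σ.den_pos
    have h4 : 0 < κ.den * ρ.den * σ.den := by positivity
    exact_mod_cast h4
  · push_cast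
    rw [← Rat.mul_den_eq_num κ]
    ring
  · push_cast
    rw [← Rat.mul_den_eq_num ρ]
    ring
  · push_cast
    rw [← Rat.mul_den_eq_num σ]
    ring

/-- the positive values of `A ζ² + B` on `(1/D) ℤ` are at least `c (1 + ζ²)` -/
private theorem lower (A B : ℚ) (D : ℤ) (hD : 1 ≤ D) (hA : 0 < A) : ∃ c : ℝ, 0 < c ∧
    ∀ n : ℤ, 0 < (A : ℝ) * ((n : ℝ) / D) ^ 2 + B →
      c * (1 + ((n : ℝ) / D) ^ 2) ≤ (A : ℝ) * ((n : ℝ) / D) ^ 2 + B := by
  have hA' : (0 : ℝ) < A := by exact_mod_cast hA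
  have hD' : (0 : ℝ) < D := by
    have : (1 : ℝ) ≤ D := by exact_mod_cast hD
    linarith
  have ha : (0 : ℝ) < A.den := by exact_mod_cast A.den_pos
  have hb : (0 : ℝ) < B.den := by exact_mod_cast B.den_pos
  set E : ℝ := (D : ℝ) ^ 2 * A.den * B.den with hE
  have hE0 : 0 < E := by positivity
  set M : ℝ := E * (1 + |(B : ℝ)| / A) + 1 / A with hM
  have hM0 : 0 < M := by positivity
  refine ⟨1 / M, by positivity, ?_⟩
  intro n hn
  set L : ℝ := (A : ℝ) * ((n : ℝ) / D) ^ 2 + B with hL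
  have h1 : E * L = ((A.num * B.den * n ^ 2 + D ^ 2 * A.den * B.num : ℤ) : ℝ) := by
    have e1 : ((A.num : ℤ) : ℝ) = (A : ℝ) * A.den := by exact_mod_cast (Rat.mul_den_eq_num A).symm
    have e2 : ((B.num : ℤ) : ℝ) = (B : ℝ) * B.den := by exact_mod_cast (Rat.mul_den_eq_num B).symm
    push_cast
    rw [e1, e2, hE, hL]
    field_simp
  have h2 : 1 ≤ E * L := by
    have h3 : 0 < E * L := mul_pos hE0 hn
    rw [h1] at h3 ⊢
    exact_mod_cast h3
  have h3 : ((n : ℝ) / D) ^ 2 = (L - B) / A := by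
    rw [hL]
    field_simp
    ring
  have h4 : 1 + (L - B) / A ≤ L * M := by
    have h5 : (L - B) / A ≤ L / A + |(B : ℝ)| / A := by
      rw [← add_div]
      exact div_le_div_of_nonneg_right (by linarith [neg_abs_le (B : ℝ)]) hA'.le
    have h6 : 1 + |(B : ℝ)| / A ≤ E * L * (1 + |(B : ℝ)| / A) :=
      le_mul_of_one_le_left (by positivity) h2
    have h7 : L * M = E * L * (1 + |(B : ℝ)| / A) + L / A := by
      rw [hM]
      ring
    rw [h7]
    linarith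
  rw [h3, div_mul_eq_mul_div, one_mul, div_le_iff₀ hM0]
  exact h4

theorem pat6_low (b κ ρ σ a₁ a₀ e₁ e₀ β₂ β₁ β₀ : ℚ) (hb : 0 < b) (hκ : 0 < κ)
    (F : ℤ × ℤ → ℝ)
    (hF : ∀ x y : ℤ, F (x, y) = b * ((x : ℝ) - (κ * (y : ℝ) ^ 2 + ρ * y + σ)) ^ 3 +
      (b * κ * (y : ℝ) ^ 2 + a₁ * y + a₀) * ((x : ℝ) - (κ * (y : ℝ) ^ 2 + ρ * y + σ)) ^ 2 +
      (e₁ * y + e₀) * ((x : ℝ) - (κ * (y : ℝ) ^ 2 + ρ * y + σ)) +
      (β₂ * (y : ℝ) ^ 2 + β₁ * y + β₀))
    (K₀ Y₀ : ℤ) (hNI : NI F {P | Y₀ ≤ P.2 ∧ K₀ * P.2 ≤ P.1}) :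
    ∃ δ : ℝ, 0 < δ ∧ δ < κ ∧ ∃ Y₁ : ℤ, ∀ Y : ℤ, Y₁ ≤ Y →
      Tame (vals F {P | Y ≤ P.2 ∧ |(P.1 : ℝ) - κ * (P.2 : ℝ) ^ 2| ≤ δ * (P.2 : ℝ) ^ 2}) := by
  obtain ⟨D, kD, rD, sD, hD, hk, hr, hs⟩ := common_den κ ρ σ
  have hkR : (kD : ℝ) = D * κ := by exact_mod_cast hk
  have hrR : (rD : ℝ) = D * ρ := by exact_mod_cast hr
  have hsR : (sD : ℝ) = D * σ := by exact_mod_cast hs
  have hD1 : (1 : ℝ) ≤ D := by exact_mod_cast hD
  have hD0 : (0 : ℝ) < D := by linarith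
  have hbR : (0 : ℝ) < b := by exact_mod_cast hb
  have hκR : (0 : ℝ) < κ := by exact_mod_cast hκ
  have hbκ : (0 : ℝ) < b * κ := mul_pos hbR hκR
  obtain ⟨c₁, hc₁, hlow⟩ := lower (b * κ) β₂ D hD (mul_pos hb hκ)
  obtain ⟨zf, hzf⟩ : ∃ zf : ℤ × ℤ → ℝ, ∀ x y : ℤ,
      zf (x, y) = (x : ℝ) - (κ * (y : ℝ) ^ 2 + ρ * y + σ) := ⟨fun P => (P.1 : ℝ) -
        (κ * (P.2 : ℝ) ^ 2 + ρ * P.2 + σ), fun x y => rfl⟩
  obtain ⟨nf, hnf⟩ : ∃ nf : ℤ × ℤ → ℤ, ∀ x y : ℤ,
      nf (x, y) = D * x - (kD * y ^ 2 + rD * y + sD) := ⟨fun P => D * P.1 -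
        (kD * P.2 ^ 2 + rD * P.2 + sD), fun x y => rfl⟩
  have hzn : ∀ P, zf P = (nf P : ℝ) / D := by
    rintro ⟨x, y⟩
    rw [hzf, hnf]
    push_cast
    rw [hkR, hrR, hsR]
    field_simp
  have hFz : ∀ x y : ℤ, F (x, y) = (y : ℝ) ^ 2 * (b * κ * zf (x, y) ^ 2 + β₂) +
      b * zf (x, y) ^ 3 + (a₁ * y + a₀) * zf (x, y) ^ 2 + (e₁ * y + e₀) * zf (x, y) +
        (β₁ * y + β₀) := by
    intro x y
    rw [hF, hzf]
    ring
  -- the curve through an integral point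
  have hcurve : ∀ x₀ y₀ t : ℤ, zf (x₀ + (kD * (2 * y₀ * t + D * t ^ 2) + rD * t), y₀ + D * t) =
      zf (x₀, y₀) := by
    intro x₀ y₀ t
    rw [hzf, hzf]
    push_cast
    rw [hkR, hrR]
    ring
  have hdom : ∀ P : ℤ × ℤ, P ∈ {P : ℤ × ℤ | Y₀ ≤ P.2 ∧ K₀ * P.2 ≤ P.1} → 0 ≤ F P :=
    fun P hP => hNI.nonneg hP
  -- `L` is nonnegative at all integral points
  have hL0 : ∀ x₀ y₀ : ℤ, 0 ≤ b * κ * zf (x₀, y₀) ^ 2 + β₂ := by
    intro x₀ y₀
    by_contra hneg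
    push Not at hneg
    obtain ⟨ζ, hζ⟩ : ∃ ζ : ℝ, ζ = zf (x₀, y₀) := ⟨_, rfl⟩
    rw [← hζ] at hneg
    obtain ⟨N₁, -, hN₁⟩ := quad (-(b * κ * ζ ^ 2 + β₂)) (-(a₁ * ζ ^ 2 + e₁ * ζ + β₁))
      (-(b * ζ ^ 3 + a₀ * ζ ^ 2 + e₀ * ζ + β₀)) (by linarith)
    obtain ⟨N₂, -, hN₂⟩ := quad κ (ρ - K₀) (σ + ζ) hκR
    obtain ⟨t, ht⟩ : ∃ t : ℤ, t = max N₁ (max N₂ Y₀) - y₀ + |y₀| + |N₁| + |N₂| + |Y₀| := ⟨_, rfl⟩
    have ht0 : 0 ≤ t := by
      have g1 := neg_abs_le N₁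
      have g2 := le_max_left N₁ (max N₂ Y₀)
      have g3 := le_abs_self y₀
      have g4 := abs_nonneg N₂
      have g5 := abs_nonneg Y₀
      omega
    have ht1 : t ≤ D * t := le_mul_of_one_le_left ht0 hD
    have hy : max N₁ (max N₂ Y₀) ≤ y₀ + D * t := by
      have g3 := abs_nonneg y₀
      have g4 := abs_nonneg N₂
      have g5 := abs_nonneg Y₀
      have g6 := abs_nonneg N₁
      omega
    have hy1 : N₁ ≤ y₀ + D * t := (le_max_left _ _).trans hy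
    have hy2 : N₂ ≤ y₀ + D * t := ((le_max_left _ _).trans (le_max_right _ _)).trans hy
    have hy3 : Y₀ ≤ y₀ + D * t := ((le_max_right _ _).trans (le_max_right _ _)).trans hy
    obtain ⟨x, hx⟩ : ∃ x : ℤ, x = x₀ + (kD * (2 * y₀ * t + D * t ^ 2) + rD * t) := ⟨_, rfl⟩
    obtain ⟨y, hyy⟩ : ∃ y : ℤ, y = y₀ + D * t := ⟨_, rfl⟩
    have hzxy : zf (x, y) = ζ := by
      rw [hx, hyy, hcurve, hζ]
    rw [← hyy] at hy1 hy2 hy3
    have q1 := hN₁ y hy1
    have q2 := hN₂ y hy2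
    have hxy : (x : ℝ) = κ * (y : ℝ) ^ 2 + ρ * y + σ + ζ := by
      rw [← hzxy, hzf]
      ring
    have hmem : (x, y) ∈ {P : ℤ × ℤ | Y₀ ≤ P.2 ∧ K₀ * P.2 ≤ P.1} := by
      refine ⟨hy3, ?_⟩
      have g1 : (K₀ : ℝ) * y ≤ x := by
        rw [hxy]
        linarith
      exact_mod_cast g1
    have g2 := hdom _ hmem
    rw [hFz, hzxy] at g2
    linarith
  -- choice of `δ`
  obtain ⟨δ, hδ⟩ : ∃ δ : ℝ, δ = min ((κ : ℝ) / 4) (c₁ / (8 * b)) := ⟨_, rfl⟩
  have hδ0 : 0 < δ := by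
    rw [hδ]
    exact lt_min (by linarith) (by positivity)
  have hδ1 : δ ≤ κ / 4 := by
    rw [hδ]
    exact min_le_left _ _
  have hδ2 : 2 * δ * b ≤ c₁ / 4 := by
    have h1 : δ ≤ c₁ / (8 * b) := by
      rw [hδ]
      exact min_le_right _ _
    rw [le_div_iff₀ (by positivity)] at h1
    linarith
  obtain ⟨N₁, hN₁0, hN₁⟩ := quad δ (-|(ρ : ℝ)|) (-(|(σ : ℝ)| + (1 + |(β₂ : ℝ)| / (b * κ)))) hδ0
  obtain ⟨N₂, -, hN₂⟩ := quad (c₁ / 8) (-|(a₁ : ℝ)|) (-|(a₀ : ℝ)|) (by positivity)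
  obtain ⟨N₃, -, hN₃⟩ := quad (c₁ / 8) (-|(e₁ : ℝ)|) (-|(e₀ : ℝ)|) (by positivity)
  obtain ⟨N₄, -, hN₄⟩ := quad (c₁ / 8) (-|(β₁ : ℝ)|) (-|(β₀ : ℝ)|) (by positivity)
  obtain ⟨N₅, -, hN₅⟩ := quad (κ - δ) (-(K₀ : ℝ)) 0 (by linarith)
  refine ⟨δ, hδ0, by linarith, max (max N₁ (max N₂ N₃)) (max N₄ (max N₅ Y₀)), ?_⟩
  intro Y hY
  have hY1 : N₁ ≤ Y := ((le_max_left _ _).trans (le_max_left _ _)).trans hY
  have hY2 : N₂ ≤ Y :=
    (((le_max_left _ _).trans (le_max_right _ _)).trans (le_max_left _ _)).trans hY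
  have hY3 : N₃ ≤ Y :=
    (((le_max_right _ _).trans (le_max_right _ _)).trans (le_max_left _ _)).trans hY
  have hY4 : N₄ ≤ Y := ((le_max_left _ _).trans (le_max_right _ _)).trans hY
  have hY5 : N₅ ≤ Y :=
    (((le_max_left _ _).trans (le_max_right _ _)).trans (le_max_right _ _)).trans hY
  have hY6 : Y₀ ≤ Y :=
    (((le_max_right _ _).trans (le_max_right _ _)).trans (le_max_right _ _)).trans hY
  have hY0 : 1 ≤ Y := hN₁0.trans hY1
  obtain ⟨S, hS⟩ : ∃ S : Set (ℤ × ℤ), S = {P | Y ≤ P.2 ∧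
      |(P.1 : ℝ) - κ * (P.2 : ℝ) ^ 2| ≤ δ * (P.2 : ℝ) ^ 2} := ⟨_, rfl⟩
  rw [← hS]
  have hSmem : ∀ x y : ℤ, (x, y) ∈ S ↔ Y ≤ y ∧ |(x : ℝ) - κ * (y : ℝ) ^ 2| ≤ δ * (y : ℝ) ^ 2 := by
    intro x y
    rw [hS]
    rfl
  have hSdom : S ⊆ {P : ℤ × ℤ | Y₀ ≤ P.2 ∧ K₀ * P.2 ≤ P.1} := by
    rintro ⟨x, y⟩ hP
    obtain ⟨h1, h2⟩ := (hSmem x y).1 hP
    refine ⟨hY6.trans h1, ?_⟩
    have h3 := hN₅ y (hY5.trans h1)
    have h4 := (abs_le.1 h2).1
    have h5 : (K₀ : ℝ) * y ≤ x := by linarith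
    exact_mod_cast h5
  have hNIS : NI F S := hNI.mono hSdom
  have hsplit : S = {P | P ∈ S ∧ b * κ * zf P ^ 2 + β₂ = 0} ∪
      {P | P ∈ S ∧ b * κ * zf P ^ 2 + β₂ ≠ 0} := by
    ext P
    by_cases h : (b : ℝ) * κ * zf P ^ 2 + β₂ = 0
    · simp [h]
    · simp [h]
  rw [hsplit, vals_union]
  apply tame_union
  · -- the curves
    have hζb : ∀ P : ℤ × ℤ, (b : ℝ) * κ * zf P ^ 2 + β₂ = 0 →
        |zf P| ≤ 1 + |(β₂ : ℝ)| / (b * κ) := by
      intro P hP
      have h1 : zf P ^ 2 ≤ |(β₂ : ℝ)| / (b * κ) := by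
        rw [le_div_iff₀ hbκ]
        linarith [neg_abs_le (β₂ : ℝ)]
      have h2 : |zf P| ≤ 1 + zf P ^ 2 := by
        rw [← sq_abs]
        nlinarith [sq_nonneg (|zf P| - 1), abs_nonneg (zf P)]
      linarith
    obtain ⟨N, hN⟩ := exists_nat_gt ((D : ℝ) * (1 + |(β₂ : ℝ)| / (b * κ)))
    have hsub : vals F {P | P ∈ S ∧ b * κ * zf P ^ 2 + β₂ = 0} =
        ⋃ i ∈ (Finset.Icc (-(N : ℤ)) N ×ˢ Finset.Ico (0 : ℤ) D),
          vals F {P | (P ∈ S ∧ b * κ * zf P ^ 2 + β₂ = 0) ∧ nf P = i.1 ∧ P.2 % D = i.2} := by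
      ext v
      simp only [Set.mem_iUnion]
      constructor
      · rintro ⟨P, hP, hv⟩
        refine ⟨(nf P, P.2 % D), ?_, P, ⟨hP, rfl, rfl⟩, hv⟩
        rw [Finset.mem_product, Finset.mem_Icc, Finset.mem_Ico]
        refine ⟨?_, Int.emod_nonneg _ (by omega), Int.emod_lt_of_pos _ (by omega)⟩
        have h1 := hζb P hP.2
        rw [hzn, abs_div, abs_of_pos hD0, div_le_iff₀ hD0] at h1
        have h2 : |(nf P : ℝ)| < N := by linarith
        have h3 : |nf P| < N := by exact_mod_cast h2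
        exact abs_le.1 h3.le
      · rintro ⟨i, -, P, hP, hv⟩
        exact ⟨P, hP.1, hv⟩
    rw [hsub]
    apply tame_iUnion
    rintro ⟨n, r⟩ -
    by_cases hne : ∃ P : ℤ × ℤ, (P ∈ S ∧ b * κ * zf P ^ 2 + β₂ = 0) ∧ nf P = n ∧ P.2 % D = r
    · obtain ⟨⟨x₀, y₀⟩, ⟨hPS, hP0⟩, hPn, hPr⟩ := hne
      obtain ⟨ζ, hζ⟩ : ∃ ζ : ℚ, ζ = (x₀ : ℚ) - (κ * (y₀ : ℚ) ^ 2 + ρ * y₀ + σ) := ⟨_, rfl⟩
      have hζR : zf (x₀, y₀) = (ζ : ℝ) := by
        rw [hzf, hζ]
        push_cast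
        ring
      rw [hζR] at hP0
      obtain ⟨f, hf⟩ : ∃ f : Polynomial ℚ, f =
          Polynomial.C (b * ζ ^ 3 + a₀ * ζ ^ 2 + e₀ * ζ + β₀) +
            Polynomial.C (a₁ * ζ ^ 2 + e₁ * ζ + β₁) *
              (Polynomial.C (y₀ : ℚ) + Polynomial.C (D : ℚ) * Polynomial.X) := ⟨_, rfl⟩
      obtain ⟨cx, hcx⟩ : ∃ cx : ℤ → ℤ, ∀ t, cx t =
        x₀ + (kD * (2 * y₀ * t + D * t ^ 2) + rD * t) := ⟨_, fun t => rfl⟩
      have hcz : ∀ t : ℤ, zf (cx t, y₀ + D * t) = (ζ : ℝ) := by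
        intro t
        rw [hcx, hcurve, hζR]
      have hFf : ∀ x t : ℤ, zf (x, y₀ + D * t) = (ζ : ℝ) →
          F (x, y₀ + D * t) = ((f.eval (t : ℚ) : ℚ) : ℝ) := by
        intro x t hx
        rw [hFz, hx, hP0, hf]
        simp only [Polynomial.eval_add, Polynomial.eval_mul, Polynomial.eval_C,
          Polynomial.eval_X]
        push_cast
        ring
      have hcS : ∀ t : ℤ, Y ≤ y₀ + D * t → (cx t, y₀ + D * t) ∈ S := by
        intro t ht
        rw [hSmem]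
        refine ⟨ht, ?_⟩
        have h1 := hcz t
        rw [hzf] at h1
        have h2 := hN₁ (y₀ + D * t) (hY1.trans ht)
        have h3 : |(ζ : ℝ)| ≤ 1 + |(β₂ : ℝ)| / (b * κ) := by
          rw [← hζR]
          apply hζb
          rw [hζR]
          exact hP0
        have hyp : (1 : ℝ) ≤ ((y₀ + D * t : ℤ) : ℝ) := by exact_mod_cast hY0.trans ht
        obtain ⟨Yt, hYt⟩ : ∃ Yt : ℝ, Yt = ((y₀ + D * t : ℤ) : ℝ) := ⟨_, rfl⟩
        rw [← hYt] at h1 h2 hyp ⊢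
        have h4 : (cx t : ℝ) - κ * Yt ^ 2 = ρ * Yt + σ + ζ := by linarith
        rw [h4]
        have h5 : |(ρ : ℝ) * Yt| = |(ρ : ℝ)| * Yt := by
          rw [abs_mul, abs_of_pos (show 0 < Yt by linarith)]
        have h6 := abs_add_le ((ρ : ℝ) * Yt + σ) ζ
        have h7 := abs_add_le ((ρ : ℝ) * Yt) σ
        linarith
      obtain ⟨t₀, ht₀⟩ : ∃ t₀ : ℤ, ∀ t : ℤ, t₀ ≤ t ↔ Y ≤ y₀ + D * t := by
        refine ⟨-((y₀ - Y) / D), fun t => ?_⟩
        have h1 : -t ≤ (y₀ - Y) / D ↔ -t * D ≤ y₀ - Y := Int.le_ediv_iff_mul_le (by omega)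
        constructor
        · intro h
          have h2 := h1.1 (by omega)
          linarith
        · intro h
          have h2 := h1.2 (by linarith)
          omega
      have hVeq : vals F {P | (P ∈ S ∧ b * κ * zf P ^ 2 + β₂ = 0) ∧ nf P = n ∧ P.2 % D = r} =
          {v : ℕ | ∃ t : ℤ, t₀ ≤ t ∧ f.eval (t : ℚ) = v} := by
        ext v
        constructor
        · rintro ⟨⟨x, y⟩, ⟨⟨h1, h2⟩, h3, h4⟩, h5⟩
          have h6 : D ∣ y - y₀ := by
            apply Int.dvd_of_emod_eq_zero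
            have h7 : y % D = y₀ % D := h4.trans hPr.symm
            exact Int.emod_eq_emod_iff_emod_sub_eq_zero.1 h7
          obtain ⟨t, ht⟩ := h6
          have hy : y = y₀ + D * t := by linarith
          subst hy
          have hz : zf (x, y₀ + D * t) = (ζ : ℝ) := by
            rw [← hζR, hzn, hzn, h3, hPn]
          refine ⟨t, (ht₀ t).2 ((hSmem _ _).1 h1).1, ?_⟩
          have h8 := hFf x t hz
          rw [h5] at h8
          exact_mod_cast h8.symm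
        · rintro ⟨t, ht, hv⟩
          have hS' := hcS t ((ht₀ t).1 ht)
          refine ⟨(cx t, y₀ + D * t), ⟨⟨hS', ?_⟩, ?_, ?_⟩, ?_⟩
          · rw [hcz]
            exact hP0
          · have h1 : zf (cx t, y₀ + D * t) = zf (x₀, y₀) := by rw [hcz, hζR]
            rw [hzn, hzn, div_left_inj' hD0.ne'] at h1
            have h2 : nf (cx t, y₀ + D * t) = nf (x₀, y₀) := by exact_mod_cast h1
            rw [h2, hPn]
          · change (y₀ + D * t) % D = r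
            rw [Int.add_mul_emod_self_left]
            exact hPr
          · rw [hFf _ _ (hcz t), hv]
            simp
      rw [hVeq]
      apply tame_line
      · intro t ht
        obtain ⟨v, hv⟩ := hNIS.1 _ (hcS t ((ht₀ t).1 ht))
        refine ⟨v, ?_⟩
        rw [hFf _ _ (hcz t)] at hv
        exact_mod_cast hv
      · intro t t' ht ht' h
        have h1 : F (cx t, y₀ + D * t) = F (cx t', y₀ + D * t') := by
          rw [hFf _ _ (hcz t), hFf _ _ (hcz t'), h]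
        have h2 := hNIS.2 (hcS t ((ht₀ t).1 ht)) (hcS t' ((ht₀ t').1 ht')) h1
        have h3 : y₀ + D * t = y₀ + D * t' := congrArg Prod.snd h2
        have h4 : D * t = D * t' := by linarith
        exact mul_left_cancel₀ (by omega) h4
    · have hemp : vals F {P | (P ∈ S ∧ b * κ * zf P ^ 2 + β₂ = 0) ∧ nf P = n ∧ P.2 % D = r} =
          ∅ := by
        ext v
        simp only [Set.mem_empty_iff_false, iff_false]
        rintro ⟨P, hP, -⟩
        exact hne ⟨P, hP⟩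
      rw [hemp]
      exact tame_of_null (null_finite Set.finite_empty)
  · -- the rest
    apply tame_of_null
    apply null_B (fun y => κ * (y : ℝ) ^ 2 + ρ * y + σ) (c := c₁ / 4) (by positivity)
    rintro ⟨x, y⟩ ⟨hP, hne⟩
    obtain ⟨h1, h2⟩ := (hSmem x y).1 hP
    have hy1 : 1 ≤ y := hY0.trans h1
    have hyR : (1 : ℝ) ≤ y := by exact_mod_cast hy1
    refine ⟨hy1, ?_⟩
    have hpos : 0 < b * κ * zf (x, y) ^ 2 + β₂ := lt_of_le_of_ne (hL0 x y) (Ne.symm hne)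
    have hlow' : c₁ * (1 + zf (x, y) ^ 2) ≤ b * κ * zf (x, y) ^ 2 + β₂ := by
      have g1 := hlow (nf (x, y))
      rw [← hzn] at g1
      push_cast at g1
      exact g1 hpos
    obtain ⟨z, hz⟩ : ∃ z : ℝ, z = zf (x, y) := ⟨_, rfl⟩
    have hz' : (x : ℝ) - (κ * (y : ℝ) ^ 2 + ρ * y + σ) = z := by rw [hz, hzf]
    change c₁ / 4 * ((y : ℝ) * ((x : ℝ) - (κ * (y : ℝ) ^ 2 + ρ * y + σ)) ^ 2 + (y : ℝ) ^ 2) ≤
      F (x, y)
    rw [hz', hFz, ← hz]
    rw [← hz] at hlow'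
    have q1 := hN₁ y (hY1.trans h1)
    have q2 := hN₂ y (hY2.trans h1)
    have q3 := hN₃ y (hY3.trans h1)
    have q4 := hN₄ y (hY4.trans h1)
    -- `|z| ≤ 2 δ y²`
    have hz2 : |z| ≤ 2 * δ * (y : ℝ) ^ 2 := by
      have g1 : z = ((x : ℝ) - κ * (y : ℝ) ^ 2) + (-(ρ * y) + -σ) := by
        rw [← hz']
        ring
      have g2 := abs_add_le ((x : ℝ) - κ * (y : ℝ) ^ 2) (-(ρ * y) + -σ)
      have g3 := abs_add_le (-((ρ : ℝ) * y)) (-(σ : ℝ))
      rw [abs_neg, abs_neg, abs_mul, abs_of_pos (show (0 : ℝ) < y by linarith)] at g3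
      rw [← g1] at g2
      have g4 : 0 ≤ |(β₂ : ℝ)| / (b * κ) := by positivity
      linarith
    have hzsq : 0 ≤ z ^ 2 := sq_nonneg z
    have hz3 : -(c₁ / 4 * ((y : ℝ) ^ 2 * z ^ 2)) ≤ b * z ^ 3 := by
      have g1 : |b * z ^ 3| ≤ c₁ / 4 * ((y : ℝ) ^ 2 * z ^ 2) := by
        have g2 : |(b : ℝ) * z ^ 3| = b * |z| * z ^ 2 := by
          rw [abs_mul, abs_of_pos hbR, abs_pow, ← sq_abs z]
          ring
        rw [g2]
        calc (b : ℝ) * |z| * z ^ 2 ≤ b * (2 * δ * (y : ℝ) ^ 2) * z ^ 2 :=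
              mul_le_mul_of_nonneg_right (mul_le_mul_of_nonneg_left hz2 hbR.le) hzsq
          _ = (2 * δ * b) * ((y : ℝ) ^ 2 * z ^ 2) := by ring
          _ ≤ c₁ / 4 * ((y : ℝ) ^ 2 * z ^ 2) :=
              mul_le_mul_of_nonneg_right hδ2 (by positivity)
      exact (abs_le.1 g1).1
    have hy2 : (0 : ℝ) ≤ (y : ℝ) ^ 2 := sq_nonneg _
    have hlin : ∀ u v w : ℝ, 0 < c₁ / 8 * (y : ℝ) ^ 2 + -|u| * y + -|v| → |w| ≤ 1 + z ^ 2 →
        -(c₁ / 8 * ((y : ℝ) ^ 2 * (1 + z ^ 2))) ≤ (u * y + v) * w := by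
      intro u v w hq hw
      have g1 : |u * y + v| ≤ c₁ / 8 * (y : ℝ) ^ 2 := by
        have g2 := abs_add_le (u * y) v
        rw [abs_mul, abs_of_pos (show (0 : ℝ) < y by linarith)] at g2
        linarith
      have g3 : |(u * y + v) * w| ≤ c₁ / 8 * (y : ℝ) ^ 2 * (1 + z ^ 2) := by
        rw [abs_mul]
        exact mul_le_mul g1 hw (abs_nonneg _) (by positivity)
      have g4 := (abs_le.1 g3).1
      linarith
    have r1 := hlin a₁ a₀ (z ^ 2) q2 (by rw [abs_of_nonneg hzsq]; linarith)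
    have r2 := hlin e₁ e₀ z q3 (by
      rw [← sq_abs z]
      nlinarith [sq_nonneg (|z| - 1), abs_nonneg z])
    have r3 := hlin β₁ β₀ 1 q4 (by rw [abs_one]; linarith)
    have r4 : (y : ℝ) ^ 2 * (c₁ * (1 + z ^ 2)) ≤ (y : ℝ) ^ 2 * (b * κ * z ^ 2 + β₂) :=
      mul_le_mul_of_nonneg_left hlow' hy2
    have r5 : (y : ℝ) * z ^ 2 ≤ (y : ℝ) ^ 2 * z ^ 2 := by
      apply mul_le_mul_of_nonneg_right _ hzsq
      nlinarith
    have r6 : c₁ / 4 * ((y : ℝ) * z ^ 2 + (y : ℝ) ^ 2) ≤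
        c₁ / 4 * ((y : ℝ) ^ 2 * z ^ 2 + (y : ℝ) ^ 2) :=
      mul_le_mul_of_nonneg_left (by linarith) (by positivity)
    have r7 : 0 ≤ c₁ * ((y : ℝ) ^ 2 * z ^ 2) := by positivity
    have r8 : 0 ≤ c₁ * (y : ℝ) ^ 2 := by positivity
    linarith [r1, r2, r3, r4, r5, r6, r7, r8, hz3]

end Pool.Agent.Lib.MP_ff4e96_co
end
end
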