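import Pool.Agent.Lib.MP_ff4e96_co.QF1
import Pool.Agent.Lib.MP_ff4e96_co.NFdef
import Pool.Agent.Lib.MP_ff4e96_co.Count
import Pool.Agent.Lib.MP_ff4e96_co.Pat5
import Pool.Agent.Lib.MP_ff4e96_co.Pat6l
import Pool.Agent.Lib.MP_ff4e96_co.NF4

section

/-!
# MP_ff4e96_co: representations by a quadratic polynomial

`qf_false`: `F = m` reads `z² + (b/a) (y + b₁/(2b))² = (m - b₀ + b₁²/(4b))/a`, `z = x - κ y² - ρ y - σ`.
Write `b/a = r₁/r₂` with positive integers and multiply by `Q²`, where the integer `Q > 0` is chosen such that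
`Q z`, `Q (y + b₁/(2b)) / r₂` are integers for all integers `x, y`, and `Q²/a` and
`(Q²/a) (-b₀ + b₁²/(4b))` are integers: `U = Q z`, `V = Q (y + b₁/(2b)) / r₂`, `D = r₁ r₂`,
`A = Q²/a`, `B = (Q²/a) (-b₀ + b₁²/(4b))`: `U² + D V² = A m + B`. Apply `qf_int`.
-/

namespace Pool.Agent.Lib.MP_ff4e96_co

private theorem clear_den (q : ℚ) (M : ℕ) (h : q.den ∣ M) : ∃ k : ℤ, (k : ℚ) = M * q := by
  obtain ⟨e, rfl⟩ := h
  refine ⟨e * q.num, ?_⟩
  have h1 : q * q.den = q.num := Rat.mul_den_eq_num q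
  push_cast
  rw [← h1]
  ring

theorem qf_false (a b b₁ b₀ κ ρ σ : ℚ) (ha : 0 < a) (hb : 0 < b)
    (h : ∀ m : ℕ, ∃ x y : ℤ, a * ((x : ℚ) - (κ * (y : ℚ) ^ 2 + ρ * y + σ)) ^ 2 + b * (y : ℚ) ^ 2 +
      b₁ * y + b₀ = m) : False := by
  obtain ⟨t, ht⟩ : ∃ t : ℚ, t = b₁ / (2 * b) := ⟨_, rfl⟩
  obtain ⟨c, hc⟩ : ∃ c : ℚ, c = (b₀ - b * t ^ 2) / a := ⟨_, rfl⟩
  obtain ⟨r, hr⟩ : ∃ r : ℚ, r = b / a := ⟨_, rfl⟩
  have hr0 : 0 < r := by rw [hr]; positivity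
  obtain ⟨i, hi⟩ : ∃ i : ℚ, i = 1 / a := ⟨_, rfl⟩
  have hi0 : 0 < i := by rw [hi]; positivity
  obtain ⟨M, hM⟩ : ∃ M : ℕ, M = κ.den * ρ.den * σ.den * t.den * c.den * i.den := ⟨_, rfl⟩
  have hM0 : 0 < M := by
    rw [hM]
    have h1 := κ.den_pos
    have h2 := ρ.den_pos
    have h3 := σ.den_pos
    have h4 := t.den_pos
    have h5 := c.den_pos
    have h6 := i.den_pos
    positivity
  obtain ⟨k₁, hk₁⟩ := clear_den κ M ⟨ρ.den * σ.den * t.den * c.den * i.den, by rw [hM]; ring⟩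
  obtain ⟨k₂, hk₂⟩ := clear_den ρ M ⟨κ.den * σ.den * t.den * c.den * i.den, by rw [hM]; ring⟩
  obtain ⟨k₃, hk₃⟩ := clear_den σ M ⟨κ.den * ρ.den * t.den * c.den * i.den, by rw [hM]; ring⟩
  obtain ⟨k₄, hk₄⟩ := clear_den t M ⟨κ.den * ρ.den * σ.den * c.den * i.den, by rw [hM]; ring⟩
  obtain ⟨k₅, hk₅⟩ := clear_den c M ⟨κ.den * ρ.den * σ.den * t.den * i.den, by rw [hM]; ring⟩
  obtain ⟨k₆, hk₆⟩ := clear_den i M ⟨κ.den * ρ.den * σ.den * t.den * c.den, by rw [hM]; ring⟩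
  have hk6pos : 0 < k₆ := by
    have h1 : (0 : ℚ) < M * i := mul_pos (by exact_mod_cast hM0) hi0
    rw [← hk₆] at h1
    exact_mod_cast h1
  obtain ⟨l, hl⟩ := Int.eq_ofNat_of_zero_le hk6pos.le
  have hl0 : 0 < l := by omega
  have hnum : 0 < r.num := Rat.num_pos.2 hr0
  obtain ⟨r₁, hr₁⟩ := Int.eq_ofNat_of_zero_le hnum.le
  have hr₁0 : 0 < r₁ := by omega
  have hrr : r * r.den = r₁ := by
    rw [Rat.mul_den_eq_num, hr₁]
    push_cast
    rfl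
  have hden := r.den_pos
  obtain ⟨r₂, hr₂⟩ : ∃ r₂ : ℕ, r₂ = r.den := ⟨_, rfl⟩
  rw [← hr₂] at hrr hden
  have hlq : (l : ℚ) = M * i := by
    rw [← hk₆, hl]
    push_cast
    rfl
  refine qf_int (M * r₂ * r₂ * l) (r₁ * r₂) (-(M * r₂ * r₂ * k₅)) (by positivity) (by positivity)
    (fun m => ?_)
  obtain ⟨x, y, hxy⟩ := h m
  refine ⟨r₂ * (M * x - k₁ * y ^ 2 - k₂ * y - k₃), M * y + k₄, ?_⟩
  have key : ((((M * r₂ * r₂ * l : ℕ) : ℤ) * (m : ℤ) + (-(M * r₂ * r₂ * k₅)) : ℤ) : ℚ) =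
      ((((r₂ : ℤ) * (M * x - k₁ * y ^ 2 - k₂ * y - k₃)) ^ 2 +
        ((r₁ * r₂ : ℕ) : ℤ) * (M * y + k₄) ^ 2 : ℤ) : ℚ) := by
    push_cast
    rw [hk₁, hk₂, hk₃, hk₄, hk₅, hlq, ← hrr]
    have hb1 : b₁ = 2 * b * t := by
      rw [ht]
      field_simp
    have hb : b = r * a := by
      rw [hr]
      field_simp
    have hc' : b₀ = c * a + b * t ^ 2 := by
      rw [hc]
      field_simp
      ring
    have hi' : i * a = 1 := by
      rw [hi]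
      field_simp
    have hm : (m : ℚ) * i = ((x : ℚ) - (κ * (y : ℚ) ^ 2 + ρ * y + σ)) ^ 2 + r * (y + t) ^ 2 + c := by
      rw [← hxy, hc', hb1, hb]
      have : (a * (↑x - (κ * ↑y ^ 2 + ρ * ↑y + σ)) ^ 2 + r * a * ↑y ^ 2 + 2 * (r * a) * t * ↑y +
        (c * a + r * a * t ^ 2)) * i = (i * a) * (((x : ℚ) - (κ * (y : ℚ) ^ 2 + ρ * y + σ)) ^ 2 +
          r * (y + t) ^ 2 + c) := by ring
      rw [this, hi', one_mul]
    have : (M : ℚ) * r₂ * r₂ * (M * i) * m + -(M * r₂ * r₂ * (M * c)) =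
        M ^ 2 * r₂ ^ 2 * (m * i) - M ^ 2 * r₂ ^ 2 * c := by ring
    rw [this, hm]
    ring
  exact_mod_cast key

end Pool.Agent.Lib.MP_ff4e96_co
end

section

/-!
# MP_ff4e96_co: degree 5, discriminant zero

`θ` irrational, `θ² + b θ + a = 0`, `g = y² + b x y + a x²`. On `Near θ ε X` put `t = y / x`, `|t - θ| ≤ ε`;
`g = x² (t - θ)(t - θ')`, `θ' = -b - θ ≠ θ`.

With `L_θ = l₀ + l₁ θ > 0`, `Q_θ = q₀ + q₁ θ + q₂ θ²`, `U = u₀ + u₁ θ + u₂ θ² + u₃ θ³` and `s = g/x`: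
  `F = x³ (L(1,t) s² + Q(1,t) s + F₃(1,t)) + O(x²)`.
`nf5_zero` (`Q_θ² = 4 L_θ U`): algebra. `s₀ = -Q_θ/(2 L_θ) = n₁' + n₂' θ` with rational `n₁', n₂'` (`quot_mem`;
  `Q_θ = (q₀ - a q₂) + (q₁ - b q₂) θ`), `ℓ = n₁' x + n₂' y`, `N = g - ℓ`. Then
  `L g² + g Q + F₃ = L N² + N R₂ + R₃`, `R₂ = 2 L ℓ + Q`, `R₃ = L ℓ² + ℓ Q + F₃` vanish at `(1, θ)`
  (`L_θ s₀² + Q_θ s₀ + U = 0`), so `R₂ = c₁ g` (`irr_two`), `R₃ = g ℓ₃` (`irr_three`); replace `g` by `N + ℓ`: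
  `F = (L + c₁) N² + (c₁ ℓ + ℓ₃) N + ℓ ℓ₃ + F₂ + F₁ + F₀`, and the quadratic form `ℓ ℓ₃ + F₂` is
  `c₄ g + α x² + β x y = c₄ N + c₄ ℓ + α x² + β x y`.
-/

namespace Pool.Agent.Lib.MP_ff4e96_co

open Filter Topology

theorem nf5_zero {c : ℕ → ℕ → ℚ} {θ : ℝ} (hθ : Irrational θ) {b a l₀ l₁ : ℚ}
    (hg : θ ^ 2 + b * θ + a = 0) (hL : 0 < l₀ + l₁ * θ)
    {q₀ q₁ q₂ u₀ u₁ u₂ u₃ v₀ v₁ v₂ w₁ w₂ w₀ : ℚ} (hF : ∀ x y : ℝ,
      ev c x y = (l₀ * x + l₁ * y) * (y ^ 2 + b * x * y + a * x ^ 2) ^ 2 +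
        (q₀ * x ^ 2 + q₁ * x * y + q₂ * y ^ 2) * (y ^ 2 + b * x * y + a * x ^ 2) +
        (u₀ * x ^ 3 + u₁ * x ^ 2 * y + u₂ * x * y ^ 2 + u₃ * y ^ 3) +
        (v₀ * x ^ 2 + v₁ * x * y + v₂ * y ^ 2) + (w₁ * x + w₂ * y + w₀))
    (hdisc : ((q₀ : ℝ) + q₁ * θ + q₂ * θ ^ 2) ^ 2 =
      4 * (l₀ + l₁ * θ) * (u₀ + u₁ * θ + u₂ * θ ^ 2 + u₃ * θ ^ 3)) :
    NF c θ b a := by
  have hL' : (l₀ : ℝ) + l₁ * θ ≠ 0 := hL.ne'
  have hwz : (((-2 * l₀ : ℚ) : ℝ)) + ((-2 * l₁ : ℚ) : ℝ) * θ ≠ 0 := by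
    push_cast
    intro h
    apply hL'
    linear_combination (-1 / 2 : ℝ) * h
  obtain ⟨m₁, m₂, hm⟩ := quot_mem hθ hg (q₀ - a * q₂) (q₁ - b * q₂) (-2 * l₀) (-2 * l₁) hwz
  rw [div_eq_iff hwz] at hm
  push_cast at hm
  -- `Q_θ = -2 L_θ s₀`
  have hs : (q₀ : ℝ) + q₁ * θ + q₂ * θ ^ 2 = -2 * (l₀ + l₁ * θ) * (m₁ + m₂ * θ) := by
    linear_combination hm + (q₂ : ℝ) * hg
  have hU : (u₀ : ℝ) + u₁ * θ + u₂ * θ ^ 2 + u₃ * θ ^ 3 = (l₀ + l₁ * θ) * (m₁ + m₂ * θ) ^ 2 := by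
    rw [hs] at hdisc
    have h4 : (4 * ((l₀ : ℝ) + l₁ * θ)) ≠ 0 := mul_ne_zero (by norm_num) hL'
    apply mul_left_cancel₀ h4
    linear_combination -hdisc
  obtain ⟨hA, hB⟩ := irr_two hθ hg (u₀ := 2 * l₀ * m₁ + q₀) (u₁ := 2 * (l₀ * m₂ + l₁ * m₁) + q₁)
    (u₂ := 2 * l₁ * m₂ + q₂) (by
      push_cast
      linear_combination hs)
  obtain ⟨r₀, r₁, hr⟩ := irr_three hθ hg (u₀ := l₀ * m₁ ^ 2 + m₁ * q₀ + u₀)
    (u₁ := 2 * l₀ * m₁ * m₂ + l₁ * m₁ ^ 2 + m₁ * q₁ + m₂ * q₀ + u₁)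
    (u₂ := l₀ * m₂ ^ 2 + 2 * l₁ * m₁ * m₂ + m₁ * q₂ + m₂ * q₁ + u₂)
    (u₃ := l₁ * m₂ ^ 2 + m₂ * q₂ + u₃) (by
      push_cast
      linear_combination hU + ((m₁ : ℝ) + m₂ * θ) * hs)
  have hA' : (2 * l₀ * m₁ + q₀ : ℝ) = (2 * l₁ * m₂ + q₂) * a := by exact_mod_cast hA
  have hB' : (2 * (l₀ * m₂ + l₁ * m₁) + q₁ : ℝ) = (2 * l₁ * m₂ + q₂) * b := by exact_mod_cast hB
  refine ⟨-m₁, -m₂, 0, 2 * l₁ * m₂ + q₂, l₀, l₁, m₂ * r₁ + v₂,
    (2 * l₁ * m₂ + q₂) * m₁ + r₀, (2 * l₁ * m₂ + q₂) * m₂ + r₁,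
    m₁ * r₀ + v₀ - (m₂ * r₁ + v₂) * a, m₁ * r₁ + m₂ * r₀ + v₁ - (m₂ * r₁ + v₂) * b,
    w₀, w₁ + (m₂ * r₁ + v₂) * m₁, w₂ + (m₂ * r₁ + v₂) * m₂, ?_, Or.inr hL⟩
  intro x y
  have h3 := hr x y
  rw [hF x y, NN]
  push_cast at h3 ⊢
  linear_combination (y ^ 2 + b * x * y + a * x ^ 2 - m₁ * x - m₂ * y) *
    (x ^ 2 * hA' + x * y * hB') + h3

end Pool.Agent.Lib.MP_ff4e96_co
end

section

/-!
# MP_ff4e96_co: degenerate clusters of weight 4

`shift4`: `F = a z² + β₃ y³ + β₂ y² + β₁ y + β₀`, `a > 0`, `z = x - p(y)`, `p(y) = κ y² + ρ y + σ`. For large `y` the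
point `(x, y)` with `x` the nearest integer to `p(y)` satisfies `K₀ y ≤ x`, and `F ≤ a/4 + β(y)` there.
* `β₃ < 0`, or `β₃ = 0` and `β₂ < 0`: `F < 0` at these points for large `y`, impossible.
* `β₃ > 0`: `F ≥ (min(a, β₃)/2) (z² + y³)` for `y ≥ Y`: `null_A`.
* `β₃ = 0`, `β₂ > 0`: `qf_false` (with `hsur`; cast from `ℝ` to `ℚ`).
* `β₃ = β₂ = 0`: let `E ≥ 1` be an integer with `E κ`, `E ρ` integers. For integers `m ≥ 0`, `k` let `y = E k`,
  `x = m + p(E k) - p(0) = m + κ E² k² + ρ E k`, an integer, `z = m - σ`. For `k ≥ k₀(m)` the point is in the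
  domain and `F = k (E β₁) + a (m - σ)² + β₀`, so `pp_false` with `A = E β₁`, `B = a (X - σ)² + β₀`: False
  (`(m, k) ↦ (x, y)` is injective).
-/

namespace Pool.Agent.Lib.MP_ff4e96_co

open Filter Topology

/-- bound for the lower order terms -/
private theorem pat4_low (b₂ b₁ b₀ : ℝ) {y : ℝ} (hy : 1 ≤ y) :
    |b₂ * y ^ 2 + b₁ * y + b₀| ≤ (|b₂| + |b₁| + |b₀|) * y ^ 2 := by
  have h1 : |b₂ * y ^ 2| = |b₂| * y ^ 2 := by
    rw [abs_mul, abs_of_nonneg (by positivity : (0 : ℝ) ≤ y ^ 2)]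
  have h2 : |b₁ * y| ≤ |b₁| * y ^ 2 := by
    rw [abs_mul, abs_of_nonneg (by linarith : (0 : ℝ) ≤ y)]
    exact mul_le_mul_of_nonneg_left (by nlinarith) (abs_nonneg _)
  have h3 : |b₀| ≤ |b₀| * y ^ 2 := le_mul_of_one_le_right (abs_nonneg b₀) (one_le_pow₀ hy)
  have h4 := abs_add_le (b₂ * y ^ 2 + b₁ * y) b₀
  have h5 := abs_add_le (b₂ * y ^ 2) (b₁ * y)
  linarith

/-- points near the parabola lie in the domain -/
private theorem pat4_near {κ : ℝ} (hκ : 0 < κ) (ρ σ : ℝ) (K₀ Y₀ : ℤ) : ∃ Y : ℤ, ∀ y : ℤ, Y ≤ y →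
    1 ≤ y ∧ Y₀ ≤ y ∧ K₀ * y ≤ round (κ * (y : ℝ) ^ 2 + ρ * y + σ) := by
  refine ⟨max 1 (max Y₀ ⌈(|(K₀ : ℝ)| + |ρ| + |σ| + 1) / κ⌉), fun y hy => ?_⟩
  have h1 : 1 ≤ y := (le_max_left _ _).trans hy
  have h2 : Y₀ ≤ y := (le_max_left _ _).trans ((le_max_right _ _).trans hy)
  have h3 : ⌈(|(K₀ : ℝ)| + |ρ| + |σ| + 1) / κ⌉ ≤ y :=
    (le_max_right _ _).trans ((le_max_right _ _).trans hy)
  refine ⟨h1, h2, ?_⟩
  have h1' : (1 : ℝ) ≤ y := by exact_mod_cast h1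
  have h4 : (|(K₀ : ℝ)| + |ρ| + |σ| + 1) / κ ≤ y := Int.ceil_le.1 h3
  rw [div_le_iff₀ hκ] at h4
  have h5 := mul_le_mul_of_nonneg_right h4 (by linarith : (0 : ℝ) ≤ y)
  have h6 := abs_sub_round (κ * (y : ℝ) ^ 2 + ρ * y + σ)
  have h7 := (abs_le.1 h6).2
  have h8 : -(|ρ| * y) ≤ ρ * y := by
    rw [← neg_mul]
    exact mul_le_mul_of_nonneg_right (neg_abs_le ρ) (by linarith)
  have h9 : (K₀ : ℝ) * y ≤ |(K₀ : ℝ)| * y :=
    mul_le_mul_of_nonneg_right (le_abs_self _) (by linarith)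
  have h10 : |σ| ≤ |σ| * y := by nlinarith [abs_nonneg σ]
  have h11 := neg_abs_le σ
  have h12 : (K₀ : ℝ) * y ≤ (round (κ * (y : ℝ) ^ 2 + ρ * y + σ) : ℝ) := by nlinarith
  exact_mod_cast h12

theorem pat4 {c : ℕ → ℕ → ℚ} {κ : ℚ} (hκ : 0 < κ) (h : Deg4 c κ) (K₀ Y₀ : ℤ)
    (hNI : NI (evz c) {P | Y₀ ≤ P.2 ∧ K₀ * P.2 ≤ P.1})
    (hsur : ∀ m : ℕ, ∃ P : ℤ × ℤ, evz c P = m) :
    ∃ Y : ℤ, Null (vals (evz c) {P | Y ≤ P.2 ∧ K₀ * P.2 ≤ P.1}) := by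
  obtain ⟨ρ, σ, β₃, β₂, β₁, β₀, hev⟩ := shift4 h
  have ha : 0 < c 2 0 := h.1
  have haR : (0 : ℝ) < (c 2 0 : ℝ) := by exact_mod_cast ha
  have hκR : (0 : ℝ) < (κ : ℝ) := by exact_mod_cast hκ
  -- negative values near the parabola are impossible
  have hneg : ∀ Y₂ : ℤ, ¬ ∀ y : ℤ, 1 ≤ y → Y₂ ≤ y →
      (c 2 0 : ℝ) + ((β₃ : ℝ) * (y : ℝ) ^ 3 + β₂ * (y : ℝ) ^ 2 + β₁ * y + β₀) ≤ 0 := by
    intro Y₂ hY₂
    obtain ⟨Y, hY⟩ := pat4_near hκR (ρ : ℝ) (σ : ℝ) K₀ Y₀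
    obtain ⟨h1, h2, h3⟩ := hY (max Y Y₂) (le_max_left _ _)
    have h4 := hY₂ (max Y Y₂) h1 (le_max_right _ _)
    set y : ℤ := max Y Y₂ with hy
    set x : ℤ := round ((κ : ℝ) * (y : ℝ) ^ 2 + ρ * y + σ) with hx
    have h5 : 0 ≤ evz c (x, y) := hNI.nonneg (P := (x, y)) ⟨h2, h3⟩
    have h6 := abs_sub_round ((κ : ℝ) * (y : ℝ) ^ 2 + ρ * y + σ)
    rw [← hx] at h6
    have h7 : ((x : ℝ) - ((κ : ℝ) * (y : ℝ) ^ 2 + ρ * y + σ)) ^ 2 ≤ (1 / 2) ^ 2 := by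
      rw [← sq_abs, abs_sub_comm]
      exact pow_le_pow_left₀ (abs_nonneg _) h6 2
    have h8 : evz c (x, y) = c 2 0 * ((x : ℝ) - ((κ : ℝ) * (y : ℝ) ^ 2 + ρ * y + σ)) ^ 2 +
        ((β₃ : ℝ) * (y : ℝ) ^ 3 + β₂ * (y : ℝ) ^ 2 + β₁ * y + β₀) := hev x y
    rw [h8] at h5
    have h9 := mul_le_mul_of_nonneg_left h7 haR.le
    nlinarith
  rcases lt_trichotomy β₃ 0 with hb3 | hb3 | hb3
  · -- negative leading coefficient
    exfalso
    have hb3R : (β₃ : ℝ) < 0 := by exact_mod_cast hb3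
    set B : ℝ := |(β₂ : ℝ)| + |(β₁ : ℝ)| + |(β₀ : ℝ)| with hB
    refine hneg ⌈(B + c 2 0) / (-(β₃ : ℝ))⌉ fun y h1 h2 => ?_
    have h1' : (1 : ℝ) ≤ y := by exact_mod_cast h1
    have h3 : (B + c 2 0) / (-(β₃ : ℝ)) ≤ y := Int.ceil_le.1 h2
    rw [div_le_iff₀ (by linarith)] at h3
    have h4 := (abs_le.1 (pat4_low (β₂ : ℝ) (β₁ : ℝ) (β₀ : ℝ) h1')).2
    rw [← hB] at h4
    have h5 : (1 : ℝ) ≤ (y : ℝ) ^ 2 := one_le_pow₀ h1'
    have h6 := mul_le_mul_of_nonneg_right h3 (by positivity : (0 : ℝ) ≤ (y : ℝ) ^ 2)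
    have h7 := mul_le_mul_of_nonneg_left h5 haR.le
    nlinarith
  · subst hb3
    rcases lt_trichotomy β₂ 0 with hb2 | hb2 | hb2
    · exfalso
      have hb2R : (β₂ : ℝ) < 0 := by exact_mod_cast hb2
      set B : ℝ := |(β₁ : ℝ)| + |(β₀ : ℝ)| with hB
      refine hneg ⌈(B + c 2 0) / (-(β₂ : ℝ))⌉ fun y h1 h2 => ?_
      have h1' : (1 : ℝ) ≤ y := by exact_mod_cast h1
      have h3 : (B + c 2 0) / (-(β₂ : ℝ)) ≤ y := Int.ceil_le.1 h2
      rw [div_le_iff₀ (by linarith)] at h3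
      have h4 : (β₁ : ℝ) * y ≤ |(β₁ : ℝ)| * y :=
        mul_le_mul_of_nonneg_right (le_abs_self _) (by linarith)
      have h5 : (β₀ : ℝ) ≤ |(β₀ : ℝ)| * y := by
        have := le_abs_self (β₀ : ℝ)
        nlinarith [abs_nonneg (β₀ : ℝ)]
      have h6 := mul_le_mul_of_nonneg_right h3 (by linarith : (0 : ℝ) ≤ y)
      have h7 := mul_le_mul_of_nonneg_left h1' haR.le
      rw [hB] at h6
      push_cast
      nlinarith
    · subst hb2
      -- the pencil case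
      exfalso
      set E : ℤ := (κ.den : ℤ) * ρ.den with hE
      set u : ℤ := κ.num * ρ.den with hu
      set v : ℤ := ρ.num * κ.den with hv
      have hE1 : 1 ≤ E := by
        have h1 : 0 < κ.den := κ.den_pos
        have h2 : 0 < ρ.den := ρ.den_pos
        have h3 : 0 < E := by positivity
        omega
      have hu1 : 1 ≤ u := by
        have h1 : 0 < κ.num := Rat.num_pos.2 hκ
        have h2 : 0 < ρ.den := ρ.den_pos
        have h3 : 0 < u := by positivity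
        omega
      have huE : (E : ℚ) * κ = u := by
        rw [hE, hu]
        push_cast
        have := Rat.mul_den_eq_num κ
        rw [← this]
        ring
      have hvE : (E : ℚ) * ρ = v := by
        rw [hE, hv]
        push_cast
        have := Rat.mul_den_eq_num ρ
        rw [← this]
        ring
      have huR : (E : ℝ) * κ = u := by exact_mod_cast huE
      have hvR : (E : ℝ) * ρ = v := by exact_mod_cast hvE
      have hval : ∀ m k : ℤ, evz c (m + u * E * k ^ 2 + v * k, E * k) =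
          (((k : ℚ) * (Polynomial.C ((E : ℚ) * β₁)).eval (m : ℚ) +
            (Polynomial.C (c 2 0) * (Polynomial.X - Polynomial.C σ) ^ 2 +
              Polynomial.C β₀).eval (m : ℚ) : ℚ) : ℝ) := by
        intro m k
        have h1 : evz c (m + u * E * k ^ 2 + v * k, E * k) = _ :=
          hev ((m + u * E * k ^ 2 + v * k : ℤ) : ℝ) ((E * k : ℤ) : ℝ)
        rw [h1]
        simp only [Polynomial.eval_C, Polynomial.eval_add, Polynomial.eval_mul,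
          Polynomial.eval_pow, Polynomial.eval_sub, Polynomial.eval_X]
        push_cast
        rw [← huR, ← hvR]
        ring
      have hdom : ∀ m k : ℤ, 0 ≤ m → 1 + |Y₀| + |K₀ * E| + |v| ≤ k →
          (m + u * E * k ^ 2 + v * k, E * k) ∈ {P : ℤ × ℤ | Y₀ ≤ P.2 ∧ K₀ * P.2 ≤ P.1} := by
        intro m k hm hk
        have a1 := abs_nonneg Y₀
        have a2 := abs_nonneg (K₀ * E)
        have a3 := abs_nonneg v
        have a4 := le_abs_self Y₀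
        have a5 := le_abs_self (K₀ * E)
        have a6 := neg_abs_le v
        have hk0 : 0 ≤ k := by linarith
        refine ⟨?_, ?_⟩
        · show Y₀ ≤ E * k
          nlinarith
        · show K₀ * (E * k) ≤ m + u * E * k ^ 2 + v * k
          have h1 : K₀ * E - v ≤ k := by linarith
          have h2 : 1 ≤ u * E := by nlinarith
          have h3 : k ≤ u * E * k := by nlinarith
          have h4 : (K₀ * E - v) * k ≤ (u * E * k) * k :=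
            mul_le_mul_of_nonneg_right (h1.trans h3) hk0
          linarith
      refine pp_false (Polynomial.C ((E : ℚ) * β₁))
        (Polynomial.C (c 2 0) * (Polynomial.X - Polynomial.C σ) ^ 2 + Polynomial.C β₀)
        (fun _ => 1 + |Y₀| + |K₀ * E| + |v|) ?_ ?_
      · intro m k hm hk
        obtain ⟨w, hw⟩ := hNI.1 _ (hdom m k hm hk)
        rw [hval] at hw
        exact ⟨w, by exact_mod_cast hw⟩
      · intro m k m' k' hm hk hm' hk' heq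
        have h1 : evz c (m + u * E * k ^ 2 + v * k, E * k) =
            evz c (m' + u * E * k' ^ 2 + v * k', E * k') := by
          rw [hval, hval, heq]
        have h2 := hNI.2 (hdom m k hm hk) (hdom m' k' hm' hk') h1
        rw [Prod.mk.injEq] at h2
        have h3 : k = k' := by
          have := h2.2
          exact mul_left_cancel₀ (by omega) this
        subst h3
        exact ⟨by linarith [h2.1], rfl⟩
    · exfalso
      refine qf_false (c 2 0) β₂ β₁ β₀ κ ρ σ ha hb2 fun m => ?_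
      obtain ⟨P, hP⟩ := hsur m
      refine ⟨P.1, P.2, ?_⟩
      have h1 : evz c P = _ := hev (P.1 : ℝ) (P.2 : ℝ)
      rw [hP] at h1
      have h2 : ((m : ℚ) : ℝ) = ((c 2 0 * ((P.1 : ℚ) - (κ * (P.2 : ℚ) ^ 2 + ρ * P.2 + σ)) ^ 2 +
          β₂ * (P.2 : ℚ) ^ 2 + β₁ * P.2 + β₀ : ℚ) : ℝ) := by
        push_cast
        rw [h1]
        push_cast
        ring
      exact (Rat.cast_injective h2).symm
  · -- positive leading coefficient
    have hb3R : (0 : ℝ) < (β₃ : ℝ) := by exact_mod_cast hb3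
    set B : ℝ := |(β₂ : ℝ)| + |(β₁ : ℝ)| + |(β₀ : ℝ)| with hB
    refine ⟨max 1 ⌈2 * B / (β₃ : ℝ)⌉, ?_⟩
    have hmin : 0 < min (c 2 0 : ℝ) (β₃ : ℝ) / 2 := by
      have := lt_min haR hb3R
      linarith
    refine null_A (fun y => (κ : ℝ) * (y : ℝ) ^ 2 + ρ * y + σ) hmin fun P hP => ?_
    obtain ⟨hP1, -⟩ := hP
    have h1 : 1 ≤ P.2 := (le_max_left _ _).trans hP1
    have h2 : ⌈2 * B / (β₃ : ℝ)⌉ ≤ P.2 := (le_max_right _ _).trans hP1
    refine ⟨by omega, ?_⟩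
    have h1' : (1 : ℝ) ≤ P.2 := by exact_mod_cast h1
    have h3 : 2 * B / (β₃ : ℝ) ≤ P.2 := Int.ceil_le.1 h2
    rw [div_le_iff₀ hb3R] at h3
    have h4 := (abs_le.1 (pat4_low (β₂ : ℝ) (β₁ : ℝ) (β₀ : ℝ) h1')).1
    rw [← hB] at h4
    have h5 := mul_le_mul_of_nonneg_right h3 (by positivity : (0 : ℝ) ≤ (P.2 : ℝ) ^ 2)
    have h6 : evz c P = _ := hev (P.1 : ℝ) (P.2 : ℝ)
    rw [h6]
    have h7 : min (c 2 0 : ℝ) (β₃ : ℝ) / 2 * ((P.1 : ℝ) - ((κ : ℝ) * (P.2 : ℝ) ^ 2 + ρ * P.2 + σ)) ^ 2 ≤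
        c 2 0 * ((P.1 : ℝ) - ((κ : ℝ) * (P.2 : ℝ) ^ 2 + ρ * P.2 + σ)) ^ 2 := by
      refine mul_le_mul_of_nonneg_right ?_ (sq_nonneg _)
      have := min_le_left (c 2 0 : ℝ) (β₃ : ℝ)
      linarith
    have h8 : min (c 2 0 : ℝ) (β₃ : ℝ) / 2 * (P.2 : ℝ) ^ 3 ≤ β₃ / 2 * (P.2 : ℝ) ^ 3 := by
      refine mul_le_mul_of_nonneg_right ?_ (by positivity)
      have := min_le_right (c 2 0 : ℝ) (β₃ : ℝ)
      linarith
    rw [mul_add]
    nlinarith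

end Pool.Agent.Lib.MP_ff4e96_co
end

section

/-!
# MP_ff4e96_co: degenerate clusters of weight 6

`shift6` and `pat6_high` (with `null_mono`, `tame_of_null` for `Y ≥ Y₁`) or `pat6_low`.
-/

namespace Pool.Agent.Lib.MP_ff4e96_co

open Filter Topology

theorem pat6 {c : ℕ → ℕ → ℚ} {κ : ℚ} (hκ : 0 < κ) (h : Deg6 c κ) (K₀ Y₀ : ℤ)
    (hNI : NI (evz c) {P | Y₀ ≤ P.2 ∧ K₀ * P.2 ≤ P.1}) :
    ∃ δ : ℝ, 0 < δ ∧ δ < κ ∧ ∃ Y₁ : ℤ, ∀ Y : ℤ, Y₁ ≤ Y →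
      Tame (vals (evz c) {P | Y ≤ P.2 ∧ |(P.1 : ℝ) - κ * (P.2 : ℝ) ^ 2| ≤ δ * (P.2 : ℝ) ^ 2}) := by
  obtain ⟨ρ, σ, a₁, a₀, e₁, e₀, β₅, β₄, β₃, β₂, β₁, β₀, hs⟩ := shift6 hκ h
  have hc : 0 < c 3 0 := h.1
  by_cases hh : β₅ ≠ 0 ∨ β₄ ≠ 0 ∨ β₃ ≠ 0
  · obtain ⟨δ, h1, h2, Y, h3⟩ := pat6_high (c 3 0) κ ρ σ a₁ a₀ e₁ e₀ β₅ β₄ β₃ β₂ β₁ β₀ hc hκ
      (evz c) (fun x y => hs x y) K₀ Y₀ (fun x y hy hx => hNI.nonneg ⟨hy, hx⟩) hh
    refine ⟨δ, h1, h2, Y, fun Y' hY' => tame_of_null (null_mono (vals_mono ?_) h3)⟩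
    intro P hP
    exact ⟨hY'.trans hP.1, hP.2⟩
  · push Not at hh
    obtain ⟨h5, h4, h3⟩ := hh
    refine pat6_low (c 3 0) κ ρ σ a₁ a₀ e₁ e₀ β₂ β₁ β₀ hc hκ (evz c) (fun x y => ?_) K₀ Y₀ hNI
    have h6 := hs x y
    rw [h5, h4, h3] at h6
    change ev c (x : ℝ) (y : ℝ) = _
    rw [h6]
    push_cast
    ring

end Pool.Agent.Lib.MP_ff4e96_co
end

section

/-!
# MP_ff4e96_co: one side of a rational direction

`rl`: Let `Y₀ = max X₀ 0`, `K₀' = max K₀ 1`: `{Y₀ ≤ y, K₀' y ≤ x} ⊆ Reg K₀ X₀`.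
If all `c i j` with `2 ≤ i`, `i + j ≤ 5` are 0 then `F = x A(y) + B(y)` and `pp_false` (with `m = y`,
`k = x`, `k₀ m = max X₀ (K₀ m)`) gives a contradiction.
Claim: there are `K ≥ max K₁ 1` and `Y` such that for all `Y' ≥ Y` the set `vals F {Y' ≤ y, K y ≤ x}` is tame.
 - `Deg4 c κ` or `Deg5 c κ` for some `κ > 0`: `pat4`, `pat5`, `null_mono`.
 - otherwise, if `Deg6 c κ` for some `κ > 0` take `δ`, `Y₁` from `pat6` (`κ` is unique), otherwise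
   `δ = 1`. `nd` for this `δ` gives `c₀`, `K`, `Y`; enlarge `K` so that `K ≥ K₁` and `Y` so that
   `Y ≥ Y₁` and such that `|x - κ y²| ≤ δ y²`, `y ≥ Y` implies `K y ≤ x` (`δ < κ`). The set
   `{Y' ≤ y, K y ≤ x}` is the union of the near part (tame) and a part where `c₀ (x² + y³) ≤ F`
   (null by `null_A` with `p = 0`).
Then `X = K Y'` with `Y' = max Y X₁ (..)`: `Reg K (K Y')` is the union of the set `{Y' ≤ y, K y ≤ x}` and of the lines
`y = j`, `x ≥ K Y'`, `0 ≤ j < Y'` (`tame_line`, as `K Y' ≥ X₀` and `K Y' ≥ K₀ j`). `tame_iUnion`.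
-/

namespace Pool.Agent.Lib.MP_ff4e96_co

open Filter Topology

theorem rl_core {c : ℕ → ℕ → ℚ} (K₀ Y₀ : ℤ)
    (h3 : ∃ i j, i + j ≤ 5 ∧ 3 ≤ i + j ∧ c i j ≠ 0)
    (h2 : ∃ i j, i + j ≤ 5 ∧ 2 ≤ i ∧ c i j ≠ 0)
    (hNI : NI (evz c) {P | Y₀ ≤ P.2 ∧ K₀ * P.2 ≤ P.1})
    (hsur : ∀ m : ℕ, ∃ P : ℤ × ℤ, evz c P = m) (K₁ : ℤ) :
    ∃ K Y : ℤ, K₁ ≤ K ∧ 1 ≤ K ∧ ∀ Y' : ℤ, Y ≤ Y' →
      Tame (vals (evz c) {P | Y' ≤ P.2 ∧ K * P.2 ≤ P.1}) := by
  have hsub : ∀ K : ℤ, K₀ ≤ K → ({P : ℤ × ℤ | max Y₀ 0 ≤ P.2 ∧ K * P.2 ≤ P.1}) ⊆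
      {P : ℤ × ℤ | Y₀ ≤ P.2 ∧ K₀ * P.2 ≤ P.1} := by
    rintro K hK ⟨x, y⟩ ⟨h1, h4⟩
    have hy0 : 0 ≤ y := (le_max_right _ _).trans h1
    refine ⟨(le_max_left _ _).trans h1, ?_⟩
    exact (mul_le_mul_of_nonneg_right hK hy0).trans h4
  by_cases hd4 : ∃ κ : ℚ, 0 < κ ∧ Deg4 c κ
  · obtain ⟨κ, hκ, hd⟩ := hd4
    obtain ⟨Y, hY⟩ := pat4 hκ hd (max K₀ (max K₁ 1)) (max Y₀ 0)
      (NI.mono (hsub _ (le_max_left _ _)) hNI) hsur
    refine ⟨max K₀ (max K₁ 1), Y, (le_max_left _ _).trans (le_max_right _ _),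
      (le_max_right _ _).trans (le_max_right _ _), fun Y' hY' => ?_⟩
    refine tame_of_null (null_mono (vals_mono ?_) hY)
    rintro P ⟨h1, h4⟩
    exact ⟨hY'.trans h1, h4⟩
  by_cases hd5 : ∃ κ : ℚ, 0 < κ ∧ Deg5 c κ
  · obtain ⟨κ, hκ, hd⟩ := hd5
    obtain ⟨Y, hY⟩ := pat5 hκ hd (max K₀ (max K₁ 1)) (max Y₀ 0)
      (NI.mono (hsub _ (le_max_left _ _)) hNI)
    refine ⟨max K₀ (max K₁ 1), Y, (le_max_left _ _).trans (le_max_right _ _),
      (le_max_right _ _).trans (le_max_right _ _), fun Y' hY' => ?_⟩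
    refine tame_of_null (null_mono (vals_mono ?_) hY)
    rintro P ⟨h1, h4⟩
    exact ⟨hY'.trans h1, h4⟩
  have hpos : ∀ x y : ℤ, Y₀ ≤ y → K₀ * y ≤ x → 0 ≤ ev c x y := by
    intro x y hy hx
    exact hNI.nonneg (P := (x, y)) ⟨hy, hx⟩
  by_cases hd6 : ∃ κ : ℚ, 0 < κ ∧ Deg6 c κ
  · obtain ⟨κ, hκ, hd⟩ := hd6
    obtain ⟨δ, hδ, hδκ, Y₁, hY₁⟩ := pat6 hκ hd K₀ Y₀ hNI
    obtain ⟨c₀, hc₀, K, Y, hK, hY, hnd⟩ := nd c hδ h3 h2 K₀ Y₀ hpos
    obtain ⟨M, hM⟩ := exists_int_gt (((max K (max K₁ 1) : ℤ) : ℝ) / ((κ : ℝ) - δ))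
    refine ⟨max K (max K₁ 1), max Y (max Y₁ M), (le_max_left _ _).trans (le_max_right _ _),
      (le_max_right _ _).trans (le_max_right _ _), fun Y' hY' => ?_⟩
    have hYY : Y ≤ Y' := (le_max_left _ _).trans hY'
    have hY1 : Y₁ ≤ Y' := ((le_max_left _ _).trans (le_max_right _ _)).trans hY'
    have hYM : M ≤ Y' := ((le_max_right _ _).trans (le_max_right _ _)).trans hY'
    have hunion : ({P : ℤ × ℤ | Y' ≤ P.2 ∧ (max K (max K₁ 1)) * P.2 ≤ P.1}) ⊆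
        {P : ℤ × ℤ | Y' ≤ P.2 ∧ |(P.1 : ℝ) - κ * (P.2 : ℝ) ^ 2| ≤ δ * (P.2 : ℝ) ^ 2} ∪
        {P : ℤ × ℤ | 0 ≤ P.2 ∧ c₀ * (((P.1 : ℝ) - (fun _ : ℤ => (0 : ℝ)) P.2) ^ 2 +
          (P.2 : ℝ) ^ 3) ≤ evz c P} := by
      rintro ⟨x, y⟩ ⟨h1, h4⟩
      have hy1 : 1 ≤ y := (hY.trans hYY).trans h1
      have h5 : K * y ≤ x :=
        (mul_le_mul_of_nonneg_right (le_max_left _ _) (by linarith)).trans h4
      rcases hnd x y (hYY.trans h1) h5 with h6 | ⟨κ', hκ', hnear, hdeg⟩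
      · right
        refine ⟨by simp only; linarith, ?_⟩
        simp only [sub_zero]
        exact h6
      · left
        refine ⟨h1, ?_⟩
        rcases hdeg with h7 | h7 | h7
        · exact absurd ⟨κ', hκ', h7⟩ hd4
        · exact absurd ⟨κ', hκ', h7⟩ hd5
        · have h8 : κ' = κ := by
            have e1 := h7.2.1
            have e2 := hd.2.1
            rw [e2] at e1
            have h9 := hd.1.ne'
            have h10 : (-2 * κ) * c 3 0 = (-2 * κ') * c 3 0 := e1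
            have h11 := mul_right_cancel₀ h9 h10
            linarith
          rw [h8] at hnear
          exact hnear
    have hback : {P : ℤ × ℤ | Y' ≤ P.2 ∧ |(P.1 : ℝ) - κ * (P.2 : ℝ) ^ 2| ≤ δ * (P.2 : ℝ) ^ 2} ⊆
        {P : ℤ × ℤ | Y' ≤ P.2 ∧ (max K (max K₁ 1)) * P.2 ≤ P.1} := by
      rintro ⟨x, y⟩ ⟨h1, h4⟩
      refine ⟨h1, ?_⟩
      simp only at h1 h4 ⊢
      have hy1 : 1 ≤ y := (hY.trans hYY).trans h1
      have hy1' : (1 : ℝ) ≤ (y : ℝ) := by exact_mod_cast hy1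
      have h5 := (abs_le.1 h4).1
      have hMy : (M : ℝ) ≤ (y : ℝ) := by exact_mod_cast hYM.trans h1
      have hκδ : 0 < (κ : ℝ) - δ := by linarith
      have h6 : ((max K (max K₁ 1) : ℤ) : ℝ) < (κ - δ) * y := by
        rw [div_lt_iff₀ hκδ] at hM
        nlinarith
      have h7 : ((max K (max K₁ 1) : ℤ) : ℝ) * y ≤ x := by
        nlinarith
      exact_mod_cast h7
    have heq : vals (evz c) {P : ℤ × ℤ | Y' ≤ P.2 ∧ (max K (max K₁ 1)) * P.2 ≤ P.1} =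
        vals (evz c) {P : ℤ × ℤ | Y' ≤ P.2 ∧
          |(P.1 : ℝ) - κ * (P.2 : ℝ) ^ 2| ≤ δ * (P.2 : ℝ) ^ 2} ∪
        vals (evz c) ({P : ℤ × ℤ | Y' ≤ P.2 ∧ (max K (max K₁ 1)) * P.2 ≤ P.1} ∩
          {P : ℤ × ℤ | 0 ≤ P.2 ∧ c₀ * (((P.1 : ℝ) - (fun _ : ℤ => (0 : ℝ)) P.2) ^ 2 +
          (P.2 : ℝ) ^ 3) ≤ evz c P}) := by
      rw [← vals_union]
      congr 1
      apply Set.Subset.antisymm
      · intro P hP
        rcases hunion hP with h | h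
        · exact Or.inl h
        · exact Or.inr ⟨hP, h⟩
      · rintro P (h | h)
        · exact hback h
        · exact h.1
    rw [heq]
    refine tame_union (hY₁ Y' hY1) (tame_of_null (null_A (fun _ => 0) hc₀ ?_))
    intro P hP
    exact hP.2
  · obtain ⟨c₀, hc₀, K, Y, hK, hY, hnd⟩ := nd c one_pos h3 h2 K₀ Y₀ hpos
    refine ⟨max K (max K₁ 1), Y, (le_max_left _ _).trans (le_max_right _ _),
      (le_max_right _ _).trans (le_max_right _ _), fun Y' hY' => ?_⟩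
    refine tame_of_null (null_A (fun _ => 0) hc₀ ?_)
    rintro ⟨x, y⟩ ⟨h1, h4⟩
    have hy1 : 1 ≤ y := (hY.trans hY').trans h1
    have h5 : K * y ≤ x :=
      (mul_le_mul_of_nonneg_right (le_max_left _ _) (by linarith)).trans h4
    rcases hnd x y (hY'.trans h1) h5 with h6 | ⟨κ', hκ', hnear, hdeg⟩
    · refine ⟨by simp only; linarith, ?_⟩
      simp only [sub_zero]
      exact h6
    · exfalso
      rcases hdeg with h7 | h7 | h7
      · exact hd4 ⟨κ', hκ', h7⟩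
      · exact hd5 ⟨κ', hκ', h7⟩
      · exact hd6 ⟨κ', hκ', h7⟩

private theorem rl_line {c : ℕ → ℕ → ℚ} (j t₀ : ℤ)
    (hN : ∀ t : ℤ, t₀ ≤ t → ∃ v : ℕ, evz c (t, j) = v)
    (hinj : ∀ t t' : ℤ, t₀ ≤ t → t₀ ≤ t' → evz c (t, j) = evz c (t', j) → t = t') :
    Tame {v : ℕ | ∃ t : ℤ, t₀ ≤ t ∧ evz c (t, j) = v} := by
  set f : Polynomial ℚ := ∑ i ∈ Finset.range 6, ∑ k ∈ Finset.range (6 - i),
    Polynomial.C (c i k * (j : ℚ) ^ k) * Polynomial.X ^ i with hf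
  have hev : ∀ t : ℤ, ((f.eval (t : ℚ) : ℚ) : ℝ) = evz c (t, j) := by
    intro t
    rw [hf]
    simp only [evz, ev, Polynomial.eval_finsetSum, Polynomial.eval_mul, Polynomial.eval_C,
      Polynomial.eval_pow, Polynomial.eval_X]
    push_cast
    refine Finset.sum_congr rfl fun i _ => Finset.sum_congr rfl fun k _ => ?_
    ring
  have h1 := tame_line f t₀ (by
    intro t ht
    obtain ⟨v, hv⟩ := hN t ht
    refine ⟨v, ?_⟩
    rw [← hev t] at hv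
    exact_mod_cast hv) (by
    intro t t' ht ht' h
    apply hinj t t' ht ht'
    rw [← hev, ← hev, h])
  have h2 : {v : ℕ | ∃ t : ℤ, t₀ ≤ t ∧ evz c (t, j) = v} =
      {v : ℕ | ∃ t : ℤ, t₀ ≤ t ∧ f.eval (t : ℚ) = v} := by
    ext v
    constructor
    · rintro ⟨t, ht, h⟩
      refine ⟨t, ht, ?_⟩
      rw [← hev t] at h
      exact_mod_cast h
    · rintro ⟨t, ht, h⟩
      refine ⟨t, ht, ?_⟩
      rw [← hev t, h]
      simp
  rw [h2]
  exact h1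

theorem rl {c : ℕ → ℕ → ℚ} (K₀ X₀ : ℤ)
    (h3 : ∃ i j, i + j ≤ 5 ∧ 3 ≤ i + j ∧ c i j ≠ 0)
    (hNI : NI (evz c) (Reg K₀ X₀))
    (hsur : ∀ m : ℕ, ∃ P : ℤ × ℤ, evz c P = m) (K₁ X₁ : ℤ) :
    ∃ K X : ℤ, K₁ ≤ K ∧ X₁ ≤ X ∧ Tame (vals (evz c) (Reg K X)) := by
  by_cases h2 : ∃ i j, i + j ≤ 5 ∧ 2 ≤ i ∧ c i j ≠ 0
  · have hsub : {P : ℤ × ℤ | max X₀ 0 ≤ P.2 ∧ (max K₀ 1) * P.2 ≤ P.1} ⊆ Reg K₀ X₀ := by
      rintro ⟨x, y⟩ ⟨h1, h4⟩
      simp only at h1 h4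
      have hy0 : 0 ≤ y := (le_max_right _ _).trans h1
      have hyX : X₀ ≤ y := (le_max_left _ _).trans h1
      refine ⟨hy0, ?_, ?_⟩
      · exact (mul_le_mul_of_nonneg_right (le_max_left _ _) hy0).trans h4
      · have : 1 * y ≤ max K₀ 1 * y := mul_le_mul_of_nonneg_right (le_max_right _ _) hy0
        simp only
        linarith
    obtain ⟨K, Y, hK1, hK, hT⟩ := rl_core (max K₀ 1) (max X₀ 0) h3 h2 (NI.mono hsub hNI) hsur
      (max K₁ (max K₀ 1))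
    set Y' : ℤ := max Y (max X₁ (max X₀ 0)) with hY'
    have hYY : Y ≤ Y' := le_max_left _ _
    have hYX1 : X₁ ≤ Y' := (le_max_left _ _).trans (le_max_right _ _)
    have hYX0 : X₀ ≤ Y' :=
      ((le_max_left _ _).trans (le_max_right _ _)).trans (le_max_right _ _)
    have hY0 : 0 ≤ Y' :=
      ((le_max_right _ _).trans (le_max_right _ _)).trans (le_max_right _ _)
    have hKY : Y' ≤ K * Y' := by nlinarith
    have hK0 : K₀ ≤ K := ((le_max_left _ _).trans (le_max_right _ _)).trans hK1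
    refine ⟨K, K * Y', (le_max_left _ _).trans hK1, hYX1.trans hKY, ?_⟩
    have heq : vals (evz c) (Reg K (K * Y')) =
        vals (evz c) {P | Y' ≤ P.2 ∧ K * P.2 ≤ P.1} ∪
        ⋃ j ∈ Finset.Ico (0 : ℤ) Y', {v : ℕ | ∃ t : ℤ, K * Y' ≤ t ∧ evz c (t, j) = v} := by
      ext v
      constructor
      · rintro ⟨⟨x, y⟩, ⟨h1, h4, h5⟩, hv⟩
        simp only at h1 h4 h5
        rcases le_or_gt Y' y with h | h
        · exact Or.inl ⟨(x, y), ⟨h, h4⟩, hv⟩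
        · right
          simp only [Set.mem_iUnion]
          exact ⟨y, Finset.mem_Ico.2 ⟨h1, h⟩, x, h5, hv⟩
      · rintro (⟨⟨x, y⟩, ⟨h1, h4⟩, hv⟩ | h)
        · simp only at h1 h4
          refine ⟨(x, y), ⟨hY0.trans h1, h4, ?_⟩, hv⟩
          exact (mul_le_mul_of_nonneg_left h1 (by linarith)).trans h4
        · simp only [Set.mem_iUnion] at h
          obtain ⟨j, hj, t, ht, hv⟩ := h
          obtain ⟨hj1, hj2⟩ := Finset.mem_Ico.1 hj
          refine ⟨(t, j), ⟨hj1, ?_, ht⟩, hv⟩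
          exact (mul_le_mul_of_nonneg_left hj2.le (by linarith)).trans ht
    rw [heq]
    refine tame_union (hT Y' hYY) (tame_iUnion _ _ ?_)
    intro j hj
    obtain ⟨hj1, hj2⟩ := Finset.mem_Ico.1 hj
    have hmem : ∀ t : ℤ, K * Y' ≤ t → (t, j) ∈ Reg K₀ X₀ := by
      intro t ht
      refine ⟨hj1, ?_, (hYX0.trans hKY).trans ht⟩
      refine le_trans ?_ ht
      calc K₀ * j ≤ K * j := mul_le_mul_of_nonneg_right hK0 hj1
        _ ≤ K * Y' := mul_le_mul_of_nonneg_left hj2.le (by linarith)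
    refine rl_line j (K * Y') (fun t ht => hNI.1 _ (hmem t ht)) ?_
    intro t t' ht ht' h
    have := hNI.2 (hmem t ht) (hmem t' ht') h
    simpa using this
  · exfalso
    push Not at h2
    set A : Polynomial ℚ := ∑ k ∈ Finset.range 5, Polynomial.C (c 1 k) * Polynomial.X ^ k with hA
    set B : Polynomial ℚ := ∑ k ∈ Finset.range 6, Polynomial.C (c 0 k) * Polynomial.X ^ k with hB
    have hev : ∀ m k : ℤ, (((k : ℚ) * A.eval (m : ℚ) + B.eval (m : ℚ) : ℚ) : ℝ) = evz c (k, m) := by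
      intro m k
      rw [hA, hB, evz, ev_eq]
      rw [h2 2 0 (by norm_num) le_rfl, h2 2 1 (by norm_num) le_rfl, h2 2 2 (by norm_num) le_rfl,
        h2 2 3 (by norm_num) le_rfl, h2 3 0 (by norm_num) (by norm_num),
        h2 3 1 (by norm_num) (by norm_num), h2 3 2 (by norm_num) (by norm_num),
        h2 4 0 (by norm_num) (by norm_num), h2 4 1 (by norm_num) (by norm_num),
        h2 5 0 (by norm_num) (by norm_num)]
      simp only [Finset.sum_range_succ, Finset.sum_range_zero, Polynomial.eval_add,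
        Polynomial.eval_zero, Polynomial.eval_mul, Polynomial.eval_C, Polynomial.eval_pow,
        Polynomial.eval_X]
      push_cast
      ring
    have hmem : ∀ m k : ℤ, 0 ≤ m → max X₀ (K₀ * m) ≤ k → (k, m) ∈ Reg K₀ X₀ := fun m k hm hk =>
      ⟨hm, (le_max_right _ _).trans hk, (le_max_left _ _).trans hk⟩
    refine pp_false A B (fun m => max X₀ (K₀ * m)) ?_ ?_
    · intro m k hm hk
      obtain ⟨v, hv⟩ := hNI.1 _ (hmem m k hm hk)
      refine ⟨v, ?_⟩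
      rw [← hev] at hv
      exact_mod_cast hv
    · intro m k m' k' hm hk hm' hk' h
      have h5 := hNI.2 (hmem m k hm hk) (hmem m' k' hm' hk') (by rw [← hev, ← hev, h])
      rw [Prod.mk.injEq] at h5
      exact ⟨h5.2, h5.1⟩

end Pool.Agent.Lib.MP_ff4e96_co
end

section

/-!
# MP_ff4e96_co: irrational directions

`il`: `hom_nonneg_near`, `hom_factor` (so `d = 4` or `d = 5`), `nf4` or `nf5_top`, `nf5_neg`, `nf5_pos`, `nf5_zero`.
`LowC`: `null_C` (with `X ≥ 1`). `NF`: `nf_low1` or `nf_low2`, then `gap_null`. For `ε'` smaller than `η` use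
`null_mono`.
-/

namespace Pool.Agent.Lib.MP_ff4e96_co

open Filter Topology

private theorem il_near {θ ε ε' : ℝ} {X X' : ℤ} (h1 : ε' ≤ ε) (h2 : X ≤ X') (h3 : 1 ≤ X') :
    Near θ ε' X' ⊆ Near θ ε X := by
  rintro P ⟨hP1, hP2⟩
  refine ⟨h2.trans hP1, hP2.trans (mul_le_mul_of_nonneg_right h1 ?_)⟩
  have : (0 : ℤ) ≤ P.1 := by linarith
  exact_mod_cast this

theorem il {c : ℕ → ℕ → ℚ} {d : ℕ} (hd : d ≤ 5)
    (htop : ∀ i j, i + j ≤ 5 → d < i + j → c i j = 0) {θ : ℝ} (hθ : Irrational θ)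
    (hne : ∃ j, j ≤ d ∧ c (d - j) j ≠ 0) (h0 : hom c d 1 θ = 0) {ε : ℝ} (hε : 0 < ε) {X : ℤ}
    (hNI : NI (evz c) (Near θ ε X)) {η : ℝ} (hη : 0 < η) :
    ∃ ε' : ℝ, 0 < ε' ∧ ε' ≤ η ∧ ∃ X' : ℤ, Null (vals (evz c) (Near θ ε' X')) := by
  have hpos : ∀ P ∈ Near θ ε X, 0 ≤ evz c P := fun P hP => hNI.nonneg hP
  obtain ⟨b, a, l₀, l₁, hfac⟩ := hom_factor hd hθ hε hne h0
    fun t ht => hom_nonneg_near hd htop hpos ht
  have hg := hfac.1
  have hl := hfac.2.1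
  have hcore : LowC (evz c) θ ∨ NF c θ b a := by
    rcases hfac.2.2 with ⟨hd4, hl1, -⟩ | ⟨hd5, -⟩
    · subst hd4
      subst hl1
      exact nf4 hθ hfac htop hε hpos
    · subst hd5
      rcases nf5_top hθ hfac hε hpos with h | ⟨q₀, q₁, q₂, u₀, u₁, u₂, u₃, v₀, v₁, v₂, w₁, w₂, w₀, hF⟩
      · exact Or.inl h
      · rcases lt_trichotomy (((q₀ : ℝ) + q₁ * θ + q₂ * θ ^ 2) ^ 2)
          (4 * (l₀ + l₁ * θ) * (u₀ + u₁ * θ + u₂ * θ ^ 2 + u₃ * θ ^ 3)) with hlt | heq | hgt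
        · exact Or.inl (nf5_neg hθ hg hl hF hlt)
        · exact Or.inr (nf5_zero hθ hg hl hF heq)
        · exact (nf5_pos hθ hg hl hF hε hpos hgt).elim
  rcases hcore with ⟨c₀, ε₁, hc, hε₁, X₁, hlow⟩ | ⟨n₁, n₂, n₃, a₀, a₁, a₂, b₀, b₁, b₂, α, β, e₀, e₁,
    e₂, hF, hcase⟩
  · refine ⟨min η ε₁, lt_min hη hε₁, min_le_left _ _, max 1 X₁, ?_⟩
    refine null_C θ (ε := min η ε₁) hc fun P hP => ?_
    have hP' := il_near (min_le_right η ε₁) (le_max_right 1 X₁) (le_max_left 1 X₁) hP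
    exact ⟨(le_max_left 1 X₁).trans hP.1, hP.2, hlow P hP'⟩
  · have hlow : ∃ c₀ ε' : ℝ, 0 < c₀ ∧ 0 < ε' ∧ ∃ X' : ℤ, ∀ P ∈ Near θ ε' X',
        c₀ * (NN b a n₁ n₂ n₃ P.1 P.2 ^ 2 + P.1) ≤ evz c P := by
      rcases hcase with ⟨ha1, ha2, ha0, hb0, hb1, hb2⟩ | ha
      · refine nf_low1 hθ hg (evz c) n₁ n₂ n₃ a₀ α β e₀ e₁ e₂ (fun x y => ?_) ha0 hε hNI
        have h1 : evz c (x, y) = _ := hF (x : ℝ) (y : ℝ)
        rw [h1, ha1, ha2, hb0, hb1, hb2]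
        push_cast
        ring
      · exact nf_low2 hθ hg (evz c) n₁ n₂ n₃ a₀ a₁ a₂ b₀ b₁ b₂ α β e₀ e₁ e₂
          (fun x y => hF (x : ℝ) (y : ℝ)) ha hε hNI
    obtain ⟨c₀, ε₁, hc, hε₁, X₁, hl2⟩ := hlow
    obtain ⟨ε₂, hε₂, X₂, hnull⟩ := gap_null hθ hg n₁ n₂ n₃ (evz c) hc hε₁ hl2
    refine ⟨min η ε₂, lt_min hη hε₂, min_le_left _ _, max 1 X₂, ?_⟩
    exact null_mono (vals_mono
      (il_near (min_le_right η ε₂) (le_max_right 1 X₂) (le_max_left 1 X₂))) hnull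

end Pool.Agent.Lib.MP_ff4e96_co
end

section

/-!
# MP_ff4e96_co: one side of a rational slope

`loc_side`: `e b + f a = 1`; `(u, v) ↦ (b u - f v, a u + e v)` is a bijection of `ℤ²` (determinant `b e + f a = 1`;
inverse `(x, y) ↦ (e x + f y, b y - a x)`). It maps `Reg K X` into `S₀` by assumption. `F' = F ∘ (this map) = ev c'`
(`subst`). Apply `rl` to `c'`.
-/

namespace Pool.Agent.Lib.MP_ff4e96_co

open Filter Topology

theorem loc_side {c : ℕ → ℕ → ℚ} (h3 : ∃ i j, i + j ≤ 5 ∧ 3 ≤ i + j ∧ c i j ≠ 0)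
    (hsur : ∀ m : ℕ, ∃ P : ℤ × ℤ, evz c P = m) (p q r s : ℤ) (hdet : p * s - q * r = 1 ∨
      p * s - q * r = -1) {S₀ : Set (ℤ × ℤ)} (hNI : NI (evz c) S₀) (K₀ X₀ : ℤ)
    (hS : ∀ P ∈ Reg K₀ X₀, (p * P.1 + q * P.2, r * P.1 + s * P.2) ∈ S₀) (K₁ X₁ : ℤ) :
    ∃ K X : ℤ, K₁ ≤ K ∧ X₁ ≤ X ∧ K₀ ≤ K ∧ X₀ ≤ X ∧
      Tame (vals (evz c) ((fun P : ℤ × ℤ => (p * P.1 + q * P.2, r * P.1 + s * P.2)) '' Reg K X)) := by
  obtain ⟨c', hc', h3'⟩ := subst c p q r s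
  have hne : p * s - q * r ≠ 0 := by
    rcases hdet with h | h <;> rw [h] <;> norm_num
  have hev : ∀ P : ℤ × ℤ, evz c (p * P.1 + q * P.2, r * P.1 + s * P.2) = evz c' P := by
    intro P
    have := hc' (P.1 : ℝ) (P.2 : ℝ)
    simp only [evz]
    rw [← this]
    push_cast
    rfl
  have hNI' : NI (evz c') (Reg K₀ X₀) := by
    refine ⟨fun P hP => ?_, fun P hP Q hQ hPQ => ?_⟩
    · rw [← hev]
      exact hNI.1 _ (hS P hP)
    · rw [← hev, ← hev] at hPQ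
      have h1 := hNI.2 (hS P hP) (hS Q hQ) hPQ
      rw [Prod.mk.injEq] at h1
      obtain ⟨h1, h2⟩ := h1
      have e1 : (p * s - q * r) * (P.1 - Q.1) = 0 := by linear_combination s * h1 - q * h2
      have e2 : (p * s - q * r) * (P.2 - Q.2) = 0 := by linear_combination p * h2 - r * h1
      have f1 := (mul_eq_zero.1 e1).resolve_left hne
      have f2 := (mul_eq_zero.1 e2).resolve_left hne
      exact Prod.ext (by omega) (by omega)
  have hsur' : ∀ m : ℕ, ∃ P : ℤ × ℤ, evz c' P = m := by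
    intro m
    obtain ⟨P, hP⟩ := hsur m
    refine ⟨((p * s - q * r) * (s * P.1 - q * P.2), (p * s - q * r) * (p * P.2 - r * P.1)), ?_⟩
    rw [← hev]
    have hsq : (p * s - q * r) * (p * s - q * r) = 1 := by
      rcases hdet with h | h <;> rw [h] <;> norm_num
    have e1 : p * ((p * s - q * r) * (s * P.1 - q * P.2)) +
        q * ((p * s - q * r) * (p * P.2 - r * P.1)) = P.1 := by
      linear_combination P.1 * hsq
    have e2 : r * ((p * s - q * r) * (s * P.1 - q * P.2)) +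
        s * ((p * s - q * r) * (p * P.2 - r * P.1)) = P.2 := by
      linear_combination P.2 * hsq
    simp only
    rw [e1, e2]
    exact hP
  obtain ⟨K, X, hK, hX, hT⟩ := rl K₀ X₀ (h3' ⟨h3, hne⟩) hNI' hsur' (max K₁ K₀) (max X₁ X₀)
  refine ⟨K, X, (le_max_left _ _).trans hK, (le_max_left _ _).trans hX,
    (le_max_right _ _).trans hK, (le_max_right _ _).trans hX, ?_⟩
  have hvals : vals (evz c) ((fun P : ℤ × ℤ => (p * P.1 + q * P.2, r * P.1 + s * P.2)) '' Reg K X) =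
      vals (evz c') (Reg K X) := by
    ext v
    constructor
    · rintro ⟨_, ⟨P, hP, rfl⟩, hv⟩
      exact ⟨P, hP, by rw [← hev]; exact hv⟩
    · rintro ⟨P, hP, hv⟩
      exact ⟨_, ⟨P, hP, rfl⟩, by rw [hev]; exact hv⟩
  rw [hvals]
  exact hT

end Pool.Agent.Lib.MP_ff4e96_co
end

section

/-!
# MP_ff4e96_co: both sides of a rational slope

`loc_rat`: `s = a/b` in lowest terms, `b ≥ 1`, `0 ≤ a/b ≤ α`, `e b + f a = 1`. Right side (if `a/b < α`): the map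
above. For `v ≥ 0`, `u ≥ K v`, `u ≥ X`: `x = b u - f v ≥ (b - |f|/K) u > 0`, `y - (a/b) x = v/b ≥ 0` and
`≤ u/(b K)`, so for `K` large the slope is between `a/b` and `α` and `|y - (a/b) x| ≤ η x`. Left side (if
`0 < a/b`): the map `(u, v) ↦ (b u + f v, a u - e v)` (use `loc_side` with `e, f` replaced by `-e`, `-f`; its
determinant is `-1`; so `loc_side` is stated for both signs). The union `S` of the two images
(only one of them if `a = 0` or `a/b = α`) contains all points of the cone with `|y - (a/b) x| ≤ ε x`,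
`x ≥ X'` (`|v| = |b y - a x| ≤ b ε x`, `u = e x + f y ≥ x/(2 b)` for `ε` small: `u = (x - f v... )/b`: from
`x = b u - f v`), if `ε` is small: `u ≥ K |v|`, `u ≥ X`. For `a = 0` points of the cone have `v ≥ 0`,
for `a/b = α` they have `v ≤ 0`.
-/

namespace Pool.Agent.Lib.MP_ff4e96_co

open Filter Topology

private theorem side {c : ℕ → ℕ → ℚ} {α : ℚ}
    (h3 : ∃ i j, i + j ≤ 5 ∧ 3 ≤ i + j ∧ c i j ≠ 0)
    (hsur : ∀ m : ℕ, ∃ P : ℤ × ℤ, evz c P = m) (hNI : NI (evz c) (Cone α)) (t : ℚ)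
    (σ : ℤ) (hσ : σ = 1 ∨ σ = -1) {δ : ℝ} (hδ : 0 < δ)
    (hcone : ∀ x y : ℤ, 1 ≤ x → 0 ≤ (σ : ℝ) * (y - t * x) → (σ : ℝ) * (y - t * x) ≤ δ * x →
      (x, y) ∈ Cone α) {η : ℝ} (hη : 0 < η) :
    ∃ S : Set (ℤ × ℤ), S ⊆ Cone α ∧ S ⊆ Near t η 1 ∧ Tame (vals (evz c) S) ∧
      ∃ ε : ℝ, 0 < ε ∧ ∃ X : ℤ, 1 ≤ X ∧ ∀ P ∈ Near t ε X, 0 ≤ (σ : ℝ) * (P.2 - t * P.1) → P ∈ S := by
  have hσ2 : σ * σ = 1 := by rcases hσ with h | h <;> rw [h] <;> norm_num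
  have hσ2r : (σ : ℝ) * σ = 1 := by exact_mod_cast hσ2
  have hσa : |(σ : ℝ)| = 1 := by rcases hσ with h | h <;> rw [h] <;> norm_num
  set a : ℤ := t.num with ha
  set b : ℤ := (t.den : ℤ) with hb
  have hb1 : 1 ≤ b := by
    have := t.den_pos
    omega
  have hcop : IsCoprime b a := by
    rw [hb, ha, Int.isCoprime_iff_gcd_eq_one, Int.gcd_comm]
    exact t.reduced
  obtain ⟨e, f, hef⟩ := hcop
  have hbr1 : (1 : ℝ) ≤ b := by exact_mod_cast hb1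
  have hbr0 : (0 : ℝ) < b := by linarith
  have hta : (t : ℝ) * b = a := by
    have h1 : t * (t.den : ℚ) = t.num := Rat.mul_den_eq_num t
    have h2 : ((t * (t.den : ℚ) : ℚ) : ℝ) = ((t.num : ℚ) : ℝ) := by rw [h1]
    push_cast at h2
    rw [hb, ha]
    push_cast
    exact h2
  have hefr : (e : ℝ) * b + f * a = 1 := by exact_mod_cast hef
  -- the constant `K₀`
  obtain ⟨N, hN⟩ := exists_nat_ge (2 * |(f : ℝ)| + 2 / min δ η)
  have hm : 0 < min δ η := lt_min hδ hη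
  have hN1 : 2 * |(f : ℝ)| ≤ N := by
    have : 0 < 2 / min δ η := by positivity
    linarith
  have hN2 : 2 ≤ min δ η * N := by
    have h1 : 2 / min δ η ≤ N := by
      have : 0 ≤ 2 * |(f : ℝ)| := by positivity
      linarith
    rw [div_le_iff₀ hm] at h1
    linarith
  have hN1z : 2 * |f| ≤ (N : ℤ) := by
    have : ((2 * |f| : ℤ) : ℝ) ≤ ((N : ℤ) : ℝ) := by
      push_cast
      exact hN1
    exact_mod_cast this
  have hin : ∀ P ∈ Reg (N : ℤ) 1, (b * P.1 + (-(σ * f)) * P.2, a * P.1 + (σ * e) * P.2) ∈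
      Cone α ∩ Near (t : ℝ) η 1 := by
    rintro ⟨u, v⟩ ⟨hv, hKv, hu⟩
    simp only at hv hKv hu ⊢
    set x : ℤ := b * u + (-(σ * f)) * v with hx
    set y : ℤ := a * u + (σ * e) * v with hy
    have hvr : (0 : ℝ) ≤ v := by exact_mod_cast hv
    have hur : (1 : ℝ) ≤ u := by exact_mod_cast hu
    have hKvr : (N : ℝ) * v ≤ u := by exact_mod_cast hKv
    have hxr : (x : ℝ) = b * u - σ * f * v := by
      rw [hx]
      push_cast
      ring
    have hyr : (y : ℝ) = a * u + σ * e * v := by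
      rw [hy]
      push_cast
      ring
    have h1 : (σ : ℝ) * f * v ≤ |(f : ℝ)| * v := by
      refine mul_le_mul_of_nonneg_right ?_ hvr
      calc (σ : ℝ) * f ≤ |(σ : ℝ) * f| := le_abs_self _
        _ = |(f : ℝ)| := by rw [abs_mul, hσa, one_mul]
    have h2 : 2 * (|(f : ℝ)| * v) ≤ u := by
      have := mul_le_mul_of_nonneg_right hN1 hvr
      nlinarith
    have h3 : (u : ℝ) ≤ b * u := by nlinarith
    have h2x : (u : ℝ) ≤ 2 * x := by rw [hxr]; linarith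
    have hx1 : 1 ≤ x := by
      have : (1 : ℝ) ≤ 2 * x := hur.trans h2x
      have : (1 : ℤ) ≤ 2 * x := by exact_mod_cast this
      omega
    have hyt : (σ : ℝ) * (y - t * x) = v / b := by
      rw [eq_div_iff hbr0.ne', hyr, hxr]
      linear_combination (-(b : ℝ) * u * σ + f * v * σ * σ) * hta + σ * σ * v * hefr +
        v * hσ2r
    have h4 : (v : ℝ) / b ≤ v := div_le_self hvr hbr1
    have h5 : (0 : ℝ) ≤ v / b := by positivity
    have h6 : (v : ℝ) ≤ min δ η * x := by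
      have : min δ η * (N * v) ≤ min δ η * (2 * x) :=
        mul_le_mul_of_nonneg_left (hKvr.trans h2x) hm.le
      nlinarith
    have hxr0 : (0 : ℝ) ≤ x := by linarith
    refine ⟨hcone x y hx1 (by rw [hyt]; exact h5) ?_, hx1, ?_⟩
    · rw [hyt]
      exact h4.trans (h6.trans (mul_le_mul_of_nonneg_right (min_le_left _ _) hxr0))
    · simp only
      have h7 : |(y : ℝ) - t * x| = |(σ : ℝ) * (y - t * x)| := by rw [abs_mul, hσa, one_mul]
      rw [h7, hyt, abs_of_nonneg h5]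
      exact h4.trans (h6.trans (mul_le_mul_of_nonneg_right (min_le_right _ _) hxr0))
  have hdet : b * (σ * e) - (-(σ * f)) * a = 1 ∨ b * (σ * e) - (-(σ * f)) * a = -1 := by
    have h1 : b * (σ * e) - (-(σ * f)) * a = σ := by linear_combination σ * hef
    rw [h1]
    exact hσ
  obtain ⟨K, X, hK, hX, -, -, hT⟩ := loc_side h3 hsur b (-(σ * f)) a (σ * e) hdet
    (hNI.mono (Set.inter_subset_left : Cone α ∩ Near (t : ℝ) η 1 ⊆ Cone α)) (N : ℤ) 1 hin (N : ℤ) 1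
  have hK0 : 0 ≤ K := le_trans (by positivity) hK
  have hKr0 : (0 : ℝ) ≤ K := by exact_mod_cast hK0
  have hXr1 : (1 : ℝ) ≤ X := by exact_mod_cast hX
  have himg : ((fun P : ℤ × ℤ => (b * P.1 + (-(σ * f)) * P.2, a * P.1 + (σ * e) * P.2)) '' Reg K X) ⊆
      Cone α ∩ Near (t : ℝ) η 1 := by
    rintro _ ⟨⟨u, v⟩, ⟨hv, hKv, hu⟩, rfl⟩
    simp only at hv hKv hu
    refine hin (u, v) ⟨hv, ?_, hX.trans hu⟩
    exact (mul_le_mul_of_nonneg_right hK hv).trans hKv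
  set D : ℝ := |(f : ℝ)| + K + 1 with hD
  have hD0 : 0 < D := by positivity
  refine ⟨_, himg.trans Set.inter_subset_left, himg.trans Set.inter_subset_right, hT,
    1 / (2 * b ^ 2 * D), by positivity, 2 * b * X, by nlinarith, ?_⟩
  rintro ⟨x, y⟩ ⟨hx, hxy⟩ hsgn
  simp only at hx hxy hsgn
  set ε : ℝ := 1 / (2 * b ^ 2 * D) with hε
  have hεD : ε * (2 * b ^ 2 * D) = 1 := by
    rw [hε]
    field_simp
  have hε0 : 0 < ε := by positivity
  have hxr : (2 : ℝ) * b * X ≤ x := by exact_mod_cast hx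
  have hx0 : (0 : ℝ) < x := by
    have : (0 : ℝ) < 2 * b * X := by positivity
    linarith
  set v : ℤ := σ * (b * y - a * x) with hv
  set u : ℤ := e * x + f * y with hu
  have hvr : (v : ℝ) = b * (σ * (y - t * x)) := by
    rw [hv]
    push_cast
    linear_combination (σ : ℝ) * x * hta
  have hvr0 : (0 : ℝ) ≤ v := by
    rw [hvr]
    positivity
  have hvle : (v : ℝ) ≤ b * (ε * x) := by
    rw [hvr]
    refine mul_le_mul_of_nonneg_left ?_ hbr0.le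
    calc (σ : ℝ) * (y - t * x) ≤ |(σ : ℝ) * (y - t * x)| := le_abs_self _
      _ = |(y : ℝ) - t * x| := by rw [abs_mul, hσa, one_mul]
      _ ≤ ε * x := hxy
  have hbu : (b : ℝ) * u = x + σ * f * v := by
    rw [hu, hv]
    push_cast
    linear_combination (x : ℝ) * hefr - (f : ℝ) * (b * y - a * x) * hσ2r
  have h1 : -(|(f : ℝ)| * v) ≤ σ * f * v := by
    have : -|(f : ℝ)| ≤ σ * f := by
      have h2 : |(σ : ℝ) * f| = |(f : ℝ)| := by rw [abs_mul, hσa, one_mul]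
      rw [← h2]
      exact neg_abs_le _
    nlinarith
  have hfD : |(f : ℝ)| * (b * ε) ≤ 1 / 2 := by
    have h2 : |(f : ℝ)| ≤ D := by linarith
    have h3 : |(f : ℝ)| * (b * ε) ≤ D * (b * ε) := mul_le_mul_of_nonneg_right h2 (by positivity)
    have h4 : D * (b * ε) ≤ b * (D * (b * ε)) := by
      have : 0 ≤ D * (b * ε) := by positivity
      nlinarith
    nlinarith
  have hKD : (K : ℝ) * (b * ε) * (2 * b) ≤ 1 := by
    have h2 : (K : ℝ) ≤ D := by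
      have := abs_nonneg (f : ℝ)
      linarith
    have h3 : (K : ℝ) * (b * ε) * (2 * b) ≤ D * (b * ε) * (2 * b) := by
      have : 0 ≤ (b : ℝ) * ε * (2 * b) := by positivity
      nlinarith
    nlinarith
  have hbu2 : (x : ℝ) / 2 ≤ b * u := by
    rw [hbu]
    have h5 : |(f : ℝ)| * v ≤ |(f : ℝ)| * (b * (ε * x)) :=
      mul_le_mul_of_nonneg_left hvle (abs_nonneg _)
    have h6 : |(f : ℝ)| * (b * (ε * x)) ≤ 1 / 2 * x := by
      have := mul_le_mul_of_nonneg_right hfD hx0.le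
      nlinarith
    linarith
  have hKv : K * v ≤ u := by
    have h5 : (K : ℝ) * v ≤ K * (b * (ε * x)) := mul_le_mul_of_nonneg_left hvle hKr0
    have h6 : (K : ℝ) * v * (2 * b) ≤ x := by
      have h7 : (K : ℝ) * v * (2 * b) ≤ K * (b * (ε * x)) * (2 * b) :=
        mul_le_mul_of_nonneg_right h5 (by positivity)
      have h8 : K * (b * (ε * x)) * (2 * b) = (K : ℝ) * (b * ε) * (2 * b) * x := by ring
      rw [h8] at h7
      have := mul_le_mul_of_nonneg_right hKD hx0.le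
      linarith
    have h7 : (K : ℝ) * v * b ≤ u * b := by linarith
    have h8 : (K : ℝ) * v ≤ u := le_of_mul_le_mul_right h7 hbr0
    exact_mod_cast h8
  have hXu : X ≤ u := by
    have h5 : (X : ℝ) * b ≤ u * b := by linarith
    have h6 : (X : ℝ) ≤ u := le_of_mul_le_mul_right h5 hbr0
    exact_mod_cast h6
  refine ⟨(u, v), ⟨by exact_mod_cast hvr0, hKv, hXu⟩, ?_⟩
  simp only
  have e1 : b * u + (-(σ * f)) * v = x := by
    rw [hu, hv]
    linear_combination x * hef - f * (b * y - a * x) * hσ2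
  have e2 : a * u + (σ * e) * v = y := by
    rw [hu, hv]
    linear_combination y * hef + e * (b * y - a * x) * hσ2
  rw [e1, e2]

theorem loc_rat {c : ℕ → ℕ → ℚ} {α : ℚ} (hα : 0 < α)
    (h3 : ∃ i j, i + j ≤ 5 ∧ 3 ≤ i + j ∧ c i j ≠ 0)
    (hsur : ∀ m : ℕ, ∃ P : ℤ × ℤ, evz c P = m) (hNI : NI (evz c) (Cone α)) {t : ℚ} (h0 : 0 ≤ t)
    (h1 : t ≤ α) {η : ℝ} (hη : 0 < η) :
    ∃ S : Set (ℤ × ℤ), S ⊆ Cone α ∧ S ⊆ Near t η 1 ∧ Tame (vals (evz c) S) ∧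
      ∃ ε : ℝ, 0 < ε ∧ ∃ X : ℤ, Cone α ∩ Near t ε X ⊆ S := by
  have hleft : t < α → ∃ S : Set (ℤ × ℤ), S ⊆ Cone α ∧ S ⊆ Near t η 1 ∧ Tame (vals (evz c) S) ∧
      ∃ ε : ℝ, 0 < ε ∧ ∃ X : ℤ, 1 ≤ X ∧ ∀ P ∈ Near (t : ℝ) ε X, 0 ≤ ((P.2 : ℝ) - t * P.1) → P ∈ S := by
    intro htα
    have hpos : (0 : ℝ) < α - t := by
      have : (t : ℝ) < α := by exact_mod_cast htα
      linarith
    obtain ⟨S, h1, h2, h3, ε, hε, X, hX, h4⟩ := side h3 hsur hNI t 1 (Or.inl rfl) hpos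
      (fun x y hx hy1 hy2 => by
        simp only [Int.cast_one, one_mul] at hy1 hy2
        have hxr : (1 : ℝ) ≤ x := by exact_mod_cast hx
        have ht0 : (0 : ℝ) ≤ t := by exact_mod_cast h0
        refine ⟨?_, ?_⟩
        · have : (0 : ℝ) ≤ y := by nlinarith
          exact_mod_cast this
        · have h5 : (y : ℝ) ≤ α * x := by nlinarith
          have h6 : ((y : ℚ) : ℝ) ≤ ((α * (x : ℚ) : ℚ) : ℝ) := by
            push_cast
            exact h5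
          exact_mod_cast h6) hη
    refine ⟨S, h1, h2, h3, ε, hε, X, hX, fun P hP h => h4 P hP ?_⟩
    simpa using h
  have hright : 0 < t → ∃ S : Set (ℤ × ℤ), S ⊆ Cone α ∧ S ⊆ Near t η 1 ∧ Tame (vals (evz c) S) ∧
      ∃ ε : ℝ, 0 < ε ∧ ∃ X : ℤ, 1 ≤ X ∧ ∀ P ∈ Near (t : ℝ) ε X, ((P.2 : ℝ) - t * P.1) ≤ 0 → P ∈ S := by
    intro ht
    have hpos : (0 : ℝ) < t := by exact_mod_cast ht
    obtain ⟨S, h1', h2, h3, ε, hε, X, hX, h4⟩ := side h3 hsur hNI t (-1) (Or.inr rfl) hpos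
      (fun x y hx hy1 hy2 => by
        simp only [Int.cast_neg, Int.cast_one, neg_mul, one_mul] at hy1 hy2
        have hxr : (1 : ℝ) ≤ x := by exact_mod_cast hx
        have htα : (t : ℝ) ≤ α := by exact_mod_cast h1
        refine ⟨?_, ?_⟩
        · have : (0 : ℝ) ≤ y := by nlinarith
          exact_mod_cast this
        · have h5 : (y : ℝ) ≤ α * x := by nlinarith
          have h6 : ((y : ℚ) : ℝ) ≤ ((α * (x : ℚ) : ℚ) : ℝ) := by
            push_cast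
            exact h5
          exact_mod_cast h6) hη
    refine ⟨S, h1', h2, h3, ε, hε, X, hX, fun P hP h => h4 P hP ?_⟩
    simp only [Int.cast_neg, Int.cast_one, neg_mul, one_mul]
    linarith
  have hmono : ∀ {a b : ℝ} {X Y : ℤ}, a ≤ b → Y ≤ X → 1 ≤ X → Near (t : ℝ) a X ⊆ Near t b Y := by
    rintro a b X Y hab hYX hX ⟨x, y⟩ ⟨hx, hy⟩
    simp only at hx hy
    have hx0 : (0 : ℝ) ≤ x := by
      have : (1 : ℝ) ≤ x := by exact_mod_cast hX.trans hx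
      linarith
    exact ⟨hYX.trans hx, hy.trans (mul_le_mul_of_nonneg_right hab hx0)⟩
  rcases eq_or_lt_of_le h0 with ht0 | ht0
  · -- `t = 0`
    obtain ⟨S, h1, h2, h3, ε, hε, X, hX, h4⟩ := hleft (by rw [← ht0]; exact hα)
    refine ⟨S, h1, h2, h3, ε, hε, X, fun P hP => h4 P hP.2 ?_⟩
    rw [← ht0]
    have : (0 : ℝ) ≤ P.2 := by exact_mod_cast hP.1.1
    simpa using this
  · rcases eq_or_lt_of_le h1 with htα | htα
    · -- `t = α`
      obtain ⟨S, h1, h2, h3, ε, hε, X, hX, h4⟩ := hright ht0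
      refine ⟨S, h1, h2, h3, ε, hε, X, fun P hP => h4 P hP.2 ?_⟩
      have h5 : (P.2 : ℚ) ≤ t * P.1 := by rw [htα]; exact hP.1.2
      have h6 : ((P.2 : ℚ) : ℝ) ≤ ((t * (P.1 : ℚ) : ℚ) : ℝ) := by exact_mod_cast h5
      push_cast at h6
      linarith
    · obtain ⟨S, a1, a2, a3, ε, hε, X, hX, a4⟩ := hleft htα
      obtain ⟨S', b1, b2, b3, ε', hε', X', hX', b4⟩ := hright ht0
      refine ⟨S ∪ S', Set.union_subset a1 b1, Set.union_subset a2 b2, ?_, min ε ε', lt_min hε hε',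
        max X X', ?_⟩
      · rw [vals_union]
        exact tame_union a3 b3
      · rintro P ⟨-, hP⟩
        have hX1 : 1 ≤ max X X' := hX.trans (le_max_left _ _)
        rcases le_total 0 ((P.2 : ℝ) - t * P.1) with h | h
        · exact Or.inl (a4 P (hmono (min_le_left _ _) (le_max_left _ _) hX1 hP) h)
        · exact Or.inr (b4 P (hmono (min_le_right _ _) (le_max_right _ _) hX1 hP) h)

end Pool.Agent.Lib.MP_ff4e96_co
end

section

/-!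
# MP_ff4e96_co: all zeros of the leading form

`loc_all`: for every zero `t ∈ [0, α]` of `hom c d 1`, `loc_rat` if `t` is rational; if `t` is irrational then
`0 < t < α` and `il` (with `ε` so small that `Near t ε X ⊆ Cone α`), `S = Near t ε' X'`, `tame_of_null`.
-/

namespace Pool.Agent.Lib.MP_ff4e96_co

open Filter Topology

theorem loc_all {c : ℕ → ℕ → ℚ} {α : ℚ} (hα : 0 < α) {d : ℕ} (hd3 : 3 ≤ d) (hd : d ≤ 5)
    (htop : ∀ i j, i + j ≤ 5 → d < i + j → c i j = 0)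
    (hne : ∃ j, j ≤ d ∧ c (d - j) j ≠ 0)
    (hsur : ∀ m : ℕ, ∃ P ∈ Cone α, evz c P = m) (hNI : NI (evz c) (Cone α)) {t : ℝ} (h0 : 0 ≤ t)
    (h1 : t ≤ α) (ht : hom c d 1 t = 0) {η : ℝ} (hη : 0 < η) :
    ∃ S : Set (ℤ × ℤ), S ⊆ Cone α ∧ S ⊆ Near t η 1 ∧ Tame (vals (evz c) S) ∧
      ∃ ε : ℝ, 0 < ε ∧ ∃ X : ℤ, Cone α ∩ Near t ε X ⊆ S := by
  by_cases hirr : Irrational t
  · have ht0 : 0 < t := lt_of_le_of_ne h0 (fun h => hirr.ne_zero h.symm)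
    have htα : t < α := by
      refine lt_of_le_of_ne h1 (fun h => ?_)
      exact hirr.ne_rat α h
    set ε : ℝ := min t (α - t) with hε
    have hεpos : 0 < ε := lt_min ht0 (sub_pos.2 htα)
    have hsub : Near t ε 1 ⊆ Cone α := by
      rintro ⟨x, y⟩ ⟨hx, hy⟩
      simp only at hx hy
      have hx0 : (0 : ℝ) < x := by
        have : (1 : ℝ) ≤ x := by exact_mod_cast hx
        linarith
      rw [abs_le] at hy
      have e1 : ε ≤ t := min_le_left _ _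
      have e2 : ε ≤ α - t := min_le_right _ _
      have f1 : ε * x ≤ t * x := mul_le_mul_of_nonneg_right e1 hx0.le
      have f2 : ε * x ≤ (α - t) * x := mul_le_mul_of_nonneg_right e2 hx0.le
      refine ⟨?_, ?_⟩
      · have : (0 : ℝ) ≤ y := by nlinarith [hy.1]
        exact_mod_cast this
      · have h3 : (y : ℝ) ≤ α * x := by nlinarith [hy.2]
        have h4 : ((y : ℚ) : ℝ) ≤ ((α * (x : ℚ) : ℚ) : ℝ) := by
          push_cast
          exact h3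
        exact_mod_cast h4
    have hη' : 0 < min η ε := lt_min hη hεpos
    obtain ⟨ε', hε', hle, X', hnull⟩ := il hd htop hirr hne ht hεpos (hNI.mono hsub) hη'
    have hmono : ∀ {a b : ℝ} {X Y : ℤ}, a ≤ b → Y ≤ X → 1 ≤ X → Near t a X ⊆ Near t b Y := by
      rintro a b X Y hab hYX hX ⟨x, y⟩ ⟨hx, hy⟩
      simp only at hx hy
      have hx0 : (0 : ℝ) ≤ x := by
        have : (1 : ℝ) ≤ x := by exact_mod_cast hX.trans hx
        linarith
      exact ⟨hYX.trans hx, hy.trans (mul_le_mul_of_nonneg_right hab hx0)⟩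
    have hnm : ∀ {V W : Set ℕ}, V ⊆ W → Null W → Null V := by
      intro V W hVW hW δ hδ
      filter_upwards [hW δ hδ] with n hn
      refine le_trans ?_ hn
      have hfin : (W ∩ Set.Iic n).Finite := (Set.finite_Iic n).subset Set.inter_subset_right
      exact_mod_cast Set.ncard_le_ncard (Set.inter_subset_inter_left _ hVW) hfin
    refine ⟨Near t ε' (max X' 1), ?_, ?_, ?_, ε', hε', max X' 1, Set.inter_subset_right⟩
    · exact (hmono (hle.trans (min_le_right _ _)) (le_max_right _ _) (le_max_right _ _)).trans hsub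
    · exact hmono (hle.trans (min_le_left _ _)) (le_max_right _ _) (le_max_right _ _)
    · exact tame_of_null (hnm (vals_mono (hmono le_rfl (le_max_left _ _) (le_max_right _ _))) hnull)
  · rw [Irrational, not_not] at hirr
    obtain ⟨q, hq⟩ := hirr
    subst hq
    have h0' : 0 ≤ q := by exact_mod_cast h0
    have h1' : q ≤ α := by exact_mod_cast h1
    refine loc_rat hα ?_ (fun m => ?_) hNI h0' h1' hη
    · obtain ⟨j, hj, hc⟩ := hne
      exact ⟨d - j, j, by omega, by omega, hc⟩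
    · obtain ⟨P, _, hP⟩ := hsur m
      exact ⟨P, hP⟩

end Pool.Agent.Lib.MP_ff4e96_co
end

section

/-!
# MP_ff4e96_co: the final argument

`main_no`: `F = ev c`, bijection of the cone onto `ℕ`, all coefficients of degree `> d` are 0, some coefficient of
degree `d` is not 0, `3 ≤ d ≤ 5`. `f(t) = hom c d 1 t` is a nonzero polynomial, `f ≥ 0` on `[0, α]` (`hom_nonneg` for
rational `t`, continuity). `Z` = the finite set of its zeros in `[0, α]`. Choose a rational `t₁ ∈ (0, α)`, not in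
`Z`, and `η > 0` with `|t₁ - t| > η` for all `t ∈ Z`. `S_t` from `loc_all` for `η`. `S = ⋃ S_t`: `vals F S` is
tame, `= V₁ ∪ V₂`. `J = vals F (Cone α \ S)`. `V₁ ∪ V₂ ∪ J = univ` (surjectivity), `J` and `V₁` are disjoint
(injectivity). `J` is null: on `[0, α]` minus the open neighbourhoods `|t' - t| < ε_t` the continuous
function `f` is positive, so `≥ 2 c₀ > 0`, and `F(x, y) = x^d f(y/x) + O(x^(d-1)) ≥ c₀ x^d ≥ c₀ x³` for `x ≥ X` and
points of the cone not in `S`: `null_D`; the points with `x < X` are finitely many (`null_finite`). `J` is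
infinite: the points `(k b₁, k a₁)`, `k ≥ 1`, `t₁ = a₁/b₁`, are in the cone and not in `S` (`S ⊆ ⋃ Near t η 1`), and
`F` is injective. `final_density`: contradiction.
-/

namespace Pool.Agent.Lib.MP_ff4e96_co

open Filter Topology

/-- the leading form has finitely many zeros -/
private theorem mainNo_zeros {c : ℕ → ℕ → ℚ} {d : ℕ} (hne : ∃ j, j ≤ d ∧ c (d - j) j ≠ 0) :
    ∃ Z₀ : Finset ℝ, ∀ t : ℝ, hom c d 1 t = 0 → t ∈ Z₀ := by
  classical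
  set p : Polynomial ℝ :=
    ∑ j ∈ Finset.range (d + 1), Polynomial.monomial j ((c (d - j) j : ℚ) : ℝ) with hp
  have hp0 : p ≠ 0 := by
    obtain ⟨j, hj, hcj⟩ := hne
    intro h
    have h1 : p.coeff j = ((c (d - j) j : ℚ) : ℝ) := by
      rw [hp, Polynomial.finset_sum_coeff]
      rw [Finset.sum_eq_single j]
      · simp
      · intro i _ hij
        simp [Polynomial.coeff_monomial, hij]
      · intro hj'
        exact absurd (Finset.mem_range.2 (Nat.lt_succ_of_le hj)) hj'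
    rw [h, Polynomial.coeff_zero] at h1
    exact hcj (by exact_mod_cast h1.symm)
  refine ⟨p.roots.toFinset, fun t ht => ?_⟩
  rw [Multiset.mem_toFinset, Polynomial.mem_roots hp0, Polynomial.IsRoot.def, hp,
    Polynomial.eval_finset_sum]
  rw [← ht, hom]
  refine Finset.sum_congr rfl fun j _ => ?_
  rw [Polynomial.eval_monomial]
  ring

/-- a rational number in `(0, α)` with a positive distance from a finite set -/
private theorem mainNo_choose {α : ℚ} (hα : 0 < α) (Z : Finset ℝ) :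
    ∃ t₁ : ℚ, 0 < t₁ ∧ t₁ < α ∧ ∃ η : ℝ, 0 < η ∧ ∀ t ∈ Z, η < |(t₁ : ℝ) - t| := by
  classical
  have hinf : (Set.Ioo (0 : ℚ) α).Infinite := Set.Ioo_infinite hα
  have hinj : Set.InjOn (fun q : ℚ => (q : ℝ)) (Set.Ioo (0 : ℚ) α) :=
    fun a _ b _ h => Rat.cast_injective h
  have hinf2 : ((fun q : ℚ => (q : ℝ)) '' Set.Ioo (0 : ℚ) α).Infinite := hinf.image hinj
  obtain ⟨x, ⟨q, hq, rfl⟩, hx⟩ := (hinf2.diff Z.finite_toSet).nonempty
  have hopen : IsOpen ((Z : Set ℝ)ᶜ) := Z.finite_toSet.isClosed.isOpen_compl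
  obtain ⟨e, he, hball⟩ := Metric.isOpen_iff.1 hopen (q : ℝ) hx
  refine ⟨q, hq.1, hq.2, e / 2, by positivity, fun t ht => ?_⟩
  by_contra hcon
  push Not at hcon
  have : t ∈ Metric.ball (q : ℝ) e := by
    rw [Metric.mem_ball, dist_comm, Real.dist_eq]
    linarith
  exact hball this ht

theorem main_no {c : ℕ → ℕ → ℚ} {α : ℚ} (hα : 0 < α) {d : ℕ} (hd3 : 3 ≤ d) (hd : d ≤ 5)
    (htop : ∀ i j, i + j ≤ 5 → d < i + j → c i j = 0)
    (hne : ∃ j, j ≤ d ∧ c (d - j) j ≠ 0)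
    (hsur : ∀ m : ℕ, ∃ P ∈ Cone α, evz c P = m) (hNI : NI (evz c) (Cone α)) : False := by
  classical
  have hαR : (0 : ℝ) < (α : ℝ) := by exact_mod_cast hα
  obtain ⟨Z₀, hZ₀⟩ := mainNo_zeros hne
  set Z : Finset ℝ := Z₀.filter (fun t => (0 ≤ t ∧ t ≤ (α : ℝ)) ∧ hom c d 1 t = 0) with hZdef
  have hZmem : ∀ t : ℝ, t ∈ Z ↔ (0 ≤ t ∧ t ≤ (α : ℝ)) ∧ hom c d 1 t = 0 := by
    intro t
    rw [hZdef, Finset.mem_filter]
    exact ⟨fun h => h.2, fun h => ⟨hZ₀ t h.2, h⟩⟩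
  obtain ⟨t₁, ht₁0, ht₁α, η, hη, hηZ⟩ := mainNo_choose hα Z
  -- the local sets
  have hloc : ∀ t : ℝ, ∃ (S : Set (ℤ × ℤ)) (ε : ℝ) (X : ℤ), t ∈ Z →
      S ⊆ Cone α ∧ S ⊆ Near t η 1 ∧ Tame (vals (evz c) S) ∧ 0 < ε ∧
        Cone α ∩ Near t ε X ⊆ S := by
    intro t
    by_cases ht : t ∈ Z
    · obtain ⟨⟨h0, h1⟩, h2⟩ := (hZmem t).1 ht
      obtain ⟨S, hS1, hS2, hS3, ε, hε, X, hX⟩ :=
        loc_all hα hd3 hd htop hne hsur hNI h0 h1 h2 hη
      exact ⟨S, ε, X, fun _ => ⟨hS1, hS2, hS3, hε, hX⟩⟩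
    · exact ⟨∅, 0, 0, fun h => absurd h ht⟩
  choose S ε X hSall using hloc
  set U : Set (ℤ × ℤ) := ⋃ t ∈ Z, S t with hU
  have hUcone : U ⊆ Cone α := by
    intro P hP
    rw [hU] at hP
    simp only [Set.mem_iUnion] at hP
    obtain ⟨t, ht, hP⟩ := hP
    exact (hSall t ht).1 hP
  have hvU : vals (evz c) U = ⋃ t ∈ Z, vals (evz c) (S t) := by
    ext v
    constructor
    · rintro ⟨P, hP, hv⟩
      rw [hU] at hP
      simp only [Set.mem_iUnion] at hP ⊢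
      obtain ⟨t, ht, hP⟩ := hP
      exact ⟨t, ht, P, hP, hv⟩
    · intro hv
      simp only [Set.mem_iUnion] at hv
      obtain ⟨t, ht, P, hP, hv⟩ := hv
      refine ⟨P, ?_, hv⟩
      rw [hU]
      simp only [Set.mem_iUnion]
      exact ⟨t, ht, hP⟩
  have htame : Tame (vals (evz c) U) := by
    rw [hvU]
    exact tame_iUnion Z _ (fun t ht => (hSall t ht).2.2.1)
  obtain ⟨V₁, V₂, hV, hV₁, hV₂⟩ := htame
  have hJ : Null (vals (evz c) (Cone α \ U)) := by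
    refine rest_null hα hd3 hd htop hNI Z
      (fun t h0 h1 h2 => (hZmem t).2 ⟨⟨h0, h1⟩, h2⟩) ε (fun t ht => (hSall t ht).2.2.2.1) X U ?_
    intro t ht P hP
    rw [hU]
    simp only [Set.mem_iUnion]
    exact ⟨t, ht, (hSall t ht).2.2.2.2 hP⟩
  have hfin : (vals (evz c) (Cone α \ U)).Finite := by
    refine final_density hV₁ hV₂ hJ ?_ ?_
    · ext v
      simp only [Set.mem_univ, iff_true]
      obtain ⟨P, hP, hv⟩ := hsur v
      by_cases hPU : P ∈ U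
      · left
        rw [← hV]
        exact ⟨P, hPU, hv⟩
      · right
        exact ⟨P, ⟨hP, hPU⟩, hv⟩
    · rw [Set.disjoint_left]
      intro v hv hv1
      obtain ⟨P, ⟨hP, hPU⟩, hPv⟩ := hv
      have hvU' : v ∈ vals (evz c) U := by
        rw [hV]
        exact Or.inl hv1
      obtain ⟨Q, hQ, hQv⟩ := hvU'
      have hPQ : P = Q := hNI.2 hP (hUcone hQ) (by rw [hPv, hQv])
      exact hPU (hPQ ▸ hQ)
  -- the points on the ray
  have hden : (0 : ℤ) < (t₁.den : ℤ) := by exact_mod_cast t₁.den_pos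
  have hnum : (0 : ℤ) < t₁.num := Rat.num_pos.2 ht₁0
  have hq : (t₁ : ℚ) * (t₁.den : ℚ) = (t₁.num : ℚ) := Rat.mul_den_eq_num t₁
  have hqR : (t₁ : ℝ) * (t₁.den : ℝ) = (t₁.num : ℝ) := by exact_mod_cast hq
  let Pt : ℕ → ℤ × ℤ := fun k => (((k : ℤ) + 1) * (t₁.den : ℤ), ((k : ℤ) + 1) * t₁.num)
  have hPtc : ∀ k, Pt k ∈ Cone α := by
    intro k
    refine ⟨?_, ?_⟩
    · have : (0 : ℤ) < (k : ℤ) + 1 := by positivity
      exact (mul_pos this hnum).le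
    · have hk : (0 : ℚ) < (k : ℚ) + 1 := by positivity
      have hd0 : (0 : ℚ) < (t₁.den : ℚ) := by exact_mod_cast t₁.den_pos
      show ((((k : ℤ) + 1) * t₁.num : ℤ) : ℚ) ≤ α * ((((k : ℤ) + 1) * (t₁.den : ℤ) : ℤ) : ℚ)
      push_cast
      rw [← hq]
      have h1 : t₁ * (t₁.den : ℚ) ≤ α * (t₁.den : ℚ) :=
        mul_le_mul_of_nonneg_right ht₁α.le hd0.le
      calc ((k : ℚ) + 1) * (t₁ * (t₁.den : ℚ)) ≤ ((k : ℚ) + 1) * (α * (t₁.den : ℚ)) :=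
            mul_le_mul_of_nonneg_left h1 hk.le
        _ = α * (((k : ℚ) + 1) * (t₁.den : ℚ)) := by ring
  have hPtU : ∀ k, Pt k ∉ U := by
    intro k hk
    rw [hU] at hk
    simp only [Set.mem_iUnion] at hk
    obtain ⟨t, ht, hk⟩ := hk
    obtain ⟨-, h2⟩ := (hSall t ht).2.1 hk
    have hk1 : (0 : ℝ) < (k : ℝ) + 1 := by positivity
    have hd0 : (0 : ℝ) < (t₁.den : ℝ) := by exact_mod_cast t₁.den_pos
    have hpos : (0 : ℝ) < ((k : ℝ) + 1) * (t₁.den : ℝ) := mul_pos hk1 hd0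
    have h3 : |((((k : ℤ) + 1) * t₁.num : ℤ) : ℝ) -
        t * ((((k : ℤ) + 1) * (t₁.den : ℤ) : ℤ) : ℝ)| ≤
        η * ((((k : ℤ) + 1) * (t₁.den : ℤ) : ℤ) : ℝ) := h2
    push_cast at h3
    rw [← hqR] at h3
    have h4 : ((k : ℝ) + 1) * ((t₁ : ℝ) * (t₁.den : ℝ)) - t * (((k : ℝ) + 1) * (t₁.den : ℝ)) =
        ((t₁ : ℝ) - t) * (((k : ℝ) + 1) * (t₁.den : ℝ)) := by ring
    rw [h4, abs_mul, abs_of_pos hpos] at h3
    have h5 : |(t₁ : ℝ) - t| ≤ η := le_of_mul_le_mul_right h3 hpos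
    exact absurd h5 (not_le.2 (hηZ t ht))
  have hval : ∀ k, ∃ v : ℕ, evz c (Pt k) = v := fun k => hNI.1 _ (hPtc k)
  choose g hg using hval
  have hginj : Function.Injective g := by
    intro k l hkl
    have h1 : Pt k = Pt l := hNI.2 (hPtc k) (hPtc l) (by rw [hg, hg, hkl])
    have h2 : ((k : ℤ) + 1) * (t₁.den : ℤ) = ((l : ℤ) + 1) * (t₁.den : ℤ) := congrArg Prod.fst h1
    have h3 : (k : ℤ) + 1 = (l : ℤ) + 1 := mul_right_cancel₀ hden.ne' h2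
    have h4 : (k : ℤ) = (l : ℤ) := by linarith
    exact_mod_cast h4
  exact (Set.infinite_of_injective_forall_mem hginj
    (fun k => (⟨Pt k, ⟨hPtc k, hPtU k⟩, hg k⟩ : g k ∈ vals (evz c) (Cone α \ U)))) hfin

end Pool.Agent.Lib.MP_ff4e96_co
end
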