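import Pool.Agent.Lib.MP_ff4e96_co.NFdef
import Pool.Agent.Lib.MP_ff4e96_co.Count
import Pool.Agent.Lib.MP_ff4e96_co.Defs

section

/-!
# MP_ff4e96_co: degree 5, negative discriminant

`θ` irrational, `θ² + b θ + a = 0`, `g = y² + b x y + a x²`. On `Near θ ε X` put `t = y / x`, `|t - θ| ≤ ε`;
`g = x² (t - θ)(t - θ')`, `θ' = -b - θ ≠ θ`.

With `L_θ = l₀ + l₁ θ > 0`, `Q_θ = q₀ + q₁ θ + q₂ θ²`, `U = u₀ + u₁ θ + u₂ θ² + u₃ θ³` and `s = g/x`: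
  `F = x³ (L(1,t) s² + Q(1,t) s + F₃(1,t)) + O(x²)`.
`nf5_neg` (`Q_θ² < 4 L_θ U`): `L_θ s² + Q_θ s + U ≥ 2 c (1 + s²)`; the coefficients at `t` differ by less than
  `c/2` from those at `θ` for `ε` small, so `F ≥ c x³ - C x²`.
-/

namespace Pool.Agent.Lib.MP_ff4e96_co

open Filter Topology

/-- a quadratic with discriminant `≤ -f/2` and leading coefficient `< 2 L₀` is at least `f/(16 L₀)`. -/
private theorem quad_lower (l q u l₀ f s : ℝ) (h0 : 0 < l₀) (hl : 0 < l) (h2 : l < 2 * l₀)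
    (hf : 0 < f) (h3 : f / 2 < 4 * l * u - q ^ 2) : 2 * (f / (32 * l₀)) ≤ l * s ^ 2 + q * s + u := by
  · have h1 : f / 2 < 4 * l * (l * s ^ 2 + q * s + u) := by
      have := sq_nonneg (2 * l * s + q)
      have h5 : 4 * l * (l * s ^ 2 + q * s + u) = (2 * l * s + q) ^ 2 + (4 * l * u - q ^ 2) := by ring
      linarith
    by_contra hcon
    push Not at hcon
    have h6 : 4 * l * (l * s ^ 2 + q * s + u) < 4 * l * (2 * (f / (32 * l₀))) :=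
      mul_lt_mul_of_pos_left hcon (by positivity)
    have h7 : 4 * l * (2 * (f / (32 * l₀))) ≤ 4 * (2 * l₀) * (2 * (f / (32 * l₀))) :=
      mul_le_mul_of_nonneg_right (by linarith) (by positivity)
    have h8 : 4 * (2 * l₀) * (2 * (f / (32 * l₀))) = f / 2 := by
      field_simp
      ring
    linarith

theorem nf5_neg {c : ℕ → ℕ → ℚ} {θ : ℝ} (hθ : Irrational θ) {b a l₀ l₁ : ℚ}
    (hg : θ ^ 2 + b * θ + a = 0) (hL : 0 < l₀ + l₁ * θ)
    {q₀ q₁ q₂ u₀ u₁ u₂ u₃ v₀ v₁ v₂ w₁ w₂ w₀ : ℚ} (hF : ∀ x y : ℝ,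
      ev c x y = (l₀ * x + l₁ * y) * (y ^ 2 + b * x * y + a * x ^ 2) ^ 2 +
        (q₀ * x ^ 2 + q₁ * x * y + q₂ * y ^ 2) * (y ^ 2 + b * x * y + a * x ^ 2) +
        (u₀ * x ^ 3 + u₁ * x ^ 2 * y + u₂ * x * y ^ 2 + u₃ * y ^ 3) +
        (v₀ * x ^ 2 + v₁ * x * y + v₂ * y ^ 2) + (w₁ * x + w₂ * y + w₀))
    (hdisc : ((q₀ : ℝ) + q₁ * θ + q₂ * θ ^ 2) ^ 2 <
      4 * (l₀ + l₁ * θ) * (u₀ + u₁ * θ + u₂ * θ ^ 2 + u₃ * θ ^ 3)) :
    LowC (evz c) θ := by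
  let L : ℝ → ℝ := fun t => l₀ + l₁ * t
  let Q : ℝ → ℝ := fun t => q₀ + q₁ * t + q₂ * t ^ 2
  let U : ℝ → ℝ := fun t => u₀ + u₁ * t + u₂ * t ^ 2 + u₃ * t ^ 3
  let φ : ℝ → ℝ := fun t => 4 * L t * U t - Q t ^ 2
  have hLc : Continuous L := by fun_prop
  have hQc : Continuous Q := by fun_prop
  have hUc : Continuous U := by fun_prop
  have hφc : Continuous φ := by fun_prop
  have hL0 : 0 < L θ := hL
  have hφ0 : 0 < φ θ := by
    have : ((q₀ : ℝ) + q₁ * θ + q₂ * θ ^ 2) ^ 2 <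
      4 * (l₀ + l₁ * θ) * (u₀ + u₁ * θ + u₂ * θ ^ 2 + u₃ * θ ^ 3) := hdisc
    simp only [φ, L, U, Q]
    linarith
  have e1 : ∀ᶠ t in 𝓝 θ, L θ / 2 < L t := hLc.continuousAt.eventually (lt_mem_nhds (by linarith))
  have e2 : ∀ᶠ t in 𝓝 θ, L t < 2 * L θ := hLc.continuousAt.eventually (gt_mem_nhds (by linarith))
  have e3 : ∀ᶠ t in 𝓝 θ, φ θ / 2 < φ t := hφc.continuousAt.eventually (lt_mem_nhds (by linarith))
  have e4 : ∀ᶠ t in 𝓝 θ, |t| < |θ| + 1 :=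
    continuous_abs.continuousAt.eventually (gt_mem_nhds (by linarith))
  obtain ⟨ε, hε, hp⟩ := Metric.eventually_nhds_iff.1 (e1.and (e2.and (e3.and e4)))
  set T : ℝ := |θ| + 1 with hT
  have hT0 : 0 < T := by positivity
  set C : ℝ := |(v₀ : ℝ)| + |(v₁ : ℝ)| * T + |(v₂ : ℝ)| * T ^ 2 + |(w₁ : ℝ)| + |(w₂ : ℝ)| * T +
    |(w₀ : ℝ)| with hC
  have hC0 : 0 ≤ C := by positivity
  set c₀ : ℝ := φ θ / (32 * L θ) with hc₀
  have hc₀0 : 0 < c₀ := by positivity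
  refine ⟨c₀, ε / 2, hc₀0, by positivity, max 1 ⌈C / c₀⌉, ?_⟩
  rintro P ⟨hX, hP⟩
  set x : ℝ := (P.1 : ℝ) with hx
  set y : ℝ := (P.2 : ℝ) with hy
  have hx1 : 1 ≤ x := by
    have h1 : (1 : ℤ) ≤ P.1 := (le_max_left _ _).trans hX
    rw [hx]
    exact_mod_cast h1
  have hx0 : 0 < x := by linarith
  have hxC : C / c₀ ≤ x := by
    have h1 : ⌈C / c₀⌉ ≤ P.1 := (le_max_right _ _).trans hX
    exact (Int.le_ceil _).trans (by rw [hx]; exact_mod_cast h1)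
  set t : ℝ := y / x with ht
  have hyt : y = t * x := by rw [ht, div_mul_cancel₀ _ hx0.ne']
  have hdist : dist t θ < ε := by
    rw [Real.dist_eq]
    have h1 : |t - θ| * x ≤ ε / 2 * x := by
      rw [← abs_of_pos hx0, ← abs_mul, abs_of_pos hx0, sub_mul, ← hyt]
      exact hP
    have h2 : |t - θ| ≤ ε / 2 := le_of_mul_le_mul_right h1 hx0
    linarith
  obtain ⟨p1, p2, p3, p4⟩ := hp hdist
  have hLt : 0 < L t := by linarith
  set s : ℝ := (t ^ 2 + b * t + a) * x with hs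
  have hmain : 2 * c₀ ≤ L t * s ^ 2 + Q t * s + U t :=
    quad_lower (L t) (Q t) (U t) (L θ) (φ θ) s hL0 hLt p2 hφ0 p3
  show c₀ * x ^ 3 ≤ ev c x y
  rw [hF x y]
  have hexp : (l₀ * x + l₁ * y) * (y ^ 2 + b * x * y + a * x ^ 2) ^ 2 +
        (q₀ * x ^ 2 + q₁ * x * y + q₂ * y ^ 2) * (y ^ 2 + b * x * y + a * x ^ 2) +
        (u₀ * x ^ 3 + u₁ * x ^ 2 * y + u₂ * x * y ^ 2 + u₃ * y ^ 3) =
      x ^ 3 * (L t * s ^ 2 + Q t * s + U t) := by
    rw [hyt, hs]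
    simp only [L, Q, U]
    ring
  rw [hexp]
  have hx3 : 0 < x ^ 3 := by positivity
  have h1 : x ^ 3 * (2 * c₀) ≤ x ^ 3 * (L t * s ^ 2 + Q t * s + U t) :=
    mul_le_mul_of_nonneg_left hmain hx3.le
  have hya : |y| ≤ T * x := by
    rw [hyt, abs_mul, abs_of_pos hx0]
    exact mul_le_mul_of_nonneg_right p4.le hx0.le
  have hx2 : x ≤ x ^ 2 := le_self_pow₀ hx1 (by norm_num)
  have hx21 : 1 ≤ x ^ 2 := one_le_pow₀ hx1
  have hrest : -(C * x ^ 2) ≤ (v₀ * x ^ 2 + v₁ * x * y + v₂ * y ^ 2) + (w₁ * x + w₂ * y + w₀) := by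
    have a1 : -(|(v₀ : ℝ)| * x ^ 2) ≤ v₀ * x ^ 2 := by
      have h2 : -|(v₀ : ℝ)| * x ^ 2 ≤ v₀ * x ^ 2 :=
        mul_le_mul_of_nonneg_right (neg_abs_le (v₀ : ℝ)) (sq_nonneg x)
      linarith
    have a2 : -(|(v₁ : ℝ)| * T * x ^ 2) ≤ v₁ * x * y := by
      have h2 : |v₁ * x * y| ≤ |(v₁ : ℝ)| * T * x ^ 2 := by
        rw [abs_mul, abs_mul, abs_of_pos hx0]
        calc |(v₁ : ℝ)| * x * |y| ≤ |(v₁ : ℝ)| * x * (T * x) :=
              mul_le_mul_of_nonneg_left hya (by positivity)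
          _ = |(v₁ : ℝ)| * T * x ^ 2 := by ring
      have h3 := neg_abs_le (v₁ * x * y : ℝ)
      linarith
    have a3 : -(|(v₂ : ℝ)| * T ^ 2 * x ^ 2) ≤ v₂ * y ^ 2 := by
      have h2 : |v₂ * y ^ 2| ≤ |(v₂ : ℝ)| * T ^ 2 * x ^ 2 := by
        rw [abs_mul, abs_pow]
        calc |(v₂ : ℝ)| * |y| ^ 2 ≤ |(v₂ : ℝ)| * (T * x) ^ 2 :=
              mul_le_mul_of_nonneg_left (pow_le_pow_left₀ (abs_nonneg _) hya 2) (abs_nonneg _)
          _ = |(v₂ : ℝ)| * T ^ 2 * x ^ 2 := by ring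
      have h3 := neg_abs_le (v₂ * y ^ 2 : ℝ)
      linarith
    have a4 : -(|(w₁ : ℝ)| * x ^ 2) ≤ w₁ * x := by
      have h2 : |w₁ * x| ≤ |(w₁ : ℝ)| * x ^ 2 := by
        rw [abs_mul, abs_of_pos hx0]
        exact mul_le_mul_of_nonneg_left hx2 (abs_nonneg _)
      have h3 := neg_abs_le (w₁ * x : ℝ)
      linarith
    have a5 : -(|(w₂ : ℝ)| * T * x ^ 2) ≤ w₂ * y := by
      have h2 : |w₂ * y| ≤ |(w₂ : ℝ)| * T * x ^ 2 := by
        rw [abs_mul]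
        calc |(w₂ : ℝ)| * |y| ≤ |(w₂ : ℝ)| * (T * x) := mul_le_mul_of_nonneg_left hya (abs_nonneg _)
          _ ≤ |(w₂ : ℝ)| * (T * x ^ 2) :=
              mul_le_mul_of_nonneg_left (mul_le_mul_of_nonneg_left hx2 hT0.le) (abs_nonneg _)
          _ = |(w₂ : ℝ)| * T * x ^ 2 := by ring
      have h3 := neg_abs_le (w₂ * y : ℝ)
      linarith
    have a6 : -(|(w₀ : ℝ)| * x ^ 2) ≤ w₀ := by
      have h2 : |(w₀ : ℝ)| ≤ |(w₀ : ℝ)| * x ^ 2 := le_mul_of_one_le_right (abs_nonneg _) hx21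
      have h3 := neg_abs_le (w₀ : ℝ)
      linarith
    have h4 : C * x ^ 2 = |(v₀ : ℝ)| * x ^ 2 + |(v₁ : ℝ)| * T * x ^ 2 + |(v₂ : ℝ)| * T ^ 2 * x ^ 2 +
        |(w₁ : ℝ)| * x ^ 2 + |(w₂ : ℝ)| * T * x ^ 2 + |(w₀ : ℝ)| * x ^ 2 := by
      rw [hC]
      ring
    rw [h4]
    linarith
  have hCx : C * x ^ 2 ≤ c₀ * x ^ 3 := by
    have h2 : C ≤ c₀ * x := by
      rw [div_le_iff₀ hc₀0] at hxC
      linarith
    calc C * x ^ 2 ≤ c₀ * x * x ^ 2 := mul_le_mul_of_nonneg_right h2 (by positivity)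
      _ = c₀ * x ^ 3 := by ring
  linarith

end Pool.Agent.Lib.MP_ff4e96_co
end

section

/-!
# MP_ff4e96_co: degree 5, positive discriminant

`θ` irrational, `θ² + b θ + a = 0`, `g = y² + b x y + a x²`. On `Near θ ε X` put `t = y / x`, `|t - θ| ≤ ε`;
`g = x² (t - θ)(t - θ')`, `θ' = -b - θ ≠ θ`.

With `L_θ = l₀ + l₁ θ > 0`, `Q_θ = q₀ + q₁ θ + q₂ θ²`, `U = u₀ + u₁ θ + u₂ θ² + u₃ θ³` and `s = g/x`:
  `F = x³ (L(1,t) s² + Q(1,t) s + F₃(1,t)) + O(x²)`.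
`nf5_pos` (`Q_θ² > 4 L_θ U`): `L_θ s₁² + Q_θ s₁ + U < 0` for some `s₁`. There are lattice points `(x, y)` with
  `x → ∞` and `y - θ x → s₁/(θ - θ')` (density of `ℤ θ` modulo 1 with positive multiples, `θ` irrational;
  e.g. `AddSubgroup.dense_or_cyclic` / `Irrational` and `AddCircle`); then `s → s₁`, `t → θ` and
  `F / x³ → L_θ s₁² + Q_θ s₁ + U < 0`: impossible.
-/

namespace Pool.Agent.Lib.MP_ff4e96_co

open Filter Topology

/-- density of `ℤ θ` modulo 1 with large positive multiples -/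
theorem nf5pos_exists {θ : ℝ} (hθ : Irrational θ) (δ : ℝ) {η : ℝ} (hη : 0 < η) (N : ℕ) :
    ∃ x y : ℤ, (N : ℝ) ≤ x ∧ |(y : ℝ) - θ * x - δ| < η := by
  have hd : Dense (AddSubgroup.closure {θ, 1} : Set ℝ) := by
    rw [dense_addSubgroupClosure_pair_iff, div_one]
    exact hθ
  obtain ⟨w, hw, hwd⟩ := Metric.mem_closure_iff.1 (hd δ) (η / 2) (by positivity)
  obtain ⟨m, n, hmn⟩ := AddSubgroup.mem_closure_pair.1 hw
  rw [Real.dist_eq] at hwd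
  -- `w = m θ + n`
  have hw' : w = m * θ + n := by
    rw [← hmn]
    simp
  obtain ⟨M, hM⟩ : ∃ M : ℕ, (N : ℝ) + m ≤ M := exists_nat_ge _
  obtain ⟨n', hn'⟩ : ∃ n' : ℕ, (2 * (M : ℝ)) / η ≤ n' := exists_nat_ge _
  obtain ⟨j, k, hk0, -, hjk⟩ := Real.exists_int_int_abs_mul_sub_le θ (n := n' + 1) (by omega)
  refine ⟨-m + M * k, n + M * j, ?_, ?_⟩
  · have h1 : (1 : ℝ) ≤ k := by exact_mod_cast hk0
    have h2 : (M : ℝ) * 1 ≤ M * k := mul_le_mul_of_nonneg_left h1 (Nat.cast_nonneg _)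
    push_cast
    linarith
  · have h1 : |(M : ℝ) * (k * θ - j)| ≤ η / 2 := by
      rw [abs_mul, abs_of_nonneg (Nat.cast_nonneg M)]
      have h2 : (M : ℝ) * |k * θ - j| ≤ M * (1 / (((n' + 1 : ℕ) : ℝ) + 1)) :=
        mul_le_mul_of_nonneg_left hjk (Nat.cast_nonneg _)
      refine h2.trans ?_
      rw [mul_one_div, div_le_iff₀ (by positivity)]
      push_cast
      rw [div_le_iff₀ hη] at hn'
      nlinarith
    have h3 : (((n + M * j : ℤ) : ℝ)) - θ * ((-m + M * k : ℤ) : ℝ) - δ =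
        -((δ - w) + (M : ℝ) * (k * θ - j)) := by
      rw [hw']
      push_cast
      ring
    rw [h3, abs_neg]
    exact (abs_add_le _ _).trans_lt (by linarith)

theorem nf5_pos {c : ℕ → ℕ → ℚ} {θ : ℝ} (hθ : Irrational θ) {b a l₀ l₁ : ℚ}
    (hg : θ ^ 2 + b * θ + a = 0) (hL : 0 < l₀ + l₁ * θ)
    {q₀ q₁ q₂ u₀ u₁ u₂ u₃ v₀ v₁ v₂ w₁ w₂ w₀ : ℚ} (hF : ∀ x y : ℝ,
      ev c x y = (l₀ * x + l₁ * y) * (y ^ 2 + b * x * y + a * x ^ 2) ^ 2 +
        (q₀ * x ^ 2 + q₁ * x * y + q₂ * y ^ 2) * (y ^ 2 + b * x * y + a * x ^ 2) +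
        (u₀ * x ^ 3 + u₁ * x ^ 2 * y + u₂ * x * y ^ 2 + u₃ * y ^ 3) +
        (v₀ * x ^ 2 + v₁ * x * y + v₂ * y ^ 2) + (w₁ * x + w₂ * y + w₀))
    {ε : ℝ} (hε : 0 < ε) {X : ℤ} (hpos : ∀ P ∈ Near θ ε X, 0 ≤ evz c P)
    (hdisc : 4 * (l₀ + l₁ * θ) * (u₀ + u₁ * θ + u₂ * θ ^ 2 + u₃ * θ ^ 3) <
      ((q₀ : ℝ) + q₁ * θ + q₂ * θ ^ 2) ^ 2) : False := by
  set L : ℝ := l₀ + l₁ * θ with hLd
  set Q : ℝ := (q₀ : ℝ) + q₁ * θ + q₂ * θ ^ 2 with hQd
  set U : ℝ := u₀ + u₁ * θ + u₂ * θ ^ 2 + u₃ * θ ^ 3 with hUd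
  set s : ℝ := -Q / (2 * L) with hs
  have hneg : L * s ^ 2 + Q * s + U < 0 := by
    have h1 : L * s ^ 2 + Q * s + U = (4 * L * U - Q ^ 2) / (4 * L) := by
      rw [hs]
      field_simp
      ring
    rw [h1]
    exact div_neg_of_neg_of_pos (by linarith) (by linarith)
  have hD : 2 * θ + b ≠ 0 := by
    intro h
    have h1 : Irrational (θ * (2 : ℕ)) := hθ.mul_natCast (by norm_num)
    refine h1 ⟨-b, ?_⟩
    push_cast
    linarith
  set D : ℝ := 2 * θ + b with hDd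
  set δ : ℝ := s / D with hδ
  choose x y hx hy using fun n : ℕ =>
    nf5pos_exists hθ δ (η := 1 / ((n : ℝ) + 1)) (by positivity) (n + 1)
  -- limits
  have hxt : Tendsto (fun n => (x n : ℝ)) atTop atTop := by
    refine tendsto_atTop_mono hx ?_
    exact tendsto_natCast_atTop_atTop.comp (tendsto_add_atTop_nat 1)
  have hinv : Tendsto (fun n => ((x n : ℝ))⁻¹) atTop (𝓝 0) := tendsto_inv_atTop_zero.comp hxt
  have hz : Tendsto (fun n => (y n : ℝ) - θ * x n) atTop (𝓝 δ) := by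
    rw [tendsto_iff_dist_tendsto_zero]
    refine squeeze_zero (fun n => dist_nonneg) (fun n => ?_) tendsto_one_div_add_atTop_nhds_zero_nat
    rw [Real.dist_eq]
    exact (hy n).le
  have hzi : Tendsto (fun n => ((y n : ℝ) - θ * x n) * ((x n : ℝ))⁻¹) atTop (𝓝 (δ * 0)) :=
    hz.mul hinv
  have hx0 : ∀ n, (0 : ℝ) < x n := by
    intro n
    have h1 := hx n
    push_cast at h1
    have h2 : (0 : ℝ) ≤ n := Nat.cast_nonneg _
    linarith
  have hlim : Tendsto (fun n => (fun t i z : ℝ => (l₀ + l₁ * t) * (D * z + z ^ 2 * i) ^ 2 +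
      (q₀ + q₁ * t + q₂ * t ^ 2) * (D * z + z ^ 2 * i) + (u₀ + u₁ * t + u₂ * t ^ 2 + u₃ * t ^ 3) +
      (v₀ + v₁ * t + v₂ * t ^ 2) * i + ((w₁ + w₂ * t) * i ^ 2 + w₀ * i ^ 3))
      (θ + ((y n : ℝ) - θ * x n) * ((x n : ℝ))⁻¹) ((x n : ℝ))⁻¹ ((y n : ℝ) - θ * x n)) atTop
      (𝓝 (L * s ^ 2 + Q * s + U)) := by
    have ht : Tendsto (fun n => θ + ((y n : ℝ) - θ * x n) * ((x n : ℝ))⁻¹) atTop (𝓝 θ) := by
      have := hzi.const_add θ
      simpa using this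
    have hc : Continuous (fun p : ℝ × ℝ × ℝ => (l₀ + l₁ * p.1) * (D * p.2.2 + p.2.2 ^ 2 * p.2.1) ^ 2 +
      (q₀ + q₁ * p.1 + q₂ * p.1 ^ 2) * (D * p.2.2 + p.2.2 ^ 2 * p.2.1) +
      (u₀ + u₁ * p.1 + u₂ * p.1 ^ 2 + u₃ * p.1 ^ 3) +
      (v₀ + v₁ * p.1 + v₂ * p.1 ^ 2) * p.2.1 + ((w₁ + w₂ * p.1) * p.2.1 ^ 2 + w₀ * p.2.1 ^ 3)) := by
      fun_prop
    have h1 := (hc.tendsto (θ, (0 : ℝ), δ)).comp (ht.prodMk_nhds (hinv.prodMk_nhds hz))
    have h2 : (l₀ + l₁ * θ) * (D * δ + δ ^ 2 * 0) ^ 2 +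
      (q₀ + q₁ * θ + q₂ * θ ^ 2) * (D * δ + δ ^ 2 * 0) +
      (u₀ + u₁ * θ + u₂ * θ ^ 2 + u₃ * θ ^ 3) +
      (v₀ + v₁ * θ + v₂ * θ ^ 2) * 0 + ((w₁ + w₂ * θ) * 0 ^ 2 + w₀ * 0 ^ 3) =
        L * s ^ 2 + Q * s + U := by
      have h3 : D * δ = s := by
        rw [hδ]
        field_simp
      rw [h3, hLd, hQd, hUd]
      ring
    rw [← h2]
    exact h1
  have hev : ∀ᶠ n in atTop, (fun t i z : ℝ => (l₀ + l₁ * t) * (D * z + z ^ 2 * i) ^ 2 +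
      (q₀ + q₁ * t + q₂ * t ^ 2) * (D * z + z ^ 2 * i) + (u₀ + u₁ * t + u₂ * t ^ 2 + u₃ * t ^ 3) +
      (v₀ + v₁ * t + v₂ * t ^ 2) * i + ((w₁ + w₂ * t) * i ^ 2 + w₀ * i ^ 3))
      (θ + ((y n : ℝ) - θ * x n) * ((x n : ℝ))⁻¹) ((x n : ℝ))⁻¹ ((y n : ℝ) - θ * x n) < 0 :=
    hlim.eventually (gt_mem_nhds hneg)
  have hnear : ∀ᶠ n in atTop, (x n, y n) ∈ Near θ ε X := by
    have h1 : ∀ᶠ n in atTop, (X : ℝ) ≤ x n := hxt.eventually_ge_atTop _
    have h2 : Tendsto (fun n => |((y n : ℝ) - θ * x n) * ((x n : ℝ))⁻¹|) atTop (𝓝 0) := by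
      have := hzi.abs
      simpa using this
    have h3 := h2.eventually (gt_mem_nhds hε)
    filter_upwards [h1, h3] with n hn1 hn2
    refine ⟨by exact_mod_cast hn1, ?_⟩
    have h4 := hx0 n
    rw [abs_mul, abs_inv, abs_of_pos h4, ← div_eq_mul_inv, div_lt_iff₀ h4] at hn2
    exact hn2.le
  obtain ⟨n, hn1, hn2⟩ := (hev.and hnear).exists
  have h0 := hpos _ hn2
  have hxn := hx0 n
  have hy' : (y n : ℝ) = θ * x n + ((y n : ℝ) - θ * x n) := by ring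
  set z : ℝ := (y n : ℝ) - θ * x n with hzd
  have hg' : (y n : ℝ) ^ 2 + b * x n * y n + a * (x n : ℝ) ^ 2 = x n * (D * z + z ^ 2 * (x n : ℝ)⁻¹) := by
    rw [hy', hDd]
    field_simp
    linear_combination (x n : ℝ) ^ 2 * hg
  have ht' : (y n : ℝ) = x n * (θ + z * (x n : ℝ)⁻¹) := by
    rw [hy']
    field_simp
  have hval : evz c (x n, y n) = (x n : ℝ) ^ 3 *
      (fun t i z : ℝ => (l₀ + l₁ * t) * (D * z + z ^ 2 * i) ^ 2 +
      (q₀ + q₁ * t + q₂ * t ^ 2) * (D * z + z ^ 2 * i) + (u₀ + u₁ * t + u₂ * t ^ 2 + u₃ * t ^ 3) +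
      (v₀ + v₁ * t + v₂ * t ^ 2) * i + ((w₁ + w₂ * t) * i ^ 2 + w₀ * i ^ 3))
      (θ + z * ((x n : ℝ))⁻¹) ((x n : ℝ))⁻¹ z := by
    rw [evz, hF, hg']
    dsimp only
    set t : ℝ := θ + z * ((x n : ℝ))⁻¹ with htd
    rw [ht']
    field_simp
  rw [hval] at h0
  have h5 : (x n : ℝ) ^ 3 * _ < 0 := mul_neg_of_pos_of_neg (pow_pos hxn 3) hn1
  exact absurd h0 (not_le.2 h5)

end Pool.Agent.Lib.MP_ff4e96_co
end

section

/-!
# MP_ff4e96_co: degree 5, first step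

`θ` irrational, `θ² + b θ + a = 0`, `g = y² + b x y + a x²`. On `Near θ ε X` put `t = y / x`, `|t - θ| ≤ ε`;
`g = x² (t - θ)(t - θ')`, `θ' = -b - θ ≠ θ`.

`nf5_top`: `F = L g² + F₄ + …`, `L = l₀ x + l₁ y`. `f₄ = F₄(1, θ)`. `f₄ > 0`: for `ε` small `L ≥ 0`,
  `F₄ ≥ (f₄/2) x⁴` and the rest is `≥ -C x³`. `f₄ < 0`: at `(x, ⌊θ x⌋)` `g = O(x)`,
  `F ≤ (f₄/2) x⁴ + O(x³) < 0`. `f₄ = 0`: `F₄ = g Q` (`irr_four`), `Q = q₀ x² + q₁ x y + q₂ y²`.
-/

namespace Pool.Agent.Lib.MP_ff4e96_co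

open Filter Topology

/-- the form of degree 4 at `(1, t)` -/
private noncomputable def nt4 (c : ℕ → ℕ → ℚ) (t : ℝ) : ℝ :=
  c 4 0 + c 3 1 * t + c 2 2 * t ^ 2 + c 1 3 * t ^ 3 + c 0 4 * t ^ 4

/-- the terms of degree at most 3 at `(x, x t)` -/
private noncomputable def ntR (c : ℕ → ℕ → ℚ) (x t : ℝ) : ℝ :=
  (c 3 0 + c 2 1 * t + c 1 2 * t ^ 2 + c 0 3 * t ^ 3) * x ^ 3 +
    (c 2 0 + c 1 1 * t + c 0 2 * t ^ 2) * x ^ 2 + (c 1 0 + c 0 1 * t) * x + c 0 0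

private theorem nt_ev {c : ℕ → ℕ → ℚ} {b a l₀ l₁ : ℚ}
    (h5 : ∀ x y : ℝ, hom c 5 x y = (l₀ * x + l₁ * y) * (y ^ 2 + b * x * y + a * x ^ 2) ^ 2)
    (x y : ℝ) : ev c x y = (l₀ * x + l₁ * y) * (y ^ 2 + b * x * y + a * x ^ 2) ^ 2 +
      ((c 4 0 : ℝ) * x ^ 4 + c 3 1 * x ^ 3 * y + c 2 2 * x ^ 2 * y ^ 2 + c 1 3 * x * y ^ 3 +
        c 0 4 * y ^ 4) +
      ((c 3 0 : ℝ) * x ^ 3 + c 2 1 * x ^ 2 * y + c 1 2 * x * y ^ 2 + c 0 3 * y ^ 3) +
      ((c 2 0 : ℝ) * x ^ 2 + c 1 1 * x * y + c 0 2 * y ^ 2) +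
      ((c 1 0 : ℝ) * x + c 0 1 * y + c 0 0) := by
  rw [ev_eq, ← h5]
  simp only [hom, Finset.sum_range_succ, Finset.sum_range_zero]
  simp only [zero_add, Nat.sub_zero, Nat.reduceSub, pow_zero, pow_one, mul_one]
  ring

private theorem nt_ev' {c : ℕ → ℕ → ℚ} {b a l₀ l₁ : ℚ}
    (h5 : ∀ x y : ℝ, hom c 5 x y = (l₀ * x + l₁ * y) * (y ^ 2 + b * x * y + a * x ^ 2) ^ 2)
    (x t : ℝ) : ev c x (t * x) = (l₀ + l₁ * t) * (t ^ 2 + b * t + a) ^ 2 * x ^ 5 +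
      nt4 c t * x ^ 4 + ntR c x t := by
  rw [nt_ev h5, nt4, ntR]
  ring

private theorem nt_bound (c : ℕ → ℕ → ℚ) (θ : ℝ) : ∃ K : ℝ, 0 ≤ K ∧ ∀ x t : ℝ, 1 ≤ x →
    |t - θ| ≤ 1 → |ntR c x t| ≤ K * x ^ 3 := by
  have hcont : Continuous fun t : ℝ => |(c 3 0 : ℝ) + c 2 1 * t + c 1 2 * t ^ 2 + c 0 3 * t ^ 3| +
      |(c 2 0 : ℝ) + c 1 1 * t + c 0 2 * t ^ 2| + |(c 1 0 : ℝ) + c 0 1 * t| + |(c 0 0 : ℝ)| := by
    fun_prop
  obtain ⟨K, hK⟩ := (isCompact_Icc (a := θ - 1) (b := θ + 1)).exists_bound_of_continuousOn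
    hcont.continuousOn
  have key : ∀ x t : ℝ, 1 ≤ x → |t - θ| ≤ 1 → |ntR c x t| ≤ K * x ^ 3 := by
    intro x t hx ht
    have h1 := hK t (by
      rw [abs_le] at ht
      exact ⟨by linarith, by linarith⟩)
    rw [Real.norm_eq_abs, abs_of_nonneg (by positivity)] at h1
    have hx0 : (0 : ℝ) ≤ x := by linarith
    have hx3 : (1 : ℝ) ≤ x ^ 3 := one_le_pow₀ hx
    have hx2 : x ^ 2 ≤ x ^ 3 := pow_le_pow_right₀ hx (by norm_num)
    have hx1 : x ≤ x ^ 3 := by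
      calc x = x ^ 1 := (pow_one x).symm
        _ ≤ x ^ 3 := pow_le_pow_right₀ hx (by norm_num)
    unfold ntR
    generalize ((c 3 0 : ℝ) + c 2 1 * t + c 1 2 * t ^ 2 + c 0 3 * t ^ 3) = A at h1 ⊢
    generalize ((c 2 0 : ℝ) + c 1 1 * t + c 0 2 * t ^ 2) = B at h1 ⊢
    generalize ((c 1 0 : ℝ) + c 0 1 * t) = C at h1 ⊢
    generalize (c 0 0 : ℝ) = D at h1 ⊢
    have e1 : |A * x ^ 3| ≤ |A| * x ^ 3 := by rw [abs_mul, abs_of_nonneg (by positivity : 0 ≤ x ^ 3)]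
    have e2 : |B * x ^ 2| ≤ |B| * x ^ 3 := by
      rw [abs_mul, abs_of_nonneg (by positivity : 0 ≤ x ^ 2)]
      exact mul_le_mul_of_nonneg_left hx2 (abs_nonneg _)
    have e3 : |C * x| ≤ |C| * x ^ 3 := by
      rw [abs_mul, abs_of_nonneg hx0]
      exact mul_le_mul_of_nonneg_left hx1 (abs_nonneg _)
    have e4 : |D| ≤ |D| * x ^ 3 := le_mul_of_one_le_right (abs_nonneg _) hx3
    have e5 : (|A| + |B| + |C| + |D|) * x ^ 3 ≤ K * x ^ 3 :=
      mul_le_mul_of_nonneg_right h1 (by positivity)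
    have e6 : |A * x ^ 3 + B * x ^ 2 + C * x + D| ≤ |A * x ^ 3| + |B * x ^ 2| + |C * x| + |D| :=
      (abs_add_le _ _).trans (add_le_add_left ((abs_add_le _ _).trans
        (add_le_add_left (abs_add_le _ _) _)) _)
    linarith
  refine ⟨K, ?_, key⟩
  have := key 1 θ le_rfl (by rw [sub_self, abs_zero]; exact zero_le_one)
  have h0 := abs_nonneg (ntR c 1 θ)
  linarith

theorem nf5_top {c : ℕ → ℕ → ℚ} {θ : ℝ} (hθ : Irrational θ) {b a l₀ l₁ : ℚ}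
    (hF : Fac c 5 θ b a l₀ l₁) {ε : ℝ}
    (hε : 0 < ε) {X : ℤ} (hpos : ∀ P ∈ Near θ ε X, 0 ≤ evz c P) :
    LowC (evz c) θ ∨ ∃ q₀ q₁ q₂ u₀ u₁ u₂ u₃ v₀ v₁ v₂ w₁ w₂ w₀ : ℚ, ∀ x y : ℝ,
      ev c x y = (l₀ * x + l₁ * y) * (y ^ 2 + b * x * y + a * x ^ 2) ^ 2 +
        (q₀ * x ^ 2 + q₁ * x * y + q₂ * y ^ 2) * (y ^ 2 + b * x * y + a * x ^ 2) +
        (u₀ * x ^ 3 + u₁ * x ^ 2 * y + u₂ * x * y ^ 2 + u₃ * y ^ 3) +
        (v₀ * x ^ 2 + v₁ * x * y + v₂ * y ^ 2) + (w₁ * x + w₂ * y + w₀) := by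
  obtain ⟨hg, hL, h45⟩ := hF
  have h5 : ∀ x y : ℝ, hom c 5 x y =
      (l₀ * x + l₁ * y) * (y ^ 2 + b * x * y + a * x ^ 2) ^ 2 := by
    rcases h45 with ⟨h, -⟩ | ⟨-, h⟩
    · exact absurd h (by norm_num)
    · exact h
  clear h45
  obtain ⟨K, hK0, hK⟩ := nt_bound c θ
  have hc4 : Continuous (nt4 c) := by
    unfold nt4
    fun_prop
  have hcL : Continuous fun t : ℝ => (l₀ : ℝ) + l₁ * t := by fun_prop
  rcases lt_trichotomy (nt4 c θ) 0 with hf | hf | hf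
  · -- negative: impossible
    exfalso
    have e1 : ∀ᶠ t in 𝓝 θ, nt4 c t < nt4 c θ / 2 :=
      hc4.continuousAt.eventually_lt_const (by linarith)
    obtain ⟨δ, hδ, h1⟩ := Metric.eventually_nhds_iff.1 e1
    -- bound of the degree 5 part
    have hcont : Continuous fun t : ℝ => |(l₀ : ℝ) + l₁ * t| * (t + θ + b) ^ 2 := by fun_prop
    obtain ⟨K', hK'⟩ := (isCompact_Icc (a := θ - 1) (b := θ + 1)).exists_bound_of_continuousOn
      hcont.continuousOn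
    obtain ⟨N, hN⟩ := exists_nat_gt (|(X : ℝ)| + 1 + 1 / ε + 1 / δ + (K + K') / (-(nt4 c θ) / 2))
    have hK'0 : 0 ≤ K' := (norm_nonneg _).trans (hK' θ ⟨by linarith, by linarith⟩)
    have hq0 : 0 ≤ (K + K') / (-(nt4 c θ) / 2) := div_nonneg (by linarith) (by linarith)
    have hε0 : 0 < 1 / ε := by positivity
    have hδ0 : 0 < 1 / δ := by positivity
    have hX0 := abs_nonneg (X : ℝ)
    have hN1 : (1 : ℝ) < N := by linarith
    have hN0 : (0 : ℝ) < N := by linarith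
    have hNε : 1 < ε * N := by
      have : 1 / ε < N := by linarith
      rwa [div_lt_iff₀ hε, mul_comm] at this
    have hNδ : 1 / (N : ℝ) < δ := by
      have : 1 / δ < N := by linarith
      rw [div_lt_iff₀ hδ] at this
      rw [div_lt_iff₀ hN0]
      linarith
    have hNq : K + K' < (-(nt4 c θ) / 2) * N := by
      have : (K + K') / (-(nt4 c θ) / 2) < N := by linarith
      rwa [div_lt_iff₀ (by linarith), mul_comm] at this
    have hfl1 := Int.floor_le (θ * N)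
    have hfl2 := Int.lt_floor_add_one (θ * N)
    set y : ℤ := ⌊θ * N⌋ with hy
    have hmem : (((N : ℤ), y) : ℤ × ℤ) ∈ Near θ ε X := by
      constructor
      · show X ≤ (N : ℤ)
        have : (X : ℝ) ≤ N := by linarith [le_abs_self (X : ℝ)]
        exact_mod_cast this
      · show |(y : ℝ) - θ * ((N : ℤ) : ℝ)| ≤ ε * ((N : ℤ) : ℝ)
        rw [Int.cast_natCast, abs_le]
        constructor <;> linarith
    have h2 := hpos _ hmem
    have h3 : evz c ((N : ℤ), y) = ev c (N : ℝ) (((y : ℝ) / N) * N) := by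
      unfold evz
      rw [div_mul_cancel₀ _ hN0.ne']
      simp
    rw [h3, nt_ev' h5] at h2
    set t : ℝ := (y : ℝ) / N with ht
    have htθ : |t - θ| ≤ 1 / N := by
      have e : t - θ = (y - θ * N) / N := by
        rw [ht]
        field_simp
      rw [e, abs_div, abs_of_pos hN0]
      refine div_le_div_of_nonneg_right ?_ hN0.le
      rw [abs_le]
      constructor <;> linarith
    have ht1 : |t - θ| ≤ 1 := by
      refine htθ.trans ?_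
      rw [div_le_one hN0]
      exact hN1.le
    have h4 : nt4 c t < nt4 c θ / 2 := h1 (by
      rw [Real.dist_eq]
      exact lt_of_le_of_lt htθ hNδ)
    have h6 := hK N t hN1.le ht1
    have h7 : |(l₀ : ℝ) + l₁ * t| * (t + θ + b) ^ 2 ≤ K' := by
      have := hK' t (by
        rw [abs_le] at ht1
        exact ⟨by linarith, by linarith⟩)
      rwa [Real.norm_eq_abs, abs_of_nonneg (by positivity)] at this
    have h8 : (l₀ + l₁ * t) * (t ^ 2 + b * t + a) ^ 2 * (N : ℝ) ^ 5 ≤ K' * (N : ℝ) ^ 3 := by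
      have e2 : t ^ 2 + b * t + a = (t - θ) * (t + θ + b) := by linear_combination hg
      have e3 : (t - θ) ^ 2 * (N : ℝ) ^ 2 ≤ 1 := by
        have : |t - θ| * N ≤ 1 := by
          have := mul_le_mul_of_nonneg_right htθ hN0.le
          rwa [one_div, inv_mul_cancel₀ hN0.ne'] at this
        calc (t - θ) ^ 2 * (N : ℝ) ^ 2 = (|t - θ| * N) ^ 2 := by rw [mul_pow, sq_abs]
          _ ≤ 1 := pow_le_one₀ (by positivity) this
      have e4 : (l₀ + l₁ * t) * (t + θ + b) ^ 2 ≤ K' := by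
        refine le_trans ?_ h7
        exact mul_le_mul_of_nonneg_right (le_abs_self _) (sq_nonneg _)
      calc (l₀ + l₁ * t) * (t ^ 2 + b * t + a) ^ 2 * (N : ℝ) ^ 5
          = ((t - θ) ^ 2 * (N : ℝ) ^ 2 * (N : ℝ) ^ 3) * ((l₀ + l₁ * t) * (t + θ + b) ^ 2) := by
            rw [e2]
            ring
        _ ≤ ((t - θ) ^ 2 * (N : ℝ) ^ 2 * (N : ℝ) ^ 3) * K' :=
            mul_le_mul_of_nonneg_left e4 (by positivity)
        _ ≤ (1 * (N : ℝ) ^ 3) * K' := by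
            refine mul_le_mul_of_nonneg_right ?_ hK'0
            exact mul_le_mul_of_nonneg_right e3 (by positivity)
        _ = K' * (N : ℝ) ^ 3 := by ring
    have h9 : nt4 c t * (N : ℝ) ^ 4 ≤ nt4 c θ / 2 * (N : ℝ) ^ 4 :=
      mul_le_mul_of_nonneg_right h4.le (by positivity)
    have h10 := (abs_le.1 h6).2
    have h11 : (K + K') * (N : ℝ) ^ 3 < (-(nt4 c θ) / 2) * N * (N : ℝ) ^ 3 :=
      mul_lt_mul_of_pos_right hNq (by positivity)
    have h12 : (-(nt4 c θ) / 2) * N * (N : ℝ) ^ 3 = -(nt4 c θ / 2 * (N : ℝ) ^ 4) := by ring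
    linarith
  · -- zero
    right
    have h0 : ((c 4 0 : ℚ) : ℝ) + c 3 1 * θ + c 2 2 * θ ^ 2 + c 1 3 * θ ^ 3 + c 0 4 * θ ^ 4 = 0 :=
      hf
    obtain ⟨q₀, q₁, q₂, hq⟩ := irr_four hθ hg h0
    refine ⟨q₀, q₁, q₂, c 3 0, c 2 1, c 1 2, c 0 3, c 2 0, c 1 1, c 0 2, c 1 0, c 0 1, c 0 0,
      fun x y => ?_⟩
    rw [nt_ev h5, hq]
  · -- positive
    left
    have e1 : ∀ᶠ t in 𝓝 θ, nt4 c θ / 2 < nt4 c t :=
      hc4.continuousAt.eventually_const_lt (by linarith)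
    have e2 : ∀ᶠ t in 𝓝 θ, (0 : ℝ) < l₀ + l₁ * t := by
      have := hcL.continuousAt (x := θ)
      exact this.eventually_const_lt hL
    obtain ⟨δ, hδ, h1⟩ := Metric.eventually_nhds_iff.1 (e1.and e2)
    obtain ⟨N, hN⟩ := exists_nat_gt (1 + (K + nt4 c θ / 4) / (nt4 c θ / 2))
    refine ⟨nt4 c θ / 4, min (δ / 2) 1, by linarith, lt_min (by linarith) one_pos, N, ?_⟩
    rintro ⟨x, y⟩ ⟨hx, hy⟩
    dsimp only at hx hy ⊢
    have hq0 : 0 ≤ (K + nt4 c θ / 4) / (nt4 c θ / 2) := div_nonneg (by linarith) (by linarith)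
    have hxN : (N : ℝ) ≤ (x : ℝ) := by exact_mod_cast hx
    have hx1 : (1 : ℝ) ≤ (x : ℝ) := by linarith
    have hx0 : (0 : ℝ) < (x : ℝ) := by linarith
    have h3 : evz c (x, y) = ev c (x : ℝ) (((y : ℝ) / x) * x) := by
      unfold evz
      rw [div_mul_cancel₀ _ hx0.ne']
    rw [h3, nt_ev' h5]
    set t : ℝ := (y : ℝ) / x with ht
    have htθ : |t - θ| ≤ min (δ / 2) 1 := by
      have e : t - θ = (y - θ * x) / x := by
        rw [ht]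
        field_simp
      rw [e, abs_div, abs_of_pos hx0, div_le_iff₀ hx0]
      exact hy
    have ht1 : |t - θ| ≤ 1 := htθ.trans (min_le_right _ _)
    obtain ⟨h4, h4'⟩ := h1 (y := t) (by
      rw [Real.dist_eq]
      have := htθ.trans (min_le_left _ _)
      linarith)
    have h6 := (abs_le.1 (hK x t hx1 ht1)).1
    have h8 : 0 ≤ (l₀ + l₁ * t) * (t ^ 2 + b * t + a) ^ 2 * (x : ℝ) ^ 5 := by positivity
    have h9 : nt4 c θ / 2 * (x : ℝ) ^ 4 ≤ nt4 c t * (x : ℝ) ^ 4 :=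
      mul_le_mul_of_nonneg_right h4.le (by positivity)
    have hNq : K + nt4 c θ / 4 ≤ (nt4 c θ / 2) * x := by
      have : (K + nt4 c θ / 4) / (nt4 c θ / 2) ≤ x := by linarith
      rwa [div_le_iff₀ (by linarith), mul_comm] at this
    have h11 : (K + nt4 c θ / 4) * (x : ℝ) ^ 3 ≤ (nt4 c θ / 2) * x * (x : ℝ) ^ 3 :=
      mul_le_mul_of_nonneg_right hNq (by positivity)
    have h12 : (nt4 c θ / 2) * x * (x : ℝ) ^ 3 = nt4 c θ / 2 * (x : ℝ) ^ 4 := by ring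
    linarith

end Pool.Agent.Lib.MP_ff4e96_co
end

section

/-!
# MP_ff4e96_co: lower bound from the normal form, degree 4

`F = (a₀ + a₁ x + a₂ y) N² + (b₀ + b₁ x + b₂ y) N + α x² + β x y + e₀ + e₁ x + e₂ y` with natural values and
injective on `Near θ ε X`. Let `κ = α + β θ`. `D ≥ 1` a common denominator of the coefficients of `N`, so
`N ∈ (1/D) ℤ` at lattice points. By `pell` every value `ν` of `N` at a point of `Near θ ε X₁` (`ε` small) is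
attained at points of `Near θ ε X` for all `X`; call `ν` attained. For such points with `N = ν` fixed and `x → ∞`
we have `y = θ x + O(1)` (`N = (y - θ x)(y - θ' x) + n₁ x + n₂ y + n₃`, so `|y - θ x| ≤ C`).

Case 1 (`a₁ = a₂ = 0`, `a₀ > 0`, `b = 0`):
 * `κ > 0`: `F ≥ a₀ N² + (κ/2) x² - C x ≥ c (N² + x)`.
 * `κ < 0`: along points with fixed attained `ν`: `F ≤ a₀ ν² + (κ/2) x² + C x < 0`, impossible. (An attained
   `ν` exists: any point of `Near θ ε X₁`, e.g. `(x, ⌊θ x⌋)` with `x` large.)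
 * `κ = 0`: `α = β = 0` (`irr_lin`). `lam = e₁ + e₂ θ`. `lam > 0`: `F ≥ a₀ N² + (lam/2) x - C`. `lam < 0`: `F < 0` along points
   with fixed attained `ν`. `lam = 0`: `e₁ = e₂ = 0` and `F` is constant on these points: not injective.

(Here `b₀ = b₁ = b₂ = 0`.)
-/

namespace Pool.Agent.Lib.MP_ff4e96_co

open Filter Topology

private theorem near_sub {θ ε ε' : ℝ} {X X' : ℤ} (h : ε' ≤ ε) (hX : X ≤ X') (h0 : 0 ≤ X') :
    Near θ ε' X' ⊆ Near θ ε X := by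
  rintro P ⟨h1, h2⟩
  refine ⟨hX.trans h1, h2.trans ?_⟩
  have : (0 : ℝ) ≤ P.1 := by exact_mod_cast h0.trans h1
  nlinarith

/-- a value of `N` which is attained arbitrarily far out, near the line `y = θ x` -/
private theorem attained {θ : ℝ} (hθ : Irrational θ) {b a : ℚ} (hg : θ ^ 2 + b * θ + a = 0)
    (n₁ n₂ n₃ : ℚ) {ε : ℝ} (hε : 0 < ε) : ∃ ν W : ℝ, 0 ≤ W ∧ ∀ X : ℤ, ∃ P ∈ Near θ ε X,
      1 ≤ P.1 ∧ X ≤ P.1 ∧ NN b a n₁ n₂ n₃ P.1 P.2 = ν ∧ |(P.2 : ℝ) - θ * P.1| ≤ W := by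
  obtain ⟨ε₀, hε₀, hp⟩ := pell hθ hg n₁ n₂ n₃
  obtain ⟨ε₁, c₁, C₁, σ, hε₁, hc₁, X₂, hX₂, hl⟩ := NN_lower hθ hg n₁ n₂ n₃
  obtain ⟨δ, hδ0, hδε, hδ0', hδ1⟩ : ∃ δ : ℝ, 0 < δ ∧ δ ≤ ε ∧ δ ≤ ε₀ ∧ δ ≤ ε₁ :=
    ⟨min ε (min ε₀ ε₁), lt_min hε (lt_min hε₀ hε₁), min_le_left _ _,
      (min_le_right _ _).trans (min_le_left _ _), (min_le_right _ _).trans (min_le_right _ _)⟩
  obtain ⟨X₁, hX₁⟩ := hp δ hδ0 hδ0'
  obtain ⟨x, hx1, hx2⟩ : ∃ x : ℤ, X₁ ≤ x ∧ 1 / δ ≤ (x : ℝ) :=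
    ⟨max X₁ ⌈1 / δ⌉, le_max_left _ _, (Int.le_ceil _).trans (by exact_mod_cast le_max_right _ _)⟩
  have hP : ((x, ⌊θ * x⌋) : ℤ × ℤ) ∈ Near θ δ X₁ := by
    refine ⟨hx1, ?_⟩
    have h1 : (⌊θ * x⌋ : ℝ) ≤ θ * x := Int.floor_le _
    have h2 : θ * x < ⌊θ * x⌋ + 1 := Int.lt_floor_add_one _
    have h3 : 1 ≤ δ * x := by
      rw [div_le_iff₀ hδ0] at hx2
      linarith
    show |((⌊θ * x⌋ : ℤ) : ℝ) - θ * (x : ℝ)| ≤ δ * (x : ℝ)
    rw [abs_le]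
    constructor <;> linarith
  have hl0 : 0 ≤ |NN b a n₁ n₂ n₃ x ⌊θ * x⌋| := abs_nonneg _
  refine ⟨NN b a n₁ n₂ n₃ x ⌊θ * x⌋, |σ| + (|NN b a n₁ n₂ n₃ x ⌊θ * x⌋| + |C₁|) / c₁, by positivity,
    fun X => ?_⟩
  obtain ⟨P', hP', hN⟩ := hX₁ _ hP (max X X₂)
  have hXP : max X X₂ ≤ P'.1 := hP'.1
  have h1 : X ≤ P'.1 := (le_max_left _ _).trans hXP
  have h2 : X₂ ≤ P'.1 := (le_max_right _ _).trans hXP
  have h3 : 1 ≤ P'.1 := hX₂.trans h2
  have h3' : (1 : ℝ) ≤ P'.1 := by exact_mod_cast h3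
  have hm : P' ∈ Near θ ε₁ X₂ := ⟨h2, hP'.2.trans (by nlinarith)⟩
  refine ⟨P', ⟨h1, hP'.2.trans (by nlinarith)⟩, h3, h1, hN, ?_⟩
  have h4 := hl _ hm
  rw [hN] at h4
  have h5 : |(P'.2 : ℝ) - θ * P'.1 - σ| ≤ (|NN b a n₁ n₂ n₃ x ⌊θ * x⌋| + |C₁|) / c₁ := by
    rw [le_div_iff₀ hc₁]
    have h6 : 0 ≤ |(P'.2 : ℝ) - θ * P'.1 - σ| := abs_nonneg _
    have h7 : |(P'.2 : ℝ) - θ * P'.1 - σ| * c₁ ≤ c₁ * P'.1 * |(P'.2 : ℝ) - θ * P'.1 - σ| := by
      have : 0 ≤ c₁ * |(P'.2 : ℝ) - θ * P'.1 - σ| := by positivity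
      nlinarith
    have h8 := le_abs_self C₁
    simp only at h4
    linarith
  calc |(P'.2 : ℝ) - θ * P'.1| = |σ + ((P'.2 : ℝ) - θ * P'.1 - σ)| := by ring_nf
    _ ≤ |σ| + |(P'.2 : ℝ) - θ * P'.1 - σ| := abs_add_le _ _
    _ ≤ _ := by linarith

theorem nf_low1 {θ : ℝ} (hθ : Irrational θ) {b a : ℚ} (hg : θ ^ 2 + b * θ + a = 0)
    (F : ℤ × ℤ → ℝ) (n₁ n₂ n₃ a₀ α β e₀ e₁ e₂ : ℚ)
    (hF : ∀ x y : ℤ, F (x, y) = a₀ * NN b a n₁ n₂ n₃ x y ^ 2 + α * (x : ℝ) ^ 2 + β * x * y +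
      (e₀ + e₁ * x + e₂ * y)) (ha : 0 < a₀) {ε : ℝ} (hε : 0 < ε) {X : ℤ}
    (hNI : NI F (Near θ ε X)) :
    ∃ c₀ ε' : ℝ, 0 < c₀ ∧ 0 < ε' ∧ ∃ X' : ℤ, ∀ P ∈ Near θ ε' X',
      c₀ * (NN b a n₁ n₂ n₃ P.1 P.2 ^ 2 + P.1) ≤ F P := by
  obtain ⟨ν, W, hW, hatt⟩ := attained hθ hg n₁ n₂ n₃ hε
  have haR : (0 : ℝ) < a₀ := by exact_mod_cast ha
  rcases lt_trichotomy (0 : ℝ) (α + β * θ) with hκ | hκ | hκ
  · -- `κ > 0`
    set κ : ℝ := α + β * θ with hκd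
    obtain ⟨ε', hε', hε'1, hε'2⟩ : ∃ ε' : ℝ, 0 < ε' ∧ ε' ≤ 1 ∧ |(β : ℝ)| * ε' ≤ κ / 2 := by
      refine ⟨min 1 (κ / (2 * (|(β : ℝ)| + 1))), lt_min one_pos (by positivity), min_le_left _ _, ?_⟩
      have h1 : |(β : ℝ)| * min 1 (κ / (2 * (|(β : ℝ)| + 1))) ≤
          |(β : ℝ)| * (κ / (2 * (|(β : ℝ)| + 1))) :=
        mul_le_mul_of_nonneg_left (min_le_right _ _) (abs_nonneg _)
      refine h1.trans ?_
      rw [← mul_div_assoc, div_le_div_iff₀ (by positivity) (by norm_num)]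
      nlinarith [abs_nonneg (β : ℝ)]
    set C : ℝ := |(e₀ : ℝ)| + |(e₁ : ℝ)| + |(e₂ : ℝ)| * (|θ| + 1) with hC
    have hC0 : 0 ≤ C := by positivity
    obtain ⟨X', hX'⟩ : ∃ X' : ℤ, 1 ≤ X' ∧ (C + 1) / (κ / 2) ≤ (X' : ℝ) :=
      ⟨max 1 ⌈(C + 1) / (κ / 2)⌉, le_max_left _ _,
        (Int.le_ceil _).trans (by exact_mod_cast le_max_right _ _)⟩
    refine ⟨min a₀ 1, ε', lt_min haR one_pos, hε', X', ?_⟩
    rintro ⟨x, y⟩ ⟨h1, h2⟩
    simp only at h1 h2 ⊢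
    have hx1 : (1 : ℝ) ≤ x := by exact_mod_cast hX'.1.trans h1
    have hx2 : C + 1 ≤ (κ / 2) * x := by
      have h3 : (C + 1) / (κ / 2) ≤ (x : ℝ) := hX'.2.trans (by exact_mod_cast h1)
      rw [div_le_iff₀ (by positivity)] at h3
      linarith
    rw [hF x y]
    have h4 : κ / 2 * x ≤ α * x + β * y := by
      have h5 : (α : ℝ) * x + β * y = κ * x + β * (y - θ * x) := by rw [hκd]; ring
      have h6 : |(β : ℝ) * (y - θ * x)| ≤ κ / 2 * x := by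
        rw [abs_mul]
        calc |(β : ℝ)| * |(y : ℝ) - θ * x| ≤ |(β : ℝ)| * (ε' * x) :=
              mul_le_mul_of_nonneg_left h2 (abs_nonneg _)
          _ = (|(β : ℝ)| * ε') * x := by ring
          _ ≤ κ / 2 * x := mul_le_mul_of_nonneg_right hε'2 (by linarith)
      have h7 := (abs_le.mp h6).1
      rw [h5]; linarith
    have h5 : -(C * x) ≤ (e₀ : ℝ) + e₁ * x + e₂ * y := by
      have hy : |(y : ℝ)| ≤ (|θ| + 1) * x := by
        calc |(y : ℝ)| = |θ * x + (y - θ * x)| := by ring_nf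
          _ ≤ |θ * x| + |(y : ℝ) - θ * x| := abs_add_le _ _
          _ ≤ |θ| * x + ε' * x := by
            rw [abs_mul, abs_of_nonneg (by linarith : (0 : ℝ) ≤ x)]; linarith
          _ ≤ (|θ| + 1) * x := by nlinarith
      have h6 : |(e₀ : ℝ) + e₁ * x + e₂ * y| ≤ C * x := by
        calc |(e₀ : ℝ) + e₁ * x + e₂ * y| ≤ |(e₀ : ℝ) + e₁ * x| + |(e₂ : ℝ) * y| := abs_add_le _ _
          _ ≤ |(e₀ : ℝ)| + |(e₁ : ℝ) * x| + |(e₂ : ℝ) * y| := by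
            gcongr; exact abs_add_le _ _
          _ = |(e₀ : ℝ)| + |(e₁ : ℝ)| * x + |(e₂ : ℝ)| * |(y : ℝ)| := by
            rw [abs_mul, abs_mul, abs_of_nonneg (by linarith : (0 : ℝ) ≤ x)]
          _ ≤ |(e₀ : ℝ)| * x + |(e₁ : ℝ)| * x + |(e₂ : ℝ)| * ((|θ| + 1) * x) := by
            have := mul_le_mul_of_nonneg_left hx1 (abs_nonneg (e₀ : ℝ))
            have h9 := mul_le_mul_of_nonneg_left hy (abs_nonneg (e₂ : ℝ))
            linarith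
          _ = C * x := by rw [hC]; ring
      exact (abs_le.mp h6).1
    have h6 : (x : ℝ) ≤ α * (x : ℝ) ^ 2 + β * x * y + (e₀ + e₁ * x + e₂ * y) := by
      have h7 : (α : ℝ) * (x : ℝ) ^ 2 + β * x * y = x * (α * x + β * y) := by ring
      rw [h7]
      have h8 : (x : ℝ) * (κ / 2 * x) ≤ x * (α * x + β * y) :=
        mul_le_mul_of_nonneg_left h4 (by linarith)
      have h9 : (x : ℝ) * (C + 1) ≤ x * (κ / 2 * x) := mul_le_mul_of_nonneg_left hx2 (by linarith)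
      linarith
    have hm1 : min (a₀ : ℝ) 1 ≤ a₀ := min_le_left _ _
    have hm2 : min (a₀ : ℝ) 1 ≤ 1 := min_le_right _ _
    have h7 : min (a₀ : ℝ) 1 * NN b a n₁ n₂ n₃ x y ^ 2 ≤ a₀ * NN b a n₁ n₂ n₃ x y ^ 2 :=
      mul_le_mul_of_nonneg_right hm1 (sq_nonneg _)
    have h8 : min (a₀ : ℝ) 1 * x ≤ 1 * x := mul_le_mul_of_nonneg_right hm2 (by linarith)
    rw [mul_add]
    linarith
  · -- `κ = 0`
    obtain ⟨hα, hβ⟩ := irr_lin hθ hκ.symm
    subst hα hβ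
    rcases lt_trichotomy (0 : ℝ) (e₁ + e₂ * θ) with hlam | hlam | hlam
    · set lam : ℝ := e₁ + e₂ * θ with hld
      obtain ⟨ε', hε', hε'2⟩ : ∃ ε' : ℝ, 0 < ε' ∧ |(e₂ : ℝ)| * ε' ≤ lam / 2 := by
        refine ⟨lam / (2 * (|(e₂ : ℝ)| + 1)), by positivity, ?_⟩
        rw [← mul_div_assoc, div_le_div_iff₀ (by positivity) (by norm_num)]
        nlinarith [abs_nonneg (e₂ : ℝ)]
      obtain ⟨X', hX'⟩ : ∃ X' : ℤ, 1 ≤ X' ∧ |(e₀ : ℝ)| / (lam / 4) ≤ (X' : ℝ) :=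
        ⟨max 1 ⌈|(e₀ : ℝ)| / (lam / 4)⌉, le_max_left _ _,
          (Int.le_ceil _).trans (by exact_mod_cast le_max_right _ _)⟩
      refine ⟨min a₀ (lam / 4), ε', lt_min haR (by positivity), hε', X', ?_⟩
      rintro ⟨x, y⟩ ⟨h1, h2⟩
      simp only at h1 h2 ⊢
      have hx1 : (1 : ℝ) ≤ x := by exact_mod_cast hX'.1.trans h1
      have hx2 : |(e₀ : ℝ)| ≤ (lam / 4) * x := by
        have h3 : |(e₀ : ℝ)| / (lam / 4) ≤ (x : ℝ) := hX'.2.trans (by exact_mod_cast h1)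
        rw [div_le_iff₀ (by positivity)] at h3
        linarith
      rw [hF x y]
      have h4 : lam / 2 * x ≤ e₁ * x + e₂ * y := by
        have h5 : (e₁ : ℝ) * x + e₂ * y = lam * x + e₂ * (y - θ * x) := by rw [hld]; ring
        have h6 : |(e₂ : ℝ) * (y - θ * x)| ≤ lam / 2 * x := by
          rw [abs_mul]
          calc |(e₂ : ℝ)| * |(y : ℝ) - θ * x| ≤ |(e₂ : ℝ)| * (ε' * x) :=
                mul_le_mul_of_nonneg_left h2 (abs_nonneg _)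
            _ = (|(e₂ : ℝ)| * ε') * x := by ring
            _ ≤ lam / 2 * x := mul_le_mul_of_nonneg_right hε'2 (by linarith)
        have h7 := (abs_le.mp h6).1
        rw [h5]; linarith
      have h5 := neg_abs_le (e₀ : ℝ)
      have hm1 : min (a₀ : ℝ) (lam / 4) ≤ a₀ := min_le_left _ _
      have hm2 : min (a₀ : ℝ) (lam / 4) ≤ lam / 4 := min_le_right _ _
      have h7 : min (a₀ : ℝ) (lam / 4) * NN b a n₁ n₂ n₃ x y ^ 2 ≤ a₀ * NN b a n₁ n₂ n₃ x y ^ 2 :=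
        mul_le_mul_of_nonneg_right hm1 (sq_nonneg _)
      have h8 : min (a₀ : ℝ) (lam / 4) * x ≤ lam / 4 * x :=
        mul_le_mul_of_nonneg_right hm2 (by linarith)
      rw [mul_add]
      push_cast
      linarith
    · exfalso
      obtain ⟨h1, h2⟩ := irr_lin hθ hlam.symm
      subst h1 h2
      obtain ⟨P, hP, hP1, hPX, hPN, -⟩ := hatt X
      obtain ⟨Q, hQ, hQ1, hQX, hQN, -⟩ := hatt (max X (P.1 + 1))
      have hQ' : Q ∈ Near θ ε X := ⟨(le_max_left _ _).trans hQX, hQ.2⟩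
      have hPQ : F P = F Q := by
        rw [show P = (P.1, P.2) from rfl, show Q = (Q.1, Q.2) from rfl, hF, hF, hPN, hQN]
        push_cast
        ring
      have := hNI.2 hP hQ' hPQ
      have h3 : P.1 + 1 ≤ Q.1 := (le_max_right _ _).trans hQX
      rw [this] at h3
      omega
    · exfalso
      set lam : ℝ := e₁ + e₂ * θ with hld
      set C : ℝ := a₀ * ν ^ 2 + |(e₀ : ℝ)| + |(e₂ : ℝ)| * W with hC
      obtain ⟨P, hP, hP1, hPX, hPN, hPW⟩ := hatt (max X ⌈(C + 1) / (-lam)⌉)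
      have hP' : P ∈ Near θ ε X := ⟨(le_max_left _ _).trans hPX, hP.2⟩
      have h0 := hNI.nonneg hP'
      have hx : (C + 1) / (-lam) ≤ (P.1 : ℝ) :=
        (Int.le_ceil _).trans (by exact_mod_cast (le_max_right _ _).trans hPX)
      rw [div_le_iff₀ (by linarith)] at hx
      rw [show P = (P.1, P.2) from rfl, hF, hPN] at h0
      push_cast at h0
      have h5 : (e₁ : ℝ) * P.1 + e₂ * P.2 = lam * P.1 + e₂ * (P.2 - θ * P.1) := by rw [hld]; ring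
      have h6 : |(e₂ : ℝ) * (P.2 - θ * P.1)| ≤ |(e₂ : ℝ)| * W := by
        rw [abs_mul]; exact mul_le_mul_of_nonneg_left hPW (abs_nonneg _)
      have h7 := (abs_le.mp h6).2
      have h8 := le_abs_self (e₀ : ℝ)
      linarith
  · -- `κ < 0`
    exfalso
    set κ : ℝ := α + β * θ with hκd
    set C : ℝ := a₀ * ν ^ 2 + |(e₀ : ℝ)| + |(e₂ : ℝ)| * W with hC
    set C' : ℝ := |(β : ℝ)| * W + |(e₁ : ℝ) + e₂ * θ| with hC'
    have hC0 : 0 ≤ C := by positivity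
    have hC0' : 0 ≤ C' := by positivity
    obtain ⟨P, hP, hP1, hPX, hPN, hPW⟩ := hatt (max X ⌈(C + C' + 1) / (-κ)⌉)
    have hP' : P ∈ Near θ ε X := ⟨(le_max_left _ _).trans hPX, hP.2⟩
    have h0 := hNI.nonneg hP'
    have hx1 : (1 : ℝ) ≤ P.1 := by exact_mod_cast hP1
    have hx : (C + C' + 1) / (-κ) ≤ (P.1 : ℝ) :=
      (Int.le_ceil _).trans (by exact_mod_cast (le_max_right _ _).trans hPX)
    rw [div_le_iff₀ (by linarith)] at hx
    rw [show P = (P.1, P.2) from rfl, hF, hPN] at h0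
    have h5 : (a₀ : ℝ) * ν ^ 2 + α * (P.1 : ℝ) ^ 2 + β * P.1 * P.2 + (e₀ + e₁ * P.1 + e₂ * P.2) =
        a₀ * ν ^ 2 + κ * (P.1 : ℝ) ^ 2 + P.1 * (β * (P.2 - θ * P.1) + (e₁ + e₂ * θ)) + e₀ +
          e₂ * (P.2 - θ * P.1) := by rw [hκd]; ring
    rw [h5] at h0
    have h6 : |(e₂ : ℝ) * (P.2 - θ * P.1)| ≤ |(e₂ : ℝ)| * W := by
      rw [abs_mul]; exact mul_le_mul_of_nonneg_left hPW (abs_nonneg _)
    have h7 : |(β : ℝ) * (P.2 - θ * P.1)| ≤ |(β : ℝ)| * W := by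
      rw [abs_mul]; exact mul_le_mul_of_nonneg_left hPW (abs_nonneg _)
    have h8 := le_abs_self (e₀ : ℝ)
    have h9 := (abs_le.mp h6).2
    have h10 := (abs_le.mp h7).2
    have h11 := le_abs_self ((e₁ : ℝ) + e₂ * θ)
    have h12 : (P.1 : ℝ) * (β * (P.2 - θ * P.1) + (e₁ + e₂ * θ)) ≤ P.1 * C' :=
      mul_le_mul_of_nonneg_left (by linarith) (by linarith)
    have h13 : (P.1 : ℝ) * (C + C' + 1) ≤ P.1 * (P.1 * -κ) :=
      mul_le_mul_of_nonneg_left hx (by linarith)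
    have h14 : C * 1 ≤ C * (P.1 : ℝ) := mul_le_mul_of_nonneg_left hx1 hC0
    nlinarith

end Pool.Agent.Lib.MP_ff4e96_co
end

section

/-!
# MP_ff4e96_co: away from the zeros of the leading form

`f(t) = hom c d 1 t ≥ 0` on `[0, α]` (`hom_nonneg` for rational `t`, continuity), and `f > 0` outside `Z`. On the compact set `[0, α]`
minus the open neighbourhoods `|t' - t| < ε_t`, `t ∈ Z`, the continuous function `f` is positive, so `≥ 2 c₀ > 0`, and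
`F(x, y) = x^d f(y/x) + O(x^(d-1)) ≥ c₀ x^d ≥ c₀ x³` for `x ≥ X` and points of the cone not in `S`: `null_D`. The points of
the cone with `x < X` are finitely many (`null_finite`). `null_union`.
-/

namespace Pool.Agent.Lib.MP_ff4e96_co

open Filter Topology

private theorem rest_hom_eq {c : ℕ → ℕ → ℚ} {d : ℕ} (hd3 : 3 ≤ d) (hd : d ≤ 5) (x y : ℝ) :
    ∑ i ∈ Finset.range 6, ∑ j ∈ Finset.range (6 - i),
      (if i + j = d then (c i j : ℝ) * x ^ i * y ^ j else 0) = hom c d x y := by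
  interval_cases d <;> simp [hom, Finset.sum_range_succ] <;> ring

private theorem rest_split {c : ℕ → ℕ → ℚ} {d : ℕ} (hd3 : 3 ≤ d) (hd : d ≤ 5)
    (htop : ∀ i j, i + j ≤ 5 → d < i + j → c i j = 0) (x y : ℝ) :
    ev c x y = hom c d x y + ∑ i ∈ Finset.range 6, ∑ j ∈ Finset.range (6 - i),
      (if i + j < d then (c i j : ℝ) * x ^ i * y ^ j else 0) := by
  rw [← rest_hom_eq hd3 hd, ev, ← Finset.sum_add_distrib]
  refine Finset.sum_congr rfl fun i hi => ?_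
  rw [← Finset.sum_add_distrib]
  refine Finset.sum_congr rfl fun j hj => ?_
  rw [Finset.mem_range] at hi hj
  rcases lt_trichotomy (i + j) d with h | h | h
  · rw [if_neg (by omega), if_pos h, zero_add]
  · rw [if_pos h, if_neg (by omega), add_zero]
  · rw [if_neg (by omega), if_neg (by omega), htop i j (by omega) h]
    simp

private theorem rest_hom_scale {c : ℕ → ℕ → ℚ} {d : ℕ} {x : ℝ} (hx : x ≠ 0) (y : ℝ) :
    hom c d x y = x ^ d * hom c d 1 (y / x) := by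
  unfold hom
  rw [Finset.mul_sum]
  refine Finset.sum_congr rfl fun j hj => ?_
  rw [Finset.mem_range] at hj
  have h1 : x ^ d = x ^ (d - j) * x ^ j := by
    rw [← pow_add]
    congr 1
    omega
  rw [h1, div_pow, one_pow]
  field_simp

private theorem rest_cont (c : ℕ → ℕ → ℚ) (d : ℕ) : Continuous fun t : ℝ => hom c d 1 t := by
  unfold hom
  fun_prop

/-- lower order terms -/
private theorem rest_bound {c : ℕ → ℕ → ℚ} {d : ℕ} {A x y : ℝ}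
    (hA : 1 ≤ A) (hx : 1 ≤ x) (hy : 0 ≤ y) (hyx : y ≤ A * x) :
    |∑ i ∈ Finset.range 6, ∑ j ∈ Finset.range (6 - i),
      (if i + j < d then (c i j : ℝ) * x ^ i * y ^ j else 0)| ≤
      (∑ i ∈ Finset.range 6, ∑ j ∈ Finset.range (6 - i), |(c i j : ℝ)| * A ^ j) * x ^ (d - 1) := by
  rw [Finset.sum_mul]
  refine (Finset.abs_sum_le_sum_abs _ _).trans (Finset.sum_le_sum fun i _ => ?_)
  rw [Finset.sum_mul]
  refine (Finset.abs_sum_le_sum_abs _ _).trans (Finset.sum_le_sum fun j _ => ?_)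
  have hx0 : 0 ≤ x := by linarith
  have hA0 : 0 ≤ A := by linarith
  by_cases h : i + j < d
  · rw [if_pos h, abs_mul, abs_mul, abs_of_nonneg (pow_nonneg hx0 i), abs_of_nonneg (pow_nonneg hy j)]
    have h1 : y ^ j ≤ A ^ j * x ^ j := by
      rw [← mul_pow]
      exact pow_le_pow_left₀ hy hyx j
    have h2 : x ^ i * y ^ j ≤ A ^ j * x ^ (d - 1) := by
      calc x ^ i * y ^ j ≤ x ^ i * (A ^ j * x ^ j) :=
            mul_le_mul_of_nonneg_left h1 (pow_nonneg hx0 i)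
        _ = A ^ j * x ^ (i + j) := by rw [pow_add]; ring
        _ ≤ A ^ j * x ^ (d - 1) :=
            mul_le_mul_of_nonneg_left (pow_le_pow_right₀ hx (by omega)) (pow_nonneg hA0 j)
    calc |(c i j : ℝ)| * x ^ i * y ^ j = |(c i j : ℝ)| * (x ^ i * y ^ j) := by ring
      _ ≤ |(c i j : ℝ)| * (A ^ j * x ^ (d - 1)) := mul_le_mul_of_nonneg_left h2 (abs_nonneg _)
      _ = |(c i j : ℝ)| * A ^ j * x ^ (d - 1) := by ring
  · rw [if_neg h, abs_zero]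
    positivity

/-- the complement of the neighbourhoods of the zeros of the leading form -/
theorem rest_null {c : ℕ → ℕ → ℚ} {α : ℚ} (hα : 0 < α) {d : ℕ} (hd3 : 3 ≤ d) (hd : d ≤ 5)
    (htop : ∀ i j, i + j ≤ 5 → d < i + j → c i j = 0)
    (hNI : NI (evz c) (Cone α)) (Z : Finset ℝ)
    (hZ : ∀ t : ℝ, 0 ≤ t → t ≤ α → hom c d 1 t = 0 → t ∈ Z) (ε : ℝ → ℝ) (hε : ∀ t ∈ Z, 0 < ε t)
    (X : ℝ → ℤ) (S : Set (ℤ × ℤ)) (hS : ∀ t ∈ Z, Cone α ∩ Near t (ε t) (X t) ⊆ S) :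
    Null (vals (evz c) (Cone α \ S)) := by
  have hαr : (0 : ℝ) < α := by exact_mod_cast hα
  -- nonnegativity
  have hrat : ∀ q : ℚ, 0 ≤ q → q ≤ α → 0 ≤ hom c d 1 q := by
    intro q hq0 hqα
    have hden : (0 : ℝ) < q.den := by exact_mod_cast q.den_pos
    have hval : (q : ℝ) = (q.num : ℝ) / q.den := by
      rw [← Rat.cast_natCast, ← Rat.cast_intCast, ← Rat.cast_div, Rat.num_div_den]
    have h1 := hom_nonneg hd htop q.num (q.den : ℤ) (by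
      filter_upwards with k
      have hP : (((k : ℤ) * q.den, (k : ℤ) * q.num) : ℤ × ℤ) ∈ Cone α := by
        constructor
        · have : 0 ≤ q.num := Rat.num_nonneg.2 hq0
          positivity
        · push_cast
          have h2 : (q.num : ℚ) = q * q.den := (Rat.mul_den_eq_num q).symm
          rw [h2]
          have h3 : (k : ℚ) * (q * q.den) ≤ k * (α * q.den) :=
            mul_le_mul_of_nonneg_left (mul_le_mul_of_nonneg_right hqα (by positivity))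
              (by positivity)
          linarith
      have h4 := hNI.nonneg hP
      unfold evz at h4
      push_cast at h4 ⊢
      exact h4)
    have h5 := rest_hom_scale (c := c) (d := d) hden.ne' (q.num : ℝ)
    push_cast at h1
    rw [h5, ← hval] at h1
    exact (mul_nonneg_iff_of_pos_left (pow_pos hden d)).1 h1
  have hnonneg : ∀ t : ℝ, 0 ≤ t → t ≤ α → 0 ≤ hom c d 1 t := by
    intro t ht0 htα
    by_contra hneg
    push Not at hneg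
    have hopen : IsOpen {s : ℝ | hom c d 1 s < 0} := isOpen_lt (rest_cont c d) continuous_const
    have hmem : t ∈ closure (Set.Ioo (0 : ℝ) α) := by
      rw [closure_Ioo hαr.ne]
      exact ⟨ht0, htα⟩
    obtain ⟨s, hs1, hs2⟩ := mem_closure_iff.1 hmem _ hopen hneg
    have hopen2 : IsOpen ({s : ℝ | hom c d 1 s < 0} ∩ Set.Ioo (0 : ℝ) α) := hopen.inter isOpen_Ioo
    obtain ⟨q, hq⟩ := Rat.denseRange_cast.exists_mem_open hopen2 ⟨s, hs1, hs2⟩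
    have hq1 : hom c d 1 (q : ℝ) < 0 := hq.1
    have hq2 : (0 : ℝ) < q ∧ (q : ℝ) < α := hq.2
    have h1 := hrat q (by exact_mod_cast hq2.1.le) (by exact_mod_cast hq2.2.le)
    linarith
  -- the compact set
  set K : Set ℝ := Set.Icc (0 : ℝ) α ∩ ⋂ z ∈ Z, {t : ℝ | ε z ≤ |t - z|} with hK
  have hKc : IsCompact K := by
    refine isCompact_Icc.inter_right (isClosed_biInter fun z _ => ?_)
    exact isClosed_le continuous_const ((continuous_id.sub continuous_const).abs)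
  have hpos : ∀ t ∈ K, 0 < hom c d 1 t := by
    rintro t ⟨ht, hz⟩
    refine lt_of_le_of_ne (hnonneg t ht.1 ht.2) fun h0 => ?_
    have htZ := hZ t ht.1 ht.2 h0.symm
    have h1 : ε t ≤ |t - t| := by
      have h2 := Set.mem_iInter₂.1 hz t htZ
      exact h2
    rw [sub_self, abs_zero] at h1
    exact absurd (hε t htZ) (not_lt.2 h1)
  obtain ⟨c₀, hc₀, hmin⟩ := hKc.exists_forall_le' (rest_cont c d).continuousOn hpos
  -- constants
  set A : ℝ := max 1 α with hA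
  have hA1 : 1 ≤ A := le_max_left _ _
  set C : ℝ := ∑ i ∈ Finset.range 6, ∑ j ∈ Finset.range (6 - i), |(c i j : ℝ)| * A ^ j with hC
  have hC0 : 0 ≤ C := by
    refine Finset.sum_nonneg fun i _ => Finset.sum_nonneg fun j _ => ?_
    have : 0 ≤ A := by linarith
    positivity
  obtain ⟨M, hM⟩ := (Z.image X).exists_le
  set X₀ : ℤ := max M (max 1 ⌈2 * C / c₀⌉) with hX₀
  have hX1 : 1 ≤ X₀ := (le_max_left _ _).trans (le_max_right _ _)
  have hXC : 2 * C / c₀ ≤ (X₀ : ℝ) := by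
    have h1 : 2 * C / c₀ ≤ (⌈2 * C / c₀⌉ : ℝ) := Int.le_ceil _
    have h2 : ⌈2 * C / c₀⌉ ≤ X₀ := (le_max_right _ _).trans (le_max_right _ _)
    have h3 : (⌈2 * C / c₀⌉ : ℝ) ≤ X₀ := by exact_mod_cast h2
    linarith
  have hXZ : ∀ z ∈ Z, X z ≤ X₀ := fun z hz =>
    (hM _ (Finset.mem_image_of_mem X hz)).trans (le_max_left _ _)
  -- splitting
  have hsplit : vals (evz c) (Cone α \ S) ⊆
      vals (evz c) {P | P ∈ Cone α \ S ∧ X₀ ≤ P.1} ∪ vals (evz c) {P | P ∈ Cone α ∧ P.1 < X₀} := by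
    rw [← vals_union]
    refine vals_mono ?_
    rintro P hP
    rcases le_or_gt X₀ P.1 with h | h
    · exact Or.inl ⟨hP, h⟩
    · exact Or.inr ⟨hP.1, h⟩
  refine null_mono hsplit (null_union ?_ ?_)
  · refine null_D (α : ℝ) (c := c₀ / 2) (by positivity) ?_
    rintro ⟨x, y⟩ ⟨⟨hPc, hPS⟩, hxX⟩
    simp only at hxX
    obtain ⟨hy0, hyx⟩ := hPc
    simp only at hy0 hyx
    have hx1 : 1 ≤ x := hX1.trans hxX
    have hx1r : (1 : ℝ) ≤ x := by exact_mod_cast hx1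
    have hx0r : (0 : ℝ) < x := by linarith
    have hy0r : (0 : ℝ) ≤ y := by exact_mod_cast hy0
    have hyxr : (y : ℝ) ≤ α * x := by exact_mod_cast hyx
    refine ⟨hx1, hy0, hyxr, ?_⟩
    simp only
    have htK : (y : ℝ) / x ∈ K := by
      refine ⟨⟨by positivity, (div_le_iff₀ hx0r).2 hyxr⟩, Set.mem_iInter₂.2 fun z hz => ?_⟩
      by_contra hlt
      rw [Set.mem_ofPred_eq, not_le] at hlt
      apply hPS
      apply hS z hz
      refine ⟨⟨hy0, hyx⟩, (hXZ z hz).trans hxX, ?_⟩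
      simp only
      have h1 : (y : ℝ) - z * x = (y / x - z) * x := by field_simp
      rw [h1, abs_mul, abs_of_pos hx0r]
      exact mul_le_mul_of_nonneg_right hlt.le hx0r.le
    have h1 := hmin _ htK
    have h2 := rest_split (c := c) hd3 hd htop (x : ℝ) (y : ℝ)
    have hyA : (y : ℝ) ≤ A * x :=
      hyxr.trans (mul_le_mul_of_nonneg_right (le_max_right _ _) hx0r.le)
    have h3 := rest_bound (c := c) (d := d) hA1 hx1r hy0r hyA
    rw [← hC] at h3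
    rw [rest_hom_scale hx0r.ne'] at h2
    have h4 : (x : ℝ) ^ d = x ^ (d - 1) * x := by
      rw [← pow_succ]
      congr 1
      omega
    have hxp : (0 : ℝ) < (x : ℝ) ^ (d - 1) := pow_pos hx0r _
    have h5 : c₀ * (x : ℝ) ^ d ≤ x ^ d * hom c d 1 (y / x) := by
      rw [mul_comm]
      exact mul_le_mul_of_nonneg_left h1 (pow_nonneg hx0r.le d)
    have h6 : C * (x : ℝ) ^ (d - 1) ≤ c₀ / 2 * (x : ℝ) ^ d := by
      have h7 : 2 * C / c₀ ≤ (x : ℝ) := hXC.trans (by exact_mod_cast hxX)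
      rw [div_le_iff₀ hc₀] at h7
      rw [h4]
      have h8 : c₀ / 2 * ((x : ℝ) ^ (d - 1) * x) = (x * c₀ / 2) * x ^ (d - 1) := by ring
      rw [h8]
      exact mul_le_mul_of_nonneg_right (by linarith) hxp.le
    have h9 : (x : ℝ) ^ 3 ≤ x ^ d := pow_le_pow_right₀ hx1r hd3
    have h10 : c₀ / 2 * (x : ℝ) ^ 3 ≤ c₀ / 2 * x ^ d :=
      mul_le_mul_of_nonneg_left h9 (by positivity)
    rw [abs_le] at h3
    show c₀ / 2 * (x : ℝ) ^ 3 ≤ ev c x y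
    linarith [h3.1]
  · apply null_finite
    have hfin : {P : ℤ × ℤ | P ∈ Cone α ∧ P.1 < X₀}.Finite := by
      refine ((Set.finite_Icc (0 : ℤ) X₀).prod (Set.finite_Icc (0 : ℤ) ⌈α * X₀⌉)).subset ?_
      rintro ⟨x, y⟩ ⟨⟨hy0, hyx⟩, hx⟩
      simp only at hy0 hyx hx
      have hxα : (0 : ℚ) ≤ α * x := by
        have : (0 : ℚ) ≤ y := by exact_mod_cast hy0
        linarith
      have hx0 : (0 : ℚ) ≤ x := nonneg_of_mul_nonneg_right hxα hα
      have hx0' : 0 ≤ x := by exact_mod_cast hx0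
      refine ⟨⟨hx0', hx.le⟩, hy0, ?_⟩
      have h1 : (y : ℚ) ≤ α * X₀ := by
        have h2 : (x : ℚ) ≤ X₀ := by exact_mod_cast hx.le
        have h3 : α * x ≤ α * X₀ := mul_le_mul_of_nonneg_left h2 hα.le
        linarith
      have h2 : (y : ℚ) ≤ (⌈α * X₀⌉ : ℤ) := h1.trans (Int.le_ceil _)
      exact_mod_cast h2
    have hval : vals (evz c) {P : ℤ × ℤ | P ∈ Cone α ∧ P.1 < X₀} =
        (fun v : ℕ => (v : ℝ)) ⁻¹' (evz c '' {P : ℤ × ℤ | P ∈ Cone α ∧ P.1 < X₀}) := by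
      ext v
      constructor
      · rintro ⟨P, hP, hv⟩
        exact ⟨P, hP, hv⟩
      · rintro ⟨P, hP, hv⟩
        exact ⟨P, hP, hv⟩
    rw [hval]
    exact (hfin.image _).preimage (Nat.cast_injective.injOn)

end Pool.Agent.Lib.MP_ff4e96_co
end

section

/-!
# MP_ff4e96_co: a positive definite quadratic form does not represent a whole progression

Let `q` be a prime, `q = 4 D - 1` modulo `4 D`, `q > A` (Dirichlet:
`Nat.forall_exists_prime_gt_and_eq_mod`). The Jacobi symbol `J(-D | q)` depends only on `q` modulo `4 D`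
(`jacobiSym.mod_right`), so it is `J(-D | 4 D - 1) = J(-1 | 4 D - 1) J(D | 4 D - 1) = -1`, because `4 D - 1 = 3`
modulo 4 and `J(4 D | 4 D - 1) = J(1 | 4 D - 1) = 1`, `J(4 | 4 D - 1) = 1`. So `-D` is not a square modulo `q`. `A` is
invertible modulo `q²`, so there is a natural number `m` with `A m + B = q` modulo `q²`. If `A m + B = U² + D V²` then
`q` divides `U² + D V²`, so `q` divides `V` (otherwise `-D` is a square modulo `q`) and `U`, so `q²` divides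
`A m + B` and `q² ∣ q`: contradiction.
-/

namespace Pool.Agent.Lib.MP_ff4e96_co

theorem qf_int (A D : ℕ) (B : ℤ) (hA : 0 < A) (hD : 0 < D)
    (h : ∀ m : ℕ, ∃ U V : ℤ, (A : ℤ) * m + B = U ^ 2 + D * V ^ 2) : False := by
  have hne : NeZero (4 * D) := ⟨by omega⟩
  obtain ⟨q, hqA, hq, hqm⟩ := Nat.forall_exists_prime_gt_and_eq_mod (q := 4 * D) (a := -1)
    isUnit_one.neg (A + 2)
  have hq2 : 2 < q := by omega
  have hmod : q % (4 * D) = 4 * D - 1 := by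
    have h1 : ((q + 1 : ℕ) : ZMod (4 * D)) = 0 := by
      push_cast
      rw [hqm]
      ring
    rw [ZMod.natCast_eq_zero_iff] at h1
    obtain ⟨c, hc⟩ := h1
    have hc0 : 0 < c := by
      rcases Nat.eq_zero_or_pos c with h0 | h0
      · rw [h0] at hc
        omega
      · exact h0
    have h2 : q = (4 * D - 1) + 4 * D * (c - 1) := by
      obtain ⟨e, rfl⟩ : ∃ e, c = e + 1 := ⟨c - 1, by omega⟩
      have h3 : 4 * D * (e + 1) = 4 * D * e + 4 * D := by ring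
      rw [h3] at hc
      rw [Nat.add_sub_cancel]
      omega
    rw [h2, Nat.add_mul_mod_self_left, Nat.mod_eq_of_lt (by omega)]
  have hodd : Odd q := hq.odd_of_ne_two (by omega)
  have hq4 : q % 4 = 3 := by
    have h1 : q % (4 * D) % 4 = q % 4 := Nat.mod_mul_right_mod q 4 D
    rw [hmod] at h1
    omega
  have hodd2 : Odd (4 * D - 1) := by
    rw [Nat.odd_iff]
    omega
  have hJ1 : jacobiSym (D : ℤ) (4 * D - 1) = 1 := by
    have h1 : jacobiSym ((2 : ℤ) * 2 * D) (4 * D - 1) = 1 := by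
      have h2 : ((2 : ℤ) * 2 * D) % ((4 * D - 1 : ℕ) : ℤ) = (1 : ℤ) % ((4 * D - 1 : ℕ) : ℤ) := by
        have h3 : ((2 : ℤ) * 2 * D) = 1 + ((4 * D - 1 : ℕ) : ℤ) := by
          push_cast [Nat.cast_sub (show 1 ≤ 4 * D by omega)]
          ring
        rw [h3, Int.add_emod_right]
      rw [jacobiSym.mod_left' h2, jacobiSym.one_left]
    rw [jacobiSym.mul_left, jacobiSym.mul_left, ← sq, jacobiSym.sq_one, one_mul] at h1
    · exact h1
    · have h2 : Nat.Coprime 2 (4 * D - 1) := (Nat.coprime_two_left).2 hodd2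
      simpa [Int.gcd] using h2
  have hJ : jacobiSym (-(D : ℤ)) q = -1 := by
    rw [jacobiSym.neg _ hodd, ZMod.χ₄_nat_three_mod_four hq4, jacobiSym.mod_right _ hodd]
    rw [Int.natAbs_natCast, hmod, hJ1]
    norm_num
  have hns : ¬ IsSquare (((-(D : ℤ) : ℤ)) : ZMod q) := ZMod.nonsquare_of_jacobiSym_eq_neg_one hJ
  have : Fact q.Prime := ⟨hq⟩
  have hqp : Prime (q : ℤ) := Nat.prime_iff_prime_int.1 hq
  have hcop : IsCoprime (A : ℤ) ((q : ℤ) ^ 2) := by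
    have h1 : Nat.Coprime A q := ((Nat.Prime.coprime_iff_not_dvd hq).2 fun hd => absurd (Nat.le_of_dvd hA hd) (by omega)).symm
    exact (Nat.isCoprime_iff_coprime.2 h1).pow_right
  obtain ⟨u, v, huv⟩ := hcop
  set m0 : ℤ := u * (q - B) with hm0
  have hmnn : 0 ≤ m0 + |m0| * (q : ℤ) ^ 2 := by
    have h1 := neg_abs_le m0
    have h2 := abs_nonneg m0
    have h3 : (1 : ℤ) ≤ (q : ℤ) ^ 2 := by
      have : (1 : ℤ) ≤ q := by exact_mod_cast hq.one_lt.le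
      nlinarith
    nlinarith
  obtain ⟨m, hm⟩ := Int.eq_ofNat_of_zero_le hmnn
  obtain ⟨U, V, hUV⟩ := h m
  have hAm : (A : ℤ) * m + B = q + (q : ℤ) ^ 2 * (A * |m0| - v * (q - B)) := by
    rw [← hm, hm0]
    have : u * (A : ℤ) = 1 - v * (q : ℤ) ^ 2 := by linarith
    linear_combination ((q : ℤ) - B) * this
  have hq1 : (q : ℤ) ∣ U ^ 2 + D * V ^ 2 := by
    rw [← hUV, hAm]
    exact ⟨1 + q * (A * |m0| - v * (q - B)), by ring⟩
  have hqV : (q : ℤ) ∣ V := by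
    by_contra hV
    apply hns
    have hV' : (V : ZMod q) ≠ 0 := fun h0 => hV ((ZMod.intCast_zmod_eq_zero_iff_dvd V q).1 h0)
    have h1 : (U : ZMod q) ^ 2 + D * (V : ZMod q) ^ 2 = 0 := by
      have h2 := (ZMod.intCast_zmod_eq_zero_iff_dvd (U ^ 2 + D * V ^ 2) q).2 hq1
      push_cast at h2
      exact h2
    refine ⟨(U : ZMod q) / V, ?_⟩
    push_cast
    field_simp
    linear_combination -h1
  have hqU : (q : ℤ) ∣ U := by
    have h1 : (q : ℤ) ∣ U ^ 2 := by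
      have h2 : (q : ℤ) ∣ D * V ^ 2 := Dvd.dvd.mul_left (dvd_pow hqV (by norm_num)) _
      exact (dvd_add_left h2).1 hq1
    exact hqp.dvd_of_dvd_pow h1
  have hq22 : (q : ℤ) ^ 2 ∣ U ^ 2 + D * V ^ 2 :=
    dvd_add (pow_dvd_pow_of_dvd hqU 2) (Dvd.dvd.mul_left (pow_dvd_pow_of_dvd hqV 2) _)
  rw [← hUV, hAm] at hq22
  have h3 : (q : ℤ) ^ 2 ∣ q := (dvd_add_left (Dvd.intro _ rfl)).1 hq22
  have h4 := Int.le_of_dvd (by exact_mod_cast hq.pos) h3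
  have h5 : (2 : ℤ) < q := by exact_mod_cast hq2
  nlinarith

end Pool.Agent.Lib.MP_ff4e96_co
end
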